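import Mathlib

/-!
The arithmetic of the degree sequences of two simple graphs with seven vertices and `e` edges.
`x i`, `y i` are the numbers of vertices that are avoided by exactly `i` edges.
(proof by helper42)
-/

set_option autoImplicit false

namespace Pool.Agent.Lib.QDichromate

theorem ar6 (x0 x1 x2 x4 y0 y1 y2 y4 : ℕ) (K3 K5 K6 : ℤ)
    (d0 : (x0 : ℤ) - y0 = -K3 - K5 + K6)
    (d1 : (x1 : ℤ) - y1 = 3 * K3 + 5 * K5 - 6 * K6)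
    (d2 : (x2 : ℤ) - y2 = -3 * K3 - 10 * K5 + 15 * K6)
    (d4 : (x4 : ℤ) - y4 = - 5 * K5 + 15 * K6)
    (sx : x4 ≤ 7) (sy : y4 ≤ 7)
    (hx : x0 + x1 + x2 ≤ 1) (hy : y0 + y1 + y2 ≤ 1) : K3 = 0 ∧ K5 = 0 ∧ K6 = 0 := by
  have e6 : 3 * K6 = 2 * ((x2 : ℤ) - y2) + 7 * ((x1 : ℤ) - y1) + 15 * ((x0 : ℤ) - y0) := by
    linarith
  have e5 : K5 = 4 * ((x1 : ℤ) - y1) + 9 * ((x0 : ℤ) - y0) + ((x2 : ℤ) - y2) := by linarith
  have e3 : K3 = K6 - K5 - ((x0 : ℤ) - y0) := by linarith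
  clear d0 d1 d2
  have hx' : (x0 = 0 ∧ x1 = 0 ∧ x2 = 0) ∨ (x0 = 1 ∧ x1 = 0 ∧ x2 = 0) ∨
    (x0 = 0 ∧ x1 = 1 ∧ x2 = 0) ∨ (x0 = 0 ∧ x1 = 0 ∧ x2 = 1) := by
    clear e6 e5 e3 d4
    omega
  have hy' : (y0 = 0 ∧ y1 = 0 ∧ y2 = 0) ∨ (y0 = 1 ∧ y1 = 0 ∧ y2 = 0) ∨
    (y0 = 0 ∧ y1 = 1 ∧ y2 = 0) ∨ (y0 = 0 ∧ y1 = 0 ∧ y2 = 1) := by
    clear e6 e5 e3 d4
    omega
  clear hx hy
  rcases hx' with ⟨h1, h2, h3⟩ | ⟨h1, h2, h3⟩ | ⟨h1, h2, h3⟩ | ⟨h1, h2, h3⟩ <;>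
    rcases hy' with ⟨h1', h2', h3'⟩ | ⟨h1', h2', h3'⟩ | ⟨h1', h2', h3'⟩ | ⟨h1', h2', h3'⟩ <;>
    subst h1 h2 h3 h1' h2' h3' <;>
    simp only [Nat.cast_zero, Nat.cast_one, sub_zero, zero_sub, sub_self, mul_zero, add_zero,
      zero_add, mul_one, mul_neg] at e6 e5 e3 <;> omega

/-- The formulas for `x 0 = y 0`. -/
theorem ar_formulas (a1 a2 d3 d4 d5 K3 K4 K5 K6 : ℤ)
    (d0 : 0 = -K3 + K4 - K5 + K6)
    (d1 : a1 = 3 * K3 - 4 * K4 + 5 * K5 - 6 * K6)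
    (d2 : a2 = -3 * K3 + 6 * K4 - 10 * K5 + 15 * K6)
    (h3 : d3 = K3 - 4 * K4 + 10 * K5 - 20 * K6)
    (h4 : d4 = K4 - 5 * K5 + 15 * K6)
    (h5 : d5 = K5 - 6 * K6) :
    K4 = 3 * K6 - 7 * a1 - 2 * a2 ∧ K5 = 3 * K6 - 3 * a1 - a2 ∧ K3 = K6 - 4 * a1 - a2 ∧
    d3 = - K6 - 6 * a1 - 3 * a2 ∧ d4 = 3 * K6 + 8 * a1 + 3 * a2 ∧ d5 = - 3 * K6 - 3 * a1 - a2 := by
  refine ⟨by linarith, by linarith, by linarith, by linarith, by linarith, by linarith⟩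

theorem ar7core (x1 x2 x3 x4 x5 x6 x7 y1 y2 y3 y4 y5 y6 y7 : ℕ) (K4 K6 : ℤ)
    (f1 : K4 = 3 * K6 - 7 * ((x1 : ℤ) - y1) - 2 * ((x2 : ℤ) - y2))
    (f3 : (x3 : ℤ) - y3 = - K6 - 6 * ((x1 : ℤ) - y1) - 3 * ((x2 : ℤ) - y2))
    (f4 : (x4 : ℤ) - y4 = 3 * K6 + 8 * ((x1 : ℤ) - y1) + 3 * ((x2 : ℤ) - y2))
    (f5 : (x5 : ℤ) - y5 = - 3 * K6 - 3 * ((x1 : ℤ) - y1) - ((x2 : ℤ) - y2))
    (f6 : (x6 : ℤ) - y6 = K6)
    (sx : x1 + x2 + x3 + x4 + x5 + x6 + x7 = 7) (sy : y1 + y2 + y3 + y4 + y5 + y6 + y7 = 7)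
    (tx : x1 + 2 * x2 + 3 * x3 + 4 * x4 + 5 * x5 + 6 * x6 + 7 * x7 = 35)
    (ty : y1 + 2 * y2 + 3 * y3 + 4 * y4 + 5 * y5 + 6 * y6 + 7 * y7 = 35)
    (hx : x1 + x2 ≤ 1) (hy : y1 + y2 ≤ 1)
    (hx1 : x1 = 0 ∨ (x3 = 0 ∧ x4 = 0)) (hy1 : y1 = 0 ∨ (y3 = 0 ∧ y4 = 0))
    (hx2 : x2 = 0 ∨ x3 = 0) (hy2 : y2 = 0 ∨ y3 = 0)
    (h4 : K4 = 0 ∨ 8 ≤ K4 ∨ K4 ≤ -8) :
    K6 = 0 ∧ (x1 : ℤ) - y1 = 0 ∧ (x2 : ℤ) - y2 = 0 := by
  have c1 : (x1 = 1 ∧ x2 = 0) ∨ (x1 = 0 ∧ x2 = 1) ∨ (x1 = 0 ∧ x2 = 0) := by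
    clear f1 f3 f4 f5 f6 sx sy tx ty hx1 hy1 hx2 hy2 h4
    omega
  have c2 : (y1 = 1 ∧ y2 = 0) ∨ (y1 = 0 ∧ y2 = 1) ∨ (y1 = 0 ∧ y2 = 0) := by
    clear f1 f3 f4 f5 f6 sx sy tx ty hx1 hy1 hx2 hy2 h4
    omega
  clear hx hy
  have b5 : x5 ≤ 7 := by
    clear f1 f3 f4 f5 f6 sy tx ty hx1 hy1 hx2 hy2 h4
    omega
  have b5' : y5 ≤ 7 := by
    clear f1 f3 f4 f5 f6 sx tx ty hx1 hy1 hx2 hy2 h4
    omega
  rcases c1 with ⟨c1, c1'⟩ | ⟨c1, c1'⟩ | ⟨c1, c1'⟩ <;>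
    rcases c2 with ⟨c2, c2'⟩ | ⟨c2, c2'⟩ | ⟨c2, c2'⟩ <;>
    subst c1 c1' c2 c2' <;>
    simp only [Nat.cast_zero, Nat.cast_one, sub_zero, zero_sub, sub_self, mul_zero, add_zero,
      mul_one, mul_neg, one_ne_zero, false_or, true_or, true_and] at f1 f3 f4 f5 hx1 hx2 hy1 hy2 ⊢ <;>
    (have hk : -4 ≤ K6 ∧ K6 ≤ 4 := by
      clear sx sy tx ty h4 f1 f3 f4 f6 hx1 hx2 hy1 hy2
      omega) <;>
    obtain ⟨hk1, hk2⟩ := hk <;>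
    subst f1 <;>
    interval_cases K6 <;> (try simp at h4) <;> (first | omega | exact ⟨rfl, trivial⟩)

theorem ar7 (x1 x2 x3 x4 x5 x6 x7 y1 y2 y3 y4 y5 y6 y7 : ℕ) (K3 K4 K5 K6 : ℤ)
    (d0 : 0 = -K3 + K4 - K5 + K6)
    (d1 : (x1 : ℤ) - y1 = 3 * K3 - 4 * K4 + 5 * K5 - 6 * K6)
    (d2 : (x2 : ℤ) - y2 = -3 * K3 + 6 * K4 - 10 * K5 + 15 * K6)
    (d3 : (x3 : ℤ) - y3 = K3 - 4 * K4 + 10 * K5 - 20 * K6)
    (d4 : (x4 : ℤ) - y4 = K4 - 5 * K5 + 15 * K6)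
    (d5 : (x5 : ℤ) - y5 = K5 - 6 * K6)
    (d6 : (x6 : ℤ) - y6 = K6)
    (sx : x1 + x2 + x3 + x4 + x5 + x6 + x7 = 7) (sy : y1 + y2 + y3 + y4 + y5 + y6 + y7 = 7)
    (tx : x1 + 2 * x2 + 3 * x3 + 4 * x4 + 5 * x5 + 6 * x6 + 7 * x7 = 35)
    (ty : y1 + 2 * y2 + 3 * y3 + 4 * y4 + 5 * y5 + 6 * y6 + 7 * y7 = 35)
    (hx : x1 + x2 ≤ 1) (hy : y1 + y2 ≤ 1)
    (hx1 : x1 = 0 ∨ (x3 = 0 ∧ x4 = 0)) (hy1 : y1 = 0 ∨ (y3 = 0 ∧ y4 = 0))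
    (hx2 : x2 = 0 ∨ x3 = 0) (hy2 : y2 = 0 ∨ y3 = 0)
    (h4 : K4 = 0 ∨ 8 ≤ K4 ∨ K4 ≤ -8) :
    K3 = 0 ∧ K4 = 0 ∧ K5 = 0 ∧ K6 = 0 := by
  obtain ⟨f1, f2, f3, f4, f5, f6⟩ := ar_formulas _ _ _ _ _ K3 K4 K5 K6 d0 d1 d2 d3 d4 d5
  obtain ⟨g1, g2, g3⟩ := ar7core x1 x2 x3 x4 x5 x6 x7 y1 y2 y3 y4 y5 y6 y7 K4 K6 f1 f4 f5 f6 d6
    sx sy tx ty hx hy hx1 hy1 hx2 hy2 h4
  rw [g1, g2, g3] at f1 f2 f3
  exact ⟨by linarith, by linarith, by linarith, g1⟩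

theorem ar8 (x2 x3 x4 x5 x6 x7 x8 y2 y3 y4 y5 y6 y7 y8 : ℕ) (K3 K4 K5 K6 : ℤ)
    (d0 : 0 = -K3 + K4 - K5 + K6)
    (d1 : 0 = 3 * K3 - 4 * K4 + 5 * K5 - 6 * K6)
    (d2 : (x2 : ℤ) - y2 = -3 * K3 + 6 * K4 - 10 * K5 + 15 * K6)
    (d3 : (x3 : ℤ) - y3 = K3 - 4 * K4 + 10 * K5 - 20 * K6)
    (d4 : (x4 : ℤ) - y4 = K4 - 5 * K5 + 15 * K6)
    (d5 : (x5 : ℤ) - y5 = K5 - 6 * K6)
    (d6 : (x6 : ℤ) - y6 = K6)
    (sx : x2 + x3 + x4 + x5 + x6 + x7 + x8 = 7) (sy : y2 + y3 + y4 + y5 + y6 + y7 + y8 = 7)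
    (tx : 2 * x2 + 3 * x3 + 4 * x4 + 5 * x5 + 6 * x6 + 7 * x7 + 8 * x8 = 40)
    (ty : 2 * y2 + 3 * y3 + 4 * y4 + 5 * y5 + 6 * y6 + 7 * y7 + 8 * y8 = 40)
    (hx : x2 + x3 ≤ 1) (hy : y2 + y3 ≤ 1)
    (hx1 : x2 = 0 ∨ x4 = 0) (hy1 : y2 = 0 ∨ y4 = 0)
    (h4 : K4 = 0 ∨ 8 ≤ K4 ∨ K4 ≤ -8) :
    K3 = 0 ∧ K4 = 0 ∧ K5 = 0 ∧ K6 = 0 := by
  obtain ⟨f1, f2, f3, f4, f5, f6⟩ := ar_formulas _ _ _ _ _ K3 K4 K5 K6 d0 d1 d2 d3 d4 d5
  clear d0 d1 d2 d3 d4 d5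
  have g : K6 = 0 ∧ (x2 : ℤ) - y2 = 0 := by
    clear f2 f3
    have c1 : x2 = 0 ∨ x2 = 1 := by
      clear f1 f4 f5 f6 sx sy tx ty hx1 hy1 h4
      omega
    have c2 : y2 = 0 ∨ y2 = 1 := by
      clear f1 f4 f5 f6 sx sy tx ty hx1 hy1 h4
      omega
    have b5 : x5 ≤ 7 := by
      clear f1 f4 f5 f6 sy tx ty hx1 hy1 h4
      omega
    have b5' : y5 ≤ 7 := by
      clear f1 f4 f5 f6 sx tx ty hx1 hy1 h4
      omega
    rcases c1 with c1 | c1 <;>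
      rcases c2 with c2 | c2 <;>
      subst c1 c2 <;>
      simp only [Nat.cast_zero, Nat.cast_one, sub_zero, zero_sub, sub_self, mul_zero, add_zero,
        mul_one, mul_neg, one_ne_zero, false_or, true_or] at f1 f4 f5 f6 hx1 hy1 ⊢ <;>
      (have hk : -4 ≤ K6 ∧ K6 ≤ 4 := by
        clear sx sy tx ty h4 f1 f4 f5 d6 hx1 hy1
        omega) <;>
      obtain ⟨hk1, hk2⟩ := hk <;>
      subst f1 <;>
      interval_cases K6 <;> (try simp at h4) <;> (first | omega | exact ⟨rfl, trivial⟩)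
  obtain ⟨g1, g2⟩ := g
  rw [g1, g2] at f1 f2 f3
  exact ⟨by linarith, by linarith, by linarith, g1⟩

theorem ar_o2 {a b : ℕ} (ha : a ≤ 1) (hb : b ≤ 1) (h : a = 0 ∨ b = 0) : a + b ≤ 1 := by omega

theorem ar_o3 {a b c : ℕ} (ha : a ≤ 1) (hb : b ≤ 1) (hc : c ≤ 1) (h : a = 0 ∨ b = 0)
    (h' : a = 0 ∨ c = 0) (h'' : b = 0 ∨ c = 0) : a + b + c ≤ 1 := by omega

theorem ar_or {a b c : ℕ} (h : a = 0 ∨ b = 0) (h' : a = 0 ∨ c = 0) : a = 0 ∨ (b = 0 ∧ c = 0) := by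
  omega

theorem arith7 (e : ℕ) (x y : ℕ → ℕ) (K3 K4 K5 K6 : ℤ) (he3 : 3 ≤ e)
    (d0 : (x 0 : ℤ) - y 0 = -K3 + K4 - K5 + K6)
    (d1 : (x 1 : ℤ) - y 1 = 3 * K3 - 4 * K4 + 5 * K5 - 6 * K6)
    (d2 : (x 2 : ℤ) - y 2 = -3 * K3 + 6 * K4 - 10 * K5 + 15 * K6)
    (d3 : (x 3 : ℤ) - y 3 = K3 - 4 * K4 + 10 * K5 - 20 * K6)
    (d4 : (x 4 : ℤ) - y 4 = K4 - 5 * K5 + 15 * K6)
    (d5 : (x 5 : ℤ) - y 5 = K5 - 6 * K6)
    (d6 : (x 6 : ℤ) - y 6 = K6)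
    (sx : ∑ i ∈ Finset.range (e + 1), x i = 7) (sy : ∑ i ∈ Finset.range (e + 1), y i = 7)
    (tx : ∑ i ∈ Finset.range (e + 1), i * x i = 5 * e)
    (ty : ∑ i ∈ Finset.range (e + 1), i * y i = 5 * e)
    (ox : ∀ i, i + 6 < e → x i = 0) (oy : ∀ i, i + 6 < e → y i = 0)
    (zx : ∀ i, e < i → x i = 0) (zy : ∀ i, e < i → y i = 0)
    (px : ∀ i, 2 ≤ x i → e ≤ 2 * i + 1) (py : ∀ i, 2 ≤ y i → e ≤ 2 * i + 1)
    (qx : ∀ i j, i < j → 1 ≤ x i → 1 ≤ x j → e ≤ i + j + 1)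
    (qy : ∀ i j, i < j → 1 ≤ y i → 1 ≤ y j → e ≤ i + j + 1)
    (h4 : K4 = 0 ∨ 8 ≤ |K4|) (h46 : e ≤ 6 → K4 = 0) (h3 : e ≤ 3 → K3 = 0) :
    K3 = 0 ∧ K4 = 0 ∧ K5 = 0 ∧ K6 = 0 := by
  have h4' : K4 = 0 ∨ 8 ≤ K4 ∨ K4 ≤ -8 := by
    rcases h4 with h | h
    · exact Or.inl h
    · rcases abs_cases K4 with h' | h' <;> omega
  clear h4
  -- at most one vertex, no two vertices
  have one : ∀ (z : ℕ → ℕ), (∀ i, 2 ≤ z i → e ≤ 2 * i + 1) → ∀ i, 2 * i + 1 < e → z i ≤ 1 := by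
    intro z h i hi
    by_contra hc
    have := h i (by omega)
    omega
  have two : ∀ (z : ℕ → ℕ), (∀ i j, i < j → 1 ≤ z i → 1 ≤ z j → e ≤ i + j + 1) →
      ∀ i j, i < j → i + j + 1 < e → z i = 0 ∨ z j = 0 := by
    intro z h i j hij hi
    by_contra hc
    have := h i j hij (by omega) (by omega)
    omega
  have px' := one x px
  have py' := one y py
  have qx' := two x qx
  have qy' := two y qy
  clear one two px py qx qy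
  rcases Nat.lt_or_ge 9 e with he | he
  · have a0 := ox 0 (by omega)
    have a1 := ox 1 (by omega)
    have a2 := ox 2 (by omega)
    have a3 := ox 3 (by omega)
    have b0 := oy 0 (by omega)
    have b1 := oy 1 (by omega)
    have b2 := oy 2 (by omega)
    have b3 := oy 3 (by omega)
    rw [a0, b0] at d0
    rw [a1, b1] at d1
    rw [a2, b2] at d2
    rw [a3, b3] at d3
    clear d4 d5 d6 h4' px' py' qx' qy' ox oy zx zy sx sy tx ty h46 h3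
    omega
  interval_cases e
  · -- e = 3
    have e3 := h3 le_rfl
    have e4 := h46 (by norm_num)
    have a5 := zx 5 (by norm_num)
    have b5 := zy 5 (by norm_num)
    have a6 := zx 6 (by norm_num)
    have b6 := zy 6 (by norm_num)
    rw [a5, b5] at d5
    rw [a6, b6] at d6
    clear d0 d1 d2 d3 d4 px' py' qx' qy' ox oy zx zy sx sy tx ty h46 h3 h4'
    omega
  · -- e = 4
    have e4 := h46 (by norm_num)
    have a5 := zx 5 (by norm_num)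
    have b5 := zy 5 (by norm_num)
    have a6 := zx 6 (by norm_num)
    have b6 := zy 6 (by norm_num)
    have c1 := px' 1 (by norm_num)
    have c2 := py' 1 (by norm_num)
    rw [a5, b5] at d5
    rw [a6, b6] at d6
    clear d0 d2 d3 d4 px' py' qx' qy' ox oy zx zy sx sy tx ty h46 h3 h4'
    omega
  · -- e = 5
    have e4 := h46 (by norm_num)
    have a6 := zx 6 (by norm_num)
    have b6 := zy 6 (by norm_num)
    have c0 := px' 0 (by norm_num)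
    have c0' := py' 0 (by norm_num)
    have c1 := px' 1 (by norm_num)
    have c1' := py' 1 (by norm_num)
    rw [a6, b6] at d6
    simp only [Finset.sum_range_succ, Finset.sum_range_zero] at sx sy
    have s3 : x 3 ≤ 7 := by omega
    have s3' : y 3 ≤ 7 := by omega
    clear d2 d4 d5 px' py' qx' qy' ox oy zx zy sx sy tx ty h46 h3 h4'
    have e6 : K6 = 0 := by omega
    subst e6
    subst e4
    have f1 : (x 1 : ℤ) - y 1 + 3 * ((x 0 : ℤ) - y 0) = 2 * K5 := by linarith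
    have f2 : K3 = -K5 - ((x 0 : ℤ) - y 0) := by linarith
    clear d0 d1
    have g0 : x 0 = 0 ∨ x 0 = 1 := by omega
    have g0' : y 0 = 0 ∨ y 0 = 1 := by omega
    have g1 : x 1 = 0 ∨ x 1 = 1 := by omega
    have g1' : y 1 = 0 ∨ y 1 = 1 := by omega
    clear c0 c0' c1 c1'
    rcases g0 with g0 | g0 <;> rcases g0' with g0' | g0' <;> rcases g1 with g1 | g1 <;>
      rcases g1' with g1' | g1' <;> rw [g0, g0', g1, g1'] at f1 <;> rw [g0, g0'] at f2 <;> omega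
  · -- e = 6
    have e4 := h46 (by norm_num)
    subst e4
    simp only [Finset.sum_range_succ, Finset.sum_range_zero] at sx sy
    have c0 := px' 0 (by norm_num)
    have c0' := py' 0 (by norm_num)
    have c1 := px' 1 (by norm_num)
    have c1' := py' 1 (by norm_num)
    have c2 := px' 2 (by norm_num)
    have c2' := py' 2 (by norm_num)
    have q01 := qx' 0 1 (by norm_num) (by norm_num)
    have q02 := qx' 0 2 (by norm_num) (by norm_num)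
    have q12 := qx' 1 2 (by norm_num) (by norm_num)
    have r01 := qy' 0 1 (by norm_num) (by norm_num)
    have r02 := qy' 0 2 (by norm_num) (by norm_num)
    have r12 := qy' 1 2 (by norm_num) (by norm_num)
    obtain ⟨k3, k5, k6⟩ := ar6 (x 0) (x 1) (x 2) (x 4) (y 0) (y 1) (y 2) (y 4) K3 K5 K6
      (by linarith) (by linarith) (by linarith) (by linarith) (by linarith) (by linarith)
      (ar_o3 c0 c1 c2 q01 q02 q12) (ar_o3 c0' c1' c2' r01 r02 r12)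
    exact ⟨k3, rfl, k5, k6⟩
  · -- e = 7
    simp only [Finset.sum_range_succ, Finset.sum_range_zero] at sx sy tx ty
    have a0 := ox 0 (by norm_num)
    have b0 := oy 0 (by norm_num)
    have c1 := px' 1 (by norm_num)
    have c1' := py' 1 (by norm_num)
    have c2 := px' 2 (by norm_num)
    have c2' := py' 2 (by norm_num)
    have q12 := qx' 1 2 (by norm_num) (by norm_num)
    have q13 := qx' 1 3 (by norm_num) (by norm_num)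
    have q14 := qx' 1 4 (by norm_num) (by norm_num)
    have q23 := qx' 2 3 (by norm_num) (by norm_num)
    have r12 := qy' 1 2 (by norm_num) (by norm_num)
    have r13 := qy' 1 3 (by norm_num) (by norm_num)
    have r14 := qy' 1 4 (by norm_num) (by norm_num)
    have r23 := qy' 2 3 (by norm_num) (by norm_num)
    rw [a0, b0] at d0
    rw [a0] at sx tx
    rw [b0] at sy ty
    clear px' py' qx' qy' ox oy zx zy h46 h3
    exact ar7 (x 1) (x 2) (x 3) (x 4) (x 5) (x 6) (x 7) (y 1) (y 2) (y 3) (y 4) (y 5) (y 6) (y 7)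
      K3 K4 K5 K6 (by simpa using d0) d1 d2 d3 d4 d5 d6 (by linarith) (by linarith) (by linarith)
      (by linarith) (ar_o2 c1 c2 q12) (ar_o2 c1' c2' r12) (ar_or q13 q14) (ar_or r13 r14) q23 r23
      h4'
  · -- e = 8
    simp only [Finset.sum_range_succ, Finset.sum_range_zero] at sx sy tx ty
    have a0 := ox 0 (by norm_num)
    have b0 := oy 0 (by norm_num)
    have a1 := ox 1 (by norm_num)
    have b1 := oy 1 (by norm_num)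
    have c2 := px' 2 (by norm_num)
    have c2' := py' 2 (by norm_num)
    have c3 := px' 3 (by norm_num)
    have c3' := py' 3 (by norm_num)
    have q23 := qx' 2 3 (by norm_num) (by norm_num)
    have q24 := qx' 2 4 (by norm_num) (by norm_num)
    have r23 := qy' 2 3 (by norm_num) (by norm_num)
    have r24 := qy' 2 4 (by norm_num) (by norm_num)
    rw [a0, b0] at d0
    rw [a1, b1] at d1
    rw [a0, a1] at sx tx
    rw [b0, b1] at sy ty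
    clear px' py' qx' qy' ox oy zx zy h46 h3
    exact ar8 (x 2) (x 3) (x 4) (x 5) (x 6) (x 7) (x 8) (y 2) (y 3) (y 4) (y 5) (y 6) (y 7) (y 8)
      K3 K4 K5 K6 (by simpa using d0) (by simpa using d1) d2 d3 d4 d5 d6 (by linarith)
      (by linarith) (by linarith) (by linarith) (ar_o2 c2 c3 q23) (ar_o2 c2' c3' r23) q24 r24 h4'
  · -- e = 9
    have a0 := ox 0 (by norm_num)
    have b0 := oy 0 (by norm_num)
    have a1 := ox 1 (by norm_num)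
    have b1 := oy 1 (by norm_num)
    have a2 := ox 2 (by norm_num)
    have b2 := oy 2 (by norm_num)
    have c3 := px' 3 (by norm_num)
    have c3' := py' 3 (by norm_num)
    rw [a0, b0] at d0
    rw [a1, b1] at d1
    rw [a2, b2] at d2
    obtain ⟨f1, f2, f3, f4, f5, f6⟩ := ar_formulas 0 0 _ _ _ K3 K4 K5 K6 (by simpa using d0)
      (by simpa using d1) (by simpa using d2) d3 d4 d5
    clear px' py' qx' qy' ox oy zx zy h46 h3 sx sy tx ty d0 d1 d2 d3 d4 d5 d6 f5 f6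
    omega

end Pool.Agent.Lib.QDichromate
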