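import Mathlib

/-!
Definitions for the q-dichromate and the U-polynomial of a finite multigraph. A multigraph with
vertex type `V` and edge type `E` is a map `ends : E → Sym2 V`; an edge whose two ends coincide is
a loop, and several edges may have the same ends.
-/

open scoped Classical

namespace Pool.Agent.Lib.QDichromate

/-- The spanning subgraph with edge set `A`, as a simple graph (loops and multiplicities do not
change its connected components). -/
def spanning {V E : Type} (ends : E → Sym2 V) (A : Finset E) : SimpleGraph V :=
  SimpleGraph.fromEdgeSet {s | ∃ e ∈ A, ends e = s}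

/-- The partition of the vertex set into the vertex sets of the components of `(V, A)`. -/
noncomputable def blocks {V E : Type} [Fintype V] (ends : E → Sym2 V) (A : Finset E) :
    Finset (Finset V) :=
  Finset.univ.image fun v => Finset.univ.filter fun w => (spanning ends A).Reachable v w

/-- The multiset of block sizes of this partition. -/
noncomputable def tau {V E : Type} [Fintype V] (ends : E → Sym2 V) (A : Finset E) :
    Multiset ℕ :=
  (blocks ends A).val.map Finset.card

/-- The quantum number `(y)_q = (q^y - 1)/(q - 1)`. -/
noncomputable def qnum (q y : ℝ) : ℝ := (q ^ y - 1) / (q - 1)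

/-- The q-dichromate of the problem. -/
noncomputable def B {V E : Type} [Fintype V] [Fintype E] (q : ℝ) (ends : E → Sym2 V)
    (x y : ℝ) : ℝ :=
  ∑ A : Finset E, y ^ A.card * ((tau ends A).map fun k => qnum (q ^ k) x).prod

/-- The U-polynomial of the problem, in the variables `x_k`, with coefficients in `ℤ[y]`. -/
noncomputable def U {V E : Type} [Fintype V] [Fintype E] (ends : E → Sym2 V) :
    MvPolynomial ℕ (Polynomial ℤ) :=
  ∑ A : Finset E,
    MvPolynomial.C ((Polynomial.X - 1) ^
      (A.card - (Fintype.card V - Multiset.card (tau ends A)))) *
      ((tau ends A).map MvPolynomial.X).prod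

/-- The monochromatic edges of a colouring of the vertices. -/
noncomputable def mono {V E : Type} [Fintype E] (ends : E → Sym2 V) {C : Type} (c : V → C) :
    Finset E :=
  Finset.univ.filter fun e => ∀ u ∈ ends e, ∀ v ∈ ends e, c u = c v

end Pool.Agent.Lib.QDichromate
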