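import Mathlib
import Pool.Agent.Lib.QDichromate.Defs

/-!
Proofs about the q-dichromate: linear algebra of the products of quantum numbers, the colouring
expansion, small orders, and the invariants determined for all but finitely many q.
-/

set_option linter.unusedSectionVars false
set_option linter.unusedSimpArgs false

open scoped Classical

namespace Pool.Agent.Lib.QDichromate

section Basic

variable {V E : Type} [Fintype V] (ends : E → Sym2 V) (A : Finset E)

/-- the class of a vertex -/
noncomputable def cls (v : V) : Finset V :=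
  Finset.univ.filter fun w => (spanning ends A).Reachable v w

theorem mem_cls (v w : V) : w ∈ cls ends A v ↔ (spanning ends A).Reachable v w := by
  simp [cls]

theorem mem_blocks (b : Finset V) : b ∈ blocks ends A ↔ ∃ v, cls ends A v = b := by
  simp [blocks, cls]

theorem cls_eq_iff (v w : V) : cls ends A v = cls ends A w ↔ (spanning ends A).Reachable v w := by
  constructor
  · intro h
    have : w ∈ cls ends A v := by
      rw [h, mem_cls]
    exact (mem_cls _ _ _ _).1 this
  · intro h
    ext u
    rw [mem_cls, mem_cls]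
    exact ⟨fun hu => h.symm.trans hu, fun hu => h.trans hu⟩

theorem fiber_card (b : Finset V) (hb : b ∈ blocks ends A) :
    (Finset.univ.filter fun v => cls ends A v = b).card = b.card := by
  obtain ⟨v, rfl⟩ := (mem_blocks _ _ _).1 hb
  congr 1
  ext w
  simp only [Finset.mem_filter, Finset.mem_univ, true_and]
  rw [cls_eq_iff, mem_cls]
  exact ⟨fun h => h.symm, fun h => h.symm⟩

theorem tau_sum : (tau ends A).sum = Fintype.card V := by
  have h1 : (tau ends A).sum = ∑ b ∈ blocks ends A, b.card := rfl
  rw [h1, ← Finset.card_univ,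
    Finset.card_eq_sum_card_fiberwise (f := cls ends A) (t := blocks ends A)]
  · exact Finset.sum_congr rfl fun b hb => (fiber_card ends A b hb).symm
  · intro v _
    exact (mem_blocks _ _ _).2 ⟨v, rfl⟩

theorem tau_pos (k : ℕ) (hk : k ∈ tau ends A) : 0 < k := by
  rw [tau, Multiset.mem_map] at hk
  obtain ⟨b, hb, rfl⟩ := hk
  obtain ⟨v, rfl⟩ := (mem_blocks _ _ _).1 hb
  exact Finset.card_pos.2 ⟨v, (mem_cls _ _ _ _).2 (SimpleGraph.Reachable.refl _)⟩

end Basic


section Counts

variable {V E V' E' : Type} [Fintype V] [Fintype E] [Fintype V'] [Fintype E']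

/-- the number of edge sets of size `m` and type `t` -/
noncomputable def cnt (ends : E → Sym2 V) (m : ℕ) (t : Multiset ℕ) : ℕ :=
  (Finset.univ.filter fun A : Finset E => A.card = m ∧ tau ends A = t).card

theorem U_eq (G : E → Sym2 V) (H : E' → Sym2 V') (hc : Fintype.card V = Fintype.card V')
    (h : ∀ m t, cnt G m t = cnt H m t) : U G = U H := by
  have key : ∀ (R : Type) [AddCommMonoid R] (Φ : ℕ × Multiset ℕ → R),
      ∑ A : Finset E, Φ (A.card, tau G A) = ∑ A : Finset E', Φ (A.card, tau H A) := by
    intro R _ Φ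
    have h1 : (Finset.univ : Finset (Finset E)).val.map (fun A => (A.card, tau G A)) =
        (Finset.univ : Finset (Finset E')).val.map (fun A => (A.card, tau H A)) := by
      ext ⟨m, t⟩
      rw [Multiset.count_map, Multiset.count_map]
      have := h m t
      simp only [cnt] at this
      have e1 : Multiset.card (Multiset.filter (fun a : Finset E => (m, t) = (a.card, tau G a))
          Finset.univ.val) = (Finset.univ.filter fun A : Finset E => A.card = m ∧ tau G A = t).card := by
        rw [Finset.card_def, Finset.filter_val]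
        congr 1
        apply Multiset.filter_congr
        intro a _
        simp only [Prod.mk.injEq, eq_comm]
      have e2 : Multiset.card (Multiset.filter (fun a : Finset E' => (m, t) = (a.card, tau H a))
          Finset.univ.val) = (Finset.univ.filter fun A : Finset E' => A.card = m ∧ tau H A = t).card := by
        rw [Finset.card_def, Finset.filter_val]
        congr 1
        apply Multiset.filter_congr
        intro a _
        simp only [Prod.mk.injEq, eq_comm]
      rw [e1, e2, this]
    have h2 := congrArg (fun M => (Multiset.map Φ M).sum) h1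
    simp only [Multiset.map_map, Function.comp_def] at h2
    exact h2
  have := key _ (fun p => MvPolynomial.C ((Polynomial.X - 1 : Polynomial ℤ) ^
      (p.1 - (Fintype.card V - Multiset.card p.2))) *
      (p.2.map (MvPolynomial.X (R := Polynomial ℤ))).prod)
  rw [U, U, ← hc]
  exact this

/-- products in the variable `X = q^x` -/
noncomputable def PX (q X : ℝ) (t : Multiset ℕ) : ℝ :=
  (t.map fun k => (X ^ k - 1) / (q ^ k - 1)).prod

theorem coeff_eq (G : E → Sym2 V) (H : E' → Sym2 V')
    (F : Multiset ℕ → ℝ)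
    (h : ∀ y : ℝ, ∑ A : Finset E, y ^ A.card * F (tau G A) =
      ∑ A : Finset E', y ^ A.card * F (tau H A)) (m : ℕ) :
    ∑ A ∈ Finset.univ.filter (fun A : Finset E => A.card = m), F (tau G A) =
      ∑ A ∈ Finset.univ.filter (fun A : Finset E' => A.card = m), F (tau H A) := by
  have hp : (∑ A : Finset E, Polynomial.C (F (tau G A)) * Polynomial.X ^ A.card) =
      ∑ A : Finset E', Polynomial.C (F (tau H A)) * Polynomial.X ^ A.card := by
    apply Polynomial.funext
    intro y
    simp only [Polynomial.eval_finsetSum, Polynomial.eval_mul, Polynomial.eval_C,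
      Polynomial.eval_pow, Polynomial.eval_X]
    have := h y
    simp only [mul_comm (y ^ _)] at this
    exact this
  have := congrArg (fun p => Polynomial.coeff p m) hp
  simp only [Polynomial.finsetSum_coeff, Polynomial.coeff_C_mul_X_pow] at this
  rw [Finset.sum_filter, Finset.sum_filter]
  simp only [eq_comm (a := m)] at this
  exact this

end Counts

section Transfer

variable {V E V' E' : Type} [Fintype V] [Fintype E] [Fintype V'] [Fintype E']

theorem px_of_B (q : ℝ) (hq : 1 < q) (G : E → Sym2 V) (H : E' → Sym2 V')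
    (h : ∀ x y : ℝ, B q G x y = B q H x y) (m : ℕ) (X : ℝ) (hX : 0 < X) :
    ∑ A ∈ Finset.univ.filter (fun A : Finset E => A.card = m), PX q X (tau G A) =
      ∑ A ∈ Finset.univ.filter (fun A : Finset E' => A.card = m), PX q X (tau H A) := by
  have hq0 : 0 < q := by linarith
  set x : ℝ := Real.logb q X with hx
  have hxx : q ^ x = X := Real.rpow_logb hq0 (by linarith) hX
  have hk : ∀ k : ℕ, qnum (q ^ k) x = (X ^ k - 1) / (q ^ k - 1) := by
    intro k
    rw [qnum, ← Real.rpow_natCast, ← Real.rpow_mul hq0.le, mul_comm, Real.rpow_mul hq0.le, hxx,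
      Real.rpow_natCast, Real.rpow_natCast]
  apply coeff_eq
  intro y
  have := h x y
  simp only [B, hk] at this
  exact this

/-- polynomial version of the product -/
noncomputable def PP (t : Multiset ℕ) : Polynomial ℝ :=
  (t.map fun k => (Polynomial.X ^ k - 1 : Polynomial ℝ)).prod

/-- the weight -/
noncomputable def wt (q : ℝ) (t : Multiset ℕ) : ℝ :=
  (t.map fun k => (1 : ℝ) / (q ^ k - 1)).prod

theorem PX_eq (q X : ℝ) (t : Multiset ℕ) : PX q X t = wt q t * (PP t).eval X := by
  rw [PX, wt, PP, Polynomial.eval_multiset_prod, Multiset.map_map, ← Multiset.prod_map_mul]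
  congr 1
  apply Multiset.map_congr rfl
  intro k _
  simp
  ring

theorem wt_pos (q : ℝ) (hq : 1 < q) (t : Multiset ℕ) (ht : ∀ k ∈ t, 0 < k) : 0 < wt q t := by
  rw [wt]
  apply Multiset.prod_pos
  intro a ha
  rw [Multiset.mem_map] at ha
  obtain ⟨k, hk, rfl⟩ := ha
  have : 1 < q ^ k := one_lt_pow₀ hq (ht k hk).ne'
  have : 0 < q ^ k - 1 := by linarith
  positivity

theorem PP_natDegree (t : Multiset ℕ) (ht : ∀ k ∈ t, 0 < k) :
    (PP t).Monic ∧ (PP t).natDegree = t.sum := by
  induction t using Multiset.induction_on with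
  | empty => simp [PP, Polynomial.monic_one]
  | cons a s ih =>
    obtain ⟨i1, i2⟩ := ih fun k hk => ht k (Multiset.mem_cons_of_mem hk)
    have ha : 0 < a := ht a (Multiset.mem_cons_self a s)
    have e : PP (a ::ₘ s) = (Polynomial.X ^ a - 1) * PP s := by
      simp [PP]
    have m1 : (Polynomial.X ^ a - 1 : Polynomial ℝ).Monic := Polynomial.monic_X_pow_sub_C 1 ha.ne'
    have d1 : (Polynomial.X ^ a - 1 : Polynomial ℝ).natDegree = a :=
      Polynomial.natDegree_X_pow_sub_C (n := a) (r := (1 : ℝ))
    rw [e]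
    exact ⟨m1.mul i1, by rw [m1.natDegree_mul i1, d1, i2, Multiset.sum_cons]⟩

theorem poly_eq (q : ℝ) (hq : 1 < q) (G : E → Sym2 V) (H : E' → Sym2 V')
    (h : ∀ x y : ℝ, B q G x y = B q H x y) (m : ℕ) :
    ∑ A ∈ Finset.univ.filter (fun A : Finset E => A.card = m),
        Polynomial.C (wt q (tau G A)) * PP (tau G A) =
      ∑ A ∈ Finset.univ.filter (fun A : Finset E' => A.card = m),
        Polynomial.C (wt q (tau H A)) * PP (tau H A) := by
  apply Polynomial.eq_of_infinite_eval_eq
  apply Set.Infinite.mono (s := Set.Ioi (0 : ℝ))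
  · intro X hX
    have := px_of_B q hq G H h m X hX
    simp only [PX_eq] at this
    show Polynomial.eval X _ = Polynomial.eval X _
    simp only [Polynomial.eval_finsetSum, Polynomial.eval_mul, Polynomial.eval_C]
    exact this
  · exact Set.Ioi_infinite 0

theorem card_eq_of_B (q : ℝ) (hq : 1 < q) (G : E → Sym2 V) (H : E' → Sym2 V')
    (h : ∀ x y : ℝ, B q G x y = B q H x y) : Fintype.card V = Fintype.card V' := by
  have h0 := poly_eq q hq G H h 0
  have f1 : Finset.univ.filter (fun A : Finset E => A.card = 0) = {∅} := by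
    ext A; simp
  have f2 : Finset.univ.filter (fun A : Finset E' => A.card = 0) = {∅} := by
    ext A; simp
  rw [f1, f2, Finset.sum_singleton, Finset.sum_singleton] at h0
  have p1 := wt_pos q hq (tau G ∅) (tau_pos G ∅)
  have p2 := wt_pos q hq (tau H ∅) (tau_pos H ∅)
  have := congrArg Polynomial.natDegree h0
  rw [Polynomial.natDegree_C_mul p1.ne', Polynomial.natDegree_C_mul p2.ne',
    (PP_natDegree _ (tau_pos G ∅)).2, (PP_natDegree _ (tau_pos H ∅)).2, tau_sum, tau_sum] at this
  exact this

/-- the difference of the counts -/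
noncomputable def dd (G : E → Sym2 V) (H : E' → Sym2 V') (m : ℕ) (t : Multiset ℕ) : ℤ :=
  (cnt G m t : ℤ) - cnt H m t

theorem sum_cnt (G : E → Sym2 V) (m : ℕ) (T : Finset (Multiset ℕ))
    (hT : ∀ A : Finset E, tau G A ∈ T) {R : Type} [CommRing R] (F : Multiset ℕ → R) :
    ∑ A ∈ Finset.univ.filter (fun A : Finset E => A.card = m), F (tau G A) =
      ∑ t ∈ T, (cnt G m t : R) * F t := by
  rw [← Finset.sum_fiberwise_of_maps_to (g := fun A : Finset E => tau G A) (t := T)
    (fun A _ => hT A)]
  apply Finset.sum_congr rfl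
  intro t _
  rw [Finset.filter_filter, cnt]
  rw [Finset.sum_congr rfl (g := fun _ => F t)]
  · rw [Finset.sum_const, nsmul_eq_mul]
  · intro A hA
    rw [(Finset.mem_filter.1 hA).2.2]

theorem sum_dd (G : E → Sym2 V) (H : E' → Sym2 V') (m : ℕ) (T : Finset (Multiset ℕ))
    (hT : ∀ A : Finset E, tau G A ∈ T) (hT' : ∀ A : Finset E', tau H A ∈ T)
    {R : Type} [CommRing R] (F : Multiset ℕ → R) :
    ∑ t ∈ T, (dd G H m t : R) * F t =
      ∑ A ∈ Finset.univ.filter (fun A : Finset E => A.card = m), F (tau G A) -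
      ∑ A ∈ Finset.univ.filter (fun A : Finset E' => A.card = m), F (tau H A) := by
  rw [sum_cnt G m T hT, sum_cnt H m T hT', ← Finset.sum_sub_distrib]
  apply Finset.sum_congr rfl
  intro t _
  rw [dd]
  push_cast
  ring

/-- the basic linear relation -/
theorem rel_basic (q : ℝ) (hq : 1 < q) (G : E → Sym2 V) (H : E' → Sym2 V')
    (h : ∀ x y : ℝ, B q G x y = B q H x y) (m : ℕ) (T : Finset (Multiset ℕ))
    (hT : ∀ A : Finset E, tau G A ∈ T) (hT' : ∀ A : Finset E', tau H A ∈ T) :
    ∑ t ∈ T, Polynomial.C ((dd G H m t : ℝ) * wt q t) * PP t = 0 := by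
  have h1 := sum_dd G H m T hT hT' (R := Polynomial ℝ)
    (fun t => Polynomial.C (wt q t) * PP t)
  rw [poly_eq q hq G H h m, sub_self] at h1
  rw [← h1]
  apply Finset.sum_congr rfl
  intro t _
  rw [Polynomial.C_mul, mul_assoc]
  simp

/-- reading off the lowest order at `X = 1` -/
theorem top_level (T : Finset (Multiset ℕ)) (r : Multiset ℕ → ℝ)
    (h : ∑ t ∈ T, Polynomial.C (r t) * PP t = 0) (l : ℕ)
    (hl : ∀ t ∈ T, Multiset.card t < l → r t = 0) :
    ∑ t ∈ T.filter (fun t => Multiset.card t = l), r t * (t.map (fun k : ℕ => (k : ℝ))).prod = 0 := by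
  have fac : ∀ k : ℕ, (Polynomial.X ^ k - 1 : Polynomial ℝ) =
      (Polynomial.X - 1) * ∑ i ∈ Finset.range k, Polynomial.X ^ i := by
    intro k
    rw [mul_comm, geom_sum_mul]
  have facP : ∀ t : Multiset ℕ, PP t = (Polynomial.X - 1) ^ (Multiset.card t) *
      (t.map fun k => (∑ i ∈ Finset.range k, Polynomial.X ^ i : Polynomial ℝ)).prod := by
    intro t
    rw [PP]
    simp only [fac]
    rw [Multiset.prod_map_mul, Multiset.map_const', Multiset.prod_replicate]
  have e1 : (Polynomial.X - 1 : Polynomial ℝ) ^ l * ∑ t ∈ T, (if Multiset.card t < l then 0 else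
      Polynomial.C (r t) * ((Polynomial.X - 1) ^ (Multiset.card t - l) *
      (t.map fun k => (∑ i ∈ Finset.range k, Polynomial.X ^ i : Polynomial ℝ)).prod)) = 0 := by
    refine Eq.trans ?_ h
    rw [Finset.mul_sum]
    apply Finset.sum_congr rfl
    intro t ht
    by_cases hc : Multiset.card t < l
    · rw [if_pos hc, hl t ht hc]
      simp
    · rw [if_neg hc, facP t]
      have : (Polynomial.X - 1 : Polynomial ℝ) ^ (Multiset.card t) =
          (Polynomial.X - 1) ^ l * (Polynomial.X - 1) ^ (Multiset.card t - l) := by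
        rw [← pow_add]
        congr 1
        omega
      rw [this]
      ring
  have hne : (Polynomial.X - 1 : Polynomial ℝ) ^ l ≠ 0 :=
    pow_ne_zero _ (Polynomial.X_sub_C_ne_zero (1 : ℝ))
  have e2 := (mul_eq_zero.1 e1).resolve_left hne
  have e3 := congrArg (Polynomial.eval 1) e2
  rw [Polynomial.eval_finsetSum, Polynomial.eval_zero] at e3
  refine Eq.trans ?_ e3
  rw [Finset.sum_filter]
  apply Finset.sum_congr rfl
  intro t ht
  by_cases hc : Multiset.card t < l
  · rw [if_pos hc, if_neg hc.ne]
    simp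
  · rw [if_neg hc]
    by_cases hc2 : Multiset.card t = l
    · rw [if_pos hc2, hc2]
      simp [Polynomial.eval_multiset_prod, Polynomial.eval_finsetSum]
    · rw [if_neg hc2]
      have : Multiset.card t - l ≠ 0 := by omega
      simp [this]

end Transfer

section Trans

/-- products of `X^k - 1` over the rationals -/
noncomputable def QP (t : Multiset ℕ) : Polynomial ℚ :=
  (t.map fun k => (Polynomial.X ^ k - 1 : Polynomial ℚ)).prod

theorem aeval_QP (s : ℝ) (t : Multiset ℕ) :
    Polynomial.aeval s (QP t) = (t.map fun k => s ^ k - 1).prod := by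
  rw [QP, map_multiset_prod, Multiset.map_map]
  congr 1
  apply Multiset.map_congr rfl
  intro k _
  simp

theorem wt_eq (s : ℝ) (t : Multiset ℕ) : wt s t = (Polynomial.aeval s (QP t))⁻¹ := by
  rw [aeval_QP, wt, ← Multiset.prod_map_inv']
  congr 1
  rw [Multiset.map_map]
  apply Multiset.map_congr rfl
  intro k _
  simp

theorem QP_ne (s : ℝ) (hs : 1 < s) (t : Multiset ℕ) (ht : ∀ k ∈ t, 0 < k) :
    Polynomial.aeval s (QP t) ≠ 0 := by
  have := wt_pos s hs t ht
  rw [wt_eq] at this
  intro h
  rw [h] at this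
  simp at this

theorem transfer (T : Finset (Multiset ℕ)) (hT : ∀ t ∈ T, ∀ k ∈ t, 0 < k)
    (r : Multiset ℕ → ℚ) (q : ℝ) (hq : 1 < q) (htr : Transcendental ℚ q)
    (h : ∑ t ∈ T, (r t : ℝ) * wt q t = 0) (b : ℝ) (hb : 1 < b) :
    ∑ t ∈ T, (r t : ℝ) * wt b t = 0 := by
  set N : Polynomial ℚ := ∑ t ∈ T, Polynomial.C (r t) * ∏ u ∈ T.erase t, QP u with hN
  have key : ∀ s : ℝ, 1 < s → Polynomial.aeval s N =
      (∏ u ∈ T, Polynomial.aeval s (QP u)) * ∑ t ∈ T, (r t : ℝ) * wt s t := by
    intro s hs
    rw [hN, map_sum, Finset.mul_sum]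
    apply Finset.sum_congr rfl
    intro t ht
    rw [map_mul, Polynomial.aeval_C, map_prod, ← Finset.mul_prod_erase T _ ht, wt_eq]
    have := QP_ne s hs t (hT t ht)
    rw [eq_ratCast]
    field_simp
  have h1 : Polynomial.aeval q N = 0 := by
    rw [key q hq, h, mul_zero]
  have h2 : N = 0 := by
    by_contra hne
    exact htr ⟨N, hne, h1⟩
  have h3 := key b hb
  rw [h2, map_zero] at h3
  rcases mul_eq_zero.1 h3.symm with h4 | h4
  · rw [Finset.prod_eq_zero_iff] at h4
    obtain ⟨u, hu, hu2⟩ := h4
    exact absurd hu2 (QP_ne b hb u (hT u hu))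
  · exact h4

/-- the weight used for the nonsingularity checks -/
noncomputable def wk (b : ℝ) (t : Multiset ℕ) : ℝ := (t.map fun k : ℕ => (k : ℝ) / (b ^ k - 1)).prod

theorem wk_eq (b : ℝ) (t : Multiset ℕ) :
    wk b t = (t.map fun k : ℕ => (k : ℝ)).prod * wt b t := by
  rw [wk, wt, ← Multiset.prod_map_mul]
  congr 1
  apply Multiset.map_congr rfl
  intro k _
  ring

variable {V E V' E' : Type} [Fintype V] [Fintype E] [Fintype V'] [Fintype E']

theorem rel_b (q : ℝ) (hq : 1 < q) (htr : Transcendental ℚ q) (G : E → Sym2 V) (H : E' → Sym2 V')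
    (h : ∀ x y : ℝ, B q G x y = B q H x y) (m : ℕ) (T : Finset (Multiset ℕ))
    (hT0 : ∀ t ∈ T, ∀ k ∈ t, 0 < k)
    (hT : ∀ A : Finset E, tau G A ∈ T) (hT' : ∀ A : Finset E', tau H A ∈ T) (l : ℕ)
    (hl : ∀ t ∈ T, Multiset.card t < l → dd G H m t = 0) (b : ℝ) (hb : 1 < b) :
    ∑ t ∈ T.filter (fun t => Multiset.card t = l), (dd G H m t : ℝ) * wk b t = 0 := by
  have h1 := top_level T (fun t => (dd G H m t : ℝ) * wt q t)
    (rel_basic q hq G H h m T hT hT') l (by
      intro t ht hc
      simp [hl t ht hc])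
  have h2 := transfer (T.filter (fun t => Multiset.card t = l))
    (fun t ht => hT0 t (Finset.mem_filter.1 ht).1)
    (fun t => (dd G H m t : ℚ) * (t.map fun k : ℕ => (k : ℚ)).prod) q hq htr (by
      refine Eq.trans ?_ h1
      apply Finset.sum_congr rfl
      intro t _
      push_cast [Multiset.map_map]
      simp only [Function.comp_def, Rat.cast_natCast]
      ring) b hb
  refine Eq.trans ?_ h2
  apply Finset.sum_congr rfl
  intro t _
  rw [wk_eq]
  push_cast [Multiset.map_map]
  simp only [Function.comp_def, Rat.cast_natCast]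
  ring

end Trans

section Lists

set_option linter.unusedSimpArgs false
set_option linter.unreachableTactic false
set_option linter.unusedTactic false

/-- partitions of `n` into parts at most `k`, as lists -/
def plist : ℕ → ℕ → List (List ℕ)
  | 0, 0 => [[]]
  | 0, _ + 1 => []
  | k + 1, n => (List.range (n / (k + 1) + 1)).flatMap fun j =>
      (plist k (n - j * (k + 1))).map fun l => List.replicate j (k + 1) ++ l

theorem mem_plist (k : ℕ) : ∀ (n : ℕ) (t : Multiset ℕ), (∀ a ∈ t, 0 < a ∧ a ≤ k) → t.sum = n →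
    ∃ l ∈ plist k n, (l : Multiset ℕ) = t := by
  induction k with
  | zero =>
    intro n t ht hs
    have h0 : t = 0 := by
      apply Multiset.eq_zero_of_forall_notMem
      intro a ha
      have := ht a ha
      omega
    subst h0
    simp only [Multiset.sum_zero] at hs
    subst hs
    exact ⟨[], by simp [plist], rfl⟩
  | succ k ih =>
    intro n t ht hs
    set j := t.count (k + 1) with hj
    set s := t.filter (fun a => a ≠ k + 1) with hsdef
    have hsplit : Multiset.replicate j (k + 1) + s = t := by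
      have h1 := Multiset.filter_add_not (fun a => a = k + 1) t
      rw [Multiset.filter_eq'] at h1
      exact h1
    have hsum : j * (k + 1) + s.sum = n := by
      rw [← hs, ← hsplit, Multiset.sum_add, Multiset.sum_replicate, smul_eq_mul]
    obtain ⟨l, hl, hl2⟩ := ih (n - j * (k + 1)) s (by
      intro a ha
      rw [hsdef, Multiset.mem_filter] at ha
      have := ht a ha.1
      omega) (by omega)
    refine ⟨List.replicate j (k + 1) ++ l, ?_, ?_⟩
    · rw [plist, List.mem_flatMap]
      refine ⟨j, ?_, List.mem_map.2 ⟨l, hl, rfl⟩⟩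
      rw [List.mem_range, Nat.lt_succ_iff, Nat.le_div_iff_mul_le (by omega)]
      omega
    · rw [← Multiset.coe_add, hl2, Multiset.coe_replicate, hsplit]

/-- partitions of `n` into `l` parts -/
def pl (n l : ℕ) : List (List ℕ) := (plist n n).filter fun t => t.length = l

/-- the multisets -/
def TT (n : ℕ) : Finset (Multiset ℕ) := ((plist n n).map fun t : List ℕ => (t : Multiset ℕ)).toFinset

theorem mem_TT (n : ℕ) (t : Multiset ℕ) (h0 : ∀ k ∈ t, 0 < k) (hs : t.sum = n) : t ∈ TT n := by
  obtain ⟨l, hl, hl2⟩ := mem_plist n n t (fun a ha => ⟨h0 a ha, by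
    rw [← hs]
    exact Multiset.single_le_sum (fun _ _ => Nat.zero_le _) a ha⟩) hs
  rw [TT, List.mem_toFinset, List.mem_map]
  exact ⟨l, hl, hl2⟩

/-- the nonsingularity property of a list of types -/
def NS (L : List (List ℕ)) : Prop := ∀ d : Multiset ℕ → ℝ,
  (∀ b : ℝ, 1 < b → (L.map fun t : List ℕ => d (t : Multiset ℕ) * wk b (t : Multiset ℕ)).sum = 0) →
    ∀ t ∈ L, d (t : Multiset ℕ) = 0

theorem ns_0_0 : NS (pl 0 0) := by
  have h : pl 0 0 = [[]] := by decide +kernel
  rw [h]
  intro d hd
  have e2 := hd 2 (by norm_num)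
  simp only [wk, List.map_cons, List.map_nil, List.sum_cons, List.sum_nil, Multiset.map_coe,
    Multiset.prod_coe, List.prod_cons, List.prod_nil] at e2
  norm_num at e2
  intro t ht
  simp only [List.mem_cons, List.not_mem_nil, or_false] at ht
  subst ht
  first | exact e2 | linarith | simpa using e2

theorem ns_1_0 : NS (pl 1 0) := by
  have h : pl 1 0 = [] := by decide +kernel
  rw [h]
  intro d _ t ht
  simp at ht

theorem ns_1_1 : NS (pl 1 1) := by
  have h : pl 1 1 = [[1]] := by decide +kernel
  rw [h]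
  intro d hd
  have e2 := hd 2 (by norm_num)
  simp only [wk, List.map_cons, List.map_nil, List.sum_cons, List.sum_nil, Multiset.map_coe,
    Multiset.prod_coe, List.prod_cons, List.prod_nil] at e2
  norm_num at e2
  intro t ht
  simp only [List.mem_cons, List.not_mem_nil, or_false] at ht
  subst ht
  first | exact e2 | linarith | simpa using e2

theorem ns_2_0 : NS (pl 2 0) := by
  have h : pl 2 0 = [] := by decide +kernel
  rw [h]
  intro d _ t ht
  simp at ht

theorem ns_2_1 : NS (pl 2 1) := by
  have h : pl 2 1 = [[2]] := by decide +kernel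
  rw [h]
  intro d hd
  have e2 := hd 2 (by norm_num)
  simp only [wk, List.map_cons, List.map_nil, List.sum_cons, List.sum_nil, Multiset.map_coe,
    Multiset.prod_coe, List.prod_cons, List.prod_nil] at e2
  norm_num at e2
  intro t ht
  simp only [List.mem_cons, List.not_mem_nil, or_false] at ht
  subst ht
  first | exact e2 | linarith | simpa using e2

theorem ns_2_2 : NS (pl 2 2) := by
  have h : pl 2 2 = [[1, 1]] := by decide +kernel
  rw [h]
  intro d hd
  have e2 := hd 2 (by norm_num)
  simp only [wk, List.map_cons, List.map_nil, List.sum_cons, List.sum_nil, Multiset.map_coe,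
    Multiset.prod_coe, List.prod_cons, List.prod_nil] at e2
  norm_num at e2
  intro t ht
  simp only [List.mem_cons, List.not_mem_nil, or_false] at ht
  subst ht
  first | exact e2 | linarith | simpa using e2

theorem ns_3_0 : NS (pl 3 0) := by
  have h : pl 3 0 = [] := by decide +kernel
  rw [h]
  intro d _ t ht
  simp at ht

theorem ns_3_1 : NS (pl 3 1) := by
  have h : pl 3 1 = [[3]] := by decide +kernel
  rw [h]
  intro d hd
  have e2 := hd 2 (by norm_num)
  simp only [wk, List.map_cons, List.map_nil, List.sum_cons, List.sum_nil, Multiset.map_coe,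
    Multiset.prod_coe, List.prod_cons, List.prod_nil] at e2
  norm_num at e2
  intro t ht
  simp only [List.mem_cons, List.not_mem_nil, or_false] at ht
  subst ht
  first | exact e2 | linarith | simpa using e2

theorem ns_3_2 : NS (pl 3 2) := by
  have h : pl 3 2 = [[2, 1]] := by decide +kernel
  rw [h]
  intro d hd
  have e2 := hd 2 (by norm_num)
  simp only [wk, List.map_cons, List.map_nil, List.sum_cons, List.sum_nil, Multiset.map_coe,
    Multiset.prod_coe, List.prod_cons, List.prod_nil] at e2
  norm_num at e2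
  intro t ht
  simp only [List.mem_cons, List.not_mem_nil, or_false] at ht
  subst ht
  first | exact e2 | linarith | simpa using e2

theorem ns_3_3 : NS (pl 3 3) := by
  have h : pl 3 3 = [[1, 1, 1]] := by decide +kernel
  rw [h]
  intro d hd
  have e2 := hd 2 (by norm_num)
  simp only [wk, List.map_cons, List.map_nil, List.sum_cons, List.sum_nil, Multiset.map_coe,
    Multiset.prod_coe, List.prod_cons, List.prod_nil] at e2
  norm_num at e2
  intro t ht
  simp only [List.mem_cons, List.not_mem_nil, or_false] at ht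
  subst ht
  first | exact e2 | linarith | simpa using e2

theorem ns_4_0 : NS (pl 4 0) := by
  have h : pl 4 0 = [] := by decide +kernel
  rw [h]
  intro d _ t ht
  simp at ht

theorem ns_4_1 : NS (pl 4 1) := by
  have h : pl 4 1 = [[4]] := by decide +kernel
  rw [h]
  intro d hd
  have e2 := hd 2 (by norm_num)
  simp only [wk, List.map_cons, List.map_nil, List.sum_cons, List.sum_nil, Multiset.map_coe,
    Multiset.prod_coe, List.prod_cons, List.prod_nil] at e2
  norm_num at e2
  intro t ht
  simp only [List.mem_cons, List.not_mem_nil, or_false] at ht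
  subst ht
  first | exact e2 | linarith | simpa using e2

theorem ns_4_2 : NS (pl 4 2) := by
  have h : pl 4 2 = [[2, 2], [3, 1]] := by decide +kernel
  rw [h]
  intro d hd
  have e2 := hd 2 (by norm_num)
  have e3 := hd 3 (by norm_num)
  simp only [wk, List.map_cons, List.map_nil, List.sum_cons, List.sum_nil, Multiset.map_coe,
    Multiset.prod_coe, List.prod_cons, List.prod_nil] at e2 e3
  norm_num at e2 e3
  intro t ht
  simp only [List.mem_cons, List.not_mem_nil, or_false] at ht
  rcases ht with rfl | rfl <;> linarith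

theorem ns_4_3 : NS (pl 4 3) := by
  have h : pl 4 3 = [[2, 1, 1]] := by decide +kernel
  rw [h]
  intro d hd
  have e2 := hd 2 (by norm_num)
  simp only [wk, List.map_cons, List.map_nil, List.sum_cons, List.sum_nil, Multiset.map_coe,
    Multiset.prod_coe, List.prod_cons, List.prod_nil] at e2
  norm_num at e2
  intro t ht
  simp only [List.mem_cons, List.not_mem_nil, or_false] at ht
  subst ht
  first | exact e2 | linarith | simpa using e2

theorem ns_4_4 : NS (pl 4 4) := by
  have h : pl 4 4 = [[1, 1, 1, 1]] := by decide +kernel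
  rw [h]
  intro d hd
  have e2 := hd 2 (by norm_num)
  simp only [wk, List.map_cons, List.map_nil, List.sum_cons, List.sum_nil, Multiset.map_coe,
    Multiset.prod_coe, List.prod_cons, List.prod_nil] at e2
  norm_num at e2
  intro t ht
  simp only [List.mem_cons, List.not_mem_nil, or_false] at ht
  subst ht
  first | exact e2 | linarith | simpa using e2

theorem ns_5_0 : NS (pl 5 0) := by
  have h : pl 5 0 = [] := by decide +kernel
  rw [h]
  intro d _ t ht
  simp at ht

theorem ns_5_1 : NS (pl 5 1) := by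
  have h : pl 5 1 = [[5]] := by decide +kernel
  rw [h]
  intro d hd
  have e2 := hd 2 (by norm_num)
  simp only [wk, List.map_cons, List.map_nil, List.sum_cons, List.sum_nil, Multiset.map_coe,
    Multiset.prod_coe, List.prod_cons, List.prod_nil] at e2
  norm_num at e2
  intro t ht
  simp only [List.mem_cons, List.not_mem_nil, or_false] at ht
  subst ht
  first | exact e2 | linarith | simpa using e2

theorem ns_5_2 : NS (pl 5 2) := by
  have h : pl 5 2 = [[3, 2], [4, 1]] := by decide +kernel
  rw [h]
  intro d hd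
  have e2 := hd 2 (by norm_num)
  have e3 := hd 3 (by norm_num)
  simp only [wk, List.map_cons, List.map_nil, List.sum_cons, List.sum_nil, Multiset.map_coe,
    Multiset.prod_coe, List.prod_cons, List.prod_nil] at e2 e3
  norm_num at e2 e3
  intro t ht
  simp only [List.mem_cons, List.not_mem_nil, or_false] at ht
  rcases ht with rfl | rfl <;> linarith

theorem ns_5_3 : NS (pl 5 3) := by
  have h : pl 5 3 = [[2, 2, 1], [3, 1, 1]] := by decide +kernel
  rw [h]
  intro d hd
  have e2 := hd 2 (by norm_num)
  have e3 := hd 3 (by norm_num)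
  simp only [wk, List.map_cons, List.map_nil, List.sum_cons, List.sum_nil, Multiset.map_coe,
    Multiset.prod_coe, List.prod_cons, List.prod_nil] at e2 e3
  norm_num at e2 e3
  intro t ht
  simp only [List.mem_cons, List.not_mem_nil, or_false] at ht
  rcases ht with rfl | rfl <;> linarith

theorem ns_5_4 : NS (pl 5 4) := by
  have h : pl 5 4 = [[2, 1, 1, 1]] := by decide +kernel
  rw [h]
  intro d hd
  have e2 := hd 2 (by norm_num)
  simp only [wk, List.map_cons, List.map_nil, List.sum_cons, List.sum_nil, Multiset.map_coe,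
    Multiset.prod_coe, List.prod_cons, List.prod_nil] at e2
  norm_num at e2
  intro t ht
  simp only [List.mem_cons, List.not_mem_nil, or_false] at ht
  subst ht
  first | exact e2 | linarith | simpa using e2

theorem ns_5_5 : NS (pl 5 5) := by
  have h : pl 5 5 = [[1, 1, 1, 1, 1]] := by decide +kernel
  rw [h]
  intro d hd
  have e2 := hd 2 (by norm_num)
  simp only [wk, List.map_cons, List.map_nil, List.sum_cons, List.sum_nil, Multiset.map_coe,
    Multiset.prod_coe, List.prod_cons, List.prod_nil] at e2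
  norm_num at e2
  intro t ht
  simp only [List.mem_cons, List.not_mem_nil, or_false] at ht
  subst ht
  first | exact e2 | linarith | simpa using e2

theorem ns_6_0 : NS (pl 6 0) := by
  have h : pl 6 0 = [] := by decide +kernel
  rw [h]
  intro d _ t ht
  simp at ht

theorem ns_6_1 : NS (pl 6 1) := by
  have h : pl 6 1 = [[6]] := by decide +kernel
  rw [h]
  intro d hd
  have e2 := hd 2 (by norm_num)
  simp only [wk, List.map_cons, List.map_nil, List.sum_cons, List.sum_nil, Multiset.map_coe,
    Multiset.prod_coe, List.prod_cons, List.prod_nil] at e2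
  norm_num at e2
  intro t ht
  simp only [List.mem_cons, List.not_mem_nil, or_false] at ht
  subst ht
  first | exact e2 | linarith | simpa using e2

theorem ns_6_2 : NS (pl 6 2) := by
  have h : pl 6 2 = [[3, 3], [4, 2], [5, 1]] := by decide +kernel
  rw [h]
  intro d hd
  have e2 := hd 2 (by norm_num)
  have e3 := hd 3 (by norm_num)
  have e4 := hd 4 (by norm_num)
  simp only [wk, List.map_cons, List.map_nil, List.sum_cons, List.sum_nil, Multiset.map_coe,
    Multiset.prod_coe, List.prod_cons, List.prod_nil] at e2 e3 e4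
  norm_num at e2 e3 e4
  intro t ht
  simp only [List.mem_cons, List.not_mem_nil, or_false] at ht
  rcases ht with rfl | rfl | rfl <;> linarith

theorem ns_6_3 : NS (pl 6 3) := by
  have h : pl 6 3 = [[2, 2, 2], [3, 2, 1], [4, 1, 1]] := by decide +kernel
  rw [h]
  intro d hd
  have e2 := hd 2 (by norm_num)
  have e3 := hd 3 (by norm_num)
  have e4 := hd 4 (by norm_num)
  simp only [wk, List.map_cons, List.map_nil, List.sum_cons, List.sum_nil, Multiset.map_coe,
    Multiset.prod_coe, List.prod_cons, List.prod_nil] at e2 e3 e4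
  norm_num at e2 e3 e4
  intro t ht
  simp only [List.mem_cons, List.not_mem_nil, or_false] at ht
  rcases ht with rfl | rfl | rfl <;> linarith

theorem ns_6_4 : NS (pl 6 4) := by
  have h : pl 6 4 = [[2, 2, 1, 1], [3, 1, 1, 1]] := by decide +kernel
  rw [h]
  intro d hd
  have e2 := hd 2 (by norm_num)
  have e3 := hd 3 (by norm_num)
  simp only [wk, List.map_cons, List.map_nil, List.sum_cons, List.sum_nil, Multiset.map_coe,
    Multiset.prod_coe, List.prod_cons, List.prod_nil] at e2 e3
  norm_num at e2 e3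
  intro t ht
  simp only [List.mem_cons, List.not_mem_nil, or_false] at ht
  rcases ht with rfl | rfl <;> linarith

theorem ns_6_5 : NS (pl 6 5) := by
  have h : pl 6 5 = [[2, 1, 1, 1, 1]] := by decide +kernel
  rw [h]
  intro d hd
  have e2 := hd 2 (by norm_num)
  simp only [wk, List.map_cons, List.map_nil, List.sum_cons, List.sum_nil, Multiset.map_coe,
    Multiset.prod_coe, List.prod_cons, List.prod_nil] at e2
  norm_num at e2
  intro t ht
  simp only [List.mem_cons, List.not_mem_nil, or_false] at ht
  subst ht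
  first | exact e2 | linarith | simpa using e2

theorem ns_6_6 : NS (pl 6 6) := by
  have h : pl 6 6 = [[1, 1, 1, 1, 1, 1]] := by decide +kernel
  rw [h]
  intro d hd
  have e2 := hd 2 (by norm_num)
  simp only [wk, List.map_cons, List.map_nil, List.sum_cons, List.sum_nil, Multiset.map_coe,
    Multiset.prod_coe, List.prod_cons, List.prod_nil] at e2
  norm_num at e2
  intro t ht
  simp only [List.mem_cons, List.not_mem_nil, or_false] at ht
  subst ht
  first | exact e2 | linarith | simpa using e2

theorem ns_7_0 : NS (pl 7 0) := by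
  have h : pl 7 0 = [] := by decide +kernel
  rw [h]
  intro d _ t ht
  simp at ht

theorem ns_7_1 : NS (pl 7 1) := by
  have h : pl 7 1 = [[7]] := by decide +kernel
  rw [h]
  intro d hd
  have e2 := hd 2 (by norm_num)
  simp only [wk, List.map_cons, List.map_nil, List.sum_cons, List.sum_nil, Multiset.map_coe,
    Multiset.prod_coe, List.prod_cons, List.prod_nil] at e2
  norm_num at e2
  intro t ht
  simp only [List.mem_cons, List.not_mem_nil, or_false] at ht
  subst ht
  first | exact e2 | linarith | simpa using e2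

theorem ns_7_2 : NS (pl 7 2) := by
  have h : pl 7 2 = [[4, 3], [5, 2], [6, 1]] := by decide +kernel
  rw [h]
  intro d hd
  have e2 := hd 2 (by norm_num)
  have e3 := hd 3 (by norm_num)
  have e4 := hd 4 (by norm_num)
  simp only [wk, List.map_cons, List.map_nil, List.sum_cons, List.sum_nil, Multiset.map_coe,
    Multiset.prod_coe, List.prod_cons, List.prod_nil] at e2 e3 e4
  norm_num at e2 e3 e4
  intro t ht
  simp only [List.mem_cons, List.not_mem_nil, or_false] at ht
  rcases ht with rfl | rfl | rfl <;> linarith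

theorem ns_7_3 : NS (pl 7 3) := by
  have h : pl 7 3 = [[3, 2, 2], [3, 3, 1], [4, 2, 1], [5, 1, 1]] := by decide +kernel
  rw [h]
  intro d hd
  have e2 := hd 2 (by norm_num)
  have e3 := hd 3 (by norm_num)
  have e4 := hd 4 (by norm_num)
  have e5 := hd 5 (by norm_num)
  simp only [wk, List.map_cons, List.map_nil, List.sum_cons, List.sum_nil, Multiset.map_coe,
    Multiset.prod_coe, List.prod_cons, List.prod_nil] at e2 e3 e4 e5
  norm_num at e2 e3 e4 e5
  intro t ht
  simp only [List.mem_cons, List.not_mem_nil, or_false] at ht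
  rcases ht with rfl | rfl | rfl | rfl <;> linarith

theorem ns_7_4 : NS (pl 7 4) := by
  have h : pl 7 4 = [[2, 2, 2, 1], [3, 2, 1, 1], [4, 1, 1, 1]] := by decide +kernel
  rw [h]
  intro d hd
  have e2 := hd 2 (by norm_num)
  have e3 := hd 3 (by norm_num)
  have e4 := hd 4 (by norm_num)
  simp only [wk, List.map_cons, List.map_nil, List.sum_cons, List.sum_nil, Multiset.map_coe,
    Multiset.prod_coe, List.prod_cons, List.prod_nil] at e2 e3 e4
  norm_num at e2 e3 e4
  intro t ht
  simp only [List.mem_cons, List.not_mem_nil, or_false] at ht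
  rcases ht with rfl | rfl | rfl <;> linarith

theorem ns_7_5 : NS (pl 7 5) := by
  have h : pl 7 5 = [[2, 2, 1, 1, 1], [3, 1, 1, 1, 1]] := by decide +kernel
  rw [h]
  intro d hd
  have e2 := hd 2 (by norm_num)
  have e3 := hd 3 (by norm_num)
  simp only [wk, List.map_cons, List.map_nil, List.sum_cons, List.sum_nil, Multiset.map_coe,
    Multiset.prod_coe, List.prod_cons, List.prod_nil] at e2 e3
  norm_num at e2 e3
  intro t ht
  simp only [List.mem_cons, List.not_mem_nil, or_false] at ht
  rcases ht with rfl | rfl <;> linarith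

theorem ns_7_6 : NS (pl 7 6) := by
  have h : pl 7 6 = [[2, 1, 1, 1, 1, 1]] := by decide +kernel
  rw [h]
  intro d hd
  have e2 := hd 2 (by norm_num)
  simp only [wk, List.map_cons, List.map_nil, List.sum_cons, List.sum_nil, Multiset.map_coe,
    Multiset.prod_coe, List.prod_cons, List.prod_nil] at e2
  norm_num at e2
  intro t ht
  simp only [List.mem_cons, List.not_mem_nil, or_false] at ht
  subst ht
  first | exact e2 | linarith | simpa using e2

theorem ns_7_7 : NS (pl 7 7) := by
  have h : pl 7 7 = [[1, 1, 1, 1, 1, 1, 1]] := by decide +kernel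
  rw [h]
  intro d hd
  have e2 := hd 2 (by norm_num)
  simp only [wk, List.map_cons, List.map_nil, List.sum_cons, List.sum_nil, Multiset.map_coe,
    Multiset.prod_coe, List.prod_cons, List.prod_nil] at e2
  norm_num at e2
  intro t ht
  simp only [List.mem_cons, List.not_mem_nil, or_false] at ht
  subst ht
  first | exact e2 | linarith | simpa using e2

theorem ns_8_0 : NS (pl 8 0) := by
  have h : pl 8 0 = [] := by decide +kernel
  rw [h]
  intro d _ t ht
  simp at ht

theorem ns_8_1 : NS (pl 8 1) := by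
  have h : pl 8 1 = [[8]] := by decide +kernel
  rw [h]
  intro d hd
  have e2 := hd 2 (by norm_num)
  simp only [wk, List.map_cons, List.map_nil, List.sum_cons, List.sum_nil, Multiset.map_coe,
    Multiset.prod_coe, List.prod_cons, List.prod_nil] at e2
  norm_num at e2
  intro t ht
  simp only [List.mem_cons, List.not_mem_nil, or_false] at ht
  subst ht
  first | exact e2 | linarith | simpa using e2

theorem ns_8_2 : NS (pl 8 2) := by
  have h : pl 8 2 = [[4, 4], [5, 3], [6, 2], [7, 1]] := by decide +kernel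
  rw [h]
  intro d hd
  have e2 := hd 2 (by norm_num)
  have e3 := hd 3 (by norm_num)
  have e4 := hd 4 (by norm_num)
  have e5 := hd 5 (by norm_num)
  simp only [wk, List.map_cons, List.map_nil, List.sum_cons, List.sum_nil, Multiset.map_coe,
    Multiset.prod_coe, List.prod_cons, List.prod_nil] at e2 e3 e4 e5
  norm_num at e2 e3 e4 e5
  intro t ht
  simp only [List.mem_cons, List.not_mem_nil, or_false] at ht
  rcases ht with rfl | rfl | rfl | rfl <;> linarith

theorem ns_8_3 : NS (pl 8 3) := by
  have h : pl 8 3 = [[3, 3, 2], [4, 2, 2], [4, 3, 1], [5, 2, 1], [6, 1, 1]] := by decide +kernel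
  rw [h]
  intro d hd
  have e2 := hd 2 (by norm_num)
  have e3 := hd 3 (by norm_num)
  have e4 := hd 4 (by norm_num)
  have e5 := hd 5 (by norm_num)
  have e6 := hd 6 (by norm_num)
  simp only [wk, List.map_cons, List.map_nil, List.sum_cons, List.sum_nil, Multiset.map_coe,
    Multiset.prod_coe, List.prod_cons, List.prod_nil] at e2 e3 e4 e5 e6
  norm_num at e2 e3 e4 e5 e6
  intro t ht
  simp only [List.mem_cons, List.not_mem_nil, or_false] at ht
  rcases ht with rfl | rfl | rfl | rfl | rfl <;> linarith

theorem ns_8_4 : NS (pl 8 4) := by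
  have h : pl 8 4 = [[2, 2, 2, 2], [3, 2, 2, 1], [3, 3, 1, 1], [4, 2, 1, 1], [5, 1, 1, 1]] := by decide +kernel
  rw [h]
  intro d hd
  have e2 := hd 2 (by norm_num)
  have e3 := hd 3 (by norm_num)
  have e4 := hd 4 (by norm_num)
  have e5 := hd 5 (by norm_num)
  have e6 := hd 6 (by norm_num)
  simp only [wk, List.map_cons, List.map_nil, List.sum_cons, List.sum_nil, Multiset.map_coe,
    Multiset.prod_coe, List.prod_cons, List.prod_nil] at e2 e3 e4 e5 e6
  norm_num at e2 e3 e4 e5 e6
  intro t ht
  simp only [List.mem_cons, List.not_mem_nil, or_false] at ht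
  rcases ht with rfl | rfl | rfl | rfl | rfl <;> linarith

theorem ns_8_5 : NS (pl 8 5) := by
  have h : pl 8 5 = [[2, 2, 2, 1, 1], [3, 2, 1, 1, 1], [4, 1, 1, 1, 1]] := by decide +kernel
  rw [h]
  intro d hd
  have e2 := hd 2 (by norm_num)
  have e3 := hd 3 (by norm_num)
  have e4 := hd 4 (by norm_num)
  simp only [wk, List.map_cons, List.map_nil, List.sum_cons, List.sum_nil, Multiset.map_coe,
    Multiset.prod_coe, List.prod_cons, List.prod_nil] at e2 e3 e4
  norm_num at e2 e3 e4
  intro t ht
  simp only [List.mem_cons, List.not_mem_nil, or_false] at ht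
  rcases ht with rfl | rfl | rfl <;> linarith

theorem ns_8_6 : NS (pl 8 6) := by
  have h : pl 8 6 = [[2, 2, 1, 1, 1, 1], [3, 1, 1, 1, 1, 1]] := by decide +kernel
  rw [h]
  intro d hd
  have e2 := hd 2 (by norm_num)
  have e3 := hd 3 (by norm_num)
  simp only [wk, List.map_cons, List.map_nil, List.sum_cons, List.sum_nil, Multiset.map_coe,
    Multiset.prod_coe, List.prod_cons, List.prod_nil] at e2 e3
  norm_num at e2 e3
  intro t ht
  simp only [List.mem_cons, List.not_mem_nil, or_false] at ht
  rcases ht with rfl | rfl <;> linarith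

theorem ns_8_7 : NS (pl 8 7) := by
  have h : pl 8 7 = [[2, 1, 1, 1, 1, 1, 1]] := by decide +kernel
  rw [h]
  intro d hd
  have e2 := hd 2 (by norm_num)
  simp only [wk, List.map_cons, List.map_nil, List.sum_cons, List.sum_nil, Multiset.map_coe,
    Multiset.prod_coe, List.prod_cons, List.prod_nil] at e2
  norm_num at e2
  intro t ht
  simp only [List.mem_cons, List.not_mem_nil, or_false] at ht
  subst ht
  first | exact e2 | linarith | simpa using e2

theorem ns_8_8 : NS (pl 8 8) := by
  have h : pl 8 8 = [[1, 1, 1, 1, 1, 1, 1, 1]] := by decide +kernel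
  rw [h]
  intro d hd
  have e2 := hd 2 (by norm_num)
  simp only [wk, List.map_cons, List.map_nil, List.sum_cons, List.sum_nil, Multiset.map_coe,
    Multiset.prod_coe, List.prod_cons, List.prod_nil] at e2
  norm_num at e2
  intro t ht
  simp only [List.mem_cons, List.not_mem_nil, or_false] at ht
  subst ht
  first | exact e2 | linarith | simpa using e2

end Lists

section CaseTrans

theorem ns_all (n l : ℕ) (hn : n ≤ 8) (hl : l ≤ n) : NS (pl n l) := by
  interval_cases n <;> interval_cases l
  · exact ns_0_0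
  · exact ns_1_0
  · exact ns_1_1
  · exact ns_2_0
  · exact ns_2_1
  · exact ns_2_2
  · exact ns_3_0
  · exact ns_3_1
  · exact ns_3_2
  · exact ns_3_3
  · exact ns_4_0
  · exact ns_4_1
  · exact ns_4_2
  · exact ns_4_3
  · exact ns_4_4
  · exact ns_5_0
  · exact ns_5_1
  · exact ns_5_2
  · exact ns_5_3
  · exact ns_5_4
  · exact ns_5_5
  · exact ns_6_0
  · exact ns_6_1
  · exact ns_6_2
  · exact ns_6_3
  · exact ns_6_4
  · exact ns_6_5
  · exact ns_6_6
  · exact ns_7_0
  · exact ns_7_1
  · exact ns_7_2
  · exact ns_7_3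
  · exact ns_7_4
  · exact ns_7_5
  · exact ns_7_6
  · exact ns_7_7
  · exact ns_8_0
  · exact ns_8_1
  · exact ns_8_2
  · exact ns_8_3
  · exact ns_8_4
  · exact ns_8_5
  · exact ns_8_6
  · exact ns_8_7
  · exact ns_8_8

theorem nodup_TT (n : ℕ) (hn : n ≤ 8) :
    ((plist n n).map fun t : List ℕ => (t : Multiset ℕ)).Nodup := by
  interval_cases n <;> decide +kernel

theorem sum_filter_list {R : Type} [AddCommMonoid R] (L : List (List ℕ)) (l : ℕ)
    (f : Multiset ℕ → R) :
    (L.map fun t : List ℕ => if Multiset.card (t : Multiset ℕ) = l then f (t : Multiset ℕ)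
      else 0).sum =
      ((L.filter fun t => t.length = l).map fun t : List ℕ => f (t : Multiset ℕ)).sum := by
  induction L with
  | nil => simp
  | cons a L ih =>
    rw [List.map_cons, List.sum_cons, ih, List.filter_cons]
    by_cases hc : a.length = l
    · simp [hc]
    · simp [hc]

theorem sum_TT {R : Type} [AddCommMonoid R] (n l : ℕ) (hn : n ≤ 8) (f : Multiset ℕ → R) :
    ∑ t ∈ (TT n).filter (fun t => Multiset.card t = l), f t =
      ((pl n l).map fun t : List ℕ => f (t : Multiset ℕ)).sum := by
  rw [Finset.sum_filter, TT, List.sum_toFinset _ (nodup_TT n hn), List.map_map, pl,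
    ← sum_filter_list]
  rfl

theorem mem_pl_of_TT (n : ℕ) (t : Multiset ℕ) (ht : t ∈ TT n) :
    ∃ s ∈ pl n (Multiset.card t), (s : Multiset ℕ) = t := by
  rw [TT, List.mem_toFinset, List.mem_map] at ht
  obtain ⟨s, hs, rfl⟩ := ht
  exact ⟨s, by rw [pl, List.mem_filter]; simpa using hs, rfl⟩

theorem TT_pos (n : ℕ) (hn : n ≤ 8) (t : Multiset ℕ) (ht : t ∈ TT n) :
    (∀ k ∈ t, 0 < k) ∧ Multiset.card t ≤ n := by
  have h : ∀ s ∈ plist n n, (∀ k ∈ s, 0 < k) ∧ s.length ≤ n := by
    interval_cases n <;> decide +kernel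
  rw [TT, List.mem_toFinset, List.mem_map] at ht
  obtain ⟨s, hs, rfl⟩ := ht
  obtain ⟨h1, h2⟩ := h s hs
  exact ⟨by simpa using h1, by simpa using h2⟩

variable {V E V' E' : Type} [Fintype V] [Fintype E] [Fintype V'] [Fintype E']

theorem cnt_zero (G : E → Sym2 V) (m : ℕ) (T : Finset (Multiset ℕ))
    (hT : ∀ A : Finset E, tau G A ∈ T) (t : Multiset ℕ) (ht : t ∉ T) : cnt G m t = 0 := by
  rw [cnt, Finset.card_eq_zero, Finset.filter_eq_empty_iff]
  rintro A _ ⟨_, h⟩
  exact ht (h ▸ hT A)

theorem tau_mem_TT (G : E → Sym2 V) (A : Finset E) : tau G A ∈ TT (Fintype.card V) :=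
  mem_TT _ _ (fun k hk => tau_pos G A k hk) (tau_sum G A)

theorem U_eq_of_dd (G : E → Sym2 V) (H : E' → Sym2 V') (hc : Fintype.card V = Fintype.card V')
    (h : ∀ m, ∀ t ∈ TT (Fintype.card V), dd G H m t = 0) : U G = U H := by
  apply U_eq G H hc
  intro m t
  by_cases ht : t ∈ TT (Fintype.card V)
  · have := h m t ht
    rw [dd] at this
    omega
  · rw [cnt_zero G m _ (tau_mem_TT G) t ht,
      cnt_zero H m _ (fun A => by rw [hc]; exact tau_mem_TT H A) t ht]

theorem case_trans (q : ℝ) (hq : 1 < q) (htr : Transcendental ℚ q) (G : E → Sym2 V)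
    (H : E' → Sym2 V') (hn : Fintype.card V ≤ 8)
    (h : ∀ x y : ℝ, B q G x y = B q H x y) : U G = U H := by
  have hc := card_eq_of_B q hq G H h
  apply U_eq_of_dd G H hc
  intro m
  have key : ∀ l : ℕ, ∀ t ∈ TT (Fintype.card V), Multiset.card t < l → dd G H m t = 0 := by
    intro l
    induction l with
    | zero => intro t _ h0; omega
    | succ l ih =>
      intro t ht htl
      by_cases hlt : Multiset.card t < l
      · exact ih t ht hlt
      have hle : Multiset.card t = l := by omega
      have hr := fun b hb => rel_b q hq htr G H h m (TT (Fintype.card V))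
        (fun t ht => (TT_pos _ hn t ht).1) (tau_mem_TT G)
        (fun A => by rw [hc]; exact tau_mem_TT H A) l ih b hb
      have hns := ns_all (Fintype.card V) l hn (hle ▸ (TT_pos _ hn t ht).2)
        (fun t => (dd G H m t : ℝ)) (by
          intro b hb
          have := hr b hb
          rw [sum_TT _ _ hn] at this
          exact this)
      obtain ⟨s, hs, hs2⟩ := mem_pl_of_TT _ t ht
      rw [hle] at hs
      have := hns s hs
      rw [hs2] at this
      exact_mod_cast this
  intro t ht
  exact key (Multiset.card t + 1) t ht (Nat.lt_succ_self _)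

end CaseTrans


section Loops

variable {V E V' E' : Type} [Fintype V] [Fintype E] [Fintype V'] [Fintype E']

theorem spanning_adj (G : E → Sym2 V) (A : Finset E) (v w : V) :
    (spanning G A).Adj v w ↔ (∃ e ∈ A, G e = s(v, w)) ∧ v ≠ w := by
  simp [spanning]

theorem tau_ones_iff (G : E → Sym2 V) (A : Finset E) :
    tau G A = Multiset.replicate (Fintype.card V) 1 ↔ ∀ e ∈ A, (G e).IsDiag := by
  constructor
  · intro h e he
    by_contra hd
    induction hge : G e using Sym2.ind with
    | _ u v =>
      rw [hge] at hd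
      have huv : u ≠ v := fun h' => hd (Sym2.mk_isDiag_iff.2 h')
      have hadj : (spanning G A).Adj u v := (spanning_adj _ _ _ _).2 ⟨⟨e, he, hge⟩, huv⟩
      have h1 : (cls G A u).card = 1 := by
        have : (cls G A u).card ∈ tau G A :=
          Multiset.mem_map.2 ⟨cls G A u, (mem_blocks _ _ _).2 ⟨u, rfl⟩, rfl⟩
        rw [h] at this
        exact Multiset.eq_of_mem_replicate this
      obtain ⟨a, ha⟩ := Finset.card_eq_one.1 h1
      have hu : u ∈ cls G A u := (mem_cls _ _ _ _).2 (SimpleGraph.Reachable.refl _)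
      have hv : v ∈ cls G A u := (mem_cls _ _ _ _).2 hadj.reachable
      rw [ha, Finset.mem_singleton] at hu hv
      exact huv (hu.trans hv.symm)
  · intro h
    have hbot : ∀ v w, (spanning G A).Reachable v w → v = w := by
      intro v w hr
      obtain ⟨p⟩ := hr
      cases p with
      | nil => rfl
      | cons hadj _ =>
        obtain ⟨⟨e, he, hge⟩, hne⟩ := (spanning_adj _ _ _ _).1 hadj
        have := h e he
        rw [hge] at this
        exact absurd (Sym2.mk_isDiag_iff.1 this) hne
    have hall : ∀ k ∈ tau G A, k = 1 := by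
      intro k hk
      rw [tau, Multiset.mem_map] at hk
      obtain ⟨b, hb, rfl⟩ := hk
      obtain ⟨v, rfl⟩ := (mem_blocks _ _ _).1 hb
      rw [Finset.card_eq_one]
      refine ⟨v, ?_⟩
      ext w
      rw [mem_cls, Finset.mem_singleton]
      exact ⟨fun hr => (hbot _ _ hr).symm, fun hr => hr ▸ SimpleGraph.Reachable.refl _⟩
    have h2 := Multiset.eq_replicate_card.2 hall
    have h3 := tau_sum G A
    rw [h2, Multiset.sum_replicate, smul_eq_mul, mul_one] at h3
    rw [h2, h3]

theorem cnt_ones (G : E → Sym2 V) (m : ℕ) :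
    cnt G m (Multiset.replicate (Fintype.card V) 1) =
      (Finset.univ.filter fun e : E => (G e).IsDiag).card.choose m := by
  rw [cnt, ← Finset.card_powersetCard]
  congr 1
  ext A
  rw [Finset.mem_filter, Finset.mem_powersetCard, tau_ones_iff]
  constructor
  · rintro ⟨_, h1, h2⟩
    exact ⟨fun e he => Finset.mem_filter.2 ⟨Finset.mem_univ _, h2 e he⟩, h1⟩
  · rintro ⟨h1, h2⟩
    exact ⟨Finset.mem_univ _, h2, fun e he => (Finset.mem_filter.1 (h1 he)).2⟩

theorem dd_ones (G : E → Sym2 V) (H : E' → Sym2 V') (hc : Fintype.card V = Fintype.card V')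
    (h1 : dd G H 1 (Multiset.replicate (Fintype.card V) 1) = 0) (m : ℕ) :
    dd G H m (Multiset.replicate (Fintype.card V) 1) = 0 := by
  rw [dd, cnt_ones G 1] at h1
  rw [dd, cnt_ones G m]
  rw [hc, cnt_ones H 1] at h1
  rw [hc, cnt_ones H m]
  rw [Nat.choose_one_right, Nat.choose_one_right] at h1
  have : (Finset.univ.filter fun e : E => (G e).IsDiag).card =
    (Finset.univ.filter fun e : E' => (H e).IsDiag).card := by omega
  rw [this, sub_self]

theorem card_tau_single (G : E → Sym2 V) (A : Finset E) (hA : A.card = 1) :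
    Fintype.card V ≤ Multiset.card (tau G A) + 1 := by
  obtain ⟨e, rfl⟩ := Finset.card_eq_one.1 hA
  by_cases hd : (G e).IsDiag
  · have : tau G {e} = Multiset.replicate (Fintype.card V) 1 := by
      rw [tau_ones_iff]
      intro f hf
      rw [Finset.mem_singleton] at hf
      rw [hf]
      exact hd
    rw [this, Multiset.card_replicate]
    omega
  · induction hge : G e using Sym2.ind with
    | _ u v =>
      rw [hge] at hd
      have huv : u ≠ v := fun h' => hd (Sym2.mk_isDiag_iff.2 h')
      have hadj : ∀ w z, (spanning G {e}).Adj w z → (w = u ∧ z = v) ∨ (w = v ∧ z = u) := by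
        intro w z h
        obtain ⟨⟨f, hf, hgf⟩, hne⟩ := (spanning_adj _ _ _ _).1 h
        rw [Finset.mem_singleton] at hf
        rw [hf, hge, Sym2.eq_iff] at hgf
        rcases hgf with ⟨a, b⟩ | ⟨a, b⟩
        · exact Or.inl ⟨a.symm, b.symm⟩
        · exact Or.inr ⟨b.symm, a.symm⟩
      have hreach : ∀ w z, (spanning G {e}).Walk w z →
          w = z ∨ (w = u ∧ z = v) ∨ (w = v ∧ z = u) := by
        intro w z p
        induction p with
        | nil => exact Or.inl rfl
        | @cons a b c h p ih =>
          rcases hadj _ _ h with ⟨h1, h2⟩ | ⟨h1, h2⟩ <;> rcases ih with h3 | ⟨h3, h4⟩ | ⟨h3, h4⟩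
          · exact Or.inr (Or.inl ⟨h1, h3 ▸ h2⟩)
          · exact absurd (h3.symm.trans h2) huv
          · exact Or.inl (h1.trans h4.symm)
          · exact Or.inr (Or.inr ⟨h1, h3 ▸ h2⟩)
          · exact Or.inl (h1.trans h4.symm)
          · exact absurd (h2.symm.trans h3) huv
      have h1 : (Finset.univ.erase v).card ≤ (blocks G {e}).card := by
        apply Finset.card_le_card_of_injOn (cls G {e})
        · intro w _
          exact (mem_blocks _ _ _).2 ⟨w, rfl⟩
        · intro w hw z hz hwz
          rw [Finset.mem_coe, Finset.mem_erase] at hw hz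
          obtain ⟨p⟩ := (cls_eq_iff _ _ _ _).1 hwz
          rcases hreach _ _ p with h | ⟨_, h⟩ | ⟨h, _⟩
          · exact h
          · exact absurd h hz.1
          · exact absurd h hw.1
      rw [Finset.card_erase_of_mem (Finset.mem_univ _), Finset.card_univ] at h1
      have h2 : Multiset.card (tau G {e}) = (blocks G {e}).card := by
        rw [tau, Multiset.card_map]
        rfl
      omega

theorem cnt_one_zero (G : E → Sym2 V) (t : Multiset ℕ)
    (ht : Multiset.card t + 1 < Fintype.card V) : cnt G 1 t = 0 := by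
  rw [cnt, Finset.card_eq_zero, Finset.filter_eq_empty_iff]
  rintro A _ ⟨h1, h2⟩
  have := card_tau_single G A h1
  rw [h2] at this
  omega

end Loops

section Pairs

variable {V E V' E' : Type} [Fintype V] [Fintype E] [Fintype V'] [Fintype E']

/-- edges inside `s` or inside its complement -/
noncomputable def FF (G : E → Sym2 V) (s : Finset V) : Finset E :=
  Finset.univ.filter fun e => (∀ v ∈ G e, v ∈ s) ∨ (∀ v ∈ G e, v ∉ s)

theorem sub_FF_iff (G : E → Sym2 V) (A : Finset E) (s : Finset V) :
    A ⊆ FF G s ↔ ∀ v w, (spanning G A).Reachable v w → (v ∈ s ↔ w ∈ s) := by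
  constructor
  · intro h v w hr
    obtain ⟨p⟩ := hr
    induction p with
    | nil => rfl
    | @cons a b c hadj p ih =>
      refine Iff.trans ?_ ih
      obtain ⟨⟨e, he, hge⟩, _⟩ := (spanning_adj _ _ _ _).1 hadj
      have := (Finset.mem_filter.1 (h he)).2
      rw [hge] at this
      rcases this with h1 | h1
      · exact ⟨fun _ => h1 _ (Sym2.mem_mk_right _ _), fun _ => h1 _ (Sym2.mem_mk_left _ _)⟩
      · exact ⟨fun h2 => absurd h2 (h1 _ (Sym2.mem_mk_left _ _)),
          fun h2 => absurd h2 (h1 _ (Sym2.mem_mk_right _ _))⟩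
  · intro h e he
    rw [FF, Finset.mem_filter]
    refine ⟨Finset.mem_univ _, ?_⟩
    induction hge : G e using Sym2.ind with
    | _ a b =>
      have hab : a ∈ s ↔ b ∈ s := by
        by_cases hne : a = b
        · rw [hne]
        · exact h a b ((spanning_adj _ _ _ _).2 ⟨⟨e, he, hge⟩, hne⟩ : (spanning G A).Adj a b).reachable
      by_cases ha : a ∈ s
      · left
        intro v hv
        rcases Sym2.mem_iff.1 hv with rfl | rfl
        · exact ha
        · exact hab.1 ha
      · right
        intro v hv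
        rcases Sym2.mem_iff.1 hv with rfl | rfl
        · exact ha
        · exact fun hb => ha (hab.2 hb)

theorem count_tau (G : E → Sym2 V) (A : Finset E) (k : ℕ) :
    (tau G A).count k = ((blocks G A).filter fun b => b.card = k).card := by
  rw [tau, Multiset.count_map, Finset.card_def, Finset.filter_val]
  congr 1
  apply Multiset.filter_congr
  intro b _
  exact eq_comm

/-- the number of pairs of vertices that are unions of blocks -/
def NN (t : Multiset ℕ) : ℕ := t.count 2 + (t.count 1).choose 2

theorem card_pairs (G : E → Sym2 V) (A : Finset E) :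
    ((Finset.powersetCard 2 (Finset.univ : Finset V)).filter fun s => A ⊆ FF G s).card =
      NN (tau G A) := by
  set S1 : Finset V := Finset.univ.filter fun v => (cls G A v).card = 1 with hS1
  have hself : ∀ v, v ∈ cls G A v := fun v => (mem_cls _ _ _ _).2 (SimpleGraph.Reachable.refl _)
  have hc1 : S1.card = (tau G A).count 1 := by
    rw [count_tau]
    apply Finset.card_bij (fun v _ => cls G A v)
    · intro v hv
      rw [hS1, Finset.mem_filter] at hv
      exact Finset.mem_filter.2 ⟨(mem_blocks _ _ _).2 ⟨v, rfl⟩, hv.2⟩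
    · intro v hv w _ hvw
      rw [hS1, Finset.mem_filter] at hv
      obtain ⟨a, ha⟩ := Finset.card_eq_one.1 hv.2
      have h1 := hself v
      have h2 := hself w
      rw [← hvw] at h2
      rw [ha, Finset.mem_singleton] at h1 h2
      rw [h1, h2]
    · intro b hb
      rw [Finset.mem_filter] at hb
      obtain ⟨v, rfl⟩ := (mem_blocks _ _ _).1 hb.1
      exact ⟨v, Finset.mem_filter.2 ⟨Finset.mem_univ _, hb.2⟩, rfl⟩
  have hset : ((Finset.powersetCard 2 (Finset.univ : Finset V)).filter fun s => A ⊆ FF G s) =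
      ((blocks G A).filter fun b => b.card = 2) ∪ Finset.powersetCard 2 S1 := by
    ext s
    rw [Finset.mem_filter, Finset.mem_powersetCard, Finset.mem_union, Finset.mem_filter,
      Finset.mem_powersetCard, sub_FF_iff]
    constructor
    · rintro ⟨⟨_, h2⟩, h3⟩
      by_cases hs : s ⊆ S1
      · exact Or.inr ⟨hs, h2⟩
      · left
        rw [Finset.not_subset] at hs
        obtain ⟨v, hv, hv1⟩ := hs
        have hv2 : (cls G A v).card ≠ 1 := fun h =>
          hv1 (Finset.mem_filter.2 ⟨Finset.mem_univ _, h⟩)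
        have hsub : cls G A v ⊆ s := by
          intro w hw
          exact (h3 v w ((mem_cls _ _ _ _).1 hw)).1 hv
        have hpos : 0 < (cls G A v).card := Finset.card_pos.2 ⟨v, hself v⟩
        have hle := Finset.card_le_card hsub
        have heq : cls G A v = s := Finset.eq_of_subset_of_card_le hsub (by omega)
        exact ⟨(mem_blocks _ _ _).2 ⟨v, heq⟩, h2⟩
    · rintro (⟨h1, h2⟩ | ⟨h1, h2⟩)
      · refine ⟨⟨Finset.subset_univ _, h2⟩, ?_⟩
        obtain ⟨u, rfl⟩ := (mem_blocks _ _ _).1 h1
        intro v w hvw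
        rw [mem_cls, mem_cls]
        exact ⟨fun h => h.trans hvw, fun h => h.trans hvw.symm⟩
      · refine ⟨⟨Finset.subset_univ _, h2⟩, ?_⟩
        have hone : ∀ v w, v ∈ s → (spanning G A).Reachable v w → v = w := by
          intro v w hv hr
          have := (Finset.mem_filter.1 (h1 hv)).2
          obtain ⟨a, ha⟩ := Finset.card_eq_one.1 this
          have h3 := hself v
          have h4 : w ∈ cls G A v := (mem_cls _ _ _ _).2 hr
          rw [ha, Finset.mem_singleton] at h3 h4
          rw [h3, h4]
        intro v w hvw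
        constructor
        · intro hv
          rw [← hone v w hv hvw]
          exact hv
        · intro hw
          rw [← hone w v hw hvw.symm]
          exact hw
  rw [hset, Finset.card_union_of_disjoint, Finset.card_powersetCard, hc1, count_tau, NN, count_tau,
    count_tau]
  rw [Finset.disjoint_left]
  intro s hs hs2
  rw [Finset.mem_filter] at hs
  rw [Finset.mem_powersetCard] at hs2
  obtain ⟨u, rfl⟩ := (mem_blocks _ _ _).1 hs.1
  have := (Finset.mem_filter.1 (hs2.1 (hself u))).2
  omega

theorem sum_NN (G : E → Sym2 V) (m : ℕ) :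
    ∑ A ∈ Finset.univ.filter (fun A : Finset E => A.card = m), NN (tau G A) =
      ∑ s ∈ Finset.powersetCard 2 (Finset.univ : Finset V), (FF G s).card.choose m := by
  simp only [← card_pairs, Finset.card_filter (fun s => _ ⊆ FF G s)]
  rw [Finset.sum_comm]
  apply Finset.sum_congr rfl
  intro s _
  rw [← Finset.card_filter, ← Finset.card_powersetCard]
  congr 1
  ext A
  simp only [Finset.mem_filter, Finset.mem_univ, true_and, Finset.mem_powersetCard]
  exact and_comm

end Pairs

section Norm

/-- A nonzero integer polynomial vanishing to order two at `1` cannot be proportional, with a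
factor above six, to an integer polynomial of length at most twenty. -/
theorem norm_lemma (D Z : Polynomial ℤ) (κ : ℝ) (hκ : 6 < κ)
    (hrel : ∀ i, (Z.coeff i : ℝ) = κ * D.coeff i)
    (hZ : ∑ i ∈ D.support, |Z.coeff i| ≤ 20) (h0 : D.eval 1 = 0)
    (h1 : D.derivative.eval 1 = 0) : D = 0 := by
  have hi : ∀ i ∈ D.support, 7 ≤ |Z.coeff i| := by
    intro i hi
    have hne : D.coeff i ≠ 0 := Polynomial.mem_support_iff.1 hi
    have h2 : (1 : ℝ) ≤ |(D.coeff i : ℝ)| := by
      have : 1 ≤ |D.coeff i| := Int.one_le_abs hne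
      exact_mod_cast this
    have h3 : (6 : ℝ) < |(Z.coeff i : ℝ)| := by
      rw [hrel, abs_mul, abs_of_pos (by linarith : (0 : ℝ) < κ)]
      nlinarith
    have h4 : (6 : ℤ) < |Z.coeff i| := by exact_mod_cast h3
    omega
  have hcard : D.support.card ≤ 2 := by
    have h2 := Finset.card_nsmul_le_sum D.support (fun i => |Z.coeff i|) 7 hi
    rw [nsmul_eq_mul] at h2
    have h3 : (D.support.card : ℤ) * 7 ≤ 20 := h2.trans hZ
    omega
  rw [Polynomial.eval_eq_sum, Polynomial.sum] at h0
  rw [Polynomial.derivative_eval, Polynomial.sum] at h1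
  simp only [one_pow, mul_one] at h0 h1
  have hc : D.support.card = 0 ∨ D.support.card = 1 ∨ D.support.card = 2 := by omega
  rcases hc with hc | hc | hc
  · rw [Finset.card_eq_zero, Polynomial.support_eq_empty] at hc
    exact hc
  · obtain ⟨i, hi⟩ := Finset.card_eq_one.1 hc
    rw [hi, Finset.sum_singleton] at h0
    have : i ∈ D.support := by rw [hi]; exact Finset.mem_singleton_self i
    exact absurd h0 (Polynomial.mem_support_iff.1 this)
  · obtain ⟨i, j, hij, hs⟩ := Finset.card_eq_two.1 hc
    rw [hs, Finset.sum_pair hij] at h0 h1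
    have hi : i ∈ D.support := by rw [hs]; simp
    have hi2 := Polynomial.mem_support_iff.1 hi
    have h3 : D.coeff i * ((i : ℤ) - j) = 0 := by
      have : D.coeff j = - D.coeff i := by linarith
      rw [this] at h1
      linarith
    rcases mul_eq_zero.1 h3 with h4 | h4
    · exact absurd h4 hi2
    · exact absurd (by omega : i = j) hij

variable {V E V' E' : Type} [Fintype V] [Fintype E] [Fintype V'] [Fintype E']

/-- the generating polynomial of the pairs of vertices -/
noncomputable def ZP (G : E → Sym2 V) : Polynomial ℤ :=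
  ∑ s ∈ Finset.powersetCard 2 (Finset.univ : Finset V), Polynomial.X ^ (FF G s).card

/-- the generating polynomial of the edge sets of a given type -/
noncomputable def CP (G : E → Sym2 V) (t : Multiset ℕ) : Polynomial ℤ :=
  ∑ A ∈ Finset.univ.filter (fun A : Finset E => tau G A = t), Polynomial.X ^ A.card

theorem CP_coeff (G : E → Sym2 V) (t : Multiset ℕ) (m : ℕ) :
    (CP G t).coeff m = cnt G m t := by
  rw [CP, Polynomial.finsetSum_coeff, cnt]
  simp only [Polynomial.coeff_X_pow]
  rw [← Finset.sum_filter, Finset.filter_filter, Finset.sum_const, nsmul_eq_mul, mul_one]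
  congr 2
  ext A
  simp only [Finset.mem_filter, Finset.mem_univ, true_and, eq_comm (a := m)]
  exact and_comm

theorem ZP_coeff (G : E → Sym2 V) (i : ℕ) :
    (ZP G).coeff i = ((Finset.powersetCard 2 (Finset.univ : Finset V)).filter
      fun s => (FF G s).card = i).card := by
  rw [ZP, Polynomial.finsetSum_coeff]
  simp only [Polynomial.coeff_X_pow]
  rw [Finset.card_filter]
  push_cast
  simp only [eq_comm (a := i)]

theorem ZP_sum (G : E → Sym2 V) (S : Finset ℕ) :
    ∑ i ∈ S, (ZP G).coeff i ≤ (Fintype.card V).choose 2 := by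
  simp only [ZP_coeff]
  have h : ∑ i ∈ S, ((Finset.powersetCard 2 (Finset.univ : Finset V)).filter
      fun s => (FF G s).card = i).card ≤ (Finset.powersetCard 2 (Finset.univ : Finset V)).card := by
    rw [← Finset.card_biUnion]
    · apply Finset.card_le_card
      intro s hs
      rw [Finset.mem_biUnion] at hs
      obtain ⟨i, _, hi⟩ := hs
      exact (Finset.mem_filter.1 hi).1
    · intro i _ j _ hij
      rw [Function.onFun, Finset.disjoint_left]
      intro s h1 h2
      exact hij ((Finset.mem_filter.1 h1).2.symm.trans (Finset.mem_filter.1 h2).2)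
  rw [Finset.card_powersetCard, Finset.card_univ] at h
  exact_mod_cast h

theorem ZP_comp_coeff (G : E → Sym2 V) (m : ℕ) :
    ((ZP G).comp (Polynomial.X + 1)).coeff m =
      ∑ s ∈ Finset.powersetCard 2 (Finset.univ : Finset V), ((FF G s).card.choose m : ℤ) := by
  rw [ZP, Polynomial.sum_comp, Polynomial.finsetSum_coeff]
  apply Finset.sum_congr rfl
  intro s _
  rw [Polynomial.X_pow_comp, Polynomial.coeff_X_add_one_pow]

/-- if the pair sums are proportional to the counts of one type, these counts agree -/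
theorem norm_apply (G : E → Sym2 V) (H : E' → Sym2 V') (hc : Fintype.card V = 5)
    (hc' : Fintype.card V' = 5) (t : Multiset ℕ) (κ : ℝ) (hκ : 6 < κ)
    (hrel : ∀ m, (∑ s ∈ Finset.powersetCard 2 (Finset.univ : Finset V),
        ((FF G s).card.choose m : ℝ)) - ∑ s ∈ Finset.powersetCard 2 (Finset.univ : Finset V'),
        ((FF H s).card.choose m : ℝ) = κ * dd G H m t)
    (h0 : dd G H 0 t = 0) (h1 : dd G H 1 t = 0) (m : ℕ) : dd G H m t = 0 := by
  set δ : Polynomial ℤ := CP G t - CP H t with hδ
  have hδc : ∀ m, δ.coeff m = dd G H m t := by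
    intro m
    rw [hδ, Polynomial.coeff_sub, CP_coeff, CP_coeff, dd]
  set D : Polynomial ℤ := δ.comp (Polynomial.X - 1) with hD
  set Z : Polynomial ℤ := ZP G - ZP H with hZ
  have e1 : (Z.comp (Polynomial.X + 1)).map (Int.castRingHom ℝ) =
      Polynomial.C κ * δ.map (Int.castRingHom ℝ) := by
    ext m
    rw [Polynomial.coeff_map, Polynomial.coeff_C_mul, Polynomial.coeff_map, hδc, hZ,
      Polynomial.sub_comp, Polynomial.coeff_sub, ZP_comp_coeff, ZP_comp_coeff]
    have := hrel m
    simp only [eq_intCast]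
    rw [← this]
    push_cast
    ring
  have e2 : Z.map (Int.castRingHom ℝ) = Polynomial.C κ * D.map (Int.castRingHom ℝ) := by
    have h2 := congrArg (fun p => p.comp (Polynomial.X - 1 : Polynomial ℝ)) e1
    simp only [Polynomial.map_comp, Polynomial.mul_comp, Polynomial.C_comp,
      Polynomial.comp_assoc] at h2
    rw [hD, Polynomial.map_comp]
    simpa using h2
  have e3 : ∀ i, (Z.coeff i : ℝ) = κ * D.coeff i := by
    intro i
    have := congrArg (fun p => Polynomial.coeff p i) e2
    simpa using this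
  have hbound : ∑ i ∈ D.support, |Z.coeff i| ≤ 20 := by
    have h2 : ∀ i, |Z.coeff i| ≤ (ZP G).coeff i + (ZP H).coeff i := by
      intro i
      rw [hZ, Polynomial.coeff_sub]
      have p1 : 0 ≤ (ZP G).coeff i := by rw [ZP_coeff]; positivity
      have p2 : 0 ≤ (ZP H).coeff i := by rw [ZP_coeff]; positivity
      rw [abs_le]
      constructor <;> linarith
    calc ∑ i ∈ D.support, |Z.coeff i| ≤ ∑ i ∈ D.support, ((ZP G).coeff i + (ZP H).coeff i) :=
          Finset.sum_le_sum fun i _ => h2 i
      _ ≤ 20 := by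
          rw [Finset.sum_add_distrib]
          have h3 := ZP_sum G D.support
          have h4 := ZP_sum H D.support
          rw [hc] at h3
          rw [hc'] at h4
          have : (Nat.choose 5 2 : ℤ) = 10 := by decide
          rw [this] at h3 h4
          linarith
  have hD0 : D.eval 1 = 0 := by
    rw [hD, Polynomial.eval_comp]
    simp only [Polynomial.eval_sub, Polynomial.eval_X, Polynomial.eval_one, sub_self]
    rw [← Polynomial.coeff_zero_eq_eval_zero, hδc, h0]
  have hD1 : D.derivative.eval 1 = 0 := by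
    rw [hD, Polynomial.derivative_comp]
    simp only [Polynomial.derivative_sub, Polynomial.derivative_X, Polynomial.derivative_one,
      sub_zero, one_mul, Polynomial.eval_comp, Polynomial.eval_sub, Polynomial.eval_X,
      Polynomial.eval_one, sub_self]
    rw [← Polynomial.coeff_zero_eq_eval_zero, Polynomial.coeff_derivative, hδc]
    simp [h1]
  have hDz := norm_lemma D Z κ hκ e3 hbound hD0 hD1
  have hδz : δ = 0 := by
    have h2 := congrArg (fun p => p.comp (Polynomial.X + 1 : Polynomial ℤ)) hDz
    simp only [hD, Polynomial.comp_assoc, Polynomial.zero_comp] at h2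
    simpa using h2
  rw [← hδc, hδz, Polynomial.coeff_zero]

end Norm

section Small

variable {V E V' E' : Type} [Fintype V] [Fintype E] [Fintype V'] [Fintype E']

/-- the basic relation in list form, at a real point -/
theorem rel_list (q : ℝ) (hq : 1 < q) (G : E → Sym2 V) (H : E' → Sym2 V')
    (h : ∀ x y : ℝ, B q G x y = B q H x y) (n : ℕ) (hn : Fintype.card V = n) (hn8 : n ≤ 8)
    (m : ℕ) (X : ℝ) :
    ((plist n n).map fun t : List ℕ => ((dd G H m (t : Multiset ℕ) : ℝ) * wt q (t : Multiset ℕ)) *
      (t.map fun k => X ^ k - 1).prod).sum = 0 := by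
  have hc := card_eq_of_B q hq G H h
  have h1 := rel_basic q hq G H h m (TT n) (fun A => by rw [← hn]; exact tau_mem_TT G A)
    (fun A => by rw [← hn, hc]; exact tau_mem_TT H A)
  have h2 := congrArg (Polynomial.eval X) h1
  rw [Polynomial.eval_finsetSum, Polynomial.eval_zero, TT,
    List.sum_toFinset _ (nodup_TT n hn8), List.map_map] at h2
  refine Eq.trans ?_ h2
  congr 1
  apply List.map_congr_left
  intro t _
  simp only [Function.comp_apply, Polynomial.eval_mul, Polynomial.eval_C]
  congr 1
  rw [PP, Polynomial.eval_multiset_prod]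
  simp [Function.comp_def]

theorem dd_zero_of_wt (q : ℝ) (hq : 1 < q) (t : Multiset ℕ) (ht : ∀ k ∈ t, 0 < k) (z : ℤ)
    (h : (z : ℝ) * wt q t = 0) : z = 0 := by
  have h1 := (wt_pos q hq t ht).ne'
  have := (mul_eq_zero.1 h).resolve_right h1
  exact_mod_cast this

theorem sum_dd_NN (q : ℝ) (hq : 1 < q) (G : E → Sym2 V) (H : E' → Sym2 V')
    (h : ∀ x y : ℝ, B q G x y = B q H x y) (n : ℕ) (hn : Fintype.card V = n) (hn8 : n ≤ 8)
    (m : ℕ) :
    ((plist n n).map fun t : List ℕ => (dd G H m (t : Multiset ℕ) : ℝ) *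
        (NN (t : Multiset ℕ) : ℝ)).sum =
      (∑ s ∈ Finset.powersetCard 2 (Finset.univ : Finset V), ((FF G s).card.choose m : ℝ)) -
      ∑ s ∈ Finset.powersetCard 2 (Finset.univ : Finset V'), ((FF H s).card.choose m : ℝ) := by
  have hc := card_eq_of_B q hq G H h
  have h1 := sum_dd G H m (TT n) (fun A => by rw [← hn]; exact tau_mem_TT G A)
    (fun A => by rw [← hn, hc]; exact tau_mem_TT H A) (R := ℝ) (fun t => (NN t : ℝ))
  have h2 := sum_NN G m
  have h3 := sum_NN H m
  have h2' : (∑ A ∈ Finset.univ.filter (fun A : Finset E => A.card = m), (NN (tau G A) : ℝ)) =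
      ∑ s ∈ Finset.powersetCard 2 (Finset.univ : Finset V), ((FF G s).card.choose m : ℝ) := by
    exact_mod_cast h2
  have h3' : (∑ A ∈ Finset.univ.filter (fun A : Finset E' => A.card = m), (NN (tau H A) : ℝ)) =
      ∑ s ∈ Finset.powersetCard 2 (Finset.univ : Finset V'), ((FF H s).card.choose m : ℝ) := by
    exact_mod_cast h3
  rw [h2', h3'] at h1
  rw [← h1, TT, List.sum_toFinset _ (nodup_TT n hn8), List.map_map]
  rfl

theorem dd_one_zero (G : E → Sym2 V) (H : E' → Sym2 V') (hc : Fintype.card V = Fintype.card V')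
    (t : Multiset ℕ) (ht : Multiset.card t + 1 < Fintype.card V) : dd G H 1 t = 0 := by
  rw [dd, cnt_one_zero G t ht, cnt_one_zero H t (hc ▸ ht)]
  rfl

theorem cnt_zero_of_ne (G : E → Sym2 V) (t : Multiset ℕ)
    (ht : t ≠ Multiset.replicate (Fintype.card V) 1) : cnt G 0 t = 0 := by
  rw [cnt, Finset.card_eq_zero, Finset.filter_eq_empty_iff]
  rintro A _ ⟨h1, h2⟩
  rw [Finset.card_eq_zero] at h1
  apply ht
  rw [← h2, tau_ones_iff, h1]
  simp

theorem case_five (q : ℝ) (hq : 1 < q) (G : E → Sym2 V) (H : E' → Sym2 V')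
    (hn : Fintype.card V = 5) (h : ∀ x y : ℝ, B q G x y = B q H x y) : U G = U H := by
  have hc := card_eq_of_B q hq G H h
  have hP : plist 5 5 = [[1, 1, 1, 1, 1], [2, 1, 1, 1], [2, 2, 1], [3, 1, 1], [3, 2], [4, 1],
    [5]] := by decide +kernel
  have lin : ∀ m, ((dd G H m ([5] : List ℕ) : ℝ) * wt q ([5] : List ℕ) = 0) ∧
      ((dd G H m ([3, 1, 1] : List ℕ) : ℝ) * wt q ([3, 1, 1] : List ℕ) =
        -4 * ((dd G H m ([1, 1, 1, 1, 1] : List ℕ) : ℝ) * wt q ([1, 1, 1, 1, 1] : List ℕ))) ∧
      ((dd G H m ([2, 2, 1] : List ℕ) : ℝ) * wt q ([2, 2, 1] : List ℕ) =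
        3 * ((dd G H m ([1, 1, 1, 1, 1] : List ℕ) : ℝ) * wt q ([1, 1, 1, 1, 1] : List ℕ))) ∧
      ((dd G H m ([4, 1] : List ℕ) : ℝ) * wt q ([4, 1] : List ℕ) =
        -3 * ((dd G H m ([2, 1, 1, 1] : List ℕ) : ℝ) * wt q ([2, 1, 1, 1] : List ℕ))) ∧
      ((dd G H m ([3, 2] : List ℕ) : ℝ) * wt q ([3, 2] : List ℕ) =
        2 * ((dd G H m ([2, 1, 1, 1] : List ℕ) : ℝ) * wt q ([2, 1, 1, 1] : List ℕ))) := by
    intro m
    have r := rel_list q hq G H h 5 hn (by norm_num) m
    rw [hP] at r
    have r2 := r 2
    have r3 := r 3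
    have r4 := r 4
    have r5 := r 5
    have r6 := r 6
    simp only [List.map_cons, List.map_nil, List.sum_cons, List.sum_nil, List.prod_cons,
      List.prod_nil] at r2 r3 r4 r5 r6
    norm_num [-Multiset.coe_singleton] at r2 r3 r4 r5 r6
    refine ⟨?_, ?_, ?_, ?_, ?_⟩ <;> linarith
  have hrep : (Multiset.replicate (Fintype.card V) 1 : Multiset ℕ) =
      (([1, 1, 1, 1, 1] : List ℕ) : Multiset ℕ) := by
    rw [hn]; rfl
  have d1 : ∀ m, dd G H m ([1, 1, 1, 1, 1] : List ℕ) = 0 := by
    have h1 : dd G H 1 ([1, 1, 1, 1, 1] : List ℕ) = 0 := by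
      apply dd_zero_of_wt q hq ([1, 1, 1, 1, 1] : List ℕ) (by decide)
      have h2 := (lin 1).2.1
      rw [dd_one_zero G H hc _ (by rw [hn]; decide)] at h2
      push_cast at h2
      linarith
    intro m
    have := dd_ones G H hc (by rw [hrep]; exact h1) m
    rw [hrep] at this
    exact this
  have d5 : ∀ m, dd G H m ([5] : List ℕ) = 0 := fun m =>
    dd_zero_of_wt q hq ([5] : List ℕ) (by decide) _ (lin m).1
  have d311 : ∀ m, dd G H m ([3, 1, 1] : List ℕ) = 0 := fun m =>
    dd_zero_of_wt q hq ([3, 1, 1] : List ℕ) (by decide) _ (by rw [(lin m).2.1, d1 m]; simp)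
  have d221 : ∀ m, dd G H m ([2, 2, 1] : List ℕ) = 0 := fun m =>
    dd_zero_of_wt q hq ([2, 2, 1] : List ℕ) (by decide) _ (by rw [(lin m).2.2.1, d1 m]; simp)
  have q1 : 0 < q - 1 := by linarith
  have q2 : 0 < q ^ 2 - 1 := by nlinarith
  have q3 : 0 < q ^ 3 - 1 := by nlinarith [pow_pos (by linarith : (0 : ℝ) < q) 2]
  set ρ : ℝ := (q ^ 3 - 1) / (q - 1) ^ 3 with hρ
  have hρ1 : 1 < ρ := by
    rw [hρ, one_lt_div (by positivity)]
    nlinarith
  have d32 : ∀ m, (dd G H m ([3, 2] : List ℕ) : ℝ) =
      2 * ρ * dd G H m ([2, 1, 1, 1] : List ℕ) := by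
    intro m
    have h1 := (lin m).2.2.2.2
    simp only [wt, Multiset.map_coe, Multiset.prod_coe, List.map_cons, List.map_nil,
      List.prod_cons, List.prod_nil, pow_one, mul_one] at h1
    rw [hρ]
    field_simp at h1 ⊢
    linarith
  have d2111 : ∀ m, dd G H m ([2, 1, 1, 1] : List ℕ) = 0 := by
    apply norm_apply G H hn (hc ▸ hn) _ (2 * ρ + 4) (by linarith)
    · intro m
      rw [← sum_dd_NN q hq G H h 5 hn (by norm_num) m, hP]
      simp only [List.map_cons, List.map_nil, List.sum_cons, List.sum_nil, d1 m, d5 m, d311 m,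
        d221 m, d32 m]
      have n1 : NN ([2, 1, 1, 1] : List ℕ) = 4 := by decide +kernel
      have n2 : NN ([3, 2] : List ℕ) = 1 := by decide +kernel
      have n3 : NN ([4, 1] : List ℕ) = 0 := by decide +kernel
      rw [n1, n2, n3]
      push_cast
      ring
    · have hne : (([2, 1, 1, 1] : List ℕ) : Multiset ℕ) ≠
          Multiset.replicate (Fintype.card V) 1 := by rw [hrep]; decide
      rw [dd, cnt_zero_of_ne G _ hne, cnt_zero_of_ne H _ (hc ▸ hne)]
      rfl
    · have h1 := d32 1
      rw [dd_one_zero G H hc _ (by rw [hn]; decide)] at h1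
      have h2 : (0 : ℝ) < 2 * ρ := by linarith
      have h3 : (dd G H 1 ([2, 1, 1, 1] : List ℕ) : ℝ) = 0 := by
        push_cast at h1
        rcases mul_eq_zero.1 h1.symm with h4 | h4
        · linarith
        · exact h4
      exact_mod_cast h3
  have d32' : ∀ m, dd G H m ([3, 2] : List ℕ) = 0 := by
    intro m
    have h1 := d32 m
    rw [d2111 m] at h1
    simp only [Int.cast_zero, mul_zero] at h1
    exact_mod_cast h1
  have d41 : ∀ m, dd G H m ([4, 1] : List ℕ) = 0 := fun m =>
    dd_zero_of_wt q hq ([4, 1] : List ℕ) (by decide) _ (by rw [(lin m).2.2.2.1, d2111 m]; simp)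
  apply U_eq_of_dd G H hc
  intro m t ht
  rw [hn, TT, hP, List.mem_toFinset] at ht
  simp only [List.map_cons, List.map_nil, List.mem_cons, List.not_mem_nil, or_false] at ht
  rcases ht with rfl | rfl | rfl | rfl | rfl | rfl | rfl
  · exact d1 m
  · exact d2111 m
  · exact d221 m
  · exact d311 m
  · exact d32' m
  · exact d41 m
  · exact d5 m

theorem case_four (q : ℝ) (hq : 1 < q) (G : E → Sym2 V) (H : E' → Sym2 V')
    (hn : Fintype.card V = 4) (h : ∀ x y : ℝ, B q G x y = B q H x y) : U G = U H := by
  have hc := card_eq_of_B q hq G H h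
  have hP : plist 4 4 = [[1, 1, 1, 1], [2, 1, 1], [2, 2], [3, 1], [4]] := by decide +kernel
  have lin : ∀ m, ((dd G H m ([4] : List ℕ) : ℝ) * wt q ([4] : List ℕ) = 0) ∧
      ((dd G H m ([2, 1, 1] : List ℕ) : ℝ) * wt q ([2, 1, 1] : List ℕ) = 0) ∧
      ((dd G H m ([3, 1] : List ℕ) : ℝ) * wt q ([3, 1] : List ℕ) =
        -4 * ((dd G H m ([1, 1, 1, 1] : List ℕ) : ℝ) * wt q ([1, 1, 1, 1] : List ℕ))) ∧
      ((dd G H m ([2, 2] : List ℕ) : ℝ) * wt q ([2, 2] : List ℕ) =
        3 * ((dd G H m ([1, 1, 1, 1] : List ℕ) : ℝ) * wt q ([1, 1, 1, 1] : List ℕ))) := by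
    intro m
    have r := rel_list q hq G H h 4 hn (by norm_num) m
    rw [hP] at r
    have r2 := r 2
    have r3 := r 3
    have r4 := r 4
    have r5 := r 5
    simp only [List.map_cons, List.map_nil, List.sum_cons, List.sum_nil, List.prod_cons,
      List.prod_nil] at r2 r3 r4 r5
    norm_num [-Multiset.coe_singleton] at r2 r3 r4 r5
    refine ⟨?_, ?_, ?_, ?_⟩ <;> linarith
  have hrep : (Multiset.replicate (Fintype.card V) 1 : Multiset ℕ) =
      (([1, 1, 1, 1] : List ℕ) : Multiset ℕ) := by
    rw [hn]; rfl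
  have d1 : ∀ m, dd G H m ([1, 1, 1, 1] : List ℕ) = 0 := by
    have h1 : dd G H 1 ([1, 1, 1, 1] : List ℕ) = 0 := by
      apply dd_zero_of_wt q hq ([1, 1, 1, 1] : List ℕ) (by decide)
      have h2 := (lin 1).2.2.1
      rw [dd_one_zero G H hc _ (by rw [hn]; decide)] at h2
      push_cast at h2
      linarith
    intro m
    have := dd_ones G H hc (by rw [hrep]; exact h1) m
    rw [hrep] at this
    exact this
  apply U_eq_of_dd G H hc
  intro m t ht
  rw [hn, TT, hP, List.mem_toFinset] at ht
  simp only [List.map_cons, List.map_nil, List.mem_cons, List.not_mem_nil, or_false] at ht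
  rcases ht with rfl | rfl | rfl | rfl | rfl
  · exact d1 m
  · exact dd_zero_of_wt q hq ([2, 1, 1] : List ℕ) (by decide) _ (lin m).2.1
  · exact dd_zero_of_wt q hq ([2, 2] : List ℕ) (by decide) _ (by rw [(lin m).2.2.2, d1 m]; simp)
  · exact dd_zero_of_wt q hq ([3, 1] : List ℕ) (by decide) _ (by rw [(lin m).2.2.1, d1 m]; simp)
  · exact dd_zero_of_wt q hq ([4] : List ℕ) (by decide) _ (lin m).1

theorem case_three (q : ℝ) (hq : 1 < q) (G : E → Sym2 V) (H : E' → Sym2 V')
    (hn : Fintype.card V ≤ 3) (h : ∀ x y : ℝ, B q G x y = B q H x y) : U G = U H := by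
  have hc := card_eq_of_B q hq G H h
  apply U_eq_of_dd G H hc
  intro m t ht
  obtain ⟨n, hn'⟩ : ∃ n, Fintype.card V = n := ⟨_, rfl⟩
  rw [hn'] at hn ht
  have r := rel_list q hq G H h n hn' (by omega) m
  have r2 := r 2
  have r3 := r 3
  have r4 := r 4
  rw [TT, List.mem_toFinset] at ht
  apply dd_zero_of_wt q hq t (TT_pos n (by omega) t (by
    rw [TT, List.mem_toFinset]; exact ht)).1
  interval_cases n
  · have hP : plist 0 0 = [[]] := by decide +kernel
    rw [hP] at r2 ht
    simp only [List.map_cons, List.map_nil, List.sum_cons, List.sum_nil, List.prod_cons,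
      List.prod_nil] at r2
    norm_num [-Multiset.coe_singleton] at r2
    simp only [List.map_cons, List.map_nil, List.mem_cons, List.not_mem_nil, or_false] at ht
    subst ht
    simpa using r2
  · have hP : plist 1 1 = [[1]] := by decide +kernel
    rw [hP] at r2 ht
    simp only [List.map_cons, List.map_nil, List.sum_cons, List.sum_nil, List.prod_cons,
      List.prod_nil] at r2
    norm_num [-Multiset.coe_singleton] at r2
    simp only [List.map_cons, List.map_nil, List.mem_cons, List.not_mem_nil, or_false] at ht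
    subst ht
    simpa using r2
  · have hP : plist 2 2 = [[1, 1], [2]] := by decide +kernel
    rw [hP] at r2 r3 ht
    simp only [List.map_cons, List.map_nil, List.sum_cons, List.sum_nil, List.prod_cons,
      List.prod_nil] at r2 r3
    norm_num [-Multiset.coe_singleton] at r2 r3
    simp only [List.map_cons, List.map_nil, List.mem_cons, List.not_mem_nil, or_false] at ht
    rcases ht with rfl | rfl <;> linarith
  · have hP : plist 3 3 = [[1, 1, 1], [2, 1], [3]] := by decide +kernel
    rw [hP] at r2 r3 r4 ht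
    simp only [List.map_cons, List.map_nil, List.sum_cons, List.sum_nil, List.prod_cons,
      List.prod_nil] at r2 r3 r4
    norm_num [-Multiset.coe_singleton] at r2 r3 r4
    simp only [List.map_cons, List.map_nil, List.mem_cons, List.not_mem_nil, or_false] at ht
    rcases ht with rfl | rfl | rfl <;> linarith

theorem case_all (q : ℝ) (hq : 1 < q) (G : E → Sym2 V) (H : E' → Sym2 V')
    (hn : Fintype.card V ≤ 5) (h : ∀ x y : ℝ, B q G x y = B q H x y) : U G = U H := by
  rcases (by omega : Fintype.card V ≤ 3 ∨ Fintype.card V = 4 ∨ Fintype.card V = 5) with h1 | h1 | h1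
  · exact case_three q hq G H h1 h
  · exact case_four q hq G H h1 h
  · exact case_five q hq G H h1 h

end Small

section Colour

variable {V E V' E' : Type} [Fintype V] [Fintype E] [Fintype V'] [Fintype E']

omit [Fintype V] in
theorem mem_mono (G : E → Sym2 V) {C : Type} (c : V → C) (e : E) :
    e ∈ mono G c ↔ ∀ u ∈ G e, ∀ v ∈ G e, c u = c v := by
  simp [mono]

theorem sub_mono_iff (G : E → Sym2 V) (A : Finset E) {C : Type} (c : V → C) :
    A ⊆ mono G c ↔ ∀ v w, (spanning G A).Reachable v w → c v = c w := by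
  constructor
  · intro h v w hr
    obtain ⟨p⟩ := hr
    induction p with
    | nil => rfl
    | @cons a b d hadj p ih =>
      refine Eq.trans ?_ ih
      obtain ⟨⟨e, he, hge⟩, _⟩ := (spanning_adj _ _ _ _).1 hadj
      have := (mem_mono _ _ _).1 (h he)
      rw [hge] at this
      exact this _ (Sym2.mem_mk_left _ _) _ (Sym2.mem_mk_right _ _)
  · intro h e he
    rw [mem_mono]
    induction hge : G e using Sym2.ind with
    | _ a b =>
      have hab : c a = c b := by
        by_cases hne : a = b
        · rw [hne]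
        · exact h a b ((spanning_adj _ _ _ _).2 ⟨⟨e, he, hge⟩, hne⟩ : (spanning G A).Adj a b).reachable
      intro u hu v hv
      rcases Sym2.mem_iff.1 hu with rfl | rfl <;> rcases Sym2.mem_iff.1 hv with rfl | rfl
      · rfl
      · exact hab
      · exact hab.symm
      · rfl

theorem colour_sum (G : E → Sym2 V) (A : Finset E) (x : ℕ) {R : Type} [CommRing R] (T : R) :
    ∑ c ∈ Finset.univ.filter (fun c : V → Fin x => A ⊆ mono G c), T ^ (∑ v, (c v : ℕ)) =
      ((tau G A).map fun k => ∑ i ∈ Finset.range x, (T ^ k) ^ i).prod := by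
  have h1 : ((tau G A).map fun k => ∑ i ∈ Finset.range x, (T ^ k) ^ i).prod =
      ∏ b : {b // b ∈ blocks G A}, ∑ i : Fin x, (T ^ b.1.card) ^ (i : ℕ) := by
    rw [tau, Multiset.map_map]
    simp only [Function.comp_def]
    change ∏ b ∈ blocks G A, ∑ i ∈ Finset.range x, (T ^ b.card) ^ i = _
    rw [← Finset.prod_coe_sort]
    apply Finset.prod_congr rfl
    intro b _
    rw [Finset.sum_range]
  rw [h1, Finset.prod_univ_sum]
  have hcb : ∀ v, cls G A v ∈ blocks G A := fun v => (mem_blocks _ _ _).2 ⟨v, rfl⟩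
  symm
  apply Finset.sum_bij (fun (f : {b // b ∈ blocks G A} → Fin x) _ => fun v : V =>
    f ⟨cls G A v, hcb v⟩)
  · intro f _
    rw [Finset.mem_filter]
    refine ⟨Finset.mem_univ _, ?_⟩
    rw [sub_mono_iff]
    intro v w hvw
    have : cls G A v = cls G A w := (cls_eq_iff _ _ _ _).2 hvw
    simp only [this]
  · intro f _ g _ hfg
    funext ⟨b, hb⟩
    obtain ⟨v, rfl⟩ := (mem_blocks _ _ _).1 hb
    exact congrFun hfg v
  · intro c hc
    rw [Finset.mem_filter, sub_mono_iff] at hc
    have hch : ∀ b : {b // b ∈ blocks G A}, ∃ v, cls G A v = b.1 := fun b =>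
      (mem_blocks _ _ _).1 b.2
    choose g hg using hch
    refine ⟨fun b => c (g b), by simp, ?_⟩
    funext v
    apply hc.2
    exact (cls_eq_iff _ _ _ _).1 (hg ⟨cls G A v, hcb v⟩)
  · intro f _
    rw [← Finset.prod_pow_eq_pow_sum]
    rw [← Finset.prod_fiberwise_of_maps_to (s := (Finset.univ : Finset V))
      (t := (Finset.univ : Finset {b // b ∈ blocks G A}))
      (g := fun v => (⟨cls G A v, hcb v⟩ : {b // b ∈ blocks G A}))
      (fun _ _ => Finset.mem_univ _)]
    apply Finset.prod_congr rfl
    intro b _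
    rw [Finset.prod_congr rfl (g := fun _ => T ^ (f b : ℕ))]
    · rw [Finset.prod_const]
      have : (Finset.univ.filter fun v : V => (⟨cls G A v, hcb v⟩ : {b // b ∈ blocks G A}) = b).card
          = b.1.card := by
        rw [← fiber_card G A b.1 b.2]
        congr 1
        ext v
        simp only [Finset.mem_filter, Finset.mem_univ, true_and, Subtype.ext_iff]
      rw [this, ← pow_mul, ← pow_mul, mul_comm]
    · intro v hv
      show T ^ ((f ⟨cls G A v, hcb v⟩ : Fin x) : ℕ) = _
      rw [(Finset.mem_filter.1 hv).2]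

theorem sum_pow_sub (F : Finset E) (y : ℝ) :
    ∑ A ∈ Finset.univ.filter (fun A : Finset E => A ⊆ F), y ^ A.card = (1 + y) ^ F.card := by
  have h := Finset.sum_pow_mul_eq_add_pow y 1 F
  have h2 : Finset.univ.filter (fun A : Finset E => A ⊆ F) = F.powerset := by
    ext A; simp
  rw [h2, add_comm, ← h]
  simp

/-- the colouring expansion of the q-dichromate -/
theorem B_colour (q : ℝ) (hq : 1 < q) (G : E → Sym2 V) (x : ℕ) (y : ℝ) :
    B q G x y = ∑ c : V → Fin x, q ^ (∑ v, (c v : ℕ)) * (1 + y) ^ (mono G c).card := by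
  have hk : ∀ k : ℕ, 0 < k → qnum (q ^ k) x = ∑ i ∈ Finset.range x, (q ^ k) ^ i := by
    intro k hk
    have h1 : (1 : ℝ) < q ^ k := one_lt_pow₀ hq hk.ne'
    rw [qnum, Real.rpow_natCast, geom_sum_eq h1.ne']
  have h1 : ∀ A : Finset E, ((tau G A).map fun k => qnum (q ^ k) x).prod =
      ∑ c ∈ Finset.univ.filter (fun c : V → Fin x => A ⊆ mono G c), q ^ (∑ v, (c v : ℕ)) := by
    intro A
    rw [colour_sum]
    congr 1
    apply Multiset.map_congr rfl
    intro k hk'
    exact hk k (tau_pos G A k hk')
  rw [B]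
  simp only [h1, Finset.sum_filter, Finset.mul_sum]
  rw [Finset.sum_comm]
  apply Finset.sum_congr rfl
  intro c _
  rw [← sum_pow_sub (mono G c) y, Finset.mul_sum, Finset.sum_filter]
  apply Finset.sum_congr rfl
  intro A _
  by_cases hA : A ⊆ mono G c
  · simp only [hA, if_true]
    ring
  · simp only [hA, if_false, mul_zero]

end Colour

section Exceptional

variable {V E V' E' : Type} [Fintype V] [Fintype E] [Fintype V'] [Fintype E']

/-- the level polynomials of the colouring expansion -/
noncomputable def LP (G : E → Sym2 V) (x j : ℕ) : Polynomial ℤ :=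
  ∑ c ∈ Finset.univ.filter (fun c : V → Fin x => (mono G c).card = j),
    Polynomial.X ^ (∑ v, (c v : ℕ))

theorem LP_coeff (G : E → Sym2 V) (x j i : ℕ) :
    0 ≤ (LP G x j).coeff i ∧ (LP G x j).coeff i ≤ (x : ℤ) ^ Fintype.card V := by
  rw [LP, Polynomial.finsetSum_coeff]
  simp only [Polynomial.coeff_X_pow]
  constructor
  · apply Finset.sum_nonneg
    intro c _
    split_ifs <;> norm_num
  · calc ∑ c ∈ Finset.univ.filter (fun c : V → Fin x => (mono G c).card = j),
          (if i = ∑ v, (c v : ℕ) then (1 : ℤ) else 0)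
        ≤ ∑ c ∈ Finset.univ.filter (fun c : V → Fin x => (mono G c).card = j), (1 : ℤ) := by
          apply Finset.sum_le_sum
          intro c _
          split_ifs <;> norm_num
      _ ≤ ∑ c : V → Fin x, (1 : ℤ) :=
          Finset.sum_le_sum_of_subset_of_nonneg (Finset.filter_subset _ _) (by intros; norm_num)
      _ = (x : ℤ) ^ Fintype.card V := by
          simp [Finset.card_univ]

theorem LP_degree (G : E → Sym2 V) (x j : ℕ) :
    (LP G x j).natDegree ≤ Fintype.card V * x := by
  rw [LP]
  apply Polynomial.natDegree_sum_le_of_forall_le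
  intro c _
  rw [Polynomial.natDegree_X_pow]
  calc ∑ v, (c v : ℕ) ≤ ∑ _v : V, x := Finset.sum_le_sum fun v _ => (c v).2.le
    _ = Fintype.card V * x := by simp [Finset.card_univ]

theorem B_LP (q : ℝ) (hq : 1 < q) (G : E → Sym2 V) (x : ℕ) (y : ℝ) (M : ℕ)
    (hM : Fintype.card E < M) :
    B q G x y = ∑ j ∈ Finset.range M, Polynomial.aeval q (LP G x j) * (1 + y) ^ j := by
  rw [B_colour q hq]
  rw [← Finset.sum_fiberwise_of_maps_to (s := (Finset.univ : Finset (V → Fin x)))
    (t := Finset.range M) (g := fun c => (mono G c).card)]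
  · apply Finset.sum_congr rfl
    intro j _
    rw [LP, map_sum, Finset.sum_mul]
    apply Finset.sum_congr rfl
    intro c hc
    rw [(Finset.mem_filter.1 hc).2, map_pow, Polynomial.aeval_X]
  · intro c _
    rw [Finset.mem_range]
    exact lt_of_le_of_lt ((Finset.card_le_univ _)) hM

/-- the exceptional set for graphs with `n` vertices -/
def Exc (n : ℕ) : Set ℝ :=
  {q | ∃ p : Polynomial ℤ, p ≠ 0 ∧ p.natDegree ≤ n * n ∧
    (∀ i, p.coeff i ∈ Set.Icc (-(n : ℤ) ^ n) ((n : ℤ) ^ n)) ∧ Polynomial.aeval q p = 0}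

theorem Exc_finite (n : ℕ) : (Exc n).Finite := by
  apply Set.Finite.subset (Polynomial.bUnion_roots_finite (Int.castRingHom ℝ) (n * n)
    (Set.finite_Icc (-(n : ℤ) ^ n) ((n : ℤ) ^ n)))
  rintro q ⟨p, hp, hd, hc, h0⟩
  simp only [Set.mem_iUnion]
  refine ⟨p, ⟨hd, hc⟩, ?_⟩
  rw [Finset.mem_coe, Multiset.mem_toFinset, Polynomial.mem_roots]
  · rw [Polynomial.IsRoot.def, Polynomial.eval_map]
    exact h0
  · rw [Ne, Polynomial.map_eq_zero_iff (RingHom.injective_int (Int.castRingHom ℝ))]
    exact hp

theorem Exc_algebraic (n : ℕ) (q : ℝ) (h : q ∈ Exc n) : IsAlgebraic ℤ q := by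
  obtain ⟨p, hp, _, _, h0⟩ := h
  exact ⟨p, hp, h0⟩

theorem LP_eq (n : ℕ) (q : ℝ) (hq : 1 < q) (hE : q ∉ Exc n) (G : E → Sym2 V) (H : E' → Sym2 V')
    (hn : Fintype.card V = n) (h : ∀ x y : ℝ, B q G x y = B q H x y) (x j : ℕ) (hx : x ≤ n) :
    LP G x j = LP H x j := by
  have hc := card_eq_of_B q hq G H h
  set M := max (Fintype.card E) (max (Fintype.card E') j) + 1 with hM
  have hM1 : Fintype.card E < M := by omega
  have hM2 : Fintype.card E' < M := by omega
  have hjM : j < M := by omega
  have hp : (∑ j ∈ Finset.range M, Polynomial.C (Polynomial.aeval q (LP G x j)) *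
      Polynomial.X ^ j) = ∑ j ∈ Finset.range M, Polynomial.C (Polynomial.aeval q (LP H x j)) *
      (Polynomial.X ^ j : Polynomial ℝ) := by
    apply Polynomial.funext
    intro t
    have := h x (t - 1)
    rw [B_LP q hq G x _ M hM1, B_LP q hq H x _ M hM2] at this
    simp only [Polynomial.eval_finsetSum, Polynomial.eval_mul, Polynomial.eval_C,
      Polynomial.eval_pow, Polynomial.eval_X]
    simpa using this
  have h2 := congrArg (fun p => Polynomial.coeff p j) hp
  simp only [Polynomial.finsetSum_coeff, Polynomial.coeff_C_mul_X_pow] at h2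
  rw [Finset.sum_ite_eq, Finset.sum_ite_eq, if_pos (Finset.mem_range.2 hjM),
    if_pos (Finset.mem_range.2 hjM)] at h2
  by_contra hne
  apply hE
  refine ⟨LP G x j - LP H x j, sub_ne_zero.2 hne, ?_, ?_, ?_⟩
  · refine (Polynomial.natDegree_sub_le _ _).trans (max_le ?_ ?_)
    · refine (LP_degree G x j).trans ?_
      rw [hn]
      exact Nat.mul_le_mul_left n hx
    · refine (LP_degree H x j).trans ?_
      rw [← hc, hn]
      exact Nat.mul_le_mul_left n hx
  · intro i
    obtain ⟨a1, a2⟩ := LP_coeff G x j i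
    obtain ⟨b1, b2⟩ := LP_coeff H x j i
    rw [← hc] at b2
    rw [hn] at a2 b2
    have hxn : (x : ℤ) ^ n ≤ (n : ℤ) ^ n := pow_le_pow_left₀ (by positivity) (by exact_mod_cast hx) n
    rw [Polynomial.coeff_sub, Set.mem_Icc]
    constructor <;> linarith
  · rw [map_sub, h2, sub_self]

theorem B_all (n : ℕ) (q : ℝ) (hq : 1 < q) (hE : q ∉ Exc n) (G : E → Sym2 V) (H : E' → Sym2 V')
    (hn : Fintype.card V = n) (h : ∀ x y : ℝ, B q G x y = B q H x y) (T : ℝ) (hT : 1 < T)
    (x y : ℝ) : B T G x y = B T H x y := by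
  have hc := card_eq_of_B q hq G H h
  have hT0 : 0 < T := by linarith
  have key : ∀ {W F : Type} [Fintype W] [Fintype F] (K : F → Sym2 W) (x : ℝ),
      B T K x y = Polynomial.eval (T ^ x) (∑ A : Finset F,
        Polynomial.C (y ^ A.card * wt T (tau K A)) * PP (tau K A)) := by
    intro W F _ _ K x
    have hk : ∀ k : ℕ, qnum (T ^ k) x = ((T ^ x) ^ k - 1) / (T ^ k - 1) := by
      intro k
      rw [qnum, ← Real.rpow_natCast, ← Real.rpow_mul hT0.le, mul_comm, Real.rpow_mul hT0.le,
        Real.rpow_natCast, Real.rpow_natCast]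
    rw [B, Polynomial.eval_finsetSum]
    apply Finset.sum_congr rfl
    intro A _
    simp only [hk]
    have := PX_eq T (T ^ x) (tau K A)
    rw [PX] at this
    rw [this, Polynomial.eval_mul, Polynomial.eval_C, mul_assoc]
  have hdeg : ∀ {W F : Type} [Fintype W] [Fintype F] (K : F → Sym2 W) (hW : Fintype.card W = n),
      (∑ A : Finset F, Polynomial.C (y ^ A.card * wt T (tau K A)) * PP (tau K A)).natDegree ≤ n := by
    intro W F _ _ K hW
    apply Polynomial.natDegree_sum_le_of_forall_le
    intro A _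
    refine (Polynomial.natDegree_C_mul_le _ _).trans ?_
    rw [(PP_natDegree _ (tau_pos K A)).2, tau_sum, hW]
  have hpoly : (∑ A : Finset E, Polynomial.C (y ^ A.card * wt T (tau G A)) * PP (tau G A)) -
      (∑ A : Finset E', Polynomial.C (y ^ A.card * wt T (tau H A)) * PP (tau H A)) = 0 := by
    apply Polynomial.eq_zero_of_natDegree_lt_card_of_eval_eq_zero _
      (f := fun i : Fin (n + 1) => T ^ (i : ℕ))
    · intro i j hij
      exact Fin.ext (pow_right_injective₀ hT0 hT.ne' hij)
    · intro i
      rw [Polynomial.eval_sub]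
      have e1 := key G (i : ℕ)
      have e2 := key H (i : ℕ)
      rw [Real.rpow_natCast] at e1 e2
      rw [← e1, ← e2, B_LP T hT G i y (max (Fintype.card E) (Fintype.card E') + 1) (by omega),
        B_LP T hT H i y (max (Fintype.card E) (Fintype.card E') + 1) (by omega), sub_eq_zero]
      apply Finset.sum_congr rfl
      intro j _
      rw [LP_eq n q hq hE G H hn h i j (by omega)]
    · rw [Fintype.card_fin]
      refine lt_of_le_of_lt (Polynomial.natDegree_sub_le _ _) ?_
      have := hdeg G hn
      have := hdeg H (hc ▸ hn)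
      omega
  rw [key G x, key H x, sub_eq_zero.1 hpoly]

end Exceptional

section Final

variable {V E V' E' : Type} [Fintype V] [Fintype E] [Fintype V'] [Fintype E']

theorem case_generic (G : E → Sym2 V) (H : E' → Sym2 V') (hn : Fintype.card V ≤ 8)
    (h : ∀ T : ℝ, 1 < T → ∀ x y : ℝ, B T G x y = B T H x y) : U G = U H := by
  have hc := card_eq_of_B 2 (by norm_num) G H (h 2 (by norm_num))
  apply U_eq_of_dd G H hc
  intro m
  have key : ∀ l : ℕ, ∀ t ∈ TT (Fintype.card V), Multiset.card t < l → dd G H m t = 0 := by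
    intro l
    induction l with
    | zero => intro t _ h0; omega
    | succ l ih =>
      intro t ht htl
      by_cases hlt : Multiset.card t < l
      · exact ih t ht hlt
      have hle : Multiset.card t = l := by omega
      have hns := ns_all (Fintype.card V) l hn (hle ▸ (TT_pos _ hn t ht).2)
        (fun t => (dd G H m t : ℝ)) (by
          intro b hb
          have h1 := top_level (TT (Fintype.card V)) (fun t => (dd G H m t : ℝ) * wt b t)
            (rel_basic b hb G H (h b hb) m _ (tau_mem_TT G)
              (fun A => by rw [hc]; exact tau_mem_TT H A)) l (by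
            intro t ht hc
            simp [ih t ht hc])
          rw [sum_TT _ _ hn] at h1
          refine Eq.trans ?_ h1
          congr 1
          apply List.map_congr_left
          intro t _
          rw [wk_eq]
          ring)
      obtain ⟨s, hs, hs2⟩ := mem_pl_of_TT _ t ht
      rw [hle] at hs
      have := hns s hs
      rw [hs2] at this
      exact_mod_cast this
  intro t ht
  exact key (Multiset.card t + 1) t ht (Nat.lt_succ_self _)

theorem case_finite :
    ∃ S : Set ℝ, S.Finite ∧ (∀ s ∈ S, IsAlgebraic ℤ s) ∧ ∀ q : ℝ, 1 < q → q ∉ S →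
      ∀ (V E V' E' : Type) [Fintype V] [Fintype E] [Fintype V'] [Fintype E']
        (G : E → Sym2 V) (H : E' → Sym2 V'), Fintype.card V ≤ 8 →
        (∀ x y : ℝ, B q G x y = B q H x y) → U G = U H := by
  refine ⟨⋃ n ∈ Finset.range 9, Exc n, ?_, ?_, ?_⟩
  · exact Set.Finite.biUnion (Finset.finite_toSet _) fun n _ => Exc_finite n
  · intro s hs
    simp only [Set.mem_iUnion] at hs
    obtain ⟨n, _, hn⟩ := hs
    exact Exc_algebraic n s hn
  · intro q hq hS V E V' E' _ _ _ _ G H hn h
    apply case_generic G H hn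
    intro T hT x y
    apply B_all (Fintype.card V) q hq _ G H rfl h T hT
    intro hE
    apply hS
    simp only [Set.mem_iUnion]
    exact ⟨Fintype.card V, Finset.mem_range.2 (by omega), hE⟩

end Final

section General

variable {V E V' E' : Type} [Fintype V] [Fintype E] [Fintype V'] [Fintype E']

/-- all coefficients of the level polynomials agree -/
theorem LP_eq_all (G : E → Sym2 V) (H : E' → Sym2 V')
    (h : ∀ T : ℝ, 1 < T → ∀ x y : ℝ, B T G x y = B T H x y) (x j : ℕ) :
    LP G x j = LP H x j := by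
  set M := max (Fintype.card E) (max (Fintype.card E') j) + 1 with hM
  have hM1 : Fintype.card E < M := by omega
  have hM2 : Fintype.card E' < M := by omega
  have hjM : j < M := by omega
  have key : ∀ T : ℝ, 1 < T → Polynomial.aeval T (LP G x j) = Polynomial.aeval T (LP H x j) := by
    intro T hT
    have hp : (∑ j ∈ Finset.range M, Polynomial.C (Polynomial.aeval T (LP G x j)) *
        Polynomial.X ^ j) = ∑ j ∈ Finset.range M, Polynomial.C (Polynomial.aeval T (LP H x j)) *
        (Polynomial.X ^ j : Polynomial ℝ) := by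
      apply Polynomial.funext
      intro t
      have := h T hT x (t - 1)
      rw [B_LP T hT G x _ M hM1, B_LP T hT H x _ M hM2] at this
      simp only [Polynomial.eval_finsetSum, Polynomial.eval_mul, Polynomial.eval_C,
        Polynomial.eval_pow, Polynomial.eval_X]
      simpa using this
    have h2 := congrArg (fun p => Polynomial.coeff p j) hp
    simp only [Polynomial.finsetSum_coeff, Polynomial.coeff_C_mul_X_pow] at h2
    rw [Finset.sum_ite_eq, Finset.sum_ite_eq, if_pos (Finset.mem_range.2 hjM),
      if_pos (Finset.mem_range.2 hjM)] at h2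
    exact h2
  have hmap : (LP G x j).map (Int.castRingHom ℝ) = (LP H x j).map (Int.castRingHom ℝ) := by
    apply Polynomial.eq_of_infinite_eval_eq
    apply Set.Infinite.mono (s := Set.Ioi (1 : ℝ))
    · intro T hT
      have := key T hT
      show Polynomial.eval T _ = Polynomial.eval T _
      rw [Polynomial.eval_map, Polynomial.eval_map]
      exact this
    · exact Set.Ioi_infinite 1
  exact Polynomial.map_injective _ (RingHom.injective_int (Int.castRingHom ℝ)) hmap

theorem LP_coeff_card (G : E → Sym2 V) (x j k : ℕ) :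
    (LP G x j).coeff k = (Finset.univ.filter fun c : V → Fin x =>
      ∑ v, (c v : ℕ) = k ∧ (mono G c).card = j).card := by
  rw [LP, Polynomial.finsetSum_coeff]
  simp only [Polynomial.coeff_X_pow]
  rw [← Finset.sum_filter, Finset.filter_filter, Finset.sum_const, nsmul_eq_mul, mul_one]
  congr 2
  ext c
  simp only [Finset.mem_filter, Finset.mem_univ, true_and, eq_comm (a := k)]
  exact and_comm

/-- the joint distribution of colour sum and monochromatic edges is determined -/
theorem colour_count (G : E → Sym2 V) (H : E' → Sym2 V')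
    (h : ∀ T : ℝ, 1 < T → ∀ x y : ℝ, B T G x y = B T H x y) (x j k : ℕ) :
    (Finset.univ.filter fun c : V → Fin x =>
      ∑ v, (c v : ℕ) = k ∧ (mono G c).card = j).card =
    (Finset.univ.filter fun c : V' → Fin x =>
      ∑ v, (c v : ℕ) = k ∧ (mono H c).card = j).card := by
  have h1 := LP_coeff_card G x j k
  have h2 := LP_coeff_card H x j k
  rw [LP_eq_all G H h x j] at h1
  have := h1.symm.trans h2
  exact_mod_cast this

/-- the dichromatic polynomial is determined -/
theorem tutte_eq (G : E → Sym2 V) (H : E' → Sym2 V')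
    (h : ∀ T : ℝ, 1 < T → ∀ x y : ℝ, B T G x y = B T H x y) (x y : ℝ) :
    ∑ A : Finset E, y ^ A.card * x ^ Multiset.card (tau G A) =
      ∑ A : Finset E', y ^ A.card * x ^ Multiset.card (tau H A) := by
  have nat : ∀ x : ℕ, ∑ A : Finset E, y ^ A.card * (x : ℝ) ^ Multiset.card (tau G A) =
      ∑ A : Finset E', y ^ A.card * (x : ℝ) ^ Multiset.card (tau H A) := by
    intro x
    have key : ∀ {W F : Type} [Fintype W] [Fintype F] (K : F → Sym2 W) (T : ℝ), 1 < T →
        B T K x y = Polynomial.eval T (∑ A : Finset F, Polynomial.C (y ^ A.card) *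
          ((tau K A).map fun k => ∑ i ∈ Finset.range x,
            ((Polynomial.X : Polynomial ℝ) ^ k) ^ i).prod) := by
      intro W F _ _ K T hT
      rw [B, Polynomial.eval_finsetSum]
      apply Finset.sum_congr rfl
      intro A _
      rw [Polynomial.eval_mul, Polynomial.eval_C, Polynomial.eval_multiset_prod,
        Multiset.map_map]
      congr 2
      apply Multiset.map_congr rfl
      intro k hk
      have h1 : (1 : ℝ) < T ^ k := one_lt_pow₀ hT (tau_pos K A k hk).ne'
      rw [qnum, Real.rpow_natCast, ← geom_sum_eq h1.ne']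
      simp [Polynomial.eval_finsetSum]
    have hpoly : (∑ A : Finset E, Polynomial.C (y ^ A.card) *
          ((tau G A).map fun k => ∑ i ∈ Finset.range x,
            ((Polynomial.X : Polynomial ℝ) ^ k) ^ i).prod) =
        ∑ A : Finset E', Polynomial.C (y ^ A.card) *
          ((tau H A).map fun k => ∑ i ∈ Finset.range x,
            ((Polynomial.X : Polynomial ℝ) ^ k) ^ i).prod := by
      apply Polynomial.eq_of_infinite_eval_eq
      apply Set.Infinite.mono (s := Set.Ioi (1 : ℝ))
      · intro T hT
        have := h T hT x y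
        rw [key G T hT, key H T hT] at this
        exact this
      · exact Set.Ioi_infinite 1
    have h2 := congrArg (Polynomial.eval 1) hpoly
    rw [Polynomial.eval_finsetSum, Polynomial.eval_finsetSum] at h2
    simpa [Polynomial.eval_multiset_prod, Polynomial.eval_finsetSum] using h2
  have hpoly : (∑ A : Finset E, Polynomial.C (y ^ A.card) *
        (Polynomial.X : Polynomial ℝ) ^ Multiset.card (tau G A)) =
      ∑ A : Finset E', Polynomial.C (y ^ A.card) *
        (Polynomial.X : Polynomial ℝ) ^ Multiset.card (tau H A) := by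
    apply Polynomial.eq_of_infinite_eval_eq
    apply Set.Infinite.mono (s := Set.range (fun n : ℕ => (n : ℝ)))
    · rintro _ ⟨n, rfl⟩
      have := nat n
      show Polynomial.eval (n : ℝ) _ = Polynomial.eval (n : ℝ) _
      simp only [Polynomial.eval_finsetSum, Polynomial.eval_mul, Polynomial.eval_C,
        Polynomial.eval_pow, Polynomial.eval_X]
      exact this
    · exact Set.infinite_range_of_injective Nat.cast_injective
  have h2 := congrArg (Polynomial.eval x) hpoly
  simpa [Polynomial.eval_finsetSum] using h2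

/-- all the types that occur -/
noncomputable def TA (G : E → Sym2 V) (H : E' → Sym2 V') : Finset (Multiset ℕ) :=
  (Finset.univ.image (tau G)) ∪ (Finset.univ.image (tau H))

theorem TA_props (G : E → Sym2 V) (H : E' → Sym2 V') (hc : Fintype.card V = Fintype.card V') :
    (∀ A, tau G A ∈ TA G H) ∧ (∀ A, tau H A ∈ TA G H) ∧
    ∀ t ∈ TA G H, (∀ k ∈ t, 0 < k) ∧ t.sum = Fintype.card V := by
  refine ⟨fun A => ?_, fun A => ?_, ?_⟩
  · exact Finset.mem_union_left _ (Finset.mem_image_of_mem _ (Finset.mem_univ _))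
  · exact Finset.mem_union_right _ (Finset.mem_image_of_mem _ (Finset.mem_univ _))
  · intro t ht
    rcases Finset.mem_union.1 ht with h | h
    · obtain ⟨A, _, rfl⟩ := Finset.mem_image.1 h
      exact ⟨tau_pos G A, tau_sum G A⟩
    · obtain ⟨A, _, rfl⟩ := Finset.mem_image.1 h
      exact ⟨tau_pos H A, by rw [tau_sum H A, hc]⟩

theorem dd_notMem (G : E → Sym2 V) (H : E' → Sym2 V') (hc : Fintype.card V = Fintype.card V')
    (m : ℕ) (t : Multiset ℕ) (ht : t ∉ TA G H) : dd G H m t = 0 := by
  obtain ⟨h1, h2, _⟩ := TA_props G H hc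
  rw [dd, cnt_zero G m _ h1 t ht, cnt_zero H m _ h2 t ht, sub_self]

/-- linear independence of the functions `1/((1 - z^a)(1 - z^(n-a)))` -/
theorem pair_indep (n : ℕ) (r : ℕ → ℝ)
    (h : ∀ z : ℝ, 0 < z → z < 1 → ∑ a ∈ Finset.Icc 1 (n / 2),
      r a / ((1 - z ^ a) * (1 - z ^ (n - a))) = 0) :
    ∀ a ∈ Finset.Icc 1 (n / 2), r a = 0 := by
  by_contra hne
  push Not at hne
  have hex : ∃ a, a ∈ Finset.Icc 1 (n / 2) ∧ r a ≠ 0 := hne
  classical
  set a0 := Nat.find hex with ha0
  obtain ⟨h1, h2⟩ := Nat.find_spec hex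
  rw [← ha0] at h1 h2
  have hmin : ∀ a ∈ Finset.Icc 1 (n / 2), a < a0 → r a = 0 := by
    intro a ha hlt
    by_contra hra
    exact Nat.find_min hex hlt ⟨ha, hra⟩
  rw [Finset.mem_Icc] at h1
  -- the value at zero
  have hcont : ∀ a ∈ Finset.Icc 1 (n / 2), ContinuousAt
      (fun z : ℝ => r a / ((1 - z ^ a) * (1 - z ^ (n - a)))) 0 := by
    intro a ha
    rw [Finset.mem_Icc] at ha
    apply ContinuousAt.div (by fun_prop) (by fun_prop)
    have e1 : (0 : ℝ) ^ a = 0 := zero_pow (by omega)
    have e2 : (0 : ℝ) ^ (n - a) = 0 := zero_pow (by omega)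
    rw [e1, e2]
    norm_num
  have hS0 : ∑ a ∈ Finset.Icc 1 (n / 2), r a = 0 := by
    have hc : ContinuousAt (fun z : ℝ => ∑ a ∈ Finset.Icc 1 (n / 2),
        r a / ((1 - z ^ a) * (1 - z ^ (n - a)))) 0 := tendsto_finsetSum _ fun a ha => hcont a ha
    have ht := (hc.tendsto.mono_left (nhdsWithin_le_nhds (s := Set.Ioi (0 : ℝ))))
    have ht2 : Filter.Tendsto (fun z : ℝ => ∑ a ∈ Finset.Icc 1 (n / 2),
        r a / ((1 - z ^ a) * (1 - z ^ (n - a)))) (nhdsWithin 0 (Set.Ioi 0)) (nhds 0) := by
      apply Filter.Tendsto.congr' _ tendsto_const_nhds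
      filter_upwards [Ioo_mem_nhdsGT (show (0 : ℝ) < 1 by norm_num)] with z hz
      exact (h z hz.1 hz.2).symm
    have := tendsto_nhds_unique ht ht2
    rw [← this]
    apply Finset.sum_congr rfl
    intro a ha
    rw [Finset.mem_Icc] at ha
    have e1 : (0 : ℝ) ^ a = 0 := zero_pow (by omega)
    have e2 : (0 : ℝ) ^ (n - a) = 0 := zero_pow (by omega)
    rw [e1, e2]
    norm_num
  -- the next coefficient
  have hG : ∀ z : ℝ, 0 < z → z < 1 → ∑ a ∈ Finset.Icc a0 (n / 2),
      r a * (z ^ (a - a0) + z ^ (n - a - a0) - z ^ (n - a0)) / ((1 - z ^ a) * (1 - z ^ (n - a)))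
        = 0 := by
    intro z hz0 hz1
    have e1 : ∑ a ∈ Finset.Icc a0 (n / 2), (r a / ((1 - z ^ a) * (1 - z ^ (n - a))) - r a) = 0 := by
      have hsub : Finset.Icc a0 (n / 2) ⊆ Finset.Icc 1 (n / 2) :=
        Finset.Icc_subset_Icc_left h1.1
      rw [Finset.sum_subset hsub]
      · rw [Finset.sum_sub_distrib, h z hz0 hz1, hS0, sub_zero]
      · intro a ha hna
        have : a < a0 := by
          rw [Finset.mem_Icc] at ha
          by_contra hge
          exact hna (Finset.mem_Icc.2 ⟨by omega, ha.2⟩)
        rw [hmin a ha this]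
        simp
    have e2 : z ^ a0 * ∑ a ∈ Finset.Icc a0 (n / 2),
        r a * (z ^ (a - a0) + z ^ (n - a - a0) - z ^ (n - a0)) / ((1 - z ^ a) * (1 - z ^ (n - a)))
        = 0 := by
      rw [← e1, Finset.mul_sum]
      apply Finset.sum_congr rfl
      intro a ha
      rw [Finset.mem_Icc] at ha
      have p1 : z ^ a < 1 := pow_lt_one₀ hz0.le hz1 (by omega)
      have p2 : z ^ (n - a) < 1 := pow_lt_one₀ hz0.le hz1 (by omega)
      have q1 : (1 - z ^ a) ≠ 0 := by linarith
      have q2 : (1 - z ^ (n - a)) ≠ 0 := by linarith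
      have s1 : z ^ a = z ^ a0 * z ^ (a - a0) := by rw [← pow_add]; congr 1; omega
      have s2 : z ^ (n - a) = z ^ a0 * z ^ (n - a - a0) := by rw [← pow_add]; congr 1; omega
      have s3 : z ^ a * z ^ (n - a) = z ^ a0 * z ^ (n - a0) := by
        rw [← pow_add, ← pow_add]; congr 1; omega
      field_simp
      linear_combination r a * (-s1 - s2 + s3)
    rcases mul_eq_zero.1 e2 with h3 | h3
    · exact absurd h3 (pow_ne_zero _ hz0.ne')
    · exact h3
  have hcont2 : ∀ a ∈ Finset.Icc a0 (n / 2), ContinuousAt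
      (fun z : ℝ => r a * (z ^ (a - a0) + z ^ (n - a - a0) - z ^ (n - a0)) /
        ((1 - z ^ a) * (1 - z ^ (n - a)))) 0 := by
    intro a ha
    rw [Finset.mem_Icc] at ha
    apply ContinuousAt.div (by fun_prop) (by fun_prop)
    have e1 : (0 : ℝ) ^ a = 0 := zero_pow (by omega)
    have e2 : (0 : ℝ) ^ (n - a) = 0 := zero_pow (by omega)
    rw [e1, e2]
    norm_num
  have hfin : ∑ a ∈ Finset.Icc a0 (n / 2),
      r a * ((0 : ℝ) ^ (a - a0) + 0 ^ (n - a - a0) - 0 ^ (n - a0)) /
        ((1 - 0 ^ a) * (1 - 0 ^ (n - a))) = 0 := by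
    have hc : ContinuousAt (fun z : ℝ => ∑ a ∈ Finset.Icc a0 (n / 2),
        r a * (z ^ (a - a0) + z ^ (n - a - a0) - z ^ (n - a0)) /
          ((1 - z ^ a) * (1 - z ^ (n - a)))) 0 := tendsto_finsetSum _ fun a ha => hcont2 a ha
    have ht := (hc.tendsto.mono_left (nhdsWithin_le_nhds (s := Set.Ioi (0 : ℝ))))
    have ht2 : Filter.Tendsto (fun z : ℝ => ∑ a ∈ Finset.Icc a0 (n / 2),
        r a * (z ^ (a - a0) + z ^ (n - a - a0) - z ^ (n - a0)) /
          ((1 - z ^ a) * (1 - z ^ (n - a)))) (nhdsWithin 0 (Set.Ioi 0)) (nhds 0) := by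
      apply Filter.Tendsto.congr' _ tendsto_const_nhds
      filter_upwards [Ioo_mem_nhdsGT (show (0 : ℝ) < 1 by norm_num)] with z hz
      exact (hG z hz.1 hz.2).symm
    exact tendsto_nhds_unique ht ht2
  rw [Finset.sum_eq_single a0] at hfin
  · have e1 : (0 : ℝ) ^ a0 = 0 := zero_pow (by omega)
    have e2 : (0 : ℝ) ^ (n - a0) = 0 := zero_pow (by omega)
    rw [e1, e2, Nat.sub_self, pow_zero] at hfin
    have e3 : 0 ≤ (0 : ℝ) ^ (n - a0 - a0) := by positivity
    have e4 : (1 : ℝ) + 0 ^ (n - a0 - a0) - 0 ≠ 0 := by linarith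
    apply h2
    have h5 : r a0 * (1 + 0 ^ (n - a0 - a0) - 0) = 0 := by
      rw [sub_zero, sub_zero, mul_one, div_one] at hfin
      rw [sub_zero]
      simpa using hfin
    exact (mul_eq_zero.1 h5).resolve_right e4
  · intro a ha hne'
    rw [Finset.mem_Icc] at ha
    have e1 : (0 : ℝ) ^ (a - a0) = 0 := zero_pow (by omega)
    have e2 : (0 : ℝ) ^ (n - a - a0) = 0 := zero_pow (by omega)
    have e3 : (0 : ℝ) ^ (n - a0) = 0 := zero_pow (by omega)
    rw [e1, e2, e3]
    simp
  · intro hna
    exact absurd (Finset.mem_Icc.2 ⟨le_refl _, h1.2⟩) hna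

end General

section TwoParts

variable {V E V' E' : Type} [Fintype V] [Fintype E] [Fintype V'] [Fintype E']

/-- the multiset `{a, n - a}` -/
def ph (n a : ℕ) : Multiset ℕ := a ::ₘ (n - a) ::ₘ 0

theorem ph_injOn (n : ℕ) : Set.InjOn (ph n) (Finset.Icc 1 (n / 2) : Finset ℕ) := by
  intro a ha b hb hab
  rw [Finset.mem_coe, Finset.mem_Icc] at ha hb
  have h1 : a ∈ ph n b := by rw [← hab]; simp [ph]
  have h2 : b ∈ ph n a := by rw [hab]; simp [ph]
  simp only [ph, Multiset.mem_cons, Multiset.notMem_zero, or_false] at h1 h2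
  omega

theorem level_rel (G : E → Sym2 V) (H : E' → Sym2 V')
    (h : ∀ T : ℝ, 1 < T → ∀ x y : ℝ, B T G x y = B T H x y) (m l : ℕ)
    (hl : ∀ t, Multiset.card t < l → dd G H m t = 0) (b : ℝ) (hb : 1 < b) :
    ∑ t ∈ (TA G H).filter (fun t => Multiset.card t = l), (dd G H m t : ℝ) * wk b t = 0 := by
  have hc := card_eq_of_B b hb G H (h b hb)
  obtain ⟨h1, h2, _⟩ := TA_props G H hc
  have h3 := top_level (TA G H) (fun t => (dd G H m t : ℝ) * wt b t)
    (rel_basic b hb G H (h b hb) m _ h1 h2) l (by
      intro t _ ht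
      simp [hl t ht])
  refine Eq.trans ?_ h3
  apply Finset.sum_congr rfl
  intro t _
  rw [wk_eq]
  ring

theorem two_parts (G : E → Sym2 V) (H : E' → Sym2 V')
    (h : ∀ T : ℝ, 1 < T → ∀ x y : ℝ, B T G x y = B T H x y) (m : ℕ) (t : Multiset ℕ)
    (ht : Multiset.card t ≤ 2) : dd G H m t = 0 := by
  have hc := card_eq_of_B 2 (by norm_num) G H (h 2 (by norm_num))
  obtain ⟨h1, h2, h3⟩ := TA_props G H hc
  set n := Fintype.card V with hn
  have wkne : ∀ (b : ℝ), 1 < b → ∀ t ∈ TA G H, wk b t ≠ 0 := by
    intro b hb t ht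
    have hp := (h3 t ht).1
    rw [wk_eq]
    apply mul_ne_zero
    · apply Multiset.prod_ne_zero
      intro h0
      rw [Multiset.mem_map] at h0
      obtain ⟨k, hk, hk0⟩ := h0
      have := hp k hk
      have : (0 : ℝ) < k := by exact_mod_cast this
      linarith
    · exact (wt_pos b hb t hp).ne'
  have l0 : ∀ t, Multiset.card t < 1 → dd G H m t = 0 := by
    intro t ht
    have ht0 : t = 0 := by
      rw [← Multiset.card_eq_zero]
      omega
    by_cases hT : t ∈ TA G H
    · have hr := level_rel G H h m 0 (by intro t h0; omega) 2 (by norm_num)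
      have hf : (TA G H).filter (fun t => Multiset.card t = 0) = {t} := by
        ext s
        rw [Finset.mem_filter, Finset.mem_singleton, Multiset.card_eq_zero, ht0]
        exact ⟨fun hs => hs.2, fun hs => ⟨hs ▸ ht0 ▸ hT, hs⟩⟩
      rw [hf, Finset.sum_singleton] at hr
      have := (mul_eq_zero.1 hr).resolve_right (wkne 2 (by norm_num) t hT)
      exact_mod_cast this
    · exact dd_notMem G H hc m t hT
  have l1 : ∀ t, Multiset.card t < 2 → dd G H m t = 0 := by
    intro t ht
    by_cases hlt : Multiset.card t < 1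
    · exact l0 t hlt
    have ht1 : Multiset.card t = 1 := by omega
    by_cases hT : t ∈ TA G H
    · have hr := level_rel G H h m 1 l0 2 (by norm_num)
      have hf : (TA G H).filter (fun t => Multiset.card t = 1) = {t} := by
        ext s
        rw [Finset.mem_filter, Finset.mem_singleton]
        constructor
        · rintro ⟨hs, hs1⟩
          obtain ⟨a, rfl⟩ := Multiset.card_eq_one.1 hs1
          obtain ⟨b, rfl⟩ := Multiset.card_eq_one.1 ht1
          have e1 := (h3 _ hs).2
          have e2 := (h3 _ hT).2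
          rw [Multiset.sum_singleton] at e1 e2
          rw [e1, e2]
        · rintro rfl
          exact ⟨hT, ht1⟩
      rw [hf, Finset.sum_singleton] at hr
      have := (mul_eq_zero.1 hr).resolve_right (wkne 2 (by norm_num) t hT)
      exact_mod_cast this
    · exact dd_notMem G H hc m t hT
  by_cases hlt : Multiset.card t < 2
  · exact l1 t hlt
  have ht2 : Multiset.card t = 2 := by omega
  by_cases hT : t ∈ TA G H
  swap
  · exact dd_notMem G H hc m t hT
  have hsum : ∀ b : ℝ, 1 < b → ∑ a ∈ Finset.Icc 1 (n / 2),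
      (dd G H m (ph n a) : ℝ) * wk b (ph n a) = 0 := by
    intro b hb
    have hr := level_rel G H h m 2 l1 b hb
    rw [← Finset.sum_image (f := fun t => (dd G H m t : ℝ) * wk b t) (ph_injOn n)]
    rw [← hr]
    symm
    apply Finset.sum_subset
    · intro s hs
      rw [Finset.mem_filter] at hs
      obtain ⟨a, c, rfl⟩ := Multiset.card_eq_two.1 hs.2
      obtain ⟨p1, p2⟩ := h3 _ hs.1
      have hs' : a + c = n := by simpa using p2
      have pa := p1 a (by simp)
      have pc := p1 c (by simp)
      rw [Finset.mem_image]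
      rcases le_total a c with hac | hac
      · refine ⟨a, Finset.mem_Icc.2 ⟨pa, by omega⟩, ?_⟩
        rw [ph, show n - a = c by omega]
        rfl
      · refine ⟨c, Finset.mem_Icc.2 ⟨pc, by omega⟩, ?_⟩
        rw [ph, show n - c = a by omega]
        exact Multiset.cons_swap c a 0
    · intro s hs hns
      obtain ⟨a, ha, rfl⟩ := Finset.mem_image.1 hs
      have : ph n a ∉ TA G H := by
        intro hmem
        exact hns (Finset.mem_filter.2 ⟨hmem, rfl⟩)
      rw [dd_notMem G H hc m _ this]
      simp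
  have hind := pair_indep n (fun a => (dd G H m (ph n a) : ℝ) * ((a : ℝ) * ((n - a : ℕ) : ℝ))) (by
    intro z hz0 hz1
    have hb : 1 < z⁻¹ := (one_lt_inv₀ hz0).2 hz1
    have hs := hsum z⁻¹ hb
    have hzn : z ^ n ≠ 0 := pow_ne_zero _ hz0.ne'
    apply (mul_eq_zero.1 (_ : z ^ n * _ = 0)).resolve_left hzn
    rw [← hs, Finset.mul_sum]
    apply Finset.sum_congr rfl
    intro a ha
    rw [Finset.mem_Icc] at ha
    have p1 : z ^ a < 1 := pow_lt_one₀ hz0.le hz1 (by omega)
    have p2 : z ^ (n - a) < 1 := pow_lt_one₀ hz0.le hz1 (by omega)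
    have q1 : (1 - z ^ a) ≠ 0 := by linarith
    have q2 : (1 - z ^ (n - a)) ≠ 0 := by linarith
    have z1 : z ^ a ≠ 0 := pow_ne_zero _ hz0.ne'
    have z2 : z ^ (n - a) ≠ 0 := pow_ne_zero _ hz0.ne'
    have hzz : z ^ n = z ^ a * z ^ (n - a) := by rw [← pow_add]; congr 1; omega
    have w1 : (z⁻¹) ^ a - 1 = (1 - z ^ a) / z ^ a := by
      rw [inv_pow]
      field_simp
    have w2 : (z⁻¹) ^ (n - a) - 1 = (1 - z ^ (n - a)) / z ^ (n - a) := by
      rw [inv_pow]
      field_simp
    have hw : wk z⁻¹ (ph n a) = ((a : ℝ) / ((z⁻¹) ^ a - 1)) *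
        (((n - a : ℕ) : ℝ) / ((z⁻¹) ^ (n - a) - 1)) := by
      simp [wk, ph]
    rw [hw, w1, w2, hzz]
    field_simp)
  obtain ⟨a, c, rfl⟩ := Multiset.card_eq_two.1 ht2
  obtain ⟨p1, p2⟩ := h3 _ hT
  have hs' : a + c = n := by simpa using p2
  have pa := p1 a (by simp)
  have pc := p1 c (by simp)
  have fin : ∀ a ∈ Finset.Icc 1 (n / 2), dd G H m (ph n a) = 0 := by
    intro a ha
    have h5 := hind a ha
    rw [Finset.mem_Icc] at ha
    have e1 : (0 : ℝ) < a := by exact_mod_cast ha.1
    have e2 : (0 : ℝ) < ((n - a : ℕ) : ℝ) := by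
      have : 0 < n - a := by omega
      exact_mod_cast this
    have := (mul_eq_zero.1 h5).resolve_right (by positivity)
    exact_mod_cast this
  rcases le_total a c with hac | hac
  · have h6 := fin a (Finset.mem_Icc.2 ⟨pa, by omega⟩)
    rw [ph, show n - a = c by omega] at h6
    exact h6
  · have h6 := fin c (Finset.mem_Icc.2 ⟨pc, by omega⟩)
    rw [ph, show n - c = a by omega, Multiset.cons_swap] at h6
    exact h6

end TwoParts

end Pool.Agent.Lib.QDichromate
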