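import Mathlib
import Pool.Agent.Lib.QDichromate.Defs
import Pool.Agent.Lib.QDichromate.Core

/-!
If all q-dichromates with q > 1 of two graphs agree, then for all j and m the numbers of pairs of an
edge set A with j elements and a component of (V, A) with m vertices agree. The proof takes the
derivative in x at x = 1.
-/

set_option linter.unusedSectionVars false

open scoped Classical

namespace Pool.Agent.Lib.QDichromate

/-- the derivative at 1 of the quantum number with base `T ^ k` -/
noncomputable def DQ (T : ℝ) (k : ℕ) : ℝ := T ^ k * Real.log (T ^ k) / (T ^ k - 1)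

theorem qnum_deriv (T : ℝ) (hT : 1 < T) (k : ℕ) :
    HasDerivAt (fun x : ℝ => qnum (T ^ k) x) (DQ T k) 1 := by
  have h0 : (0 : ℝ) < T ^ k := pow_pos (by linarith) k
  have h1 : HasDerivAt (fun x : ℝ => (T ^ k) ^ x) ((T ^ k) ^ (1 : ℝ) * Real.log (T ^ k)) 1 :=
    Real.hasStrictDerivAt_const_rpow h0 1 |>.hasDerivAt
  rw [Real.rpow_one] at h1
  exact (h1.sub_const 1).div_const (T ^ k - 1)

theorem qnum_one (T : ℝ) (hT : 1 < T) (k : ℕ) (hk : 0 < k) : qnum (T ^ k) 1 = 1 := by
  have h1 : (1 : ℝ) < T ^ k := one_lt_pow₀ hT hk.ne'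
  rw [qnum, Real.rpow_one, div_self (by linarith)]

theorem prod_deriv (T : ℝ) (hT : 1 < T) (s : Multiset ℕ) (hs : ∀ k ∈ s, 0 < k) :
    ((s.map fun k => qnum (T ^ k) 1).prod = 1) ∧
    HasDerivAt (fun x : ℝ => (s.map fun k => qnum (T ^ k) x).prod) ((s.map (DQ T)).sum) 1 := by
  induction s using Multiset.induction_on with
  | empty => simpa using hasDerivAt_const (1 : ℝ) (1 : ℝ)
  | cons k s ih =>
    obtain ⟨i1, i2⟩ := ih fun j hj => hs j (Multiset.mem_cons_of_mem hj)
    have hk := hs k (Multiset.mem_cons_self k s)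
    constructor
    · rw [Multiset.map_cons, Multiset.prod_cons, i1, qnum_one T hT k hk, mul_one]
    · have h := (qnum_deriv T hT k).mul i2
      simp only [Multiset.map_cons, Multiset.prod_cons, Multiset.sum_cons]
      rw [i1, qnum_one T hT k hk, mul_one, one_mul] at h
      exact h

theorem zero_lim (g : ℝ → ℝ) (hc : ContinuousAt g 0) (h : ∀ u : ℝ, 0 < u → u < 1 → g u = 0) :
    g 0 = 0 := by
  have h1 : Filter.Tendsto g (nhdsWithin 0 (Set.Ioi 0)) (nhds (g 0)) :=
    hc.tendsto.mono_left nhdsWithin_le_nhds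
  have h2 : Filter.Tendsto g (nhdsWithin 0 (Set.Ioi 0)) (nhds 0) := by
    apply Filter.Tendsto.congr' (f₁ := fun _ => (0 : ℝ)) _ tendsto_const_nhds
    filter_upwards [Ioo_mem_nhdsGT (show (0 : ℝ) < 1 by norm_num)] with u hu
    exact (h u hu.1 hu.2).symm
  exact tendsto_nhds_unique h1 h2

theorem geo_indep (N : ℕ) (a : ℕ → ℝ)
    (h : ∀ u : ℝ, 0 < u → u < 1 → ∑ m ∈ Finset.Icc 1 N, a m / (1 - u ^ m) = 0) :
    ∀ m ∈ Finset.Icc 1 N, a m = 0 := by
  have hz : ∑ m ∈ Finset.Icc 1 N, a m = 0 := by
    have := zero_lim (fun u => ∑ m ∈ Finset.Icc 1 N, a m / (1 - u ^ m)) (by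
      apply tendsto_finsetSum
      intro m hm
      have hm1 : m ≠ 0 := by have := (Finset.mem_Icc.1 hm).1; omega
      apply ContinuousAt.div continuousAt_const (by fun_prop)
      simp [hm1]) h
    rw [← this]
    apply Finset.sum_congr rfl
    intro m hm
    have hm1 : m ≠ 0 := by have := (Finset.mem_Icc.1 hm).1; omega
    simp [hm1]
  have h2 : ∀ u : ℝ, 0 < u → u < 1 → ∑ m ∈ Finset.Icc 1 N, a m * u ^ m / (1 - u ^ m) = 0 := by
    intro u hu0 hu1
    have e : ∀ m ∈ Finset.Icc 1 N, a m * u ^ m / (1 - u ^ m) = a m / (1 - u ^ m) - a m := by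
      intro m hm
      have hm1 : m ≠ 0 := by have := (Finset.mem_Icc.1 hm).1; omega
      have : u ^ m < 1 := pow_lt_one₀ hu0.le hu1 hm1
      have : 1 - u ^ m ≠ 0 := by linarith
      field_simp
      ring
    rw [Finset.sum_congr rfl e, Finset.sum_sub_distrib, h u hu0 hu1, hz, sub_zero]
  intro m
  induction m using Nat.strong_induction_on with
  | _ m ih =>
    intro hm
    have hm1 := Finset.mem_Icc.1 hm
    have := zero_lim (fun u => ∑ k ∈ Finset.Icc 1 N,
        if k < m then 0 else a k * u ^ (k - m) / (1 - u ^ k)) (by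
      apply tendsto_finsetSum
      intro k hk
      have hk1 : k ≠ 0 := by have := (Finset.mem_Icc.1 hk).1; omega
      show ContinuousAt (fun u : ℝ => if k < m then 0 else a k * u ^ (k - m) / (1 - u ^ k)) 0
      by_cases hkm : k < m
      · simp only [hkm, if_true]
        exact continuousAt_const
      · simp only [hkm, if_false]
        apply ContinuousAt.div (by fun_prop) (by fun_prop)
        simp [hk1]) (by
      intro u hu0 hu1
      have e : u ^ m * (∑ k ∈ Finset.Icc 1 N,
          if k < m then 0 else a k * u ^ (k - m) / (1 - u ^ k)) = 0 := by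
        refine Eq.trans ?_ (h2 u hu0 hu1)
        rw [Finset.mul_sum]
        apply Finset.sum_congr rfl
        intro k hk
        by_cases hkm : k < m
        · rw [if_pos hkm, ih k hkm hk]
          simp
        · rw [if_neg hkm, ← mul_div_assoc, mul_comm (u ^ m), mul_assoc, ← pow_add]
          congr 3
          omega
      exact (mul_eq_zero.1 e).resolve_left (pow_pos hu0 m).ne')
    rw [Finset.sum_eq_single_of_mem m hm] at this
    · have hm2 : m ≠ 0 := by omega
      simpa [hm2] using this
    · intro k hk hkm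
      have hk1 : k ≠ 0 := by have := (Finset.mem_Icc.1 hk).1; omega
      by_cases hlt : k < m
      · simp [hlt]
      · have : k - m ≠ 0 := by omega
        simp [hlt, this]

section Main

variable {V E V' E' : Type} [Fintype V] [Fintype E] [Fintype V'] [Fintype E']

theorem B_deriv (T : ℝ) (hT : 1 < T) (G : E → Sym2 V) (y : ℝ) :
    HasDerivAt (fun x : ℝ => B T G x y)
      (∑ A : Finset E, y ^ A.card * ((tau G A).map (DQ T)).sum) 1 := by
  have h := HasDerivAt.fun_sum (u := (Finset.univ : Finset (Finset E)))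
    (A := fun A (x : ℝ) => y ^ A.card * ((tau G A).map fun k => qnum (T ^ k) x).prod)
    (A' := fun A => y ^ A.card * ((tau G A).map (DQ T)).sum) (x := (1 : ℝ))
    fun A _ => (prod_deriv T hT (tau G A) fun k hk => tau_pos G A k hk).2.const_mul _
  exact h

theorem sum_DQ (T : ℝ) (N : ℕ) (s : Multiset ℕ) (hs : ∀ k ∈ s, k ∈ Finset.Icc 1 N) :
    (s.map (DQ T)).sum = ∑ m ∈ Finset.Icc 1 N, (s.count m : ℝ) * DQ T m := by
  rw [Finset.sum_multiset_map_count]
  simp only [nsmul_eq_mul]
  apply Finset.sum_subset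
  · intro k hk
    exact hs k (Multiset.mem_toFinset.1 hk)
  · intro k _ hk
    rw [Multiset.count_eq_zero_of_notMem (fun h => hk (Multiset.mem_toFinset.2 h))]
    simp

theorem mem_tau_le (G : E → Sym2 V) (A : Finset E) (k : ℕ) (hk : k ∈ tau G A) :
    k ≤ Fintype.card V := by
  rw [← tau_sum G A]
  exact Multiset.single_le_sum (fun _ _ => Nat.zero_le _) k hk

/-- the number of pairs of an edge set and a component of a given size -/
theorem comps_eq (G : E → Sym2 V) (H : E' → Sym2 V')
    (h : ∀ T : ℝ, 1 < T → ∀ x y : ℝ, B T G x y = B T H x y) (m : ℕ) (y : ℝ) :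
    ∑ A : Finset E, y ^ A.card * ((tau G A).count m : ℝ) =
      ∑ A : Finset E', y ^ A.card * ((tau H A).count m : ℝ) := by
  set N := Fintype.card V + Fintype.card V' with hN
  set δ : ℕ → ℝ := fun m => ∑ A : Finset E, y ^ A.card * ((tau G A).count m : ℝ) -
      ∑ A : Finset E', y ^ A.card * ((tau H A).count m : ℝ) with hδ
  have hG : ∀ A : Finset E, ∀ k ∈ tau G A, k ∈ Finset.Icc 1 N := by
    intro A k hk
    have h1 := tau_pos G A k hk
    have h2 := mem_tau_le G A k hk
    rw [Finset.mem_Icc]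
    omega
  have hH : ∀ A : Finset E', ∀ k ∈ tau H A, k ∈ Finset.Icc 1 N := by
    intro A k hk
    have h1 := tau_pos H A k hk
    have h2 := mem_tau_le H A k hk
    rw [Finset.mem_Icc]
    omega
  have key : ∀ T : ℝ, 1 < T → ∑ m ∈ Finset.Icc 1 N, δ m * DQ T m = 0 := by
    intro T hT
    have e : (fun x : ℝ => B T G x y) = fun x : ℝ => B T H x y := by
      funext x
      exact h T hT x y
    have d1 := B_deriv T hT G y
    rw [e] at d1
    have d2 := d1.unique (B_deriv T hT H y)
    have g1 : ∑ A : Finset E, y ^ A.card * ((tau G A).map (DQ T)).sum =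
        ∑ m ∈ Finset.Icc 1 N, (∑ A : Finset E, y ^ A.card * ((tau G A).count m : ℝ)) * DQ T m := by
      simp only [Finset.sum_mul]
      rw [Finset.sum_comm]
      apply Finset.sum_congr rfl
      intro A _
      rw [sum_DQ T N _ (hG A), Finset.mul_sum]
      apply Finset.sum_congr rfl
      intro m _
      ring
    have g2 : ∑ A : Finset E', y ^ A.card * ((tau H A).map (DQ T)).sum =
        ∑ m ∈ Finset.Icc 1 N, (∑ A : Finset E', y ^ A.card * ((tau H A).count m : ℝ)) * DQ T m := by
      simp only [Finset.sum_mul]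
      rw [Finset.sum_comm]
      apply Finset.sum_congr rfl
      intro A _
      rw [sum_DQ T N _ (hH A), Finset.mul_sum]
      apply Finset.sum_congr rfl
      intro m _
      ring
    rw [g1, g2] at d2
    simp only [hδ, sub_mul, Finset.sum_sub_distrib]
    rw [d2, sub_self]
  have key2 : ∀ m ∈ Finset.Icc 1 N, δ m * (m : ℝ) = 0 := by
    apply geo_indep N (fun m => δ m * (m : ℝ))
    intro u hu0 hu1
    have hT : (1 : ℝ) < u⁻¹ := (one_lt_inv₀ hu0).2 hu1
    have k1 := key u⁻¹ hT
    have hlog : Real.log u⁻¹ ≠ 0 := (Real.log_pos hT).ne'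
    have e : ∑ m ∈ Finset.Icc 1 N, δ m * DQ u⁻¹ m =
        Real.log u⁻¹ * ∑ m ∈ Finset.Icc 1 N, δ m * (m : ℝ) / (1 - u ^ m) := by
      rw [Finset.mul_sum]
      apply Finset.sum_congr rfl
      intro m hm
      have hm1 : m ≠ 0 := by have := (Finset.mem_Icc.1 hm).1; omega
      have hum : u ^ m < 1 := pow_lt_one₀ hu0.le hu1 hm1
      have hum0 : 0 < u ^ m := pow_pos hu0 m
      have e1 : DQ u⁻¹ m = (m : ℝ) * Real.log u⁻¹ / (1 - u ^ m) := by
        rw [DQ, Real.log_pow, inv_pow]
        have h1 : 1 - u ^ m ≠ 0 := by linarith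
        have h2 : (u ^ m)⁻¹ - 1 = (1 - u ^ m) / u ^ m := by
          field_simp
        rw [h2]
        field_simp
      rw [e1]
      ring
    rw [e] at k1
    exact (mul_eq_zero.1 k1).resolve_left hlog
  by_cases hm : m ∈ Finset.Icc 1 N
  · have h1 := key2 m hm
    have hm0 : (m : ℝ) ≠ 0 := by
      have := (Finset.mem_Icc.1 hm).1
      exact_mod_cast (show m ≠ 0 by omega)
    have h2 := (mul_eq_zero.1 h1).resolve_right hm0
    exact sub_eq_zero.1 h2
  · have z1 : ∀ A : Finset E, (tau G A).count m = 0 := fun A =>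
      Multiset.count_eq_zero_of_notMem fun hk => hm (hG A m hk)
    have z2 : ∀ A : Finset E', (tau H A).count m = 0 := fun A =>
      Multiset.count_eq_zero_of_notMem fun hk => hm (hH A m hk)
    simp [z1, z2]

/-- the same with the number of edges fixed, in natural numbers -/
theorem comps_count (G : E → Sym2 V) (H : E' → Sym2 V')
    (h : ∀ T : ℝ, 1 < T → ∀ x y : ℝ, B T G x y = B T H x y) (m j : ℕ) :
    ∑ A ∈ Finset.univ.filter (fun A : Finset E => A.card = j), (tau G A).count m =
      ∑ A ∈ Finset.univ.filter (fun A : Finset E' => A.card = j), (tau H A).count m := by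
  have := coeff_eq G H (fun t => (t.count m : ℝ)) (fun y => comps_eq G H h m y) j
  exact_mod_cast this

end Main

end Pool.Agent.Lib.QDichromate
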