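import Mathlib
import Pool.Agent.Lib.QDichromate.Defs
import Pool.Agent.Lib.QDichromate.Core

/-!
The rank of an edge set, and the multiset of the block sizes minus one.
-/

set_option linter.unusedSectionVars false

open scoped Classical

namespace Pool.Agent.Lib.QDichromate

section Rank

variable {V E : Type} [Fintype V] [Fintype E]

theorem reach_insert (G : E → Sym2 V) (A : Finset E) (e : E) (u v : V) (he : G e = s(u, v))
    (w z : V) (h : (spanning G (insert e A)).Reachable w z) :
    (spanning G A).Reachable w z ∨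
      ((spanning G A).Reachable w u ∧ (spanning G A).Reachable v z) ∨
      ((spanning G A).Reachable w v ∧ (spanning G A).Reachable u z) := by
  obtain ⟨p⟩ := h
  induction p with
  | nil => exact Or.inl (SimpleGraph.Reachable.refl _)
  | @cons a b c hab p ih =>
    obtain ⟨⟨f, hf, hgf⟩, hne⟩ := (spanning_adj _ _ _ _).1 hab
    rcases Finset.mem_insert.1 hf with rfl | hfA
    · rw [he, Sym2.eq_iff] at hgf
      rcases hgf with ⟨rfl, rfl⟩ | ⟨rfl, rfl⟩
      · rcases ih with h1 | ⟨_, h1⟩ | ⟨_, h1⟩
        · exact Or.inr (Or.inl ⟨SimpleGraph.Reachable.refl _, h1⟩)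
        · exact Or.inr (Or.inl ⟨SimpleGraph.Reachable.refl _, h1⟩)
        · exact Or.inl h1
      · rcases ih with h1 | ⟨_, h1⟩ | ⟨_, h1⟩
        · exact Or.inr (Or.inr ⟨SimpleGraph.Reachable.refl _, h1⟩)
        · exact Or.inl h1
        · exact Or.inr (Or.inr ⟨SimpleGraph.Reachable.refl _, h1⟩)
    · have hr : (spanning G A).Reachable a b :=
        ((spanning_adj G A a b).2 ⟨⟨f, hfA, hgf⟩, hne⟩).reachable
      rcases ih with h1 | ⟨h1, h2⟩ | ⟨h1, h2⟩
      · exact Or.inl (hr.trans h1)
      · exact Or.inr (Or.inl ⟨hr.trans h1, h2⟩)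
      · exact Or.inr (Or.inr ⟨hr.trans h1, h2⟩)

theorem card_blocks_insert (G : E → Sym2 V) (A : Finset E) (e : E) :
    (blocks G A).card ≤ (blocks G (insert e A)).card + 1 := by
  induction he : G e using Sym2.ind with
  | _ u v =>
    have hrep : ∀ b : Finset V, ∃ w : V, (b ∈ blocks G A → cls G A w = b) ∧ True := by
      intro b
      by_cases hb : b ∈ blocks G A
      · obtain ⟨w, hw⟩ := (mem_blocks _ _ _).1 hb
        exact ⟨w, fun _ => hw, trivial⟩
      · exact ⟨u, fun h => absurd h hb, trivial⟩
    choose rep hrep _ using hrep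
    have h1 : ((blocks G A).erase (cls G A v)).card ≤ (blocks G (insert e A)).card := by
      apply Finset.card_le_card_of_injOn (fun b => cls G (insert e A) (rep b))
      · intro b _
        exact (mem_blocks _ _ _).2 ⟨rep b, rfl⟩
      · intro b hb b' hb' hbb
        rw [Finset.mem_coe, Finset.mem_erase] at hb hb'
        have e1 := hrep b hb.2
        have e2 := hrep b' hb'.2
        have hreach := (cls_eq_iff _ _ _ _).1 hbb
        rcases reach_insert G A e u v he _ _ hreach with h | ⟨_, h⟩ | ⟨h, _⟩
        · rw [← e1, ← e2]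
          exact (cls_eq_iff _ _ _ _).2 h
        · exfalso
          apply hb'.1
          rw [← e2]
          exact ((cls_eq_iff _ _ _ _).2 h).symm
        · exfalso
          apply hb.1
          rw [← e1]
          exact (cls_eq_iff _ _ _ _).2 h
    have h2 : (blocks G A).card - 1 ≤ ((blocks G A).erase (cls G A v)).card :=
      Finset.pred_card_le_card_erase
    omega

theorem card_tau (G : E → Sym2 V) (A : Finset E) :
    Multiset.card (tau G A) = (blocks G A).card := by
  rw [tau, Multiset.card_map]
  rfl

/-- the rank is at most the number of edges -/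
theorem rank_le (G : E → Sym2 V) (A : Finset E) :
    Fintype.card V ≤ Multiset.card (tau G A) + A.card := by
  induction A using Finset.induction_on with
  | empty =>
    have h : tau G ∅ = Multiset.replicate (Fintype.card V) 1 :=
      (tau_ones_iff G ∅).2 fun e he => absurd he (Finset.notMem_empty e)
    rw [h, Multiset.card_replicate]
    exact Nat.le_add_right _ _
  | insert e A hA ih =>
    have h1 := card_blocks_insert G A e
    rw [card_tau] at ih ⊢
    rw [Finset.card_insert_of_notMem hA]
    omega

theorem cnt_eq_zero_of_rank (G : E → Sym2 V) (m : ℕ) (t : Multiset ℕ)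
    (h : Multiset.card t + m < Fintype.card V) : cnt G m t = 0 := by
  rw [cnt, Finset.card_eq_zero, Finset.filter_eq_empty_iff]
  rintro A _ ⟨h1, h2⟩
  have := rank_le G A
  rw [h1, h2] at this
  omega

end Rank

section Exs

/-- the parts minus one, without the zeros -/
def exs (t : Multiset ℕ) : Multiset ℕ := (t.map fun k => k - 1).filter fun a => a ≠ 0

theorem exs_zero : exs 0 = 0 := rfl

theorem exs_cons_one (t : Multiset ℕ) : exs (1 ::ₘ t) = exs t := by
  unfold exs
  rw [Multiset.map_cons, Multiset.filter_cons_of_neg]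
  simp

theorem exs_cons (a : ℕ) (ha : 0 < a) (t : Multiset ℕ) : exs ((a + 1) ::ₘ t) = a ::ₘ exs t := by
  unfold exs
  rw [Multiset.map_cons, Nat.add_sub_cancel, Multiset.filter_cons_of_pos]
  exact ha.ne'

theorem exs_pos (t : Multiset ℕ) : ∀ a ∈ exs t, 0 < a := by
  intro a ha
  exact Nat.pos_of_ne_zero (Multiset.mem_filter.1 ha).2

theorem exs_prod (h : ℕ → ℝ) (h1 : h 1 = 1) (t : Multiset ℕ) (ht : ∀ k ∈ t, 0 < k) :
    (t.map h).prod = ((exs t).map fun a => h (a + 1)).prod := by
  induction t using Multiset.induction_on with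
  | empty => rfl
  | cons k s ih =>
    have i1 := ih fun j hj => ht j (Multiset.mem_cons_of_mem hj)
    have hk := ht k (Multiset.mem_cons_self k s)
    obtain ⟨a, rfl⟩ : ∃ a, k = a + 1 := ⟨k - 1, by omega⟩
    rcases Nat.eq_zero_or_pos a with rfl | ha
    · rw [Nat.zero_add, exs_cons_one, Multiset.map_cons, Multiset.prod_cons, h1, one_mul, i1]
    · rw [exs_cons a ha, Multiset.map_cons, Multiset.prod_cons, Multiset.map_cons,
        Multiset.prod_cons, i1]

theorem exs_sum (t : Multiset ℕ) (ht : ∀ k ∈ t, 0 < k) :
    (exs t).sum + Multiset.card t = t.sum := by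
  induction t using Multiset.induction_on with
  | empty => rfl
  | cons k s ih =>
    have i1 := ih fun j hj => ht j (Multiset.mem_cons_of_mem hj)
    have hk := ht k (Multiset.mem_cons_self k s)
    obtain ⟨a, rfl⟩ : ∃ a, k = a + 1 := ⟨k - 1, by omega⟩
    rcases Nat.eq_zero_or_pos a with rfl | ha
    · rw [Nat.zero_add, exs_cons_one, Multiset.card_cons, Multiset.sum_cons]
      omega
    · rw [exs_cons a ha, Multiset.card_cons, Multiset.sum_cons, Multiset.sum_cons]
      omega

theorem exs_recon (t : Multiset ℕ) (ht : ∀ k ∈ t, 0 < k) :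
    t = (exs t).map (fun a => a + 1) + Multiset.replicate (t.count 1) 1 := by
  induction t using Multiset.induction_on with
  | empty => rfl
  | cons k s ih =>
    have i1 := ih fun j hj => ht j (Multiset.mem_cons_of_mem hj)
    have hk := ht k (Multiset.mem_cons_self k s)
    obtain ⟨a, rfl⟩ : ∃ a, k = a + 1 := ⟨k - 1, by omega⟩
    rcases Nat.eq_zero_or_pos a with rfl | ha
    · rw [Nat.zero_add, exs_cons_one, Multiset.count_cons_self, Multiset.replicate_succ,
        Multiset.add_cons, ← i1]
    · rw [exs_cons a ha, Multiset.count_cons_of_ne (by omega), Multiset.map_cons,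
        Multiset.cons_add, ← i1]

theorem exs_inj (t t' : Multiset ℕ) (ht : ∀ k ∈ t, 0 < k) (ht' : ∀ k ∈ t', 0 < k)
    (hs : t.sum = t'.sum) (h : exs t = exs t') : t = t' := by
  have h1 := exs_recon t ht
  have h2 := exs_recon t' ht'
  have e1 := congrArg Multiset.sum h1
  have e2 := congrArg Multiset.sum h2
  rw [Multiset.sum_add, Multiset.sum_replicate, smul_eq_mul, mul_one] at e1 e2
  rw [← h] at h2 e2
  have h3 : t.count 1 = t'.count 1 := by omega
  rw [h1, h3, ← h2]

end Exs

end Pool.Agent.Lib.QDichromate
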