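import Mathlib
import Pool.Agent.Lib.QDichromate.Defs
import Pool.Agent.Lib.QDichromate.Core
import Pool.Agent.Lib.QDichromate.Comps
import Pool.Agent.Lib.QDichromate.FewA

/-!
If all q-dichromates with q > 1 of two graphs agree, then for m <= 4 the numbers of edge sets with m
elements and a given type agree, and for all m the numbers of edge sets with m elements and a type with
at least n - 2 parts agree.
-/

set_option linter.unusedSectionVars false

open scoped Classical

namespace Pool.Agent.Lib.QDichromate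

/-- the normalised factor of a part -/
noncomputable def gg (X T : ℝ) (k : ℕ) : ℝ :=
  ((X ^ k - 1) / (T ^ k - 1)) / ((X - 1) / (T - 1)) ^ k

theorem gg_one (X T : ℝ) (hX : X ≠ 1) (hT : 1 < T) : gg X T 1 = 1 := by
  have h1 : X - 1 ≠ 0 := sub_ne_zero.2 hX
  have h2 : T - 1 ≠ 0 := by linarith
  rw [gg, pow_one, pow_one, pow_one]
  exact div_self (div_ne_zero h1 h2)

set_option maxHeartbeats 4000000 in
theorem lin12 (a0 a1 a2 a3 a4 a5 a6 a7 a8 a9 a10 a11 : ℝ)
    (h : ∀ X T : ℝ, X ≠ 1 → 1 < T →
      a0 + a1 * gg X T 2 + a2 * gg X T 3 + a3 * gg X T 2 ^ 2 + a4 * gg X T 4 +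
        a5 * (gg X T 3 * gg X T 2) + a6 * gg X T 2 ^ 3 + a7 * gg X T 5 +
        a8 * (gg X T 4 * gg X T 2) + a9 * gg X T 3 ^ 2 + a10 * (gg X T 3 * gg X T 2 ^ 2) +
        a11 * gg X T 2 ^ 4 = 0) :
    a0 = 0 ∧ a1 = 0 ∧ a2 = 0 ∧ a3 = 0 ∧ a4 = 0 ∧ a5 = 0 ∧ a6 = 0 ∧ a7 = 0 ∧ a8 = 0 ∧ a9 = 0 ∧
      a10 = 0 ∧ a11 = 0 := by
  have e0 := h (-1) 2 (by norm_num) (by norm_num)
  have e1 := h (-3) 5 (by norm_num) (by norm_num)
  have e2 := h (3) 5 (by norm_num) (by norm_num)
  have e3 := h (0) 2 (by norm_num) (by norm_num)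
  have e4 := h (-1) 4 (by norm_num) (by norm_num)
  have e5 := h (5) 5 (by norm_num) (by norm_num)
  have e6 := h (3) 2 (by norm_num) (by norm_num)
  have e7 := h (0) 5 (by norm_num) (by norm_num)
  have e8 := h (-1) 5 (by norm_num) (by norm_num)
  have e9 := h (0) 3 (by norm_num) (by norm_num)
  have e10 := h (2) 3 (by norm_num) (by norm_num)
  have e11 := h (-1) 3 (by norm_num) (by norm_num)
  norm_num [gg] at e0 e1 e2 e3 e4 e5 e6 e7 e8 e9 e10 e11
  refine ⟨?_, ?_, ?_, ?_, ?_, ?_, ?_, ?_, ?_, ?_, ?_, ?_⟩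
  · linear_combination (119168/25875) * e0 + (128576/10925) * e4 + (-3206857/688275) * e8 +
      (-215644/20125) * e11
  · linear_combination (112/27) * e0 + (-398/945) * e1 + (-1091/3780) * e2 + (-56/9) * e3 +
      (-626/525) * e5 + (112/45) * e6 + (-6841/4725) * e7 + (3607/3780) * e8 + (104/21) * e9 +
      (104/315) * e10 + (-208/63) * e11
  · linear_combination (-2522464/15525) * e0 + (-1383536/2185) * e4 + (15215513/58995) * e8 +
      (927641/1725) * e11
  · linear_combination (247184/2025) * e0 + (-31/21) * e1 + (-31/56) * e2 + (28/3) * e3 +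
      (46032/95) * e4 + (-191/63) * e5 + (112/15) * e6 + (31/84) * e7 + (-82594013/430920) * e8 +
      (-208/63) * e9 + (208/315) * e10 + (-668447/1575) * e11
  · linear_combination (-910/9) * e0 + (-871/126) * e1 + (4069/252) * e2 + (455/3) * e3 +
      (2613/70) * e5 + (-182/3) * e6 + (29354/315) * e7 + (-8333/252) * e8 + (-1690/7) * e9 +
      (-338/21) * e10 + (3380/21) * e11
  · linear_combination (5642/27) * e0 + (6851/135) * e1 + (-9269/270) * e2 + (-2821/9) * e3 +
      (-6448/75) * e5 + (5642/45) * e6 + (-143468/675) * e7 + (12493/270) * e8 + (1612/3) * e9 +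
      (1612/45) * e10 + (-3224/9) * e11
  · linear_combination (-112) * e0 + (-1642/35) * e1 + (629/35) * e2 + (168) * e3 +
      (9054/175) * e5 + (-336/5) * e6 + (20896/175) * e7 + (-373/35) * e8 + (-2106/7) * e9 +
      (-702/35) * e10 + (1404/7) * e11
  · linear_combination (164053736/77625) * e0 + (134225784/10925) * e4 +
      (-11261117164/2064825) * e8 + (-180032996/20125) * e11
  · linear_combination (-3320954/621) * e0 + (1599/14) * e1 + (2353/56) * e2 + (-455/2) * e3 +
      (-14185080/437) * e4 + (6578/105) * e5 + (-182) * e6 + (-3679/140) * e7 +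
      (9449601811/660744) * e8 + (3380/21) * e9 + (-676/21) * e10 + (11396177/483) * e11
  · linear_combination (-8372728/5175) * e0 + (-23854376/2185) * e4 + (99344336/19665) * e8 +
      (12908896/1725) * e11
  · linear_combination (16547314/2025) * e0 + (-806/3) * e1 + (-403/4) * e2 + (2821/6) * e3 +
      (5039832/95) * e4 + (-2015/18) * e5 + (5642/15) * e6 + (403/6) * e7 +
      (-729019157/30780) * e8 + (-3224/9) * e9 + (3224/45) * e10 + (-8478691/225) * e11
  · linear_combination (-1887984/575) * e0 + (1116/7) * e1 + (837/14) * e2 + (-252) * e3 +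
      (-47682432/2185) * e4 + (360/7) * e5 + (-1008/5) * e6 + (-279/7) * e7 + (42477471/4370) * e8 +
      (1404/7) * e9 + (-1404/35) * e10 + (62178948/4025) * e11

end Pool.Agent.Lib.QDichromate
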