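import Mathlib
import Pool.Agent.Lib.QDichromate.FewB

/-!
If all q-dichromates with q > 1 of two graphs agree, then for m at most 4 the numbers of edge sets
with m elements and a given type agree, and for all m the numbers of edge sets with m elements and a
type with at least n - 2 parts agree.
-/

set_option linter.unusedSectionVars false

open scoped Classical

namespace Pool.Agent.Lib.QDichromate

theorem quot_gg (X T : ℝ) (hX : X ≠ 1) (hT : 1 < T) (k : ℕ) :
    (X ^ k - 1) / (T ^ k - 1) = ((X - 1) / (T - 1)) ^ k * gg X T k := by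
  have h1 : (X - 1) / (T - 1) ≠ 0 := div_ne_zero (sub_ne_zero.2 hX) (by linarith)
  rw [gg, mul_div_cancel₀]
  exact pow_ne_zero k h1

theorem PX_gg (X T : ℝ) (hX : X ≠ 1) (hT : 1 < T) (t : Multiset ℕ) :
    PX T X t = ((X - 1) / (T - 1)) ^ t.sum * (t.map (gg X T)).prod := by
  rw [PX]
  induction t using Multiset.induction_on with
  | empty => simp
  | cons a s ih =>
    rw [Multiset.map_cons, Multiset.prod_cons, ih, quot_gg X T hX hT, Multiset.sum_cons,
      Multiset.map_cons, Multiset.prod_cons, pow_add]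
    ring

/-- the normalised product of a type, in terms of the parts minus one -/
noncomputable def FG (X T : ℝ) (s : Multiset ℕ) : ℝ := (s.map fun a => gg X T (a + 1)).prod

section Rel

variable {V E V' E' : Type} [Fintype V] [Fintype E] [Fintype V'] [Fintype E']

theorem few_rel (G : E → Sym2 V) (H : E' → Sym2 V')
    (h : ∀ T : ℝ, 1 < T → ∀ x y : ℝ, B T G x y = B T H x y) (m : ℕ) (X T : ℝ) (hX : X ≠ 1)
    (hT : 1 < T) : ∑ t ∈ TA G H, (dd G H m t : ℝ) * FG X T (exs t) = 0 := by
  have hc := card_eq_of_B T hT G H (h T hT)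
  obtain ⟨h1, h2, h3⟩ := TA_props G H hc
  have h4 := congrArg (Polynomial.eval X) (rel_basic T hT G H (h T hT) m _ h1 h2)
  rw [Polynomial.eval_finsetSum, Polynomial.eval_zero] at h4
  have hp : ((X - 1) / (T - 1)) ^ Fintype.card V ≠ 0 :=
    pow_ne_zero _ (div_ne_zero (sub_ne_zero.2 hX) (by linarith))
  apply (mul_eq_zero.1 (_ : ((X - 1) / (T - 1)) ^ Fintype.card V * _ = 0)).resolve_left hp
  refine Eq.trans ?_ h4
  rw [Finset.mul_sum]
  apply Finset.sum_congr rfl
  intro t ht
  obtain ⟨p1, p2⟩ := h3 t ht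
  rw [Polynomial.eval_mul, Polynomial.eval_C, mul_assoc, ← PX_eq, PX_gg X T hX hT, p2,
    exs_prod (gg X T) (gg_one X T hX hT) t p1, FG]
  ring

/-- the sum of the differences over the types with given parts minus one -/
noncomputable def fib (G : E → Sym2 V) (H : E' → Sym2 V') (m : ℕ) (s : Multiset ℕ) : ℝ :=
  ∑ t ∈ (TA G H).filter (fun t => exs t = s), (dd G H m t : ℝ)

theorem fib_exs (G : E → Sym2 V) (H : E' → Sym2 V') (hc : Fintype.card V = Fintype.card V')
    (m : ℕ) (t : Multiset ℕ) (ht : t ∈ TA G H) : fib G H m (exs t) = dd G H m t := by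
  obtain ⟨_, _, h3⟩ := TA_props G H hc
  have e : (TA G H).filter (fun t' => exs t' = exs t) = {t} := by
    ext t'
    rw [Finset.mem_filter, Finset.mem_singleton]
    constructor
    · rintro ⟨h1, h2⟩
      exact exs_inj t' t (h3 _ h1).1 (h3 _ ht).1 ((h3 _ h1).2.trans (h3 _ ht).2.symm) h2
    · rintro rfl
      exact ⟨ht, rfl⟩
  rw [fib, e, Finset.sum_singleton]

theorem sum_fib (G : E → Sym2 V) (H : E' → Sym2 V') (m : ℕ) (L : Finset (Multiset ℕ))
    (F : Multiset ℕ → ℝ) :
    ∑ t ∈ (TA G H).filter (fun t => exs t ∈ L), (dd G H m t : ℝ) * F (exs t) =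
      ∑ s ∈ L, fib G H m s * F s := by
  rw [← Finset.sum_fiberwise_of_maps_to (g := exs) (t := L)
    (fun t ht => (Finset.mem_filter.1 ht).2)]
  apply Finset.sum_congr rfl
  intro s hs
  rw [fib, Finset.sum_mul]
  apply Finset.sum_congr
  · ext t
    simp only [Finset.mem_filter]
    constructor
    · rintro ⟨⟨h1, _⟩, h2⟩
      exact ⟨h1, h2⟩
    · rintro ⟨h1, h2⟩
      exact ⟨⟨h1, h2 ▸ hs⟩, h2⟩
  · intro t ht
    rw [(Finset.mem_filter.1 ht).2]

/-- the multisets of positive integers with sum at most four -/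
def l12 : List (Multiset ℕ) :=
  [0, {1}, {2}, {1, 1}, {3}, {2, 1}, {1, 1, 1}, {4}, {3, 1}, {2, 2}, {2, 1, 1}, {1, 1, 1, 1}]

theorem l12_nodup : l12.Nodup := by decide

theorem mem_l12 (s : Multiset ℕ) (h0 : ∀ k ∈ s, 0 < k) (hs : s.sum ≤ 4) : s ∈ l12 := by
  have h1 := mem_TT s.sum s h0 rfl
  have h2 : ∀ k ≤ 4, ∀ s ∈ TT k, s ∈ l12 := by
    intro k hk
    interval_cases k <;> decide
  exact h2 _ hs s h1

theorem few_edges (G : E → Sym2 V) (H : E' → Sym2 V')
    (h : ∀ T : ℝ, 1 < T → ∀ x y : ℝ, B T G x y = B T H x y) (m : ℕ) (hm : m ≤ 4)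
    (t : Multiset ℕ) : dd G H m t = 0 := by
  have hc := card_eq_of_B 2 (by norm_num) G H (h 2 (by norm_num))
  obtain ⟨h1, h2, h3⟩ := TA_props G H hc
  by_cases ht : t ∈ TA G H
  swap
  · exact dd_notMem G H hc m t ht
  have hz : ∀ t ∈ TA G H, exs t ∉ l12.toFinset → dd G H m t = 0 := by
    intro t ht hn
    obtain ⟨p1, p2⟩ := h3 t ht
    have h4 : ¬ (exs t).sum ≤ 4 := fun h5 => hn (List.mem_toFinset.2 (mem_l12 _ (exs_pos t) h5))
    have h5 := exs_sum t p1
    rw [dd, cnt_eq_zero_of_rank G m t (by omega), cnt_eq_zero_of_rank H m t (by omega), sub_self]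
  by_cases hL : exs t ∈ l12.toFinset
  swap
  · exact hz t ht hL
  have key := lin12 (fib G H m 0) (fib G H m {1}) (fib G H m {2}) (fib G H m {1, 1})
    (fib G H m {3}) (fib G H m {2, 1}) (fib G H m {1, 1, 1}) (fib G H m {4}) (fib G H m {3, 1})
    (fib G H m {2, 2}) (fib G H m {2, 1, 1}) (fib G H m {1, 1, 1, 1}) (by
    intro X T hX hT
    have h6 := few_rel G H h m X T hX hT
    rw [← Finset.sum_filter_add_sum_filter_not (TA G H) (fun t => exs t ∈ l12.toFinset),
      sum_fib G H m l12.toFinset (FG X T)] at h6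
    rw [Finset.sum_eq_zero (s := (TA G H).filter (fun t => ¬ exs t ∈ l12.toFinset)) (by
      intro t ht
      obtain ⟨k1, k2⟩ := Finset.mem_filter.1 ht
      rw [hz t k1 k2]
      simp), add_zero, List.sum_toFinset _ l12_nodup] at h6
    rw [← h6]
    simp [l12, FG, pow_succ]
    ring)
  have h7 : fib G H m (exs t) = 0 := by
    rw [List.mem_toFinset] at hL
    simp only [l12, List.mem_cons, List.not_mem_nil, or_false] at hL
    obtain ⟨k0, k1, k2, k3, k4, k5, k6, k7, k8, k9, k10, k11⟩ := key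
    rcases hL with e | e | e | e | e | e | e | e | e | e | e | e <;> rw [e] <;> assumption
  rw [fib_exs G H hc m t ht] at h7
  exact_mod_cast h7

/-- the limit at `T = 1` -/
theorem level_one (G : E → Sym2 V) (H : E' → Sym2 V')
    (h : ∀ T : ℝ, 1 < T → ∀ x y : ℝ, B T G x y = B T H x y) (m d : ℕ)
    (hd : ∀ t ∈ TA G H, (exs t).sum < d → dd G H m t = 0) (X : ℝ) (hX : X ≠ 1) :
    ∑ t ∈ (TA G H).filter (fun t => (exs t).sum = d), (dd G H m t : ℝ) *
      ((exs t).map fun a : ℕ => (X ^ (a + 1) - 1) / (X - 1) ^ (a + 1) / ((a : ℝ) + 1)).prod = 0 := by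
  have hgg : ∀ u : ℝ, 0 < u → ∀ a : ℕ, gg X (1 + u) (a + 1) = u ^ a *
      ((X ^ (a + 1) - 1) / (X - 1) ^ (a + 1) / ∑ i ∈ Finset.range (a + 1), (1 + u) ^ i) := by
    intro u hu a
    have h1 := geom_sum_mul (1 + u) (a + 1)
    have h2 : (1 + u) ^ (a + 1) - 1 = (∑ i ∈ Finset.range (a + 1), (1 + u) ^ i) * u := by
      rw [← h1]
      ring
    have h3 : (0 : ℝ) < ∑ i ∈ Finset.range (a + 1), (1 + u) ^ i := by
      apply Finset.sum_pos
      · intro i _
        positivity
      · exact ⟨0, Finset.mem_range.2 (Nat.succ_pos a)⟩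
    have h4 : X - 1 ≠ 0 := sub_ne_zero.2 hX
    rw [gg, h2, add_sub_cancel_left, div_pow]
    field_simp
    ring
  have hF : ∀ u : ℝ, 0 < u → ∀ s : Multiset ℕ, FG X (1 + u) s = u ^ s.sum *
      (s.map fun a : ℕ => (X ^ (a + 1) - 1) / (X - 1) ^ (a + 1) /
        ∑ i ∈ Finset.range (a + 1), (1 + u) ^ i).prod := by
    intro u hu s
    rw [FG]
    induction s using Multiset.induction_on with
    | empty => simp
    | cons a s ih =>
      rw [Multiset.map_cons, Multiset.prod_cons, ih, hgg u hu a, Multiset.sum_cons,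
        Multiset.map_cons, Multiset.prod_cons, pow_add]
      ring
  have hz := zero_lim (fun u => ∑ t ∈ TA G H, if (exs t).sum < d then 0 else
      (dd G H m t : ℝ) * (u ^ ((exs t).sum - d) *
        ((exs t).map fun a : ℕ => (X ^ (a + 1) - 1) / (X - 1) ^ (a + 1) /
          ∑ i ∈ Finset.range (a + 1), (1 + u) ^ i).prod)) (by
    apply tendsto_finsetSum
    intro t ht
    show ContinuousAt (fun u : ℝ => if (exs t).sum < d then 0 else
      (dd G H m t : ℝ) * (u ^ ((exs t).sum - d) *
        ((exs t).map fun a : ℕ => (X ^ (a + 1) - 1) / (X - 1) ^ (a + 1) /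
          ∑ i ∈ Finset.range (a + 1), (1 + u) ^ i).prod)) 0
    by_cases hc : (exs t).sum < d
    · simp only [hc, if_true]
      exact continuousAt_const
    · simp only [hc, if_false]
      apply ContinuousAt.mul continuousAt_const
      apply ContinuousAt.mul (by fun_prop)
      apply tendsto_multiset_prod
      intro a _
      show ContinuousAt (fun u : ℝ => (X ^ (a + 1) - 1) / (X - 1) ^ (a + 1) /
          ∑ i ∈ Finset.range (a + 1), (1 + u) ^ i) 0
      apply ContinuousAt.div continuousAt_const (by fun_prop)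
      simp
      positivity) (by
    intro u hu0 hu1
    have h1 := few_rel G H h m X (1 + u) hX (by linarith)
    have hud : u ^ d ≠ 0 := pow_ne_zero _ hu0.ne'
    apply (mul_eq_zero.1 (_ : u ^ d * _ = 0)).resolve_left hud
    refine Eq.trans ?_ h1
    rw [Finset.mul_sum]
    apply Finset.sum_congr rfl
    intro t ht
    by_cases hc : (exs t).sum < d
    · rw [if_pos hc, hd t ht hc]
      simp
    · rw [if_neg hc, hF u hu0]
      have e : u ^ (exs t).sum = u ^ d * u ^ ((exs t).sum - d) := by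
        rw [← pow_add]
        congr 1
        omega
      rw [e]
      ring)
  refine Eq.trans ?_ hz
  rw [Finset.sum_filter]
  apply Finset.sum_congr rfl
  intro t _
  by_cases hc : (exs t).sum = d
  · rw [if_pos hc, if_neg (by omega), hc, Nat.sub_self, pow_zero, one_mul]
    congr 2
    apply Multiset.map_congr rfl
    intro a _
    simp
  · rw [if_neg hc]
    by_cases hc2 : (exs t).sum < d
    · rw [if_pos hc2]
    · have : (exs t).sum - d ≠ 0 := by omega
      rw [if_neg hc2, zero_pow this]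
      ring

theorem many_parts (G : E → Sym2 V) (H : E' → Sym2 V')
    (h : ∀ T : ℝ, 1 < T → ∀ x y : ℝ, B T G x y = B T H x y) (m : ℕ) (t : Multiset ℕ)
    (ht : Fintype.card V ≤ Multiset.card t + 2) : dd G H m t = 0 := by
  have hc := card_eq_of_B 2 (by norm_num) G H (h 2 (by norm_num))
  obtain ⟨h1, h2, h3⟩ := TA_props G H hc
  by_cases hT : t ∈ TA G H
  swap
  · exact dd_notMem G H hc m t hT
  obtain ⟨p1, p2⟩ := h3 t hT
  have hsum := exs_sum t p1
  -- the classification
  have cl : ∀ d ≤ 2, ∀ s : Multiset ℕ, (∀ k ∈ s, 0 < k) → s.sum = d → s ∈ TT d :=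
    fun d _ s h0 hs => mem_TT d s h0 hs
  have rel : ∀ d : ℕ, (∀ t ∈ TA G H, (exs t).sum < d → dd G H m t = 0) →
      (∀ s ∈ TT d, s.sum = d) → ∀ X : ℝ, X ≠ 1 →
      ∑ s ∈ TT d, fib G H m s *
        (s.map fun a : ℕ => (X ^ (a + 1) - 1) / (X - 1) ^ (a + 1) / ((a : ℝ) + 1)).prod = 0 := by
    intro d hd hs X hX
    have h5 := level_one G H h m d hd X hX
    rw [← sum_fib G H m (TT d) (fun s : Multiset ℕ =>
      (s.map fun a : ℕ => (X ^ (a + 1) - 1) / (X - 1) ^ (a + 1) / ((a : ℝ) + 1)).prod), ← h5]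
    apply Finset.sum_congr _ fun _ _ => rfl
    ext t'
    simp only [Finset.mem_filter]
    constructor
    · rintro ⟨k1, k2⟩
      exact ⟨k1, hs _ k2⟩
    · rintro ⟨k1, k2⟩
      exact ⟨k1, mem_TT d _ (exs_pos t') k2⟩
  have s0 : TT 0 = {0} := by decide
  have s1 : TT 1 = {{1}} := by decide
  have s2 : TT 2 = {{2}, {1, 1}} := by decide
  have z0 : fib G H m 0 = 0 := by
    have h6 := rel 0 (by intro t _ h0; omega) (by decide) 0 (by norm_num)
    rw [s0, Finset.sum_singleton] at h6
    simpa using h6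
  have d0 : ∀ t ∈ TA G H, (exs t).sum = 0 → dd G H m t = 0 := by
    intro t ht h0
    have h6 := mem_TT 0 _ (exs_pos t) h0
    rw [s0, Finset.mem_singleton] at h6
    have h7 := fib_exs G H hc m t ht
    rw [h6, z0] at h7
    exact_mod_cast h7.symm
  have z1 : fib G H m {1} = 0 := by
    have h6 := rel 1 (by intro t ht h0; exact d0 t ht (by omega)) (by decide) 0 (by norm_num)
    rw [s1, Finset.sum_singleton] at h6
    norm_num at h6
    exact h6
  have d1 : ∀ t ∈ TA G H, (exs t).sum = 1 → dd G H m t = 0 := by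
    intro t ht h0
    have h6 := mem_TT 1 _ (exs_pos t) h0
    rw [s1, Finset.mem_singleton] at h6
    have h7 := fib_exs G H hc m t ht
    rw [h6, z1] at h7
    exact_mod_cast h7.symm
  have r2 := rel 2 (by
    intro t ht h0
    rcases Nat.lt_or_ge (exs t).sum 1 with h8 | h8
    · exact d0 t ht (by omega)
    · exact d1 t ht (by omega)) (by decide)
  have z2 : fib G H m {2} = 0 := by
    have h6 := r2 (-1) (by norm_num)
    rw [s2, Finset.sum_pair (by decide)] at h6
    norm_num at h6
    exact h6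
  have z11 : fib G H m {1, 1} = 0 := by
    have h6 := r2 0 (by norm_num)
    rw [s2, Finset.sum_pair (by decide), z2] at h6
    norm_num at h6
    exact h6
  have d2 : (exs t).sum = 2 → dd G H m t = 0 := by
    intro h0
    have h6 := mem_TT 2 _ (exs_pos t) h0
    rw [s2, Finset.mem_insert, Finset.mem_singleton] at h6
    have h7 := fib_exs G H hc m t hT
    rcases h6 with h6 | h6
    · rw [h6, z2] at h7
      exact_mod_cast h7.symm
    · rw [h6, z11] at h7
      exact_mod_cast h7.symm
  have hle : (exs t).sum ≤ 2 := by omega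
  rcases Nat.lt_or_ge (exs t).sum 1 with h8 | h8
  · exact d0 t hT (by omega)
  · rcases Nat.lt_or_ge (exs t).sum 2 with h9 | h9
    · exact d1 t hT (by omega)
    · exact d2 (by omega)

end Rel

end Pool.Agent.Lib.QDichromate
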