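import Mathlib
import Pool.Agent.Lib.QDichromate.Defs
import Pool.Agent.Lib.QDichromate.Core
import Pool.Agent.Lib.QDichromate.FewC

/-!
Bounds for the number of edges of an edge set in terms of its type, for simple graphs and for
simple graphs without triangles, and their transfer between graphs with the same q-dichromates.
-/

set_option linter.unusedSectionVars false

open scoped Classical

namespace Pool.Agent.Lib.QDichromate

section Sparse

variable {V E : Type} [Fintype V] [Fintype E]

/-- the number of edges of a complete graph -/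
def fC (a : ℕ) : ℕ := a * (a - 1) / 2

/-- the largest number of edges of a graph without triangles -/
def fM (a : ℕ) : ℕ := a * a / 4

/-- every edge set is bounded by its type -/
def Sp (f : ℕ → ℕ) (K : E → Sym2 V) : Prop :=
  ∀ A : Finset E, A.card ≤ ((tau K A).map f).sum

theorem tau_map_sum (f : ℕ → ℕ) (K : E → Sym2 V) (A : Finset E) :
    ((tau K A).map f).sum = ∑ b ∈ blocks K A, f b.card := by
  rw [tau, Multiset.map_map]
  rfl

theorem reach_of_mem (K : E → Sym2 V) (A : Finset E) (e : E) (he : e ∈ A) (v w : V)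
    (hv : K e = s(v, w)) : (spanning K A).Reachable v w := by
  by_cases h : v = w
  · rw [h]
  · exact SimpleGraph.Adj.reachable ((spanning_adj K A v w).2 ⟨⟨e, he, hv⟩, h⟩)

/-- the edges inside a block -/
noncomputable def inb (K : E → Sym2 V) (A : Finset E) (b : Finset V) : Finset E :=
  A.filter fun e => ∀ v ∈ K e, v ∈ b

theorem card_le_blocks (f : ℕ → ℕ) (K : E → Sym2 V) (A : Finset E)
    (h : ∀ b ∈ blocks K A, (inb K A b).card ≤ f b.card) :
    A.card ≤ ((tau K A).map f).sum := by
  rw [tau_map_sum]
  calc A.card ≤ ((blocks K A).biUnion fun b => inb K A b).card := by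
        apply Finset.card_le_card
        intro e he
        rw [Finset.mem_biUnion]
        induction hs : K e using Sym2.ind with
        | _ v w =>
          refine ⟨cls K A v, (mem_blocks _ _ _).2 ⟨v, rfl⟩, ?_⟩
          rw [inb, Finset.mem_filter]
          refine ⟨he, fun u hu => ?_⟩
          rw [hs, Sym2.mem_iff] at hu
          rw [mem_cls]
          rcases hu with rfl | rfl
          · exact SimpleGraph.Reachable.refl _
          · exact reach_of_mem K A e he v _ hs
    _ ≤ ∑ b ∈ blocks K A, (inb K A b).card := Finset.card_biUnion_le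
    _ ≤ ∑ b ∈ blocks K A, f b.card := Finset.sum_le_sum h

theorem sp_simple (K : E → Sym2 V) (hi : Function.Injective K) (hl : ∀ e, ¬ (K e).IsDiag) :
    Sp fC K := by
  intro A
  apply card_le_blocks
  intro b _
  have h1 : ((inb K A b).image K) ⊆ b.offDiag.image (Sym2.mk).uncurry := by
    intro s hs
    obtain ⟨e, he, rfl⟩ := Finset.mem_image.1 hs
    rw [inb, Finset.mem_filter] at he
    have hd := hl e
    have hm := he.2
    induction hs : K e using Sym2.ind with
    | _ v w =>
      rw [hs] at hd hm
      rw [Finset.mem_image]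
      refine ⟨(v, w), ?_, rfl⟩
      rw [Finset.mem_offDiag]
      exact ⟨hm v (by simp), hm w (by simp), fun h => hd (Sym2.mk_isDiag_iff.2 h)⟩
  calc (inb K A b).card = ((inb K A b).image K).card := (Finset.card_image_of_injective _ hi).symm
    _ ≤ (b.offDiag.image (Sym2.mk).uncurry).card := Finset.card_le_card h1
    _ = b.card.choose 2 := Sym2.card_image_offDiag b
    _ = fC b.card := by rw [Nat.choose_two_right, fC]

theorem sp_free (K : E → Sym2 V) (hi : Function.Injective K) (hl : ∀ e, ¬ (K e).IsDiag)
    (hf : ∀ a b c : V, ¬ (s(a, b) ∈ Set.range K ∧ s(b, c) ∈ Set.range K ∧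
      s(a, c) ∈ Set.range K)) : Sp fM K := by
  intro A
  apply card_le_blocks
  intro b _
  set S : SimpleGraph b := SimpleGraph.fromRel (fun x y : b => s((x : V), (y : V)) ∈ Set.range K)
    with hS
  have hadj : ∀ x y : b, S.Adj x y → s((x : V), (y : V)) ∈ Set.range K := by
    intro x y hxy
    rw [hS, SimpleGraph.fromRel_adj] at hxy
    rcases hxy.2 with h | h
    · exact h
    · rw [Sym2.eq_swap]
      exact h
  have hfree : S.CliqueFree (2 + 1) := by
    intro t ht
    rw [SimpleGraph.is3Clique_iff] at ht
    obtain ⟨x, y, z, h1, h2, h3, _⟩ := ht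
    exact hf x y z ⟨hadj _ _ h1, hadj _ _ h3, hadj _ _ h2⟩
  have h2 : ((inb K A b).image K) ⊆ S.edgeFinset.image (Sym2.map Subtype.val) := by
    intro s hs
    obtain ⟨e, he, rfl⟩ := Finset.mem_image.1 hs
    rw [inb, Finset.mem_filter] at he
    have hd := hl e
    have hm := he.2
    induction hs : K e using Sym2.ind with
    | _ v w =>
      rw [hs] at hd hm
      rw [Finset.mem_image]
      refine ⟨s(⟨v, hm v (by simp)⟩, ⟨w, hm w (by simp)⟩), ?_, by simp⟩
      rw [SimpleGraph.mem_edgeFinset, SimpleGraph.mem_edgeSet, hS, SimpleGraph.fromRel_adj]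
      refine ⟨fun h => hd ?_, Or.inl ⟨e, hs⟩⟩
      simpa using h
  have h3 := hfree.card_edgeFinset_le
  calc (inb K A b).card = ((inb K A b).image K).card := (Finset.card_image_of_injective _ hi).symm
    _ ≤ (S.edgeFinset.image (Sym2.map Subtype.val)).card := Finset.card_le_card h2
    _ ≤ S.edgeFinset.card := Finset.card_image_le
    _ ≤ fM b.card := by
      refine h3.trans ?_
      rw [Fintype.card_coe, fM]
      have hmod := Nat.mod_lt b.card (show 0 < 2 by norm_num)
      have hc : (b.card % 2).choose 2 = 0 := Nat.choose_eq_zero_of_lt hmod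
      rw [hc, add_zero]
      apply Nat.div_le_div_right
      rw [show 2 - 1 = 1 from rfl, mul_one, sq]
      exact Nat.sub_le _ _

theorem reach_adj {W : Type} {S : SimpleGraph W} {v w : W} (h : S.Reachable v w) (hvw : v ≠ w) :
    ∃ u, S.Adj v u := by
  obtain ⟨p⟩ := h
  cases p with
  | nil => exact absurd rfl hvw
  | cons h _ => exact ⟨_, h⟩

/-- if all edges of `A` are inside a connected set `W`, the type is `|W|` and ones -/
theorem sum_blocks_le (K : E → Sym2 V) (A : Finset E) (W : Finset V)
    (hW : ∀ v w, (spanning K A).Adj v w → v ∈ W)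
    (f : ℕ → ℕ) (f1 : f 1 = 0) (hconn : ∀ v ∈ W, ∀ w ∈ W, (spanning K A).Reachable v w) :
    ((tau K A).map f).sum ≤ f W.card := by
  rw [tau_map_sum]
  have hb : ∀ b ∈ blocks K A, b ≠ W → f b.card = 0 := by
    intro b hb hne
    obtain ⟨v, rfl⟩ := (mem_blocks _ _ _).1 hb
    by_cases hv : v ∈ W
    · exfalso
      apply hne
      ext w
      rw [mem_cls]
      constructor
      · intro h
        by_cases hvw : v = w
        · rwa [← hvw]
        · obtain ⟨u, hu⟩ := reach_adj h.symm (fun h => hvw h.symm)
          exact hW _ _ hu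
      · intro hw
        exact hconn v hv w hw
    · have : cls K A v = {v} := by
        ext w
        rw [mem_cls, Finset.mem_singleton]
        constructor
        · intro h
          by_contra hvw
          obtain ⟨u, hu⟩ := reach_adj h (fun h => hvw h.symm)
          exact hv (hW _ _ hu)
        · rintro rfl
          exact SimpleGraph.Reachable.refl _
      rw [this, Finset.card_singleton, f1]
  by_cases hWb : W ∈ blocks K A
  · rw [← Finset.sum_subset (Finset.singleton_subset_iff.2 hWb) (by
      intro b hb1 hb2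
      exact hb b hb1 (by simpa using hb2)), Finset.sum_singleton]
  · rw [Finset.sum_eq_zero (fun b hb1 => hb b hb1 (by rintro rfl; exact hWb hb1))]
    exact Nat.zero_le _

/-- the bound for small edge sets excludes loops -/
theorem no_loop (f : ℕ → ℕ) (f0 : f 0 = 0) (f1 : f 1 = 0) (K : E → Sym2 V)
    (h : ∀ A : Finset E, A.card ≤ 2 → A.card ≤ ((tau K A).map f).sum) (e : E) :
    ¬ (K e).IsDiag := by
  intro hd
  have h1 := h {e} (by simp)
  have h2 := sum_blocks_le K {e} ∅ (by
    intro v w hvw
    exfalso
    rw [spanning_adj] at hvw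
    obtain ⟨⟨e', he', hs⟩, hne⟩ := hvw
    rw [Finset.mem_singleton] at he'
    subst he'
    rw [hs, Sym2.mk_isDiag_iff] at hd
    exact hne hd) f f1 (by intro v hv; simp at hv)
  rw [Finset.card_empty, f0] at h2
  rw [Finset.card_singleton] at h1
  omega

/-- the bound for small edge sets excludes parallel edges -/
theorem no_parallel (f : ℕ → ℕ) (f0 : f 0 = 0) (f1 : f 1 = 0) (f2 : f 2 = 1) (K : E → Sym2 V)
    (h : ∀ A : Finset E, A.card ≤ 2 → A.card ≤ ((tau K A).map f).sum) :
    Function.Injective K := by
  intro e e' hee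
  by_contra hne
  have hd := no_loop f f0 f1 K h e
  have h1 := h {e, e'} Finset.card_le_two
  rw [Finset.card_pair hne] at h1
  induction hs : K e using Sym2.ind with
  | _ a b =>
    have hab : a ≠ b := by
      intro hab
      rw [hs, Sym2.mk_isDiag_iff] at hd
      exact hd hab
    have hr : (spanning K {e, e'}).Reachable a b := reach_of_mem K _ e (by simp) a b hs
    have h2 := sum_blocks_le K {e, e'} {a, b} (by
      intro v w hvw
      rw [spanning_adj] at hvw
      obtain ⟨⟨e'', he'', hs''⟩, _⟩ := hvw
      have hk : K e'' = s(a, b) := by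
        rw [Finset.mem_insert, Finset.mem_singleton] at he''
        rcases he'' with rfl | rfl
        · exact hs
        · rw [← hee, hs]
      rw [hk] at hs''
      have : v ∈ s(a, b) := by rw [hs'']; simp
      simpa using this) f f1 (by
        intro v hv w hw
        rw [Finset.mem_insert, Finset.mem_singleton] at hv hw
        rcases hv with rfl | rfl <;> rcases hw with rfl | rfl
        · exact SimpleGraph.Reachable.refl _
        · exact hr
        · exact hr.symm
        · exact SimpleGraph.Reachable.refl _)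
    rw [Finset.card_pair hab, f2] at h2
    omega

/-- the bound for small edge sets excludes triangles -/
theorem no_triangle (f : ℕ → ℕ) (f0 : f 0 = 0) (f1 : f 1 = 0) (f3 : f 3 = 2)
    (K : E → Sym2 V) (h : ∀ A : Finset E, A.card ≤ 3 → A.card ≤ ((tau K A).map f).sum)
    (a b c : V) : ¬ (s(a, b) ∈ Set.range K ∧ s(b, c) ∈ Set.range K ∧ s(a, c) ∈ Set.range K) := by
  rintro ⟨⟨e1, h1⟩, ⟨e2, h2⟩, ⟨e3, h3⟩⟩
  have hl := no_loop f f0 f1 K fun A hA => h A (by omega)
  have hab : a ≠ b := by
    intro hab
    apply hl e1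
    rw [h1, Sym2.mk_isDiag_iff]
    exact hab
  have hbc : b ≠ c := by
    intro hbc
    apply hl e2
    rw [h2, Sym2.mk_isDiag_iff]
    exact hbc
  have hac : a ≠ c := by
    intro hac
    apply hl e3
    rw [h3, Sym2.mk_isDiag_iff]
    exact hac
  have h12 : e1 ≠ e2 := by
    rintro rfl
    rw [h1, Sym2.eq_iff] at h2
    rcases h2 with ⟨h, _⟩ | ⟨h, _⟩
    · exact hab h
    · exact hac h
  have h13 : e1 ≠ e3 := by
    rintro rfl
    rw [h1, Sym2.eq_iff] at h3
    rcases h3 with ⟨_, h⟩ | ⟨h, _⟩
    · exact hbc h
    · exact hac h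
  have h23 : e2 ≠ e3 := by
    rintro rfl
    rw [h2, Sym2.eq_iff] at h3
    rcases h3 with ⟨h, _⟩ | ⟨_, h⟩
    · exact hab h.symm
    · exact hac h.symm
  have hcard : ({e1, e2, e3} : Finset E).card = 3 := by
    rw [Finset.card_insert_of_notMem (by simp [h12, h13]), Finset.card_pair h23]
  have hcard2 : ({a, b, c} : Finset V).card = 3 := by
    rw [Finset.card_insert_of_notMem (by simp [hab, hac]), Finset.card_pair hbc]
  have b1 := h {e1, e2, e3} hcard.le
  rw [hcard] at b1
  have r1 : (spanning K {e1, e2, e3}).Reachable a b := reach_of_mem K _ e1 (by simp) a b h1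
  have r2 : (spanning K {e1, e2, e3}).Reachable b c := reach_of_mem K _ e2 (by simp) b c h2
  have b2 := sum_blocks_le K {e1, e2, e3} {a, b, c} (by
    intro v w hvw
    rw [spanning_adj] at hvw
    obtain ⟨⟨e'', he'', hs''⟩, _⟩ := hvw
    have hv : v ∈ K e'' := by rw [hs'']; simp
    rw [Finset.mem_insert, Finset.mem_insert, Finset.mem_singleton] at he''
    rcases he'' with rfl | rfl | rfl
    · rw [h1, Sym2.mem_iff] at hv
      simp only [Finset.mem_insert, Finset.mem_singleton]
      tauto
    · rw [h2, Sym2.mem_iff] at hv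
      simp only [Finset.mem_insert, Finset.mem_singleton]
      tauto
    · rw [h3, Sym2.mem_iff] at hv
      simp only [Finset.mem_insert, Finset.mem_singleton]
      tauto) f f1 (by
    have hh : ∀ v ∈ ({a, b, c} : Finset V), (spanning K {e1, e2, e3}).Reachable a v := by
      intro v hv
      rw [Finset.mem_insert, Finset.mem_insert, Finset.mem_singleton] at hv
      rcases hv with rfl | rfl | rfl
      · exact SimpleGraph.Reachable.refl _
      · exact r1
      · exact r1.trans r2
    intro v hv w hw
    exact (hh v hv).symm.trans (hh w hw))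
  rw [hcard2, f3] at b2
  omega

end Sparse

section Transfer

variable {V E V' E' : Type} [Fintype V] [Fintype E] [Fintype V'] [Fintype E']

/-- the bound passes to small edge sets of the other graph -/
theorem sp_small (f : ℕ → ℕ) (G : E → Sym2 V) (H : E' → Sym2 V')
    (h : ∀ T : ℝ, 1 < T → ∀ x y : ℝ, B T G x y = B T H x y) (hG : Sp f G)
    (A : Finset E') (hA : A.card ≤ 4) : A.card ≤ ((tau H A).map f).sum := by
  have h1 := few_edges G H h A.card hA (tau H A)
  have h2 : 0 < cnt H A.card (tau H A) := by
    rw [cnt, Finset.card_pos]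
    exact ⟨A, by simp⟩
  have h3 : 0 < cnt G A.card (tau H A) := by
    rw [dd] at h1
    omega
  rw [cnt, Finset.card_pos] at h3
  obtain ⟨A', hA'⟩ := h3
  rw [Finset.mem_filter] at hA'
  have := hG A'
  rw [hA'.2.1, hA'.2.2] at this
  exact this

theorem sp_fC_transfer (G : E → Sym2 V) (H : E' → Sym2 V')
    (h : ∀ T : ℝ, 1 < T → ∀ x y : ℝ, B T G x y = B T H x y) (hG : Sp fC G) : Sp fC H := by
  have hs := sp_small fC G H h hG
  exact sp_simple H (no_parallel fC rfl rfl rfl H fun A hA => hs A (by omega))
    (no_loop fC rfl rfl H fun A hA => hs A (by omega))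

theorem sp_fM_transfer (G : E → Sym2 V) (H : E' → Sym2 V')
    (h : ∀ T : ℝ, 1 < T → ∀ x y : ℝ, B T G x y = B T H x y) (hG : Sp fM G) : Sp fM H := by
  have hs := sp_small fM G H h hG
  exact sp_free H (no_parallel fM rfl rfl rfl H fun A hA => hs A (by omega))
    (no_loop fM rfl rfl H fun A hA => hs A (by omega))
    (no_triangle fM rfl rfl rfl H fun A hA => hs A (by omega))

/-- the type of an edge set with `m` edges -/
theorem supp_of_sp (f : ℕ → ℕ) (G : E → Sym2 V) (H : E' → Sym2 V')
    (hc : Fintype.card V = Fintype.card V') (hG : Sp f G) (hH : Sp f H) (m : ℕ) (t : Multiset ℕ)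
    (ht : dd G H m t ≠ 0) : (∀ k ∈ t, 0 < k) ∧ t.sum = Fintype.card V ∧
      m ≤ (t.map f).sum ∧ Fintype.card V ≤ Multiset.card t + m := by
  by_cases h1 : cnt G m t = 0
  · have h2 : 0 < cnt H m t := by
      by_contra h0
      apply ht
      rw [dd, h1]
      omega
    rw [cnt, Finset.card_pos] at h2
    obtain ⟨A, hA⟩ := h2
    rw [Finset.mem_filter] at hA
    obtain ⟨_, rfl, rfl⟩ := hA
    rw [hc]
    exact ⟨fun k hk => tau_pos H A k hk, tau_sum H A, hH A, rank_le H A⟩
  · obtain ⟨A, hA⟩ := Finset.card_pos.1 (Nat.pos_of_ne_zero h1)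
    rw [Finset.mem_filter] at hA
    obtain ⟨_, rfl, rfl⟩ := hA
    exact ⟨fun k hk => tau_pos G A k hk, tau_sum G A, hG A, rank_le G A⟩

end Transfer

end Pool.Agent.Lib.QDichromate
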