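import Mathlib
import Pool.Agent.Lib.QDichromate.Defs
import Pool.Agent.Lib.QDichromate.Core
import Pool.Agent.Lib.QDichromate.FewC
import Pool.Agent.Lib.QDichromate.Sparse

/-!
Graphs without many pairwise disjoint edges: all types have few parts greater than one.
-/

set_option linter.unusedSectionVars false

open scoped Classical

namespace Pool.Agent.Lib.QDichromate

section Disj

variable {V E : Type} [Fintype V] [Fintype E]

/-- there are no `k` pairwise disjoint edges (loops do not count) -/
def NoDisj (k : ℕ) (K : E → Sym2 V) : Prop :=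
  ¬ ∃ e : Fin k → E, (∀ i, ¬ (K (e i)).IsDiag) ∧
    ∀ i j, i ≠ j → ∀ v, v ∈ K (e i) → v ∉ K (e j)

/-- the number of parts greater than one -/
def big (t : Multiset ℕ) : ℕ := Multiset.card (t.filter fun a => 2 ≤ a)

theorem big_tau (K : E → Sym2 V) (A : Finset E) :
    big (tau K A) = ((blocks K A).filter fun b => 2 ≤ b.card).card := by
  rw [big, tau, Multiset.filter_map, Multiset.card_map]
  rfl

theorem cls_disj (K : E → Sym2 V) (A : Finset E) (b b' : Finset V) (hb : b ∈ blocks K A)
    (hb' : b' ∈ blocks K A) (v : V) (hv : v ∈ b) (hv' : v ∈ b') : b = b' := by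
  obtain ⟨u, rfl⟩ := (mem_blocks _ _ _).1 hb
  obtain ⟨u', rfl⟩ := (mem_blocks _ _ _).1 hb'
  rw [mem_cls] at hv hv'
  exact (cls_eq_iff K A u u').2 (hv.trans hv'.symm)

theorem edge_in_block (K : E → Sym2 V) (A : Finset E) (b : Finset V) (hb : b ∈ blocks K A)
    (h2 : 2 ≤ b.card) : ∃ e ∈ A, ¬ (K e).IsDiag ∧ ∀ v ∈ K e, v ∈ b := by
  obtain ⟨x, hx, y, hy, hxy⟩ := Finset.one_lt_card.1 (show 1 < b.card by omega)
  obtain ⟨v, rfl⟩ := (mem_blocks _ _ _).1 hb
  rw [mem_cls] at hx hy
  obtain ⟨u, hu⟩ := reach_adj (hx.symm.trans hy) hxy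
  have hu' := hu
  rw [spanning_adj] at hu'
  obtain ⟨⟨e, he, hs⟩, hne⟩ := hu'
  refine ⟨e, he, ?_, ?_⟩
  · rw [hs, Sym2.mk_isDiag_iff]
    exact hne
  · intro w hw
    rw [hs, Sym2.mem_iff] at hw
    rw [mem_cls]
    rcases hw with rfl | rfl
    · exact hx
    · exact hx.trans hu.reachable

theorem big_le (k : ℕ) (K : E → Sym2 V) (hK : NoDisj (k + 1) K) (A : Finset E) :
    big (tau K A) ≤ k := by
  rw [big_tau]
  by_contra hlt
  have hle : k + 1 ≤ ((blocks K A).filter fun b => 2 ≤ b.card).card := by omega
  obtain ⟨S, hS, hSc⟩ := Finset.exists_subset_card_eq hle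
  have hmem : ∀ b ∈ S, b ∈ blocks K A ∧ 2 ≤ b.card := fun b hb => by
    have := hS hb
    rwa [Finset.mem_filter] at this
  let g : Fin (k + 1) ≃ S := (Finset.equivFinOfCardEq hSc).symm
  have hch : ∀ i : Fin (k + 1), ∃ e : E, ¬ (K e).IsDiag ∧ ∀ v ∈ K e, v ∈ (g i : Finset V) := by
    intro i
    obtain ⟨e, _, h1, h2⟩ := edge_in_block K A (g i) (hmem _ (g i).2).1 (hmem _ (g i).2).2
    exact ⟨e, h1, h2⟩
  choose e he1 he2 using hch
  apply hK
  refine ⟨e, he1, ?_⟩
  intro i j hij v hv hv'
  apply hij
  apply g.injective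
  apply Subtype.ext
  exact cls_disj K A _ _ (hmem _ (g i).2).1 (hmem _ (g j).2).1 v (he2 i v hv) (he2 j v hv')

theorem closed_reach {W : Type} (S : SimpleGraph W) (C : Set W)
    (hC : ∀ u ∈ C, ∀ w, S.Adj u w → w ∈ C) (u w : W) (hu : u ∈ C) (h : S.Reachable u w) :
    w ∈ C := by
  obtain ⟨p⟩ := h
  induction p with
  | nil => exact hu
  | cons hadj _ ih => exact ih (hC _ hu _ hadj)

theorem big_of_disj (k : ℕ) (K : E → Sym2 V) (e : Fin k → E) (h1 : ∀ i, ¬ (K (e i)).IsDiag)
    (h2 : ∀ i j, i ≠ j → ∀ v, v ∈ K (e i) → v ∉ K (e j)) :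
    (Finset.univ.image e).card = k ∧ k ≤ big (tau K (Finset.univ.image e)) := by
  have hinj : Function.Injective e := by
    intro i j hij
    by_contra hne
    induction hs : K (e i) using Sym2.ind with
    | _ a b =>
      have ha : a ∈ K (e i) := by rw [hs]; simp
      exact h2 i j hne a ha (hij ▸ ha)
  refine ⟨by rw [Finset.card_image_of_injective _ hinj, Finset.card_univ, Fintype.card_fin], ?_⟩
  rw [big_tau]
  set A := Finset.univ.image e with hA
  have hrep : ∀ i, ∃ v, v ∈ K (e i) := by
    intro i
    induction hs : K (e i) using Sym2.ind with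
    | _ a b => exact ⟨a, by simp⟩
  choose r hr using hrep
  have hclosed : ∀ i, ∀ w, (spanning K A).Reachable (r i) w → w ∈ K (e i) := by
    intro i w hw
    apply closed_reach (spanning K A) {v | v ∈ K (e i)} _ (r i) w (hr i) hw
    intro u hu w hadj
    rw [spanning_adj] at hadj
    obtain ⟨⟨f, hf, hs⟩, _⟩ := hadj
    rw [hA, Finset.mem_image] at hf
    obtain ⟨j, _, rfl⟩ := hf
    have hu2 : u ∈ K (e j) := by rw [hs]; simp
    have hw2 : w ∈ K (e j) := by rw [hs]; simp
    by_cases hij : i = j
    · rw [hij]
      exact hw2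
    · exact absurd hu2 (h2 i j hij u hu)
  have hmap : Function.Injective fun i : Fin k => cls K A (r i) := by
    intro i j hij
    by_contra hne
    have := (cls_eq_iff K A (r i) (r j)).1 hij
    exact h2 j i (fun h => hne h.symm) (r j) (hr j) (hclosed i (r j) this)
  calc k = ((Finset.univ : Finset (Fin k)).image fun i => cls K A (r i)).card := by
        rw [Finset.card_image_of_injective _ hmap, Finset.card_univ, Fintype.card_fin]
    _ ≤ _ := by
      apply Finset.card_le_card
      intro b hb
      obtain ⟨i, _, rfl⟩ := Finset.mem_image.1 hb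
      rw [Finset.mem_filter]
      refine ⟨(mem_blocks _ _ _).2 ⟨_, rfl⟩, ?_⟩
      show 2 ≤ (cls K A (r i)).card
      have h1i := h1 i
      have hri := hr i
      have hmemA : e i ∈ A := by rw [hA]; exact Finset.mem_image_of_mem _ (Finset.mem_univ _)
      induction hs : K (e i) using Sym2.ind with
      | _ a b =>
        rw [hs, Sym2.mk_isDiag_iff] at h1i
        rw [hs, Sym2.mem_iff] at hri
        have hab := reach_of_mem K A (e i) hmemA a b hs
        have hsub : ({a, b} : Finset V) ⊆ cls K A (r i) := by
          intro w hw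
          rw [Finset.mem_insert, Finset.mem_singleton] at hw
          rw [mem_cls]
          rcases hri with hri | hri <;> rw [hri] <;> rcases hw with rfl | rfl
          · exact SimpleGraph.Reachable.refl _
          · exact hab
          · exact hab.symm
          · exact SimpleGraph.Reachable.refl _
        have := Finset.card_le_card hsub
        rwa [Finset.card_pair h1i] at this

end Disj

section DisjTransfer

variable {V E V' E' : Type} [Fintype V] [Fintype E] [Fintype V'] [Fintype E']

theorem noDisj_transfer (k : ℕ) (hk : k ≤ 3) (G : E → Sym2 V) (H : E' → Sym2 V')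
    (h : ∀ T : ℝ, 1 < T → ∀ x y : ℝ, B T G x y = B T H x y) (hG : NoDisj (k + 1) G) :
    NoDisj (k + 1) H := by
  rintro ⟨e, h1, h2⟩
  obtain ⟨c1, c2⟩ := big_of_disj (k + 1) H e h1 h2
  set A := Finset.univ.image e with hA
  have h3 := few_edges G H h (k + 1) (by omega) (tau H A)
  have h4 : 0 < cnt H (k + 1) (tau H A) := by
    rw [cnt, Finset.card_pos]
    exact ⟨A, by simp [c1]⟩
  have h5 : 0 < cnt G (k + 1) (tau H A) := by
    rw [dd] at h3
    omega
  rw [cnt, Finset.card_pos] at h5
  obtain ⟨A', hA'⟩ := h5
  rw [Finset.mem_filter] at hA'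
  have := big_le k G hG A'
  rw [hA'.2.2] at this
  omega

theorem big_of_dd (k : ℕ) (G : E → Sym2 V) (H : E' → Sym2 V')
    (hG : NoDisj (k + 1) G) (hH : NoDisj (k + 1) H) (m : ℕ) (t : Multiset ℕ)
    (ht : dd G H m t ≠ 0) : big t ≤ k := by
  by_cases h1 : cnt G m t = 0
  · have h2 : 0 < cnt H m t := by
      by_contra h0
      apply ht
      rw [dd, h1]
      omega
    rw [cnt, Finset.card_pos] at h2
    obtain ⟨A, hA⟩ := h2
    rw [Finset.mem_filter] at hA
    rw [← hA.2.2]
    exact big_le k H hH A
  · obtain ⟨A, hA⟩ := Finset.card_pos.1 (Nat.pos_of_ne_zero h1)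
    rw [Finset.mem_filter] at hA
    rw [← hA.2.2]
    exact big_le k G hG A

/-- independence of the lowest order terms -/
def NS3 (L : List (List ℕ)) : Prop := ∀ d : Multiset ℕ → ℤ,
  (∀ b : ℝ, 1 < b → (L.map fun t : List ℕ => (d (t : Multiset ℕ) : ℝ) *
    wk b (t : Multiset ℕ)).sum = 0) → ∀ t ∈ L, d (t : Multiset ℕ) = 0

theorem wk_add_ones (b : ℝ) (u : Multiset ℕ) (r : ℕ) :
    wk b (u + Multiset.replicate r 1) = wk b u * (1 / (b - 1)) ^ r := by
  rw [wk, wk, Multiset.map_add, Multiset.prod_add, Multiset.map_replicate,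
    Multiset.prod_replicate]
  simp

theorem split_ones (t : Multiset ℕ) (ht : ∀ a ∈ t, 0 < a) (k : ℕ) (hb : big t ≤ k)
    (hk : k ≤ Multiset.card t) :
    ∃ u : Multiset ℕ, Multiset.card u = k ∧ t = u + Multiset.replicate (Multiset.card t - k) 1 := by
  have h1 := Multiset.filter_add_not (fun a => 2 ≤ a) t
  have h2 : t.filter (fun a => ¬ 2 ≤ a) =
      Multiset.replicate (Multiset.card (t.filter (fun a => ¬ 2 ≤ a))) 1 := by
    apply Multiset.eq_replicate_card.2
    intro a ha
    rw [Multiset.mem_filter] at ha
    have := ht a ha.1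
    omega
  set r := Multiset.card (t.filter (fun a => ¬ 2 ≤ a)) with hr
  rw [h2] at h1
  have hcard : big t + r = Multiset.card t := by
    have h3 := congrArg Multiset.card h1
    rw [Multiset.card_add, Multiset.card_replicate] at h3
    exact h3
  refine ⟨t.filter (fun a => 2 ≤ a) + Multiset.replicate (k - big t) 1, ?_, ?_⟩
  · rw [Multiset.card_add, Multiset.card_replicate]
    have : Multiset.card (t.filter fun a => 2 ≤ a) = big t := rfl
    omega
  · conv_lhs => rw [← h1]
    rw [add_assoc, ← Multiset.replicate_add]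
    congr 2
    omega

theorem level_k (k : ℕ) (hk2 : k = 2 ∨ k = 3) (G : E → Sym2 V) (H : E' → Sym2 V')
    (h : ∀ T : ℝ, 1 < T → ∀ x y : ℝ, B T G x y = B T H x y)
    (hG : NoDisj (k + 1) G) (L : ℕ → List (List ℕ))
    (hnd : ∀ s, s ≤ Fintype.card V → ((L s).map fun t : List ℕ => (t : Multiset ℕ)).Nodup)
    (hmem : ∀ s, s ≤ Fintype.card V → ∀ u : Multiset ℕ, Multiset.card u = k →
      (∀ a ∈ u, 0 < a) → u.sum = s → ∃ l ∈ L s, (l : Multiset ℕ) = u)
    (hlenL : ∀ s, s ≤ Fintype.card V → ∀ l ∈ L s, l.length = k)
    (hNS : ∀ s, s ≤ Fintype.card V → NS3 (L s)) (m : ℕ) :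
    ∀ l : ℕ, ∀ t : Multiset ℕ, Multiset.card t < l → dd G H m t = 0 := by
  have hc := card_eq_of_B 2 (by norm_num) G H (h 2 (by norm_num))
  obtain ⟨h1, h2, h3⟩ := TA_props G H hc
  have hH := noDisj_transfer k (by omega) G H h hG
  intro l
  induction l with
  | zero => intro t ht; omega
  | succ l ih =>
    intro t htl
    by_cases hlt : Multiset.card t < l
    · exact ih t hlt
    have hcl : Multiset.card t = l := by omega
    by_cases hl2 : l < k
    · exact two_parts G H h m t (by omega)
    by_contra hne
    have hT : t ∈ TA G H := by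
      by_contra hn
      exact hne (dd_notMem G H hc m t hn)
    have hp := h3 t hT
    have hlen : l ≤ Fintype.card V := by
      rw [← hcl, ← hp.2]
      have := Multiset.card_nsmul_le_sum (s := t) (a := 1) (fun x hx => hp.1 x hx)
      simpa using this
    set s := Fintype.card V - l + k with hs
    have hsle : s ≤ Fintype.card V := by omega
    set LL := ((L s).map fun t : List ℕ => (t : Multiset ℕ)).toFinset with hLL
    have hdec : ∀ t : Multiset ℕ, t ∈ TA G H → Multiset.card t = l → dd G H m t ≠ 0 →
        ∃ w ∈ L s, t = (w : Multiset ℕ) + Multiset.replicate (l - k) 1 := by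
      intro t hT hcl hne
      have hp := h3 t hT
      obtain ⟨u, hu1, hu2⟩ := split_ones t hp.1 k (big_of_dd k G H hG hH m t hne) (by omega)
      rw [hcl] at hu2
      have hsum : u.sum = s := by
        have e := hp.2
        rw [hu2, Multiset.sum_add, Multiset.sum_replicate, smul_eq_mul, mul_one] at e
        omega
      obtain ⟨w, hw, hw2⟩ := hmem s hsle u hu1 (fun a ha => hp.1 a (by
        rw [hu2]
        exact Multiset.mem_add.2 (Or.inl ha))) hsum
      exact ⟨w, hw, by rw [hw2]; exact hu2⟩
    have key := hNS s hsle (fun u => dd G H m (u + Multiset.replicate (l - k) 1)) (by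
      intro b hb
      have hr := level_rel G H h m l (fun t ht => ih t ht) b hb
      have hinj : Function.Injective fun u : Multiset ℕ => u + Multiset.replicate (l - k) 1 :=
        fun x y hxy => Multiset.add_left_inj.1 hxy
      set f : Multiset ℕ → ℝ := fun t => (dd G H m t : ℝ) * wk b t with hf
      set I := LL.image (fun u => u + Multiset.replicate (l - k) 1) with hI
      have e1 : ∑ t ∈ (TA G H).filter (fun t => Multiset.card t = l), f t =
          ∑ t ∈ (TA G H).filter (fun t => Multiset.card t = l) ∪ I, f t := by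
        apply Finset.sum_subset Finset.subset_union_left
        intro t ht hn
        rw [Finset.mem_union] at ht
        rcases ht with ht | ht
        · exact absurd ht hn
        · have : t ∉ TA G H := by
            intro hTt
            apply hn
            rw [Finset.mem_filter]
            refine ⟨hTt, ?_⟩
            obtain ⟨u, hu, rfl⟩ := Finset.mem_image.1 ht
            rw [hLL, List.mem_toFinset, List.mem_map] at hu
            obtain ⟨w, hw, rfl⟩ := hu
            rw [Multiset.card_add, Multiset.card_replicate, Multiset.coe_card, hlenL s hsle w hw]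
            omega
          rw [hf]
          simp only
          rw [dd_notMem G H hc m t this]
          simp
      have e2 : ∑ t ∈ I, f t =
          ∑ t ∈ (TA G H).filter (fun t => Multiset.card t = l) ∪ I, f t := by
        apply Finset.sum_subset Finset.subset_union_right
        intro t ht hn
        rw [Finset.mem_union] at ht
        rcases ht with ht | ht
        · rw [Finset.mem_filter] at ht
          by_contra hne0
          apply hn
          have hne1 : dd G H m t ≠ 0 := by
            intro h0
            apply hne0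
            rw [hf]
            simp only
            rw [h0]
            simp
          obtain ⟨w, hw, hw2⟩ := hdec t ht.1 ht.2 hne1
          rw [hI, Finset.mem_image]
          refine ⟨(w : Multiset ℕ), ?_, hw2.symm⟩
          rw [hLL, List.mem_toFinset, List.mem_map]
          exact ⟨w, hw, rfl⟩
        · exact absurd ht hn
      have e3 : ∑ t ∈ I, f t = ∑ u ∈ LL, f (u + Multiset.replicate (l - k) 1) := by
        rw [hI, Finset.sum_image (fun x _ y _ hxy => hinj hxy)]
      have e4 : ∑ u ∈ LL, f (u + Multiset.replicate (l - k) 1) =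
          ((L s).map fun t : List ℕ => f ((t : Multiset ℕ) + Multiset.replicate (l - k) 1)).sum := by
        rw [hLL, List.sum_toFinset _ (hnd s hsle), List.map_map]
        rfl
      have hb1 : (1 / (b - 1)) ^ (l - k) ≠ 0 := by
        apply pow_ne_zero
        have : 0 < b - 1 := by linarith
        positivity
      have e5 : ((L s).map fun t : List ℕ =>
          f ((t : Multiset ℕ) + Multiset.replicate (l - k) 1)).sum =
          ((L s).map fun t : List ℕ =>
            (dd G H m ((t : Multiset ℕ) + Multiset.replicate (l - k) 1) : ℝ) *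
              wk b (t : Multiset ℕ)).sum * (1 / (b - 1)) ^ (l - k) := by
        rw [← List.sum_map_mul_right]
        apply congrArg
        apply List.map_congr_left
        intro t _
        rw [hf]
        simp only
        rw [wk_add_ones]
        ring
      have e6 : ((L s).map fun t : List ℕ =>
            (dd G H m ((t : Multiset ℕ) + Multiset.replicate (l - k) 1) : ℝ) *
              wk b (t : Multiset ℕ)).sum * (1 / (b - 1)) ^ (l - k) = 0 := by
        rw [← e5, ← e4, ← e3, e2, ← e1]
        exact hr
      exact (mul_eq_zero.1 e6).resolve_right hb1)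
    obtain ⟨w, hw, hw2⟩ := hdec t hT hcl hne
    apply hne
    rw [hw2]
    exact key w hw

end DisjTransfer

end Pool.Agent.Lib.QDichromate
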