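import Mathlib
import Pool.Agent.Lib.QDichromate.Defs
import Pool.Agent.Lib.QDichromate.Core

/-!
The exceptional numbers for graphs with `n` vertices are smaller than `n ^ n + 1`.
-/

namespace Pool.Agent.Lib.QDichromate

theorem Exc_lt (n : ℕ) (q : ℝ) (h : q ∈ Exc n) : q < (n : ℝ) ^ n + 1 := by
  obtain ⟨p, hp, _, hc, h0⟩ := h
  by_contra hlt
  push Not at hlt
  set M : ℝ := (n : ℝ) ^ n with hM
  have hM0 : 0 < M := by
    rw [hM]
    rcases Nat.eq_zero_or_pos n with rfl | hn
    · norm_num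
    · positivity
  have hq1 : 1 < q := by linarith
  have hq0 : 0 < q := by linarith
  have hco : ∀ i, |((p.coeff i : ℤ) : ℝ)| ≤ M := by
    intro i
    obtain ⟨h1, h2⟩ := hc i
    rw [abs_le, hM]
    constructor
    · exact_mod_cast h1
    · exact_mod_cast h2
  rw [Polynomial.aeval_eq_sum_range, Finset.sum_range_succ] at h0
  have hlead : (1 : ℝ) ≤ |((p.coeff p.natDegree : ℤ) : ℝ)| := by
    have h1 : p.coeff p.natDegree ≠ 0 := by
      rw [Polynomial.coeff_natDegree]
      exact Polynomial.leadingCoeff_ne_zero.2 hp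
    have h2 : 1 ≤ |p.coeff p.natDegree| := Int.one_le_abs h1
    exact_mod_cast h2
  have e1 : q ^ p.natDegree ≤ |∑ i ∈ Finset.range p.natDegree, (p.coeff i) • q ^ i| := by
    have h2 : ∑ i ∈ Finset.range p.natDegree, (p.coeff i) • q ^ i =
        -((p.coeff p.natDegree) • q ^ p.natDegree) := by linarith
    rw [h2, abs_neg, zsmul_eq_mul, abs_mul, abs_of_pos (pow_pos hq0 _)]
    nlinarith [pow_pos hq0 p.natDegree]
  have e2 : |∑ i ∈ Finset.range p.natDegree, (p.coeff i) • q ^ i| ≤
      M * ∑ i ∈ Finset.range p.natDegree, q ^ i := by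
    rw [Finset.mul_sum]
    refine (Finset.abs_sum_le_sum_abs _ _).trans (Finset.sum_le_sum fun i _ => ?_)
    rw [zsmul_eq_mul, abs_mul, abs_of_pos (pow_pos hq0 _)]
    exact mul_le_mul_of_nonneg_right (hco i) (pow_pos hq0 _).le
  have e3 : (q - 1) * ∑ i ∈ Finset.range p.natDegree, q ^ i = q ^ p.natDegree - 1 := by
    rw [mul_comm]
    exact geom_sum_mul q _
  have e4 : M * ∑ i ∈ Finset.range p.natDegree, q ^ i ≤
      (q - 1) * ∑ i ∈ Finset.range p.natDegree, q ^ i := by
    apply mul_le_mul_of_nonneg_right (by linarith)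
    exact Finset.sum_nonneg fun i _ => (pow_pos hq0 _).le
  linarith

end Pool.Agent.Lib.QDichromate
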