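import Mathlib
import Pool.Agent.Lib.QDichromate.Defs
import Pool.Agent.Lib.QDichromate.Core

/-!
A checked elimination modulo a prime, used to show that certain families of functions
`t ↦ ∏ (X^k - 1)/(b^k - 1)` are linearly independent.
-/

namespace Pool.Agent.Lib.QDichromate

section Elim

/-- one elimination step modulo `p` -/
def comb (p : ℕ) (r0 r : List ℕ) : List ℕ :=
  List.zipWith (fun x y => (r0.headD 0 * y + (p - r.headD 0 % p) * x) % p) r0.tail r.tail

/-- elimination modulo `p`; the answer is `true` when the columns are independent -/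
def elim (p : ℕ) : ℕ → List (List ℕ) → Bool
  | 0, _ => true
  | c + 1, M =>
    match M.find? (fun r => r.headD 0 % p != 0) with
    | none => false
    | some r0 => elim p c (M.map (comb p r0))

/-- the product of a row and a column -/
def dot {R : Type} [CommRing R] : List ℕ → List R → R
  | x :: xs, y :: ys => (x : R) * y + dot xs ys
  | _, _ => 0

theorem dot_zero {R : Type} [CommRing R] (xs : List ℕ) : ∀ ys : List R, (∀ y ∈ ys, y = 0) →
    dot xs ys = 0 := by
  induction xs with
  | nil => intro ys _; cases ys <;> rfl
  | cons x xs ih =>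
    intro ys hy
    cases ys with
    | nil => rfl
    | cons y ys =>
      rw [dot, hy y (by simp), ih ys fun z hz => hy z (by simp [hz])]
      simp

theorem dot_comb (p : ℕ) [NeZero p] (a h : ℕ) (xs0 : List ℕ) :
    ∀ (xs : List ℕ) (ys : List (ZMod p)), xs0.length = ys.length → xs.length = ys.length →
    dot (List.zipWith (fun x y => (a * y + (p - h % p) * x) % p) xs0 xs) ys =
      (a : ZMod p) * dot xs ys - (h : ZMod p) * dot xs0 ys := by
  induction xs0 with
  | nil =>
    intro xs ys h1 h2
    have hy : ys = [] := List.length_eq_zero_iff.1 h1.symm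
    subst hy
    have hx : xs = [] := List.length_eq_zero_iff.1 h2
    subst hx
    simp [dot]
  | cons x0 xs0 ih =>
    intro xs ys h1 h2
    cases ys with
    | nil => simp at h1
    | cons y ys =>
      cases xs with
      | nil => simp at h2
      | cons x xs =>
        rw [List.zipWith_cons_cons, dot, ih xs ys (by simpa using h1) (by simpa using h2), dot, dot]
        have hp : h % p ≤ p := (Nat.mod_lt _ (Nat.pos_of_ne_zero (NeZero.ne p))).le
        have e1 : (((a * x + (p - h % p) * x0) % p : ℕ) : ZMod p) = a * x - h * x0 := by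
          rw [ZMod.natCast_mod]
          push_cast [Nat.cast_sub hp]
          rw [ZMod.natCast_self, ZMod.natCast_mod]
          ring
        rw [e1]
        ring

theorem elim_spec (p : ℕ) [Fact p.Prime] (c : ℕ) : ∀ (M : List (List ℕ)),
    (∀ r ∈ M, r.length = c) → elim p c M = true → ∀ d : List (ZMod p), d.length = c →
    (∀ r ∈ M, dot r d = 0) → ∀ x ∈ d, x = 0 := by
  induction c with
  | zero =>
    intro M _ _ d hd _ x hx
    rw [List.length_eq_zero_iff] at hd
    subst hd
    simp at hx
  | succ c ih =>
    intro M hM he d hd hz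
    cases d with
    | nil => simp at hd
    | cons y ys =>
      have hys : ys.length = c := by simpa using hd
      rw [elim] at he
      cases hf : M.find? (fun r => r.headD 0 % p != 0) with
      | none => rw [hf] at he; simp at he
      | some r0 =>
        rw [hf] at he
        have hr0 : r0 ∈ M := List.mem_of_find?_eq_some hf
        have hp0 := List.find?_some hf
        have hl0 := hM r0 hr0
        cases r0 with
        | nil => simp at hl0
        | cons a xs0 =>
          have hxs0 : xs0.length = c := by simpa using hl0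
          have ha : (a : ZMod p) ≠ 0 := by
            intro h0
            rw [ZMod.natCast_eq_zero_iff] at h0
            have : a % p = 0 := Nat.mod_eq_zero_of_dvd h0
            simp [this] at hp0
          have key : ∀ x ∈ ys, x = 0 := by
            apply ih (M.map (comb p (a :: xs0))) _ he ys hys
            · intro r hr
              obtain ⟨s, hs, rfl⟩ := List.mem_map.1 hr
              have hls := hM s hs
              cases s with
              | nil => simp at hls
              | cons h xs =>
                have hxs : xs.length = c := by simpa using hls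
                have e := dot_comb p a h xs0 xs ys (by omega) (by omega)
                have e2 : comb p (a :: xs0) (h :: xs) =
                    List.zipWith (fun x y => (a * y + (p - h % p) * x) % p) xs0 xs := rfl
                rw [e2, e]
                have z1 := hz _ hs
                have z0 := hz _ hr0
                rw [dot] at z1 z0
                linear_combination (a : ZMod p) * z1 - (h : ZMod p) * z0
            · intro r hr
              obtain ⟨s, hs, rfl⟩ := List.mem_map.1 hr
              have hls := hM s hs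
              rw [comb, List.length_zipWith, List.length_tail, List.length_tail, hls]
              simp [hxs0]
          intro x hx
          rcases List.mem_cons.1 hx with rfl | hx
          · have z0 := hz _ hr0
            rw [dot, dot_zero xs0 ys key, add_zero] at z0
            exact (mul_eq_zero.1 z0).resolve_left ha
          · exact key x hx

/-- numerator -/
def numr (X : ℕ) (t : List ℕ) : ℕ := (t.map fun k => X ^ k - 1).prod

/-- common multiple of the denominators -/
def full (b n : ℕ) : ℕ := ((List.range n).map fun k => (b ^ (k + 1) - 1) ^ (n / (k + 1))).prod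

/-- the entries -/
def entr (n b X : ℕ) (t : List ℕ) : ℕ := numr X t * (full b n / numr b t)

/-- the full check -/
def chk (p n : ℕ) (L : List (List ℕ)) (rows : List (ℕ × ℕ)) : Bool :=
  (rows.all fun r => decide (2 ≤ r.1) && (decide (1 ≤ r.2) && L.all fun t =>
    decide (full r.1 n % numr r.1 t = 0))) &&
  elim p L.length (rows.map fun r => L.map fun t => entr n r.1 r.2 t % p)

theorem dot_map (p : ℕ) (e : List ℕ → ℕ) (d : List ℕ → ℤ) (L : List (List ℕ)) :
    dot (L.map fun t => e t % p) (L.map fun t => ((d t : ℤ) : ZMod p)) =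
      (((L.map fun t => d t * (e t : ℤ)).sum : ℤ) : ZMod p) := by
  induction L with
  | nil => simp [dot]
  | cons t L ih =>
    rw [List.map_cons, List.map_cons, List.map_cons, dot, ih, List.sum_cons]
    push_cast
    rw [ZMod.natCast_mod]
    ring

theorem descent (p : ℕ) [Fact p.Prime] (n : ℕ) (L : List (List ℕ)) (rows : List (ℕ × ℕ))
    (he : elim p L.length (rows.map fun r => L.map fun t => entr n r.1 r.2 t % p) = true) (k : ℕ) :
    ∀ d : List ℕ → ℤ,
    (∀ r ∈ rows, (L.map fun t => d t * (entr n r.1 r.2 t : ℤ)).sum = 0) →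
    ∀ t ∈ L, (p : ℤ) ^ k ∣ d t := by
  induction k with
  | zero => intro d _ t _; simp
  | succ k ih =>
    intro d hd t ht
    have h0 : ∀ t ∈ L, (p : ℤ) ∣ d t := by
      intro t ht
      have := elim_spec p L.length _ (by
        intro r hr
        obtain ⟨s, _, rfl⟩ := List.mem_map.1 hr
        simp) he (L.map fun t => ((d t : ℤ) : ZMod p)) (by simp) (by
        intro r hr
        obtain ⟨s, hs, rfl⟩ := List.mem_map.1 hr
        rw [dot_map p (fun t => entr n s.1 s.2 t) d L, hd s hs]
        simp) (d t) (List.mem_map.2 ⟨t, ht, rfl⟩)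
      exact (ZMod.intCast_zmod_eq_zero_iff_dvd _ _).1 this
    have hpz : (p : ℤ) ≠ 0 := by
      have := (Fact.out : p.Prime).pos
      positivity
    have h1 := ih (fun t => d t / p) (by
      intro r hr
      have h2 := hd r hr
      have h3 : (L.map fun t => d t * (entr n r.1 r.2 t : ℤ)).sum =
          p * (L.map fun t => d t / p * (entr n r.1 r.2 t : ℤ)).sum := by
        rw [← List.sum_map_mul_left]
        apply congrArg
        apply List.map_congr_left
        intro t ht
        rw [← mul_assoc, Int.mul_ediv_cancel' (h0 t ht)]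
      rw [h3] at h2
      exact (mul_eq_zero.1 h2).resolve_left hpz) t ht
    obtain ⟨c, hc⟩ := h1
    refine ⟨c, ?_⟩
    have := Int.mul_ediv_cancel' (h0 t ht)
    rw [← this, hc]
    ring

theorem numr_pos (b : ℕ) (hb : 2 ≤ b) (t : List ℕ) (ht : ∀ k ∈ t, 0 < k) : 0 < numr b t := by
  rw [numr]
  apply List.prod_pos
  intro a ha
  obtain ⟨k, hk, rfl⟩ := List.mem_map.1 ha
  have : 1 < b ^ k := Nat.one_lt_pow (ht k hk).ne' (by omega)
  omega

theorem PX_nat (b X : ℕ) (hX : 1 ≤ X) (hb : 2 ≤ b) (t : List ℕ) :
    PX (b : ℝ) (X : ℝ) (t : Multiset ℕ) = (numr X t : ℝ) / (numr b t : ℝ) := by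
  rw [PX, Multiset.map_coe, Multiset.prod_coe]
  induction t with
  | nil => simp [numr]
  | cons k t ih =>
    rw [List.map_cons, List.prod_cons, ih, numr, numr, numr, numr, List.map_cons, List.prod_cons,
      List.map_cons, List.prod_cons]
    have e1 : 1 ≤ X ^ k := Nat.one_le_pow _ _ (by omega)
    have e2 : 1 ≤ b ^ k := Nat.one_le_pow _ _ (by omega)
    push_cast [Nat.cast_sub e1, Nat.cast_sub e2]
    rw [div_mul_div_comm]

/-- the linear independence of a list of types -/
def NS2 (L : List (List ℕ)) : Prop := ∀ d : Multiset ℕ → ℤ,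
  (∀ b X : ℝ, 1 < b → (L.map fun t : List ℕ => (d (t : Multiset ℕ) : ℝ) *
    PX b X (t : Multiset ℕ)).sum = 0) → ∀ t ∈ L, d (t : Multiset ℕ) = 0

theorem ns2_of_chk (p : ℕ) [Fact p.Prime] (n : ℕ) (L : List (List ℕ)) (rows : List (ℕ × ℕ))
    (hpos : ∀ t ∈ L, ∀ k ∈ t, 0 < k) (h : chk p n L rows = true) : NS2 L := by
  intro d hd t ht
  rw [chk, Bool.and_eq_true] at h
  obtain ⟨h1, h2⟩ := h
  rw [List.all_eq_true] at h1
  have hrel : ∀ r ∈ rows, (L.map fun t : List ℕ => d (t : Multiset ℕ) *
      (entr n r.1 r.2 t : ℤ)).sum = 0 := by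
    intro r hr
    have h3 := h1 r hr
    rw [Bool.and_eq_true, Bool.and_eq_true, decide_eq_true_eq, decide_eq_true_eq,
      List.all_eq_true] at h3
    obtain ⟨hb, hX, hdiv⟩ := h3
    have h4 := hd (r.1 : ℝ) (r.2 : ℝ) (by exact_mod_cast (by omega : 1 < r.1))
    have h5 : ((L.map fun t : List ℕ => d (t : Multiset ℕ) * (entr n r.1 r.2 t : ℤ)).sum : ℝ) =
        (full r.1 n : ℝ) * (L.map fun t : List ℕ => (d (t : Multiset ℕ) : ℝ) *
          PX (r.1 : ℝ) (r.2 : ℝ) (t : Multiset ℕ)).sum := by
      rw [← List.sum_map_mul_left]
      rw [show (((L.map fun t : List ℕ => d (t : Multiset ℕ) *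
        (entr n r.1 r.2 t : ℤ)).sum : ℤ) : ℝ) = ((Int.castRingHom ℝ)
          (L.map fun t : List ℕ => d (t : Multiset ℕ) * (entr n r.1 r.2 t : ℤ)).sum) from rfl]
      rw [map_list_sum, List.map_map]
      apply congrArg
      apply List.map_congr_left
      intro t ht
      have hp := numr_pos r.1 hb t (hpos t ht)
      have hd2 : numr r.1 t ∣ full r.1 n := by
        have := hdiv t ht
        rw [decide_eq_true_eq] at this
        exact Nat.dvd_of_mod_eq_zero this
      have hne : ((numr r.1 t : ℕ) : ℝ) ≠ 0 := by exact_mod_cast hp.ne'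
      rw [PX_nat r.1 r.2 hX hb t]
      simp only [Function.comp_apply, Int.coe_castRingHom, entr]
      rw [Int.cast_mul, Int.cast_natCast, Nat.cast_mul, Nat.cast_div hd2 hne]
      ring
    rw [h4, mul_zero] at h5
    exact_mod_cast h5
  have hk := descent p n L rows h2
  by_contra hne
  have hp2 : 2 ≤ p := (Fact.out : p.Prime).two_le
  have hdv := hk (d (t : Multiset ℕ)).natAbs (fun t => d (t : Multiset ℕ)) hrel t ht
  have h6 : p ^ (d (t : Multiset ℕ)).natAbs ≤ (d (t : Multiset ℕ)).natAbs := by
    apply Nat.le_of_dvd (Int.natAbs_pos.2 hne)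
    have := Int.natAbs_dvd_natAbs.2 hdv
    rwa [Int.natAbs_pow, Int.natAbs_natCast] at this
  have h7 : (d (t : Multiset ℕ)).natAbs < p ^ (d (t : Multiset ℕ)).natAbs := by
    exact Nat.lt_pow_self (by omega)
  omega

end Elim

end Pool.Agent.Lib.QDichromate
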