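import Mathlib
import Pool.Agent.Lib.QDichromate.Core
import Pool.Agent.Lib.QDichromate.Rank
import Pool.Agent.Lib.QDichromate.Match

/-!
A checked elimination for the lowest order terms, and the lists of types with three parts.
-/

namespace Pool.Agent.Lib.QDichromate

section Gen

/-- entries of the lowest order terms -/
def ent3 (s b : ℕ) (t : List ℕ) : ℕ := t.prod * (full b s / numr b t)

/-- the full check -/
def chk3 (p s : ℕ) (L : List (List ℕ)) (bs : List ℕ) : Bool :=
  (bs.all fun b => decide (2 ≤ b) && L.all fun t => decide (full b s % numr b t = 0)) &&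
  elim p L.length (bs.map fun b => L.map fun t => ent3 s b t % p)

theorem descent3 (p : ℕ) [Fact p.Prime] (s : ℕ) (L : List (List ℕ)) (bs : List ℕ)
    (he : elim p L.length (bs.map fun b => L.map fun t => ent3 s b t % p) = true) (k : ℕ) :
    ∀ d : List ℕ → ℤ,
    (∀ b ∈ bs, (L.map fun t => d t * (ent3 s b t : ℤ)).sum = 0) →
    ∀ t ∈ L, (p : ℤ) ^ k ∣ d t := by
  induction k with
  | zero => intro d _ t _; simp
  | succ k ih =>
    intro d hd t ht
    have h0 : ∀ t ∈ L, (p : ℤ) ∣ d t := by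
      intro t ht
      have := elim_spec p L.length _ (by
        intro r hr
        obtain ⟨s, _, rfl⟩ := List.mem_map.1 hr
        simp) he (L.map fun t => ((d t : ℤ) : ZMod p)) (by simp) (by
        intro r hr
        obtain ⟨b, hb, rfl⟩ := List.mem_map.1 hr
        rw [dot_map p (fun t => ent3 s b t) d L, hd b hb]
        simp) (d t) (List.mem_map.2 ⟨t, ht, rfl⟩)
      exact (ZMod.intCast_zmod_eq_zero_iff_dvd _ _).1 this
    have hpz : (p : ℤ) ≠ 0 := by
      have := (Fact.out : p.Prime).pos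
      positivity
    have h1 := ih (fun t => d t / p) (by
      intro b hb
      have h2 := hd b hb
      have h3 : (L.map fun t => d t * (ent3 s b t : ℤ)).sum =
          p * (L.map fun t => d t / p * (ent3 s b t : ℤ)).sum := by
        rw [← List.sum_map_mul_left]
        apply congrArg
        apply List.map_congr_left
        intro t ht
        rw [← mul_assoc, Int.mul_ediv_cancel' (h0 t ht)]
      rw [h3] at h2
      exact (mul_eq_zero.1 h2).resolve_left hpz) t ht
    obtain ⟨c, hc⟩ := h1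
    refine ⟨c, ?_⟩
    have := Int.mul_ediv_cancel' (h0 t ht)
    rw [← this, hc]
    ring

theorem wk_nat (b : ℕ) (hb : 2 ≤ b) (t : List ℕ) :
    wk (b : ℝ) (t : Multiset ℕ) = (t.prod : ℝ) / (numr b t : ℝ) := by
  rw [wk, Multiset.map_coe, Multiset.prod_coe]
  induction t with
  | nil => simp [numr]
  | cons k t ih =>
    rw [List.map_cons, List.prod_cons, ih, numr, numr, List.map_cons, List.prod_cons,
      List.prod_cons]
    have e2 : 1 ≤ b ^ k := Nat.one_le_pow _ _ (by omega)
    push_cast [Nat.cast_sub e2]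
    rw [div_mul_div_comm]

theorem ns3_of_chk (p : ℕ) [Fact p.Prime] (s : ℕ) (L : List (List ℕ)) (bs : List ℕ)
    (hpos : ∀ t ∈ L, ∀ k ∈ t, 0 < k) (h : chk3 p s L bs = true) : NS3 L := by
  intro d hd t ht
  rw [chk3, Bool.and_eq_true] at h
  obtain ⟨h1, h2⟩ := h
  rw [List.all_eq_true] at h1
  have hrel : ∀ b ∈ bs, (L.map fun t : List ℕ => d (t : Multiset ℕ) *
      (ent3 s b t : ℤ)).sum = 0 := by
    intro b hr
    have h3 := h1 b hr
    rw [Bool.and_eq_true, decide_eq_true_eq, List.all_eq_true] at h3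
    obtain ⟨hb, hdiv⟩ := h3
    have h4 := hd (b : ℝ) (by exact_mod_cast (by omega : 1 < b))
    have h5 : ((L.map fun t : List ℕ => d (t : Multiset ℕ) * (ent3 s b t : ℤ)).sum : ℝ) =
        (full b s : ℝ) * (L.map fun t : List ℕ => (d (t : Multiset ℕ) : ℝ) *
          wk (b : ℝ) (t : Multiset ℕ)).sum := by
      rw [← List.sum_map_mul_left]
      rw [show (((L.map fun t : List ℕ => d (t : Multiset ℕ) *
        (ent3 s b t : ℤ)).sum : ℤ) : ℝ) = ((Int.castRingHom ℝ)
          (L.map fun t : List ℕ => d (t : Multiset ℕ) * (ent3 s b t : ℤ)).sum) from rfl]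
      rw [map_list_sum, List.map_map]
      apply congrArg
      apply List.map_congr_left
      intro t ht
      have hp := numr_pos b hb t (hpos t ht)
      have hd2 : numr b t ∣ full b s := by
        have := hdiv t ht
        rw [decide_eq_true_eq] at this
        exact Nat.dvd_of_mod_eq_zero this
      have hne : ((numr b t : ℕ) : ℝ) ≠ 0 := by exact_mod_cast hp.ne'
      rw [wk_nat b hb t]
      simp only [Function.comp_apply, Int.coe_castRingHom, ent3]
      rw [Int.cast_mul, Int.cast_natCast, Nat.cast_mul, Nat.cast_div hd2 hne]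
      ring
    rw [h4, mul_zero] at h5
    exact_mod_cast h5
  have hk := descent3 p s L bs h2
  by_contra hne
  have hp2 : 2 ≤ p := (Fact.out : p.Prime).two_le
  have hdv := hk (d (t : Multiset ℕ)).natAbs (fun t => d (t : Multiset ℕ)) hrel t ht
  have h6 : p ^ (d (t : Multiset ℕ)).natAbs ≤ (d (t : Multiset ℕ)).natAbs := by
    apply Nat.le_of_dvd (Int.natAbs_pos.2 hne)
    have := Int.natAbs_dvd_natAbs.2 hdv
    rwa [Int.natAbs_pow, Int.natAbs_natCast] at this
  have h7 : (d (t : Multiset ℕ)).natAbs < p ^ (d (t : Multiset ℕ)).natAbs := by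
    exact Nat.lt_pow_self (by omega)
  omega

end Gen

section Lists

/-- the partitions of `s` into three parts -/
def L3 (s : ℕ) : List (List ℕ) :=
  (List.range (s + 1)).flatMap fun b =>
    ((List.range (b + 1)).filter fun c => decide (1 ≤ c) && decide (2 * b + c ≤ s)).map
      fun c => [s - b - c, b, c]

theorem mem_L3 (s a b c : ℕ) (hc : 1 ≤ c) (hcb : c ≤ b) (hba : b ≤ a) (hs : a + b + c = s) :
    [a, b, c] ∈ L3 s := by
  rw [L3, List.mem_flatMap]
  refine ⟨b, by rw [List.mem_range]; omega, ?_⟩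
  rw [List.mem_map]
  refine ⟨c, ?_, ?_⟩
  · rw [List.mem_filter, List.mem_range, Bool.and_eq_true, decide_eq_true_eq, decide_eq_true_eq]
    omega
  · rw [show s - b - c = a by omega]

theorem L3_props (s : ℕ) (t : List ℕ) (ht : t ∈ L3 s) :
    ∃ a b c, t = [a, b, c] ∧ 1 ≤ c ∧ c ≤ b ∧ b ≤ a ∧ a + b + c = s := by
  rw [L3, List.mem_flatMap] at ht
  obtain ⟨b, _, ht⟩ := ht
  rw [List.mem_map] at ht
  obtain ⟨c, hc, rfl⟩ := ht
  rw [List.mem_filter, List.mem_range, Bool.and_eq_true, decide_eq_true_eq,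
    decide_eq_true_eq] at hc
  exact ⟨s - b - c, b, c, rfl, hc.2.1, by omega, by omega, by omega⟩

theorem L3_pos (s : ℕ) (t : List ℕ) (ht : t ∈ L3 s) (k : ℕ) (hk : k ∈ t) : 0 < k := by
  obtain ⟨a, b, c, rfl, h1, h2, h3, _⟩ := L3_props s t ht
  simp only [List.mem_cons, List.not_mem_nil, or_false] at hk
  omega

theorem L3_length (s : ℕ) (t : List ℕ) (ht : t ∈ L3 s) : t.length = 3 := by
  obtain ⟨a, b, c, rfl, _⟩ := L3_props s t ht
  rfl

theorem L3_nodup (s : ℕ) : (L3 s).Nodup := by
  rw [L3, List.nodup_flatMap]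
  constructor
  · intro b _
    apply List.Nodup.map_on _ (List.nodup_range.filter _)
    intro x _ y _ hxy
    simp only [List.cons.injEq, and_true] at hxy
    exact hxy.2.2
  · apply List.Pairwise.imp _ List.nodup_range
    intro b b' hbb' x hx hx'
    rw [List.mem_map] at hx hx'
    obtain ⟨c, _, rfl⟩ := hx
    obtain ⟨c', _, h⟩ := hx'
    simp only [List.cons.injEq, and_true] at h
    exact hbb' h.2.1.symm

theorem L3_coe_nodup (s : ℕ) : ((L3 s).map fun t : List ℕ => (t : Multiset ℕ)).Nodup := by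
  apply List.Nodup.map_on _ (L3_nodup s)
  intro x hx y hy hxy
  rw [Multiset.coe_eq_coe] at hxy
  obtain ⟨a, b, c, rfl, _, h2, h3, _⟩ := L3_props s x hx
  obtain ⟨a', b', c', rfl, _, h2', h3', _⟩ := L3_props s y hy
  apply hxy.eq_of_pairwise (le := (· ≥ ·)) (fun a b _ _ h1 h2 => le_antisymm h2 h1)
  · simp only [List.pairwise_cons, List.mem_cons, List.not_mem_nil, or_false]
    refine ⟨?_, ?_, by simp, List.Pairwise.nil⟩
    · rintro x (rfl | rfl) <;> omega
    · rintro x rfl
      omega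
  · simp only [List.pairwise_cons, List.mem_cons, List.not_mem_nil, or_false]
    refine ⟨?_, ?_, by simp, List.Pairwise.nil⟩
    · rintro x (rfl | rfl) <;> omega
    · rintro x rfl
      omega

theorem L3_mem (s : ℕ) (u : Multiset ℕ) (hu : Multiset.card u = 3) (hp : ∀ a ∈ u, 0 < a)
    (hs : u.sum = s) : ∃ l ∈ L3 s, (l : Multiset ℕ) = u := by
  have h1 : (u.sort (· ≥ ·) : Multiset ℕ) = u := Multiset.sort_eq u _
  have h2 : (u.sort (· ≥ ·)).length = 3 := by rw [Multiset.length_sort, hu]
  have h3 : (u.sort (· ≥ ·)).Pairwise (· ≥ ·) := Multiset.pairwise_sort u _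
  obtain ⟨a, b, c, habc⟩ := List.length_eq_three.1 h2
  rw [habc] at h1 h3
  simp only [List.pairwise_cons, List.mem_cons, List.not_mem_nil, or_false, forall_eq_or_imp,
    forall_eq] at h3
  refine ⟨[a, b, c], ?_, h1⟩
  apply mem_L3
  · exact hp c (by rw [← h1]; simp)
  · exact h3.2.1
  · exact h3.1.1
  · rw [← hs, ← h1]
    simp
    ring

/-- the partitions of `s` into two parts -/
def L2 (s : ℕ) : List (List ℕ) :=
  ((List.range (s / 2 + 1)).filter fun a => decide (1 ≤ a)).map fun a => [s - a, a]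

theorem L2_props (s : ℕ) (t : List ℕ) (ht : t ∈ L2 s) :
    ∃ a, t = [s - a, a] ∧ 1 ≤ a ∧ a ≤ s / 2 := by
  rw [L2, List.mem_map] at ht
  obtain ⟨a, ha, rfl⟩ := ht
  rw [List.mem_filter, List.mem_range, decide_eq_true_eq] at ha
  exact ⟨a, rfl, ha.2, by omega⟩

theorem L2_coe (s a : ℕ) : (([s - a, a] : List ℕ) : Multiset ℕ) = ph s a := by
  rw [ph, ← Multiset.coe_nil, Multiset.cons_coe, Multiset.cons_coe, Multiset.coe_eq_coe]
  exact List.Perm.swap _ _ _

theorem L2_coe_nodup (s : ℕ) : ((L2 s).map fun t : List ℕ => (t : Multiset ℕ)).Nodup := by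
  rw [L2, List.map_map]
  apply List.Nodup.map_on _ (List.nodup_range.filter _)
  intro x hx y hy hxy
  rw [List.mem_filter, List.mem_range, decide_eq_true_eq] at hx hy
  simp only [Function.comp_apply] at hxy
  rw [L2_coe, L2_coe] at hxy
  exact ph_injOn s (by rw [Finset.mem_coe, Finset.mem_Icc]; omega)
    (by rw [Finset.mem_coe, Finset.mem_Icc]; omega) hxy

theorem L2_mem (s : ℕ) (u : Multiset ℕ) (hu : Multiset.card u = 2) (hp : ∀ a ∈ u, 0 < a)
    (hs : u.sum = s) : ∃ l ∈ L2 s, (l : Multiset ℕ) = u := by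
  have key : ∀ a b : ℕ, 0 < a → a ≤ b → a + b = s →
      ∃ l ∈ L2 s, (l : Multiset ℕ) = {a, b} := by
    intro a b ha hab h
    refine ⟨[s - a, a], ?_, ?_⟩
    · rw [L2, List.mem_map]
      refine ⟨a, ?_, rfl⟩
      rw [List.mem_filter, List.mem_range, decide_eq_true_eq]
      omega
    · rw [L2_coe, ph, show s - a = b by omega]
      rfl
  obtain ⟨a, b, rfl⟩ := Multiset.card_eq_two.1 hu
  have ha := hp a (by simp)
  have hb := hp b (by simp)
  have h : a + b = s := by simpa using hs
  rcases le_total a b with hab | hab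
  · exact key a b ha hab h
  · obtain ⟨l, h1, h2⟩ := key b a hb hab (by omega)
    exact ⟨l, h1, by rw [h2]; exact Multiset.pair_comm b a⟩

theorem ns3_L2 (s : ℕ) : NS3 (L2 s) := by
  intro d hd
  have hind := pair_indep s (fun a => (d (ph s a) : ℝ) * ((a : ℝ) * ((s - a : ℕ) : ℝ))) (by
    intro z hz0 hz1
    have hb : 1 < z⁻¹ := (one_lt_inv₀ hz0).2 hz1
    have hs := hd z⁻¹ hb
    have hs2 : ∑ a ∈ Finset.Icc 1 (s / 2), (d (ph s a) : ℝ) * wk z⁻¹ (ph s a) = 0 := by
      rw [← hs, L2, List.map_map, ← List.sum_toFinset _ (List.nodup_range.filter _)]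
      apply Finset.sum_congr
      · ext a
        rw [Finset.mem_Icc, List.mem_toFinset, List.mem_filter, List.mem_range,
          decide_eq_true_eq]
        omega
      · intro a _
        simp only [Function.comp_apply]
        rw [L2_coe]
    have hzn : z ^ s ≠ 0 := pow_ne_zero _ hz0.ne'
    apply (mul_eq_zero.1 (_ : z ^ s * _ = 0)).resolve_left hzn
    rw [← hs2, Finset.mul_sum]
    apply Finset.sum_congr rfl
    intro a ha
    rw [Finset.mem_Icc] at ha
    have p1 : z ^ a < 1 := pow_lt_one₀ hz0.le hz1 (by omega)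
    have p2 : z ^ (s - a) < 1 := pow_lt_one₀ hz0.le hz1 (by omega)
    have q1 : (1 - z ^ a) ≠ 0 := by linarith
    have q2 : (1 - z ^ (s - a)) ≠ 0 := by linarith
    have z1 : z ^ a ≠ 0 := pow_ne_zero _ hz0.ne'
    have z2 : z ^ (s - a) ≠ 0 := pow_ne_zero _ hz0.ne'
    have hzz : z ^ s = z ^ a * z ^ (s - a) := by rw [← pow_add]; congr 1; omega
    have w1 : (z⁻¹) ^ a - 1 = (1 - z ^ a) / z ^ a := by
      rw [inv_pow]
      field_simp
    have w2 : (z⁻¹) ^ (s - a) - 1 = (1 - z ^ (s - a)) / z ^ (s - a) := by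
      rw [inv_pow]
      field_simp
    have hw : wk z⁻¹ (ph s a) = ((a : ℝ) / ((z⁻¹) ^ a - 1)) *
        (((s - a : ℕ) : ℝ) / ((z⁻¹) ^ (s - a) - 1)) := by
      simp [wk, ph]
    rw [hw, w1, w2, hzz]
    field_simp)
  intro t ht
  obtain ⟨a, rfl, h1, h2⟩ := L2_props s t ht
  rw [L2_coe]
  have h5 := hind a (Finset.mem_Icc.2 ⟨h1, h2⟩)
  have e1 : (0 : ℝ) < a := by exact_mod_cast h1
  have e2 : (0 : ℝ) < ((s - a : ℕ) : ℝ) := by
    have : 0 < s - a := by omega
    exact_mod_cast this
  have := (mul_eq_zero.1 h5).resolve_right (by positivity)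
  exact_mod_cast this

end Lists

end Pool.Agent.Lib.QDichromate
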