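import Mathlib
import Pool.Agent.Lib.QDichromate.Defs
import Pool.Agent.Lib.QDichromate.Core
import Pool.Agent.Lib.QDichromate.Rank
import Pool.Agent.Lib.QDichromate.MatchRank

/-!
A faster form of the checked elimination modulo a prime.
-/

namespace Pool.Agent.Lib.QDichromate

section Fast

/-- forced evaluation -/
def frc {α : Type} (n : ℕ) (k : ℕ → α) : α := Nat.rec (k 0) (fun m _ => k (Nat.succ m)) n

theorem frc_eq {α : Type} (n : ℕ) (k : ℕ → α) : frc n k = k n := by
  cases n <;> rfl

def numrF (X : ℕ) (t : List ℕ) : ℕ :=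
  List.rec 1 (fun k _ ih => Nat.mul (Nat.sub (Nat.pow X k) 1) ih) t

theorem numrF_eq (X : ℕ) (t : List ℕ) : numrF X t = numr X t := by
  induction t with
  | nil => rfl
  | cons k t ih =>
    rw [numr, List.map_cons, List.prod_cons]
    show Nat.mul (Nat.sub (Nat.pow X k) 1) (numrF X t) = _
    rw [ih]
    rfl

def prodF (t : List ℕ) : ℕ := List.rec 1 (fun k _ ih => Nat.mul k ih) t

theorem prodF_eq (t : List ℕ) : prodF t = t.prod := by
  induction t with
  | nil => rfl
  | cons k t ih =>
    rw [List.prod_cons]
    show Nat.mul k (prodF t) = _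
    rw [ih]
    rfl

/-- one row operation -/
def rowF (p a h : ℕ) (xs : List ℕ) : List ℕ → List ℕ :=
  List.rec (fun _ => []) (fun x _ ih ys => List.rec [] (fun y ys' _ =>
    frc (Nat.mod (Nat.add (Nat.mul a y) (Nat.mul h x)) p) fun v => v :: ih ys') ys) xs

theorem rowF_cons (p a h x : ℕ) (xs : List ℕ) (y : ℕ) (ys : List ℕ) :
    rowF p a h (x :: xs) (y :: ys) = ((a * y + h * x) % p) :: rowF p a h xs ys := by
  show frc (Nat.mod (Nat.add (Nat.mul a y) (Nat.mul h x)) p) (fun v => v :: rowF p a h xs ys) = _
  rw [frc_eq]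
  rfl

theorem rowF_length (p a h : ℕ) (xs : List ℕ) : ∀ ys : List ℕ, xs.length = ys.length →
    (rowF p a h xs ys).length = ys.length := by
  induction xs with
  | nil =>
    intro ys hy
    have : ys = [] := List.length_eq_zero_iff.1 hy.symm
    subst this
    rfl
  | cons x xs ih =>
    intro ys hy
    cases ys with
    | nil => simp at hy
    | cons y ys =>
      rw [rowF_cons, List.length_cons, List.length_cons, ih ys (by simpa using hy)]

theorem dot_rowF (p a h : ℕ) (xs0 : List ℕ) :
    ∀ (xs : List ℕ) (ys : List (ZMod p)), xs0.length = ys.length → xs.length = ys.length →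
    dot (rowF p a h xs0 xs) ys = (a : ZMod p) * dot xs ys + (h : ZMod p) * dot xs0 ys := by
  induction xs0 with
  | nil =>
    intro xs ys h1 h2
    have hy : ys = [] := List.length_eq_zero_iff.1 h1.symm
    subst hy
    have hx : xs = [] := List.length_eq_zero_iff.1 h2
    subst hx
    simp [dot, rowF]
  | cons x0 xs0 ih =>
    intro xs ys h1 h2
    cases ys with
    | nil => simp at h1
    | cons y ys =>
      cases xs with
      | nil => simp at h2
      | cons x xs =>
        rw [rowF_cons, dot, ih xs ys (by simpa using h1) (by simpa using h2), dot, dot,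
          ZMod.natCast_mod]
        push_cast
        ring

def combF (p a : ℕ) (xs0 : List ℕ) (r : List ℕ) : List ℕ :=
  List.rec [] (fun h xs _ => frc (Nat.sub p (Nat.mod h p)) fun h' => rowF p a h' xs0 xs) r

theorem combF_cons (p a : ℕ) (xs0 : List ℕ) (h : ℕ) (xs : List ℕ) :
    combF p a xs0 (h :: xs) = rowF p a (p - h % p) xs0 xs := by
  show frc (Nat.sub p (Nat.mod h p)) (fun h' => rowF p a h' xs0 xs) = _
  rw [frc_eq]
  rfl

def mapF (f : List ℕ → List ℕ) (M : List (List ℕ)) : List (List ℕ) :=
  List.rec [] (fun r _ ih => f r :: ih) M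

theorem mapF_eq (f : List ℕ → List ℕ) (M : List (List ℕ)) : mapF f M = M.map f := by
  induction M with
  | nil => rfl
  | cons r M ih =>
    rw [List.map_cons, ← ih]
    rfl

/-- elimination with the first row as the pivot row -/
def elimF (p : ℕ) : ℕ → List (List ℕ) → Bool
  | 0, _ => true
  | c + 1, M =>
    match M with
    | [] => false
    | r :: M' =>
      match r with
      | [] => false
      | a :: xs0 => if Nat.beq (Nat.mod a p) 0 then false else elimF p c (mapF (combF p a xs0) M')

theorem elimF_spec (p : ℕ) [Fact p.Prime] (c : ℕ) : ∀ (M : List (List ℕ)),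
    (∀ r ∈ M, r.length = c) → elimF p c M = true → ∀ d : List (ZMod p), d.length = c →
    (∀ r ∈ M, dot r d = 0) → ∀ x ∈ d, x = 0 := by
  have hp1 : 0 < p := (Fact.out : p.Prime).pos
  induction c with
  | zero =>
    intro M _ _ d hd _ x hx
    rw [List.length_eq_zero_iff] at hd
    subst hd
    simp at hx
  | succ c ih =>
    intro M hM he d hd hz
    cases d with
    | nil => simp at hd
    | cons y ys =>
      have hys : ys.length = c := by simpa using hd
      cases M with
      | nil => simp [elimF] at he
      | cons r M' =>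
        cases r with
        | nil => simp [elimF] at he
        | cons a xs0 =>
          rw [elimF] at he
          have hxs0 : xs0.length = c := by
            have := hM _ (List.mem_cons_self)
            simpa using this
          by_cases hb : Nat.beq (Nat.mod a p) 0 = true
          · rw [if_pos hb] at he
            simp at he
          rw [if_neg hb, mapF_eq] at he
          have ha : (a : ZMod p) ≠ 0 := by
            intro h0
            rw [ZMod.natCast_eq_zero_iff] at h0
            apply hb
            have : a % p = 0 := Nat.mod_eq_zero_of_dvd h0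
            show Nat.beq (a % p) 0 = true
            rw [this]
            rfl
          have hz0 := hz _ (List.mem_cons_self)
          have key : ∀ x ∈ ys, x = 0 := by
            apply ih (M'.map (combF p a xs0)) _ he ys hys
            · intro r hr
              obtain ⟨s, hs, rfl⟩ := List.mem_map.1 hr
              have hls := hM s (List.mem_cons_of_mem _ hs)
              cases s with
              | nil => simp at hls
              | cons h xs =>
                have hxs : xs.length = c := by simpa using hls
                rw [combF_cons, dot_rowF p a (p - h % p) xs0 xs ys (by omega) (by omega)]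
                have z1 := hz _ (List.mem_cons_of_mem _ hs)
                rw [dot] at z1 hz0
                have hle : h % p ≤ p := (Nat.mod_lt _ hp1).le
                rw [Nat.cast_sub hle, ZMod.natCast_self, ZMod.natCast_mod]
                linear_combination (a : ZMod p) * z1 - (h : ZMod p) * hz0
            · intro r hr
              obtain ⟨s, hs, rfl⟩ := List.mem_map.1 hr
              have hls := hM s (List.mem_cons_of_mem _ hs)
              cases s with
              | nil => simp at hls
              | cons h xs =>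
                have hxs : xs.length = c := by simpa using hls
                rw [combF_cons, rowF_length p a _ xs0 xs (by omega), hxs]
          intro x hx
          rcases List.mem_cons.1 hx with rfl | hx
          · rw [dot, dot_zero xs0 ys key, add_zero] at hz0
            exact (mul_eq_zero.1 hz0).resolve_left ha
          · exact key x hx

theorem descentF (p : ℕ) [Fact p.Prime] (L : List (List ℕ)) (R : List (List ℕ → ℕ))
    (he : elimF p L.length (R.map fun e => L.map fun t => e t % p) = true) (k : ℕ) :
    ∀ d : List ℕ → ℤ, (∀ e ∈ R, (L.map fun t => d t * (e t : ℤ)).sum = 0) →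
    ∀ t ∈ L, (p : ℤ) ^ k ∣ d t := by
  induction k with
  | zero => intro d _ t _; simp
  | succ k ih =>
    intro d hd t ht
    have h0 : ∀ t ∈ L, (p : ℤ) ∣ d t := by
      intro t ht
      have := elimF_spec p L.length _ (by
        intro r hr
        obtain ⟨s, _, rfl⟩ := List.mem_map.1 hr
        simp) he (L.map fun t => ((d t : ℤ) : ZMod p)) (by simp) (by
        intro r hr
        obtain ⟨e, hb, rfl⟩ := List.mem_map.1 hr
        rw [dot_map p e d L, hd e hb]
        simp) (d t) (List.mem_map.2 ⟨t, ht, rfl⟩)
      exact (ZMod.intCast_zmod_eq_zero_iff_dvd _ _).1 this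
    have hpz : (p : ℤ) ≠ 0 := by
      have := (Fact.out : p.Prime).pos
      positivity
    have h1 := ih (fun t => d t / p) (by
      intro b hb
      have h2 := hd b hb
      have h3 : (L.map fun t => d t * (b t : ℤ)).sum =
          p * (L.map fun t => d t / p * (b t : ℤ)).sum := by
        rw [← List.sum_map_mul_left]
        apply congrArg
        apply List.map_congr_left
        intro t ht
        rw [← mul_assoc, Int.mul_ediv_cancel' (h0 t ht)]
      rw [h3] at h2
      exact (mul_eq_zero.1 h2).resolve_left hpz) t ht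
    obtain ⟨c, hc⟩ := h1
    refine ⟨c, ?_⟩
    have := Int.mul_ediv_cancel' (h0 t ht)
    rw [← this, hc]
    ring

theorem zero_of_relF (p : ℕ) [Fact p.Prime] (L : List (List ℕ)) (R : List (List ℕ → ℕ))
    (he : elimF p L.length (R.map fun e => L.map fun t => e t % p) = true)
    (d : List ℕ → ℤ) (hd : ∀ e ∈ R, (L.map fun t => d t * (e t : ℤ)).sum = 0) :
    ∀ t ∈ L, d t = 0 := by
  intro t ht
  by_contra hne
  have hp2 : 2 ≤ p := (Fact.out : p.Prime).two_le
  have hdv := descentF p L R he (d t).natAbs d hd t ht
  have h6 : p ^ (d t).natAbs ≤ (d t).natAbs := by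
    apply Nat.le_of_dvd (Int.natAbs_pos.2 hne)
    have := Int.natAbs_dvd_natAbs.2 hdv
    rwa [Int.natAbs_pow, Int.natAbs_natCast] at this
  have h7 : (d t).natAbs < p ^ (d t).natAbs := Nat.lt_pow_self (by omega)
  omega

theorem numr_dvd_full (b n : ℕ) (t : List ℕ) (hpos : ∀ k ∈ t, 0 < k) (hs : t.sum = n) :
    numr b t ∣ full b n := by
  have h1 : numr b t = ∏ k ∈ t.toFinset, (b ^ k - 1) ^ t.count k := by
    rw [numr, Finset.prod_list_map_count]
  have h2 : full b n = ∏ k ∈ Finset.Icc 1 n, (b ^ k - 1) ^ (n / k) := by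
    rw [full, ← List.prod_toFinset _ List.nodup_range, List.toFinset_range,
      Finset.range_eq_Ico]
    rw [Finset.prod_Ico_add' (fun k => (b ^ k - 1) ^ (n / k)) 0 n 1]
    rfl
  rw [h1, h2]
  have hcount : ∀ k, t.count k * k ≤ n := by
    intro k
    have h3 : (List.replicate (t.count k) k).Sublist t := List.replicate_sublist_iff.2 le_rfl
    have h4 := List.Sublist.sum_le_sum h3 (fun _ _ => Nat.zero_le _)
    rw [List.sum_replicate, smul_eq_mul, hs] at h4
    exact h4
  have hsub : t.toFinset ⊆ Finset.Icc 1 n := by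
    intro k hk
    rw [List.mem_toFinset] at hk
    rw [Finset.mem_Icc]
    have h5 := hpos k hk
    refine ⟨h5, ?_⟩
    have h6 : 1 ≤ t.count k := List.count_pos_iff.2 hk
    have h7 := hcount k
    nlinarith
  refine (Finset.prod_dvd_prod_of_dvd _ (fun k => (b ^ k - 1) ^ (n / k)) ?_).trans
    (Finset.prod_dvd_prod_of_subset _ _ _ hsub)
  intro k hk
  apply pow_dvd_pow
  have hk1 := hsub hk
  rw [Finset.mem_Icc] at hk1
  exact (Nat.le_div_iff_mul_le (by omega)).2 (hcount k)

/-- the rows for the two variable relations -/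
def rows2F (p n : ℕ) (L : List (List ℕ)) (rows : List (ℕ × ℕ)) : List (List ℕ) :=
  List.rec [] (fun r _ ih => frc (full r.1 n) (fun F => List.rec [] (fun t _ ih2 =>
    frc (Nat.mod (Nat.mul (numrF r.2 t) (Nat.div F (numrF r.1 t))) p) fun v => v :: ih2) L) ::
      ih) rows

theorem rowaux (p : ℕ) (L : List (List ℕ)) (e : List ℕ → ℕ) :
    (List.rec [] (fun t _ ih2 => frc (Nat.mod (e t) p) fun v => v :: ih2) L : List ℕ) =
      L.map fun t => e t % p := by
  induction L with
  | nil => rfl
  | cons t L ih =>
    rw [List.map_cons, ← ih]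
    show frc (Nat.mod (e t) p) (fun v => v :: _) = _
    rw [frc_eq]
    rfl

theorem rows2F_eq (p n : ℕ) (L : List (List ℕ)) (rows : List (ℕ × ℕ)) :
    rows2F p n L rows = (rows.map fun r => entr n r.1 r.2).map fun e => L.map fun t => e t % p := by
  induction rows with
  | nil => rfl
  | cons r rows ih =>
    rw [List.map_cons, List.map_cons, ← ih]
    show frc (full r.1 n) (fun F => List.rec [] (fun t _ ih2 =>
      frc (Nat.mod (Nat.mul (numrF r.2 t) (Nat.div F (numrF r.1 t))) p) fun v => v :: ih2) L) ::
      rows2F p n L rows = _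
    rw [frc_eq, rowaux p L fun t => Nat.mul (numrF r.2 t) (Nat.div (full r.1 n) (numrF r.1 t))]
    congr 1
    apply List.map_congr_left
    intro t _
    rw [numrF_eq, numrF_eq, entr]
    rfl

/-- the rows for the lowest order relations -/
def rows3F (p s : ℕ) (L : List (List ℕ)) (bs : List ℕ) : List (List ℕ) :=
  List.rec [] (fun b _ ih => frc (full b s) (fun F => List.rec [] (fun t _ ih2 =>
    frc (Nat.mod (Nat.mul (prodF t) (Nat.div F (numrF b t))) p) fun v => v :: ih2) L) :: ih) bs

theorem rows3F_eq (p s : ℕ) (L : List (List ℕ)) (bs : List ℕ) :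
    rows3F p s L bs = (bs.map fun b => ent3 s b).map fun e => L.map fun t => e t % p := by
  induction bs with
  | nil => rfl
  | cons b bs ih =>
    rw [List.map_cons, List.map_cons, ← ih]
    show frc (full b s) (fun F => List.rec [] (fun t _ ih2 =>
      frc (Nat.mod (Nat.mul (prodF t) (Nat.div F (numrF b t))) p) fun v => v :: ih2) L) ::
      rows3F p s L bs = _
    rw [frc_eq, rowaux p L fun t => Nat.mul (prodF t) (Nat.div (full b s) (numrF b t))]
    congr 1
    apply List.map_congr_left
    intro t _
    rw [numrF_eq, prodF_eq, ent3]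
    rfl

theorem ns2_fast (p : ℕ) [Fact p.Prime] (n : ℕ) (L : List (List ℕ)) (rows : List (ℕ × ℕ))
    (hpos : ∀ t ∈ L, ∀ k ∈ t, 0 < k) (hsum : ∀ t ∈ L, t.sum = n)
    (hrow : ∀ r ∈ rows, 2 ≤ r.1 ∧ 1 ≤ r.2)
    (h : elimF p L.length (rows2F p n L rows) = true) : NS2 L := by
  intro d hd t ht
  rw [rows2F_eq] at h
  apply zero_of_relF p L _ h (fun t => d (t : Multiset ℕ)) _ t ht
  intro e he
  obtain ⟨r, hr, rfl⟩ := List.mem_map.1 he
  obtain ⟨hb, hX⟩ := hrow r hr
  have h4 := hd (r.1 : ℝ) (r.2 : ℝ) (by exact_mod_cast (by omega : 1 < r.1))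
  have h5 : ((L.map fun t : List ℕ => d (t : Multiset ℕ) * (entr n r.1 r.2 t : ℤ)).sum : ℝ) =
      (full r.1 n : ℝ) * (L.map fun t : List ℕ => (d (t : Multiset ℕ) : ℝ) *
        PX (r.1 : ℝ) (r.2 : ℝ) (t : Multiset ℕ)).sum := by
    rw [← List.sum_map_mul_left]
    rw [show (((L.map fun t : List ℕ => d (t : Multiset ℕ) *
      (entr n r.1 r.2 t : ℤ)).sum : ℤ) : ℝ) = ((Int.castRingHom ℝ)
        (L.map fun t : List ℕ => d (t : Multiset ℕ) * (entr n r.1 r.2 t : ℤ)).sum) from rfl]
    rw [map_list_sum, List.map_map]
    apply congrArg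
    apply List.map_congr_left
    intro t ht
    have hp := numr_pos r.1 hb t (hpos t ht)
    have hd2 := numr_dvd_full r.1 n t (hpos t ht) (hsum t ht)
    have hne : ((numr r.1 t : ℕ) : ℝ) ≠ 0 := by exact_mod_cast hp.ne'
    rw [PX_nat r.1 r.2 hX hb t]
    simp only [Function.comp_apply, Int.coe_castRingHom, entr]
    rw [Int.cast_mul, Int.cast_natCast, Nat.cast_mul, Nat.cast_div hd2 hne]
    ring
  rw [h4, mul_zero] at h5
  exact_mod_cast h5

theorem ns3_fast (p : ℕ) [Fact p.Prime] (s : ℕ) (L : List (List ℕ)) (bs : List ℕ)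
    (hpos : ∀ t ∈ L, ∀ k ∈ t, 0 < k) (hsum : ∀ t ∈ L, t.sum = s) (hbs : ∀ b ∈ bs, 2 ≤ b)
    (h : elimF p L.length (rows3F p s L bs) = true) : NS3 L := by
  intro d hd t ht
  rw [rows3F_eq] at h
  apply zero_of_relF p L _ h (fun t => d (t : Multiset ℕ)) _ t ht
  intro e he
  obtain ⟨b, hr, rfl⟩ := List.mem_map.1 he
  have hb := hbs b hr
  have h4 := hd (b : ℝ) (by exact_mod_cast (by omega : 1 < b))
  have h5 : ((L.map fun t : List ℕ => d (t : Multiset ℕ) * (ent3 s b t : ℤ)).sum : ℝ) =
      (full b s : ℝ) * (L.map fun t : List ℕ => (d (t : Multiset ℕ) : ℝ) *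
        wk (b : ℝ) (t : Multiset ℕ)).sum := by
    rw [← List.sum_map_mul_left]
    rw [show (((L.map fun t : List ℕ => d (t : Multiset ℕ) *
      (ent3 s b t : ℤ)).sum : ℤ) : ℝ) = ((Int.castRingHom ℝ)
        (L.map fun t : List ℕ => d (t : Multiset ℕ) * (ent3 s b t : ℤ)).sum) from rfl]
    rw [map_list_sum, List.map_map]
    apply congrArg
    apply List.map_congr_left
    intro t ht
    have hp := numr_pos b hb t (hpos t ht)
    have hd2 := numr_dvd_full b s t (hpos t ht) (hsum t ht)
    have hne : ((numr b t : ℕ) : ℝ) ≠ 0 := by exact_mod_cast hp.ne'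
    rw [wk_nat b hb t]
    simp only [Function.comp_apply, Int.coe_castRingHom, ent3]
    rw [Int.cast_mul, Int.cast_natCast, Nat.cast_mul, Nat.cast_div hd2 hne]
    ring
  rw [h4, mul_zero] at h5
  exact_mod_cast h5

theorem plist_sum (k : ℕ) : ∀ (n : ℕ) (t : List ℕ), t ∈ plist k n → t.sum = n := by
  induction k with
  | zero =>
    intro n t ht
    cases n with
    | zero =>
      rw [plist, List.mem_singleton] at ht
      rw [ht]
      rfl
    | succ n =>
      rw [plist] at ht
      simp at ht
  | succ k ih =>
    intro n t ht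
    rw [plist, List.mem_flatMap] at ht
    obtain ⟨j, hj, ht⟩ := ht
    rw [List.mem_map] at ht
    obtain ⟨l, hl, rfl⟩ := ht
    rw [List.mem_range, Nat.lt_succ_iff, Nat.le_div_iff_mul_le (by omega)] at hj
    rw [List.sum_append, List.sum_replicate, smul_eq_mul, ih _ l hl]
    omega

theorem L3_sum (s : ℕ) (t : List ℕ) (ht : t ∈ L3 s) : t.sum = s := by
  obtain ⟨a, b, c, rfl, _, _, _, h⟩ := L3_props s t ht
  simp
  omega

end Fast

end Pool.Agent.Lib.QDichromate
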