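import Mathlib
import Pool.Agent.Lib.QDichromate.Core
import Pool.Agent.Lib.QDichromate.Rank
import Pool.Agent.Lib.QDichromate.Fast

/-!
The rank computations for simple graphs with 9 and 10 vertices and for simple graphs without
triangles with 11 to 13 vertices.
-/

namespace Pool.Agent.Lib.QDichromate

instance factP : Fact (Nat.Prime 1000003) := ⟨by norm_num⟩

/-- types of edge sets with at least five edges in simple graphs -/
def LS (n : ℕ) : List (List ℕ) :=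
  (plist n n).filter fun t => decide (5 ≤ (t.map fun a => a * (a - 1) / 2).sum)

/-- types of edge sets with `m` edges in simple graphs without triangles -/
def LF (n m : ℕ) : List (List ℕ) :=
  (plist n n).filter fun t =>
    decide (n ≤ t.length + m) && decide (m ≤ (t.map fun a => a * a / 4).sum)

/-- sorted lists of positive numbers without repetition -/
def Good (L : List (List ℕ)) : Prop :=
  L.Nodup ∧ (∀ t ∈ L, t.Pairwise (· ≥ ·)) ∧ ∀ t ∈ L, ∀ k ∈ t, 0 < k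

instance (L : List (List ℕ)) : Decidable (Good L) := by
  unfold Good
  infer_instance

theorem good_filter (L : List (List ℕ)) (h : Good L) (f : List ℕ → Bool) : Good (L.filter f) :=
  ⟨h.1.filter _, fun t ht => h.2.1 t (List.mem_filter.1 ht).1,
    fun t ht => h.2.2 t (List.mem_filter.1 ht).1⟩

theorem sum_filter' (n : ℕ) (f : List ℕ → Bool) : ∀ t ∈ (plist n n).filter f, t.sum = n :=
  fun t ht => plist_sum n n t (List.mem_filter.1 ht).1

theorem good_9 : Good (plist 9 9) := by decide +kernel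

theorem good_10 : Good (plist 10 10) := by decide +kernel

theorem good_11 : Good (plist 11 11) := by decide +kernel

theorem good_12 : Good (plist 12 12) := by decide +kernel

theorem good_13 : Good (plist 13 13) := by decide +kernel

def rwS_9 : List (ℕ × ℕ) :=
  [(2, 2), (2, 3), (2, 4), (2, 5), (2, 6), (2, 7), (3, 2), (3, 4), (3, 5), (3, 6), (3, 7),
   (4, 2), (4, 3), (4, 5), (4, 6), (4, 7), (5, 2), (5, 3), (5, 4), (5, 6), (5, 7), (6, 2),
   (6, 3)]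

theorem chkS_9 : elimF 1000003 (LS 9).length (rows2F 1000003 9 (LS 9) rwS_9) = true := by
  decide +kernel

theorem nsS_9 : NS2 (LS 9) :=
  ns2_fast 1000003 9 _ rwS_9 (good_filter _ good_9 _).2.2 (sum_filter' 9 _)
    (by decide +kernel) chkS_9

def rwS_10 : List (ℕ × ℕ) :=
  [(2, 2), (2, 3), (2, 4), (2, 5), (2, 6), (2, 7), (3, 2), (3, 4), (2, 8), (3, 5), (3, 6),
   (4, 2), (3, 7), (3, 8), (4, 3), (4, 5), (4, 6), (4, 7), (4, 8), (5, 2), (5, 3), (5, 4),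
   (5, 6), (5, 7), (5, 8), (6, 2), (6, 3), (6, 4), (6, 5), (6, 7), (6, 8), (7, 2), (7, 3),
   (7, 4), (7, 5)]

theorem chkS_10 : elimF 1000003 (LS 10).length (rows2F 1000003 10 (LS 10) rwS_10) = true := by
  decide +kernel

theorem nsS_10 : NS2 (LS 10) :=
  ns2_fast 1000003 10 _ rwS_10 (good_filter _ good_10 _).2.2 (sum_filter' 10 _)
    (by decide +kernel) chkS_10

def rwF_11_5 : List (ℕ × ℕ) :=
  [(2, 2), (2, 3), (2, 4), (2, 5), (3, 2), (3, 4), (2, 6), (4, 2), (4, 3)]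

theorem chkF_11_5 : elimF 1000003 (LF 11 5).length (rows2F 1000003 11 (LF 11 5) rwF_11_5) = true := by
  decide +kernel

theorem nsF_11_5 : NS2 (LF 11 5) :=
  ns2_fast 1000003 11 _ rwF_11_5 (good_filter _ good_11 _).2.2 (sum_filter' 11 _)
    (by decide +kernel) chkF_11_5

def rwF_11_6 : List (ℕ × ℕ) :=
  [(2, 2), (2, 3), (2, 4), (2, 5), (2, 6), (2, 7), (3, 2), (3, 4), (3, 5), (2, 8), (4, 2),
   (4, 3), (3, 6), (4, 5), (5, 2)]

theorem chkF_11_6 : elimF 1000003 (LF 11 6).length (rows2F 1000003 11 (LF 11 6) rwF_11_6) = true := by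
  decide +kernel

theorem nsF_11_6 : NS2 (LF 11 6) :=
  ns2_fast 1000003 11 _ rwF_11_6 (good_filter _ good_11 _).2.2 (sum_filter' 11 _)
    (by decide +kernel) chkF_11_6

def rwF_11_7 : List (ℕ × ℕ) :=
  [(2, 2), (2, 3), (2, 4), (2, 5), (2, 6), (3, 2), (2, 7), (3, 4), (2, 8), (3, 5), (3, 6),
   (3, 7), (4, 2), (4, 3), (3, 8), (4, 5), (5, 2), (4, 6), (5, 3), (5, 4)]

theorem chkF_11_7 : elimF 1000003 (LF 11 7).length (rows2F 1000003 11 (LF 11 7) rwF_11_7) = true := by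
  decide +kernel

theorem nsF_11_7 : NS2 (LF 11 7) :=
  ns2_fast 1000003 11 _ rwF_11_7 (good_filter _ good_11 _).2.2 (sum_filter' 11 _)
    (by decide +kernel) chkF_11_7

def rwF_11_8 : List (ℕ × ℕ) :=
  [(2, 2), (2, 3), (2, 4), (2, 5), (2, 6), (2, 7), (2, 8), (3, 2), (3, 4), (3, 5), (3, 6),
   (3, 7), (3, 8), (4, 2), (4, 3), (4, 5), (4, 6), (4, 7), (4, 8), (5, 2), (5, 3), (5, 4),
   (5, 6), (5, 7), (5, 8), (6, 2)]

theorem chkF_11_8 : elimF 1000003 (LF 11 8).length (rows2F 1000003 11 (LF 11 8) rwF_11_8) = true := by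
  decide +kernel

theorem nsF_11_8 : NS2 (LF 11 8) :=
  ns2_fast 1000003 11 _ rwF_11_8 (good_filter _ good_11 _).2.2 (sum_filter' 11 _)
    (by decide +kernel) chkF_11_8

def rwF_11_9 : List (ℕ × ℕ) :=
  [(2, 2), (2, 3), (2, 4), (2, 5), (2, 6), (3, 2), (2, 7), (2, 8), (3, 4), (3, 5), (3, 6),
   (3, 7), (3, 8), (4, 2), (4, 3), (4, 5), (4, 6), (4, 7), (4, 8), (5, 2), (5, 3), (5, 4),
   (5, 6), (5, 7), (5, 8), (6, 2)]

theorem chkF_11_9 : elimF 1000003 (LF 11 9).length (rows2F 1000003 11 (LF 11 9) rwF_11_9) = true := by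
  decide +kernel

theorem nsF_11_9 : NS2 (LF 11 9) :=
  ns2_fast 1000003 11 _ rwF_11_9 (good_filter _ good_11 _).2.2 (sum_filter' 11 _)
    (by decide +kernel) chkF_11_9

def rwF_11_10 : List (ℕ × ℕ) :=
  [(2, 2), (2, 3), (2, 4), (2, 5), (2, 6), (2, 7), (2, 8), (3, 2), (3, 4), (3, 5), (3, 6),
   (3, 7), (3, 8), (4, 2), (4, 3), (4, 5), (4, 6), (4, 7), (4, 8), (5, 2), (5, 3), (5, 4),
   (5, 6)]

theorem chkF_11_10 : elimF 1000003 (LF 11 10).length (rows2F 1000003 11 (LF 11 10) rwF_11_10) = true := by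
  decide +kernel

theorem nsF_11_10 : NS2 (LF 11 10) :=
  ns2_fast 1000003 11 _ rwF_11_10 (good_filter _ good_11 _).2.2 (sum_filter' 11 _)
    (by decide +kernel) chkF_11_10

def rwF_12_5 : List (ℕ × ℕ) :=
  [(2, 2), (2, 3), (2, 4), (2, 5), (3, 2), (3, 4), (2, 6), (4, 2), (4, 3)]

theorem chkF_12_5 : elimF 1000003 (LF 12 5).length (rows2F 1000003 12 (LF 12 5) rwF_12_5) = true := by
  decide +kernel

theorem nsF_12_5 : NS2 (LF 12 5) :=
  ns2_fast 1000003 12 _ rwF_12_5 (good_filter _ good_12 _).2.2 (sum_filter' 12 _)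
    (by decide +kernel) chkF_12_5

def rwF_12_6 : List (ℕ × ℕ) :=
  [(2, 2), (2, 3), (2, 4), (2, 5), (2, 6), (3, 2), (2, 7), (3, 4), (4, 2), (3, 5), (2, 8),
   (4, 3), (4, 5), (3, 6), (5, 2), (5, 3)]

theorem chkF_12_6 : elimF 1000003 (LF 12 6).length (rows2F 1000003 12 (LF 12 6) rwF_12_6) = true := by
  decide +kernel

theorem nsF_12_6 : NS2 (LF 12 6) :=
  ns2_fast 1000003 12 _ rwF_12_6 (good_filter _ good_12 _).2.2 (sum_filter' 12 _)
    (by decide +kernel) chkF_12_6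

def rwF_12_7 : List (ℕ × ℕ) :=
  [(2, 2), (2, 3), (2, 4), (2, 5), (2, 6), (2, 7), (3, 2), (3, 4), (3, 5), (3, 6), (2, 8),
   (4, 2), (2, 9), (4, 3), (4, 5), (5, 2), (3, 7), (5, 3), (5, 4), (3, 8), (6, 2), (6, 3)]

theorem chkF_12_7 : elimF 1000003 (LF 12 7).length (rows2F 1000003 12 (LF 12 7) rwF_12_7) = true := by
  decide +kernel

theorem nsF_12_7 : NS2 (LF 12 7) :=
  ns2_fast 1000003 12 _ rwF_12_7 (good_filter _ good_12 _).2.2 (sum_filter' 12 _)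
    (by decide +kernel) chkF_12_7

def rwF_12_8 : List (ℕ × ℕ) :=
  [(2, 2), (2, 3), (2, 4), (2, 5), (2, 6), (2, 7), (3, 2), (2, 8), (3, 4), (2, 9), (3, 5),
   (3, 6), (3, 7), (3, 8), (3, 9), (4, 2), (4, 3), (4, 5), (4, 6), (4, 7), (4, 8), (4, 9),
   (5, 2), (5, 3), (5, 4), (5, 6), (5, 7), (5, 8), (6, 2), (5, 9), (6, 3), (6, 4)]

theorem chkF_12_8 : elimF 1000003 (LF 12 8).length (rows2F 1000003 12 (LF 12 8) rwF_12_8) = true := by
  decide +kernel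

theorem nsF_12_8 : NS2 (LF 12 8) :=
  ns2_fast 1000003 12 _ rwF_12_8 (good_filter _ good_12 _).2.2 (sum_filter' 12 _)
    (by decide +kernel) chkF_12_8

def rwF_12_9 : List (ℕ × ℕ) :=
  [(2, 2), (2, 3), (2, 4), (2, 5), (2, 6), (2, 7), (2, 8), (2, 9), (3, 2), (3, 4), (3, 5),
   (3, 6), (3, 7), (3, 8), (3, 9), (4, 2), (4, 3), (4, 5), (4, 6), (4, 7), (4, 8), (4, 9),
   (5, 2), (5, 3), (5, 4), (5, 6), (5, 7), (5, 8), (5, 9), (6, 2), (6, 3), (6, 4), (6, 5),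
   (6, 7), (6, 8), (6, 9), (7, 2)]

theorem chkF_12_9 : elimF 1000003 (LF 12 9).length (rows2F 1000003 12 (LF 12 9) rwF_12_9) = true := by
  decide +kernel

theorem nsF_12_9 : NS2 (LF 12 9) :=
  ns2_fast 1000003 12 _ rwF_12_9 (good_filter _ good_12 _).2.2 (sum_filter' 12 _)
    (by decide +kernel) chkF_12_9

def rwF_12_10 : List (ℕ × ℕ) :=
  [(2, 2), (2, 3), (2, 4), (2, 5), (2, 6), (2, 7), (2, 8), (2, 9), (3, 2), (3, 4), (3, 5),
   (3, 6), (3, 7), (3, 8), (3, 9), (4, 2), (4, 3), (4, 5), (4, 6), (4, 7), (4, 8), (4, 9),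
   (5, 2), (5, 3), (5, 4), (5, 6), (5, 7), (5, 8), (5, 9), (6, 2), (6, 3), (6, 4), (6, 5),
   (6, 7), (6, 8), (6, 9), (7, 2), (7, 3)]

theorem chkF_12_10 : elimF 1000003 (LF 12 10).length (rows2F 1000003 12 (LF 12 10) rwF_12_10) = true := by
  decide +kernel

theorem nsF_12_10 : NS2 (LF 12 10) :=
  ns2_fast 1000003 12 _ rwF_12_10 (good_filter _ good_12 _).2.2 (sum_filter' 12 _)
    (by decide +kernel) chkF_12_10

def rwF_12_11 : List (ℕ × ℕ) :=
  [(2, 2), (2, 3), (2, 4), (2, 5), (2, 6), (2, 7), (2, 8), (2, 9), (3, 2), (3, 4), (3, 5),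
   (3, 6), (3, 7), (3, 8), (3, 9), (4, 2), (4, 3), (4, 5), (4, 6), (4, 7), (4, 8), (4, 9),
   (5, 2), (5, 3), (5, 4), (5, 6), (5, 7), (5, 8), (5, 9), (6, 2), (6, 3), (6, 4), (6, 5)]

theorem chkF_12_11 : elimF 1000003 (LF 12 11).length (rows2F 1000003 12 (LF 12 11) rwF_12_11) = true := by
  decide +kernel

theorem nsF_12_11 : NS2 (LF 12 11) :=
  ns2_fast 1000003 12 _ rwF_12_11 (good_filter _ good_12 _).2.2 (sum_filter' 12 _)
    (by decide +kernel) chkF_12_11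

def rwF_13_5 : List (ℕ × ℕ) :=
  [(2, 2), (2, 3), (2, 4), (2, 5), (3, 2), (3, 4), (2, 6), (4, 2), (4, 3)]

theorem chkF_13_5 : elimF 1000003 (LF 13 5).length (rows2F 1000003 13 (LF 13 5) rwF_13_5) = true := by
  decide +kernel

theorem nsF_13_5 : NS2 (LF 13 5) :=
  ns2_fast 1000003 13 _ rwF_13_5 (good_filter _ good_13 _).2.2 (sum_filter' 13 _)
    (by decide +kernel) chkF_13_5

def rwF_13_6 : List (ℕ × ℕ) :=
  [(2, 2), (2, 3), (2, 4), (2, 5), (2, 6), (3, 2), (2, 7), (3, 4), (4, 2), (3, 5), (2, 8),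
   (4, 3), (4, 5), (3, 6), (5, 2), (5, 3)]

theorem chkF_13_6 : elimF 1000003 (LF 13 6).length (rows2F 1000003 13 (LF 13 6) rwF_13_6) = true := by
  decide +kernel

theorem nsF_13_6 : NS2 (LF 13 6) :=
  ns2_fast 1000003 13 _ rwF_13_6 (good_filter _ good_13 _).2.2 (sum_filter' 13 _)
    (by decide +kernel) chkF_13_6

def rwF_13_7 : List (ℕ × ℕ) :=
  [(2, 2), (2, 3), (2, 4), (2, 5), (2, 6), (2, 7), (3, 2), (3, 4), (3, 5), (3, 6), (4, 2),
   (2, 8), (4, 3), (2, 9), (4, 5), (5, 2), (5, 3), (3, 7), (5, 4), (6, 2), (3, 8), (6, 3),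
   (6, 4)]

theorem chkF_13_7 : elimF 1000003 (LF 13 7).length (rows2F 1000003 13 (LF 13 7) rwF_13_7) = true := by
  decide +kernel

theorem nsF_13_7 : NS2 (LF 13 7) :=
  ns2_fast 1000003 13 _ rwF_13_7 (good_filter _ good_13 _).2.2 (sum_filter' 13 _)
    (by decide +kernel) chkF_13_7

def rwF_13_8 : List (ℕ × ℕ) :=
  [(2, 2), (2, 3), (2, 4), (2, 5), (2, 6), (2, 7), (2, 8), (2, 9), (3, 2), (3, 4), (3, 5),
   (3, 6), (3, 7), (4, 2), (3, 8), (3, 9), (4, 3), (4, 5), (4, 6), (4, 7), (5, 2), (4, 8),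
   (5, 3), (4, 9), (5, 4), (5, 6), (5, 7), (6, 2), (6, 3), (5, 8), (6, 4), (6, 5), (5, 9),
   (7, 2), (7, 3)]

theorem chkF_13_8 : elimF 1000003 (LF 13 8).length (rows2F 1000003 13 (LF 13 8) rwF_13_8) = true := by
  decide +kernel

theorem nsF_13_8 : NS2 (LF 13 8) :=
  ns2_fast 1000003 13 _ rwF_13_8 (good_filter _ good_13 _).2.2 (sum_filter' 13 _)
    (by decide +kernel) chkF_13_8

def rwF_13_9 : List (ℕ × ℕ) :=
  [(2, 2), (2, 3), (2, 4), (2, 5), (2, 6), (3, 2), (2, 7), (3, 4), (2, 8), (2, 9), (3, 5),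
   (3, 6), (3, 7), (3, 8), (3, 9), (4, 2), (4, 3), (4, 5), (4, 6), (4, 7), (4, 8), (4, 9),
   (5, 2), (5, 3), (5, 4), (5, 6), (5, 7), (5, 8), (5, 9), (6, 2), (6, 3), (6, 4), (6, 5),
   (6, 7), (6, 8), (6, 9), (7, 2), (7, 3), (7, 4), (7, 5), (7, 6), (7, 8), (7, 9), (8, 2),
   (8, 3)]

theorem chkF_13_9 : elimF 1000003 (LF 13 9).length (rows2F 1000003 13 (LF 13 9) rwF_13_9) = true := by
  decide +kernel

theorem nsF_13_9 : NS2 (LF 13 9) :=
  ns2_fast 1000003 13 _ rwF_13_9 (good_filter _ good_13 _).2.2 (sum_filter' 13 _)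
    (by decide +kernel) chkF_13_9

def rwF_13_10 : List (ℕ × ℕ) :=
  [(2, 2), (2, 3), (2, 4), (2, 5), (2, 6), (2, 7), (2, 8), (2, 9), (3, 2), (3, 4), (3, 5),
   (3, 6), (3, 7), (3, 8), (3, 9), (4, 2), (4, 3), (4, 5), (4, 6), (4, 7), (4, 8), (4, 9),
   (5, 2), (5, 3), (5, 4), (5, 6), (5, 7), (5, 8), (5, 9), (6, 2), (6, 3), (6, 4), (6, 5),
   (6, 7), (6, 8), (6, 9), (7, 2), (7, 3), (7, 4), (7, 5), (7, 6), (7, 8), (7, 9), (8, 2),
   (8, 3), (8, 4), (8, 5), (8, 6), (8, 7), (8, 9), (9, 2), (9, 3), (9, 4)]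

theorem chkF_13_10 : elimF 1000003 (LF 13 10).length (rows2F 1000003 13 (LF 13 10) rwF_13_10) = true := by
  decide +kernel

theorem nsF_13_10 : NS2 (LF 13 10) :=
  ns2_fast 1000003 13 _ rwF_13_10 (good_filter _ good_13 _).2.2 (sum_filter' 13 _)
    (by decide +kernel) chkF_13_10

def rwF_13_11 : List (ℕ × ℕ) :=
  [(2, 2), (2, 3), (2, 4), (2, 5), (2, 6), (2, 7), (2, 8), (2, 9), (3, 2), (3, 4), (3, 5),
   (3, 6), (3, 7), (3, 8), (3, 9), (4, 2), (4, 3), (4, 5), (4, 6), (4, 7), (4, 8), (4, 9),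
   (5, 2), (5, 3), (5, 4), (5, 6), (5, 7), (5, 8), (5, 9), (6, 2), (6, 3), (6, 4), (6, 5),
   (6, 7), (6, 8), (6, 9), (7, 2), (7, 3), (7, 4), (7, 5), (7, 6), (7, 8), (7, 9), (8, 2),
   (8, 3), (8, 4), (8, 5), (8, 6), (8, 7), (8, 9), (9, 2)]

theorem chkF_13_11 : elimF 1000003 (LF 13 11).length (rows2F 1000003 13 (LF 13 11) rwF_13_11) = true := by
  decide +kernel

theorem nsF_13_11 : NS2 (LF 13 11) :=
  ns2_fast 1000003 13 _ rwF_13_11 (good_filter _ good_13 _).2.2 (sum_filter' 13 _)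
    (by decide +kernel) chkF_13_11

def rwF_13_12 : List (ℕ × ℕ) :=
  [(2, 2), (2, 3), (2, 4), (2, 5), (2, 6), (2, 7), (2, 8), (2, 9), (3, 2), (3, 4), (3, 5),
   (3, 6), (3, 7), (3, 8), (3, 9), (4, 2), (4, 3), (4, 5), (4, 6), (4, 7), (4, 8), (4, 9),
   (5, 2), (5, 3), (5, 4), (5, 6), (5, 7), (5, 8), (5, 9), (6, 2), (6, 3), (6, 4), (6, 5),
   (6, 7), (6, 8), (6, 9), (7, 2), (7, 3), (7, 4), (7, 5), (7, 6), (7, 8), (7, 9), (8, 2),
   (8, 3), (8, 4), (8, 5)]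

theorem chkF_13_12 : elimF 1000003 (LF 13 12).length (rows2F 1000003 13 (LF 13 12) rwF_13_12) = true := by
  decide +kernel

theorem nsF_13_12 : NS2 (LF 13 12) :=
  ns2_fast 1000003 13 _ rwF_13_12 (good_filter _ good_13 _).2.2 (sum_filter' 13 _)
    (by decide +kernel) chkF_13_12

end Pool.Agent.Lib.QDichromate
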