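import Mathlib
import Pool.Agent.Lib.QDichromate.Core
import Pool.Agent.Lib.QDichromate.Rank
import Pool.Agent.Lib.QDichromate.MatchRank
import Pool.Agent.Lib.QDichromate.Fast
import Pool.Agent.Lib.QDichromate.RankData

/-!
Rank computations for the partitions of `s` into three parts, `s` from 0 to 26.
-/

namespace Pool.Agent.Lib.QDichromate

theorem chk3_0 : elimF 1000003 (L3 0).length (rows3F 1000003 0 (L3 0) (List.range' 2 0)) =
    true := by decide +kernel

theorem ns3_0 : NS3 (L3 0) :=
  ns3_fast 1000003 0 _ (List.range' 2 0) (L3_pos 0) (L3_sum 0)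
    (fun b hb => by rw [List.mem_range'_1] at hb; omega) chk3_0

theorem chk3_1 : elimF 1000003 (L3 1).length (rows3F 1000003 1 (L3 1) (List.range' 2 0)) =
    true := by decide +kernel

theorem ns3_1 : NS3 (L3 1) :=
  ns3_fast 1000003 1 _ (List.range' 2 0) (L3_pos 1) (L3_sum 1)
    (fun b hb => by rw [List.mem_range'_1] at hb; omega) chk3_1

theorem chk3_2 : elimF 1000003 (L3 2).length (rows3F 1000003 2 (L3 2) (List.range' 2 0)) =
    true := by decide +kernel

theorem ns3_2 : NS3 (L3 2) :=
  ns3_fast 1000003 2 _ (List.range' 2 0) (L3_pos 2) (L3_sum 2)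
    (fun b hb => by rw [List.mem_range'_1] at hb; omega) chk3_2

theorem chk3_3 : elimF 1000003 (L3 3).length (rows3F 1000003 3 (L3 3) (List.range' 2 1)) =
    true := by decide +kernel

theorem ns3_3 : NS3 (L3 3) :=
  ns3_fast 1000003 3 _ (List.range' 2 1) (L3_pos 3) (L3_sum 3)
    (fun b hb => by rw [List.mem_range'_1] at hb; omega) chk3_3

theorem chk3_4 : elimF 1000003 (L3 4).length (rows3F 1000003 4 (L3 4) (List.range' 2 1)) =
    true := by decide +kernel

theorem ns3_4 : NS3 (L3 4) :=
  ns3_fast 1000003 4 _ (List.range' 2 1) (L3_pos 4) (L3_sum 4)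
    (fun b hb => by rw [List.mem_range'_1] at hb; omega) chk3_4

theorem chk3_5 : elimF 1000003 (L3 5).length (rows3F 1000003 5 (L3 5) (List.range' 2 2)) =
    true := by decide +kernel

theorem ns3_5 : NS3 (L3 5) :=
  ns3_fast 1000003 5 _ (List.range' 2 2) (L3_pos 5) (L3_sum 5)
    (fun b hb => by rw [List.mem_range'_1] at hb; omega) chk3_5

theorem chk3_6 : elimF 1000003 (L3 6).length (rows3F 1000003 6 (L3 6) (List.range' 2 3)) =
    true := by decide +kernel

theorem ns3_6 : NS3 (L3 6) :=
  ns3_fast 1000003 6 _ (List.range' 2 3) (L3_pos 6) (L3_sum 6)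
    (fun b hb => by rw [List.mem_range'_1] at hb; omega) chk3_6

theorem chk3_7 : elimF 1000003 (L3 7).length (rows3F 1000003 7 (L3 7) (List.range' 2 4)) =
    true := by decide +kernel

theorem ns3_7 : NS3 (L3 7) :=
  ns3_fast 1000003 7 _ (List.range' 2 4) (L3_pos 7) (L3_sum 7)
    (fun b hb => by rw [List.mem_range'_1] at hb; omega) chk3_7

theorem chk3_8 : elimF 1000003 (L3 8).length (rows3F 1000003 8 (L3 8) (List.range' 2 5)) =
    true := by decide +kernel

theorem ns3_8 : NS3 (L3 8) :=
  ns3_fast 1000003 8 _ (List.range' 2 5) (L3_pos 8) (L3_sum 8)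
    (fun b hb => by rw [List.mem_range'_1] at hb; omega) chk3_8

theorem chk3_9 : elimF 1000003 (L3 9).length (rows3F 1000003 9 (L3 9) (List.range' 2 7)) =
    true := by decide +kernel

theorem ns3_9 : NS3 (L3 9) :=
  ns3_fast 1000003 9 _ (List.range' 2 7) (L3_pos 9) (L3_sum 9)
    (fun b hb => by rw [List.mem_range'_1] at hb; omega) chk3_9

theorem chk3_10 : elimF 1000003 (L3 10).length (rows3F 1000003 10 (L3 10) (List.range' 2 8)) =
    true := by decide +kernel

theorem ns3_10 : NS3 (L3 10) :=
  ns3_fast 1000003 10 _ (List.range' 2 8) (L3_pos 10) (L3_sum 10)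
    (fun b hb => by rw [List.mem_range'_1] at hb; omega) chk3_10

theorem chk3_11 : elimF 1000003 (L3 11).length (rows3F 1000003 11 (L3 11) (List.range' 2 10)) =
    true := by decide +kernel

theorem ns3_11 : NS3 (L3 11) :=
  ns3_fast 1000003 11 _ (List.range' 2 10) (L3_pos 11) (L3_sum 11)
    (fun b hb => by rw [List.mem_range'_1] at hb; omega) chk3_11

theorem chk3_12 : elimF 1000003 (L3 12).length (rows3F 1000003 12 (L3 12) (List.range' 2 12)) =
    true := by decide +kernel

theorem ns3_12 : NS3 (L3 12) :=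
  ns3_fast 1000003 12 _ (List.range' 2 12) (L3_pos 12) (L3_sum 12)
    (fun b hb => by rw [List.mem_range'_1] at hb; omega) chk3_12

theorem chk3_13 : elimF 1000003 (L3 13).length (rows3F 1000003 13 (L3 13) (List.range' 2 14)) =
    true := by decide +kernel

theorem ns3_13 : NS3 (L3 13) :=
  ns3_fast 1000003 13 _ (List.range' 2 14) (L3_pos 13) (L3_sum 13)
    (fun b hb => by rw [List.mem_range'_1] at hb; omega) chk3_13

theorem chk3_14 : elimF 1000003 (L3 14).length (rows3F 1000003 14 (L3 14) (List.range' 2 16)) =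
    true := by decide +kernel

theorem ns3_14 : NS3 (L3 14) :=
  ns3_fast 1000003 14 _ (List.range' 2 16) (L3_pos 14) (L3_sum 14)
    (fun b hb => by rw [List.mem_range'_1] at hb; omega) chk3_14

theorem chk3_15 : elimF 1000003 (L3 15).length (rows3F 1000003 15 (L3 15) (List.range' 2 19)) =
    true := by decide +kernel

theorem ns3_15 : NS3 (L3 15) :=
  ns3_fast 1000003 15 _ (List.range' 2 19) (L3_pos 15) (L3_sum 15)
    (fun b hb => by rw [List.mem_range'_1] at hb; omega) chk3_15

theorem chk3_16 : elimF 1000003 (L3 16).length (rows3F 1000003 16 (L3 16) (List.range' 2 21)) =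
    true := by decide +kernel

theorem ns3_16 : NS3 (L3 16) :=
  ns3_fast 1000003 16 _ (List.range' 2 21) (L3_pos 16) (L3_sum 16)
    (fun b hb => by rw [List.mem_range'_1] at hb; omega) chk3_16

theorem chk3_17 : elimF 1000003 (L3 17).length (rows3F 1000003 17 (L3 17) (List.range' 2 24)) =
    true := by decide +kernel

theorem ns3_17 : NS3 (L3 17) :=
  ns3_fast 1000003 17 _ (List.range' 2 24) (L3_pos 17) (L3_sum 17)
    (fun b hb => by rw [List.mem_range'_1] at hb; omega) chk3_17

theorem chk3_18 : elimF 1000003 (L3 18).length (rows3F 1000003 18 (L3 18) (List.range' 2 27)) =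
    true := by decide +kernel

theorem ns3_18 : NS3 (L3 18) :=
  ns3_fast 1000003 18 _ (List.range' 2 27) (L3_pos 18) (L3_sum 18)
    (fun b hb => by rw [List.mem_range'_1] at hb; omega) chk3_18

theorem chk3_19 : elimF 1000003 (L3 19).length (rows3F 1000003 19 (L3 19) (List.range' 2 30)) =
    true := by decide +kernel

theorem ns3_19 : NS3 (L3 19) :=
  ns3_fast 1000003 19 _ (List.range' 2 30) (L3_pos 19) (L3_sum 19)
    (fun b hb => by rw [List.mem_range'_1] at hb; omega) chk3_19

theorem chk3_20 : elimF 1000003 (L3 20).length (rows3F 1000003 20 (L3 20) (List.range' 2 33)) =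
    true := by decide +kernel

theorem ns3_20 : NS3 (L3 20) :=
  ns3_fast 1000003 20 _ (List.range' 2 33) (L3_pos 20) (L3_sum 20)
    (fun b hb => by rw [List.mem_range'_1] at hb; omega) chk3_20

theorem chk3_21 : elimF 1000003 (L3 21).length (rows3F 1000003 21 (L3 21) (List.range' 2 37)) =
    true := by decide +kernel

theorem ns3_21 : NS3 (L3 21) :=
  ns3_fast 1000003 21 _ (List.range' 2 37) (L3_pos 21) (L3_sum 21)
    (fun b hb => by rw [List.mem_range'_1] at hb; omega) chk3_21

theorem chk3_22 : elimF 1000003 (L3 22).length (rows3F 1000003 22 (L3 22) (List.range' 2 40)) =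
    true := by decide +kernel

theorem ns3_22 : NS3 (L3 22) :=
  ns3_fast 1000003 22 _ (List.range' 2 40) (L3_pos 22) (L3_sum 22)
    (fun b hb => by rw [List.mem_range'_1] at hb; omega) chk3_22

theorem chk3_23 : elimF 1000003 (L3 23).length (rows3F 1000003 23 (L3 23) (List.range' 2 44)) =
    true := by decide +kernel

theorem ns3_23 : NS3 (L3 23) :=
  ns3_fast 1000003 23 _ (List.range' 2 44) (L3_pos 23) (L3_sum 23)
    (fun b hb => by rw [List.mem_range'_1] at hb; omega) chk3_23

theorem chk3_24 : elimF 1000003 (L3 24).length (rows3F 1000003 24 (L3 24) (List.range' 2 48)) =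
    true := by decide +kernel

theorem ns3_24 : NS3 (L3 24) :=
  ns3_fast 1000003 24 _ (List.range' 2 48) (L3_pos 24) (L3_sum 24)
    (fun b hb => by rw [List.mem_range'_1] at hb; omega) chk3_24

theorem chk3_25 : elimF 1000003 (L3 25).length (rows3F 1000003 25 (L3 25) (List.range' 2 52)) =
    true := by decide +kernel

theorem ns3_25 : NS3 (L3 25) :=
  ns3_fast 1000003 25 _ (List.range' 2 52) (L3_pos 25) (L3_sum 25)
    (fun b hb => by rw [List.mem_range'_1] at hb; omega) chk3_25

theorem chk3_26 : elimF 1000003 (L3 26).length (rows3F 1000003 26 (L3 26) (List.range' 2 56)) =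
    true := by decide +kernel

theorem ns3_26 : NS3 (L3 26) :=
  ns3_fast 1000003 26 _ (List.range' 2 56) (L3_pos 26) (L3_sum 26)
    (fun b hb => by rw [List.mem_range'_1] at hb; omega) chk3_26

end Pool.Agent.Lib.QDichromate
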