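import Mathlib
import Pool.Agent.Lib.QDichromate.Core
import Pool.Agent.Lib.QDichromate.Rank
import Pool.Agent.Lib.QDichromate.MatchRank
import Pool.Agent.Lib.QDichromate.Fast
import Pool.Agent.Lib.QDichromate.RankData

/-!
Rank computations for the partitions of `s` into three parts, `s` from 27 to 30.
-/

namespace Pool.Agent.Lib.QDichromate

theorem chk3_27 : elimF 1000003 (L3 27).length (rows3F 1000003 27 (L3 27) (List.range' 2 61)) =
    true := by decide +kernel

theorem ns3_27 : NS3 (L3 27) :=
  ns3_fast 1000003 27 _ (List.range' 2 61) (L3_pos 27) (L3_sum 27)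
    (fun b hb => by rw [List.mem_range'_1] at hb; omega) chk3_27

theorem chk3_28 : elimF 1000003 (L3 28).length (rows3F 1000003 28 (L3 28) (List.range' 2 65)) =
    true := by decide +kernel

theorem ns3_28 : NS3 (L3 28) :=
  ns3_fast 1000003 28 _ (List.range' 2 65) (L3_pos 28) (L3_sum 28)
    (fun b hb => by rw [List.mem_range'_1] at hb; omega) chk3_28

theorem chk3_29 : elimF 1000003 (L3 29).length (rows3F 1000003 29 (L3 29) (List.range' 2 70)) =
    true := by decide +kernel

theorem ns3_29 : NS3 (L3 29) :=
  ns3_fast 1000003 29 _ (List.range' 2 70) (L3_pos 29) (L3_sum 29)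
    (fun b hb => by rw [List.mem_range'_1] at hb; omega) chk3_29

theorem chk3_30 : elimF 1000003 (L3 30).length (rows3F 1000003 30 (L3 30) (List.range' 2 75)) =
    true := by decide +kernel

theorem ns3_30 : NS3 (L3 30) :=
  ns3_fast 1000003 30 _ (List.range' 2 75) (L3_pos 30) (L3_sum 30)
    (fun b hb => by rw [List.mem_range'_1] at hb; omega) chk3_30

end Pool.Agent.Lib.QDichromate
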