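import Mathlib
import Pool.Agent.Lib.QDichromate.Defs
import Pool.Agent.Lib.QDichromate.Core
import Pool.Agent.Lib.QDichromate.FewC
import Pool.Agent.Lib.QDichromate.Sparse
import Pool.Agent.Lib.QDichromate.Match

/-!
Graphs in which any two paths with three vertices have a common vertex: all types have at most one
part greater than two.
-/

set_option linter.unusedSectionVars false

open scoped Classical

namespace Pool.Agent.Lib.QDichromate

section Indep

/-- linear independence of the functions `(b + 1)^a / (b^a - 1)`, `a ≥ 2` -/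
theorem path_indep (N : ℕ) (c : ℕ → ℝ)
    (h : ∀ b : ℝ, 1 < b → ∑ a ∈ Finset.Icc 2 N, c a * ((b + 1) ^ a / (b ^ a - 1)) = 0) :
    ∀ a ∈ Finset.Icc 2 N, c a = 0 := by
  induction N with
  | zero =>
    intro a ha
    rw [Finset.mem_Icc] at ha
    omega
  | succ N ih =>
    by_cases hN : N + 1 < 2
    · intro a ha
      rw [Finset.mem_Icc] at ha
      omega
    have hN2 : 2 ≤ N + 1 := by omega
    have key : c (N + 1) = 0 := by
      by_cases h2 : N + 1 = 2
      · have h3 := h 2 (by norm_num)
        rw [h2] at h3 ⊢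
        rw [Finset.Icc_self, Finset.sum_singleton] at h3
        norm_num at h3
        exact h3
      have hN3 : 3 ≤ N + 1 := by omega
      set P : Polynomial ℝ := ∑ a ∈ Finset.Icc 2 (N + 1), Polynomial.C (c a) *
        (Polynomial.X + 1) ^ a * ∏ a' ∈ (Finset.Icc 2 (N + 1)).erase a,
          (Polynomial.X ^ a' - 1) with hP
      have hP0 : P = 0 := by
        apply Polynomial.eq_zero_of_infinite_isRoot
        apply Set.Infinite.mono (s := Set.Ioi (1 : ℝ))
        · intro b hb
          have hb1 : 1 < b := hb
          show Polynomial.eval b P = 0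
          have hne : ∀ a ∈ Finset.Icc 2 (N + 1), b ^ a - 1 ≠ 0 := by
            intro a ha
            rw [Finset.mem_Icc] at ha
            have : 1 < b ^ a := one_lt_pow₀ hb1 (by omega)
            linarith
          have e : Polynomial.eval b P = (∏ a ∈ Finset.Icc 2 (N + 1), (b ^ a - 1)) *
              ∑ a ∈ Finset.Icc 2 (N + 1), c a * ((b + 1) ^ a / (b ^ a - 1)) := by
            rw [hP, Polynomial.eval_finsetSum, Finset.mul_sum]
            apply Finset.sum_congr rfl
            intro a ha
            rw [Polynomial.eval_mul, Polynomial.eval_mul, Polynomial.eval_C,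
              Polynomial.eval_pow, Polynomial.eval_add, Polynomial.eval_X,
              Polynomial.eval_one, Polynomial.eval_prod, ← Finset.mul_prod_erase _ _ ha]
            simp only [Polynomial.eval_sub, Polynomial.eval_pow, Polynomial.eval_X,
              Polynomial.eval_one]
            have := hne a ha
            field_simp
          rw [e, h b hb1, mul_zero]
        · exact Set.Ioi_infinite 1
      set ζ : ℂ := Complex.exp (2 * Real.pi * Complex.I / (N + 1 : ℕ)) with hζd
      have hζ : IsPrimitiveRoot ζ (N + 1) := Complex.isPrimitiveRoot_exp (N + 1) (by omega)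
      have hev : Polynomial.eval₂ (Complex.ofRealHom) ζ P = 0 := by
        rw [hP0, Polynomial.eval₂_zero]
      rw [hP, Polynomial.eval₂_finsetSum, Finset.sum_eq_single (N + 1)] at hev
      · rw [Polynomial.eval₂_mul, Polynomial.eval₂_mul, Polynomial.eval₂_C,
          Polynomial.eval₂_pow, Polynomial.eval₂_add, Polynomial.eval₂_X,
          Polynomial.eval₂_one, Polynomial.eval₂_finsetProd] at hev
        have n1 : (ζ + 1) ^ (N + 1) ≠ 0 := by
          apply pow_ne_zero
          intro h0
          have h1 : ζ = -1 := by linear_combination h0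
          have h2 : ζ ^ 2 = 1 := by rw [h1]; ring
          have := hζ.dvd_of_pow_eq_one 2 h2
          have := Nat.le_of_dvd (by norm_num) this
          omega
        have n2 : ∏ a' ∈ (Finset.Icc 2 (N + 1)).erase (N + 1),
            Polynomial.eval₂ Complex.ofRealHom ζ (Polynomial.X ^ a' - 1) ≠ 0 := by
          apply Finset.prod_ne_zero_iff.2
          intro a' ha'
          rw [Finset.mem_erase, Finset.mem_Icc] at ha'
          rw [Polynomial.eval₂_sub, Polynomial.eval₂_pow, Polynomial.eval₂_X,
            Polynomial.eval₂_one]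
          intro h0
          have h2 : ζ ^ a' = 1 := by linear_combination h0
          have := Nat.le_of_dvd (by omega) (hζ.dvd_of_pow_eq_one a' h2)
          omega
        have h4 := (mul_eq_zero.1 hev).resolve_right n2
        have h5 := (mul_eq_zero.1 h4).resolve_right n1
        simpa using h5
      · intro a ha hne
        have hmem : N + 1 ∈ (Finset.Icc 2 (N + 1)).erase a := by
          rw [Finset.mem_erase, Finset.mem_Icc]
          exact ⟨fun h => hne h.symm, hN2, le_refl _⟩
        rw [Polynomial.eval₂_mul, Polynomial.eval₂_finsetProd,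
          Finset.prod_eq_zero hmem, mul_zero]
        rw [Polynomial.eval₂_sub, Polynomial.eval₂_pow, Polynomial.eval₂_X,
          Polynomial.eval₂_one, hζ.pow_eq_one, sub_self]
      · intro hn
        exact absurd (Finset.mem_Icc.2 ⟨hN2, le_refl _⟩) hn
    have hrest : ∀ a ∈ Finset.Icc 2 N, c a = 0 := by
      apply ih
      intro b hb
      have h3 := h b hb
      rw [Finset.sum_Icc_succ_top hN2, key, zero_mul, add_zero] at h3
      exact h3
    intro a ha
    rw [Finset.mem_Icc] at ha
    by_cases hlt : a = N + 1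
    · rw [hlt, key]
    · exact hrest a (Finset.mem_Icc.2 ⟨ha.1, by omega⟩)

end Indep

section Paths

variable {V E : Type} [Fintype V] [Fintype E]

/-- any two paths with three vertices have a common vertex -/
def PathsMeet {V E : Type} (K : E → Sym2 V) : Prop :=
  ∀ a b c a' b' c' : V, [a, b, c, a', b', c'].Nodup →
    s(a, b) ∈ Set.range K → s(b, c) ∈ Set.range K →
    s(a', b') ∈ Set.range K → s(b', c') ∉ Set.range K

/-- the number of parts greater than two -/
def big3 (t : Multiset ℕ) : ℕ := Multiset.card (t.filter fun a => 3 ≤ a)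

theorem big3_tau (K : E → Sym2 V) (A : Finset E) :
    big3 (tau K A) = ((blocks K A).filter fun b => 3 ≤ b.card).card := by
  rw [big3, tau, Multiset.filter_map, Multiset.card_map]
  rfl

theorem path_in_block (K : E → Sym2 V) (A : Finset E) (b : Finset V) (hb : b ∈ blocks K A)
    (h3 : 3 ≤ b.card) : ∃ x y z, x ≠ y ∧ y ≠ z ∧ x ≠ z ∧ x ∈ b ∧ y ∈ b ∧ z ∈ b ∧
      s(x, y) ∈ Set.range K ∧ s(y, z) ∈ Set.range K := by
  obtain ⟨v, rfl⟩ := (mem_blocks _ _ _).1 hb
  have hv : v ∈ cls K A v := (mem_cls _ _ _ _).2 (SimpleGraph.Reachable.refl _)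
  have hlt : ({v} : Finset V).card < (cls K A v).card := by
    rw [Finset.card_singleton]
    omega
  obtain ⟨w, hw, hwv⟩ := Finset.exists_mem_notMem_of_card_lt_card hlt
  rw [Finset.mem_singleton] at hwv
  obtain ⟨u, hu⟩ := reach_adj ((mem_cls _ _ _ _).1 hw) (fun h => hwv h.symm)
  have hub : u ∈ cls K A v := (mem_cls _ _ _ _).2 hu.reachable
  have hlt2 : ({v, u} : Finset V).card < (cls K A v).card := by
    have := Finset.card_le_two (a := v) (b := u)
    omega
  obtain ⟨z, hz, hzn⟩ := Finset.exists_mem_notMem_of_card_lt_card hlt2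
  have hout : ∃ p ∈ ({v, u} : Finset V), ∃ q, (spanning K A).Adj p q ∧
      q ∉ ({v, u} : Finset V) := by
    by_contra hcon
    push Not at hcon
    apply hzn
    have := closed_reach (spanning K A) {x | x ∈ ({v, u} : Finset V)}
      (fun p hp q hq => hcon p hp q hq) v z (by simp) ((mem_cls _ _ _ _).1 hz)
    exact this
  obtain ⟨p, hp, q, hpq, hq⟩ := hout
  have hvu := hu
  rw [spanning_adj] at hvu hpq
  obtain ⟨⟨e1, _, hs1⟩, hne1⟩ := hvu
  obtain ⟨⟨e2, he2, hs2⟩, hne2⟩ := hpq
  rw [Finset.mem_insert, Finset.mem_singleton] at hp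
  rw [Finset.mem_insert, Finset.mem_singleton] at hq
  push Not at hq
  have hpb : p ∈ cls K A v := by
    rcases hp with rfl | rfl
    · exact hv
    · exact hub
  have hqb : q ∈ cls K A v := by
    rw [mem_cls] at hpb ⊢
    exact hpb.trans (reach_of_mem K A e2 he2 p q hs2)
  rcases hp with rfl | rfl
  · refine ⟨u, p, q, fun h => hne1 h.symm, hne2, fun h => hq.2 h.symm, hub, hv, hqb, ?_,
      ⟨e2, hs2⟩⟩
    rw [Sym2.eq_swap]
    exact ⟨e1, hs1⟩
  · exact ⟨v, p, q, hne1, hne2, fun h => hq.1 h.symm, hv, hub, hqb, ⟨e1, hs1⟩, ⟨e2, hs2⟩⟩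

theorem big3_le (K : E → Sym2 V) (hK : PathsMeet K) (A : Finset E) :
    big3 (tau K A) ≤ 1 := by
  rw [big3_tau]
  by_contra hlt
  obtain ⟨b, hb, b', hb', hne⟩ := Finset.one_lt_card.1
    (show 1 < ((blocks K A).filter fun b => 3 ≤ b.card).card by omega)
  rw [Finset.mem_filter] at hb hb'
  obtain ⟨x, y, z, h1, h2, h3, m1, m2, m3, e1, e2⟩ := path_in_block K A b hb.1 hb.2
  obtain ⟨x', y', z', h1', h2', h3', m1', m2', m3', e1', e2'⟩ :=
    path_in_block K A b' hb'.1 hb'.2
  have hd : ∀ u ∈ b, ∀ w ∈ b', u ≠ w := by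
    rintro u hu w hw rfl
    exact hne (cls_disj K A b b' hb.1 hb'.1 u hu hw)
  refine hK x y z x' y' z' ?_ e1 e2 e1' e2'
  have d1 := hd x m1
  have d2 := hd y m2
  have d3 := hd z m3
  simp only [List.nodup_cons, List.mem_cons, List.not_mem_nil, or_false, not_or,
    not_false_eq_true, List.nodup_nil, and_true]
  exact ⟨⟨h1, h3, d1 _ m1', d1 _ m2', d1 _ m3'⟩, ⟨h2, d2 _ m1', d2 _ m2', d2 _ m3'⟩,
    ⟨d3 _ m1', d3 _ m2', d3 _ m3'⟩, ⟨h1', h3'⟩, h2'⟩

end Paths

section PathTransfer

variable {V E V' E' : Type} [Fintype V] [Fintype E] [Fintype V'] [Fintype E']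

theorem pathsMeet_transfer (G : E → Sym2 V) (H : E' → Sym2 V')
    (h : ∀ T : ℝ, 1 < T → ∀ x y : ℝ, B T G x y = B T H x y) (hG : PathsMeet G) :
    PathsMeet H := by
  intro a b c a' b' c' hnd e1 e2 e3 e4
  obtain ⟨e1, h1⟩ := e1
  obtain ⟨e2, h2⟩ := e2
  obtain ⟨e3, h3⟩ := e3
  obtain ⟨e4, h4⟩ := e4
  simp only [List.nodup_cons, List.mem_cons, List.not_mem_nil, or_false, not_or,
    not_false_eq_true, List.nodup_nil, and_true] at hnd
  obtain ⟨⟨ab, ac, aa', ab', ac'⟩, ⟨bc, ba', bb', bc'⟩, ⟨ca', cb', cc'⟩, ⟨a'b', a'c'⟩, b'c'⟩ := hnd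
  set A : Finset E' := {e1, e2, e3, e4} with hA
  have hAc : A.card ≤ 4 := Finset.card_le_four
  have hbig : 2 ≤ big3 (tau H A) := by
    rw [big3_tau]
    have hcl : ∀ w, (spanning H A).Reachable a w → w ∈ ({a, b, c} : Set V') := by
      intro w hw
      apply closed_reach (spanning H A) {a, b, c} _ a w (by simp) hw
      intro u hu v hadj
      rw [spanning_adj] at hadj
      obtain ⟨⟨e, he, hs⟩, _⟩ := hadj
      rw [hA] at he
      simp only [Finset.mem_insert, Finset.mem_singleton] at he
      simp only [Set.mem_insert_iff, Set.mem_singleton_iff] at hu ⊢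
      rcases he with rfl | rfl | rfl | rfl
      · rw [h1, Sym2.eq_iff] at hs
        rcases hs with ⟨_, rfl⟩ | ⟨rfl, _⟩ <;> simp
      · rw [h2, Sym2.eq_iff] at hs
        rcases hs with ⟨_, rfl⟩ | ⟨rfl, _⟩ <;> simp
      · exfalso
        rw [h3, Sym2.eq_iff] at hs
        rcases hs with ⟨rfl, _⟩ | ⟨_, rfl⟩
        · rcases hu with rfl | rfl | rfl
          · exact aa' rfl
          · exact ba' rfl
          · exact ca' rfl
        · rcases hu with rfl | rfl | rfl
          · exact ab' rfl
          · exact bb' rfl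
          · exact cb' rfl
      · exfalso
        rw [h4, Sym2.eq_iff] at hs
        rcases hs with ⟨rfl, _⟩ | ⟨_, rfl⟩
        · rcases hu with rfl | rfl | rfl
          · exact ab' rfl
          · exact bb' rfl
          · exact cb' rfl
        · rcases hu with rfl | rfl | rfl
          · exact ac' rfl
          · exact bc' rfl
          · exact cc' rfl
    have r1 : (spanning H A).Reachable a b := reach_of_mem H A e1 (by simp [hA]) a b h1
    have r2 : (spanning H A).Reachable b c := reach_of_mem H A e2 (by simp [hA]) b c h2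
    have r3 : (spanning H A).Reachable a' b' := reach_of_mem H A e3 (by simp [hA]) a' b' h3
    have r4 : (spanning H A).Reachable b' c' := reach_of_mem H A e4 (by simp [hA]) b' c' h4
    have hne : cls H A a ≠ cls H A a' := by
      intro heq
      have := hcl a' ((cls_eq_iff H A a a').1 heq)
      simp only [Set.mem_insert_iff, Set.mem_singleton_iff] at this
      rcases this with h | h | h
      · exact aa' h.symm
      · exact ba' h.symm
      · exact ca' h.symm
    have c1 : 3 ≤ (cls H A a).card := by
      have hsub : ({a, b, c} : Finset V') ⊆ cls H A a := by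
        intro w hw
        rw [mem_cls]
        simp only [Finset.mem_insert, Finset.mem_singleton] at hw
        rcases hw with rfl | rfl | rfl
        · exact SimpleGraph.Reachable.refl _
        · exact r1
        · exact r1.trans r2
      have h5 := Finset.card_le_card hsub
      rwa [Finset.card_insert_of_notMem (by simp [ab, ac]), Finset.card_pair bc] at h5
    have c2 : 3 ≤ (cls H A a').card := by
      have hsub : ({a', b', c'} : Finset V') ⊆ cls H A a' := by
        intro w hw
        rw [mem_cls]
        simp only [Finset.mem_insert, Finset.mem_singleton] at hw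
        rcases hw with rfl | rfl | rfl
        · exact SimpleGraph.Reachable.refl _
        · exact r3
        · exact r3.trans r4
      have h5 := Finset.card_le_card hsub
      rwa [Finset.card_insert_of_notMem (by simp [a'b', a'c']), Finset.card_pair b'c'] at h5
    have hsub : ({cls H A a, cls H A a'} : Finset (Finset V')) ⊆
        (blocks H A).filter fun b => 3 ≤ b.card := by
      intro w hw
      rw [Finset.mem_filter]
      simp only [Finset.mem_insert, Finset.mem_singleton] at hw
      rcases hw with rfl | rfl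
      · exact ⟨(mem_blocks _ _ _).2 ⟨_, rfl⟩, c1⟩
      · exact ⟨(mem_blocks _ _ _).2 ⟨_, rfl⟩, c2⟩
    have h5 := Finset.card_le_card hsub
    rwa [Finset.card_pair hne] at h5
  have h3 := few_edges G H h A.card hAc (tau H A)
  have h4 : 0 < cnt H A.card (tau H A) := by
    rw [cnt, Finset.card_pos]
    exact ⟨A, by simp⟩
  have h5 : 0 < cnt G A.card (tau H A) := by
    rw [dd] at h3
    omega
  rw [cnt, Finset.card_pos] at h5
  obtain ⟨A', hA'⟩ := h5
  rw [Finset.mem_filter] at hA'
  have := big3_le G hG A'
  rw [hA'.2.2] at this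
  omega

theorem big3_of_dd (G : E → Sym2 V) (H : E' → Sym2 V')
    (hG : PathsMeet G) (hH : PathsMeet H) (m : ℕ) (t : Multiset ℕ)
    (ht : dd G H m t ≠ 0) : big3 t ≤ 1 := by
  by_cases h1 : cnt G m t = 0
  · have h2 : 0 < cnt H m t := by
      by_contra h0
      apply ht
      rw [dd, h1]
      omega
    rw [cnt, Finset.card_pos] at h2
    obtain ⟨A, hA⟩ := h2
    rw [Finset.mem_filter] at hA
    rw [← hA.2.2]
    exact big3_le H hH A
  · obtain ⟨A, hA⟩ := Finset.card_pos.1 (Nat.pos_of_ne_zero h1)
    rw [Finset.mem_filter] at hA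
    rw [← hA.2.2]
    exact big3_le G hG A

/-- the type with one part `a`, parts two and ones, `l` parts in all and sum `l + e` -/
def ty (l e a : ℕ) : Multiset ℕ :=
  a ::ₘ (Multiset.replicate (e + 1 - a) 2 + Multiset.replicate (l - 1 - (e + 1 - a)) 1)

theorem shape (t : Multiset ℕ) (ht : ∀ a ∈ t, 0 < a) (hb : big3 t ≤ 1) (l e : ℕ)
    (hl : Multiset.card t = l) (hs : t.sum = l + e) (he : 1 ≤ e) :
    ∃ a ∈ Finset.Icc 2 (e + 1), e + 1 - a ≤ l - 1 ∧ t = ty l e a := by
  -- a part at least two, such that the others are at most two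
  have hsplit : ∃ a ∈ t, 2 ≤ a ∧ ∀ x ∈ t.erase a, x ≤ 2 := by
    by_cases h0 : big3 t = 0
    · have hall : ∀ x ∈ t, x ≤ 2 := by
        intro x hx
        by_contra hlt
        have : x ∈ t.filter fun a => 3 ≤ a := Multiset.mem_filter.2 ⟨hx, by omega⟩
        rw [big3, Multiset.card_eq_zero] at h0
        rw [h0] at this
        simp at this
      have h2 : ∃ a ∈ t, 2 ≤ a := by
        by_contra hcon
        push Not at hcon
        have : t.sum ≤ Multiset.card t • 1 := Multiset.sum_le_card_nsmul t 1 (fun x hx => by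
          have := hcon x hx
          omega)
        simp at this
        omega
      obtain ⟨a, ha, ha2⟩ := h2
      exact ⟨a, ha, ha2, fun x hx => hall x (Multiset.mem_of_mem_erase hx)⟩
    · have h1 : big3 t = 1 := by omega
      rw [big3, Multiset.card_eq_one] at h1
      obtain ⟨a, ha⟩ := h1
      have hat : a ∈ t.filter fun a => 3 ≤ a := by rw [ha]; simp
      rw [Multiset.mem_filter] at hat
      refine ⟨a, hat.1, by omega, fun x hx => ?_⟩
      by_contra hlt
      have h3 : (t.erase a).filter (fun a => 3 ≤ a) = 0 := by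
        have h4 : a ::ₘ (t.erase a).filter (fun a => 3 ≤ a) = {a} := by
          rw [← ha, ← Multiset.filter_cons_of_pos _ hat.2, Multiset.cons_erase hat.1]
        have h5 := congrArg Multiset.card h4
        rw [Multiset.card_cons, Multiset.card_singleton] at h5
        rw [← Multiset.card_eq_zero]
        omega
      have h6 : x ∈ (t.erase a).filter fun a => 3 ≤ a :=
        Multiset.mem_filter.2 ⟨hx, by omega⟩
      rw [h3] at h6
      simp at h6
  obtain ⟨a, ha, ha2, hx⟩ := hsplit
  set u := t.erase a with hu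
  have htu : t = a ::ₘ u := (Multiset.cons_erase ha).symm
  have hpu : ∀ x ∈ u, 0 < x := fun x hx => ht x (Multiset.mem_of_mem_erase hx)
  have h1 := Multiset.filter_add_not (fun x => x = 2) u
  rw [Multiset.filter_eq'] at h1
  have h2 : u.filter (fun x => ¬ x = 2) =
      Multiset.replicate (Multiset.card (u.filter (fun x => ¬ x = 2))) 1 := by
    apply Multiset.eq_replicate_card.2
    intro x hx2
    rw [Multiset.mem_filter] at hx2
    have := hx x hx2.1
    have := hpu x hx2.1
    omega
  set j := u.count 2 with hj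
  set r := Multiset.card (u.filter (fun x => ¬ x = 2)) with hr
  rw [h2] at h1
  have hcard := congrArg Multiset.card h1
  have hsum := congrArg Multiset.sum h1
  rw [Multiset.card_add, Multiset.card_replicate, Multiset.card_replicate] at hcard
  rw [Multiset.sum_add, Multiset.sum_replicate, Multiset.sum_replicate, smul_eq_mul,
    smul_eq_mul, mul_one] at hsum
  have hc2 : Multiset.card u + 1 = l := by rw [← hl, htu, Multiset.card_cons]
  have hs2 : a + u.sum = l + e := by rw [← hs, htu, Multiset.sum_cons]
  refine ⟨a, Finset.mem_Icc.2 ⟨ha2, by omega⟩, by omega, ?_⟩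
  rw [htu, ty, ← h1]
  congr 3 <;> omega

theorem wk_ty (b : ℝ) (hb : 1 < b) (l e a : ℕ) (ha : a ≤ e + 1) (hl : e + 1 - a ≤ l - 1) :
    wk b (ty l e a) * ((b - 1) ^ (l - 1) * (b + 1) ^ (e + 1)) =
      (a * 2 ^ (e + 1 - a)) * ((b + 1) ^ a / (b ^ a - 1)) := by
  have h1 : b - 1 ≠ 0 := by
    have : 0 < b - 1 := by linarith
    exact this.ne'
  have h2 : b + 1 ≠ 0 := by
    have : 0 < b + 1 := by linarith
    exact this.ne'
  have h3 : b ^ 2 - 1 = (b - 1) * (b + 1) := by ring
  have e1 : (b + 1) ^ (e + 1) = (b + 1) ^ (e + 1 - a) * (b + 1) ^ a := by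
    rw [← pow_add]
    congr 1
    omega
  have e2 : (b - 1) ^ (l - 1) = (b - 1) ^ (e + 1 - a) * (b - 1) ^ (l - 1 - (e + 1 - a)) := by
    rw [← pow_add]
    congr 1
    omega
  rw [wk, ty, Multiset.map_cons, Multiset.prod_cons, Multiset.map_add, Multiset.prod_add,
    Multiset.map_replicate, Multiset.map_replicate, Multiset.prod_replicate,
    Multiset.prod_replicate, e1, e2, h3]
  have e3 : (((2 : ℕ) : ℝ) / ((b - 1) * (b + 1))) ^ (e + 1 - a) * ((b - 1) ^ (e + 1 - a) *
      (b + 1) ^ (e + 1 - a)) = 2 ^ (e + 1 - a) := by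
    rw [← mul_pow, ← mul_pow]
    congr 1
    field_simp
    norm_num
  have e4 : (((1 : ℕ) : ℝ) / (b ^ 1 - 1)) ^ (l - 1 - (e + 1 - a)) *
      (b - 1) ^ (l - 1 - (e + 1 - a)) = 1 := by
    rw [← mul_pow, pow_one]
    have : ((1 : ℕ) : ℝ) / (b - 1) * (b - 1) = 1 := by
      field_simp
      norm_num
    rw [this, one_pow]
  calc _ = (a : ℝ) / (b ^ a - 1) * ((((2 : ℕ) : ℝ) / ((b - 1) * (b + 1))) ^ (e + 1 - a) *
        ((b - 1) ^ (e + 1 - a) * (b + 1) ^ (e + 1 - a))) *
        ((((1 : ℕ) : ℝ) / (b ^ 1 - 1)) ^ (l - 1 - (e + 1 - a)) *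
          (b - 1) ^ (l - 1 - (e + 1 - a))) * (b + 1) ^ a := by ring
    _ = _ := by
      rw [e3, e4]
      ring

theorem ty_inj (l e a a' : ℕ) (ha : 2 ≤ a) (ha' : 2 ≤ a') (h : ty l e a = ty l e a') :
    a = a' := by
  have h1 : a ∈ ty l e a' := by rw [← h]; simp [ty]
  have h2 : a' ∈ ty l e a := by rw [h]; simp [ty]
  simp only [ty, Multiset.mem_cons, Multiset.mem_add, Multiset.mem_replicate] at h1 h2
  omega

theorem level_path (G : E → Sym2 V) (H : E' → Sym2 V')
    (h : ∀ T : ℝ, 1 < T → ∀ x y : ℝ, B T G x y = B T H x y) (hG : PathsMeet G) (m : ℕ) :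
    ∀ l : ℕ, ∀ t : Multiset ℕ, Multiset.card t < l → dd G H m t = 0 := by
  have hc := card_eq_of_B 2 (by norm_num) G H (h 2 (by norm_num))
  obtain ⟨h1, h2, h3⟩ := TA_props G H hc
  have hH := pathsMeet_transfer G H h hG
  intro l
  induction l with
  | zero => intro t ht; omega
  | succ l ih =>
    intro t htl
    by_cases hlt : Multiset.card t < l
    · exact ih t hlt
    have hcl : Multiset.card t = l := by omega
    by_cases hmp : Fintype.card V ≤ l + 2
    · exact many_parts G H h m t (by omega)
    by_contra hne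
    have hT : t ∈ TA G H := by
      by_contra hn
      exact hne (dd_notMem G H hc m t hn)
    set e := Fintype.card V - l with he
    have he1 : 1 ≤ e := by omega
    have hle : l + e = Fintype.card V := by omega
    have hdec : ∀ t : Multiset ℕ, t ∈ TA G H → Multiset.card t = l → dd G H m t ≠ 0 →
        ∃ a ∈ Finset.Icc 2 (e + 1), e + 1 - a ≤ l - 1 ∧ t = ty l e a := by
      intro t hT hcl hne
      have hp := h3 t hT
      exact shape t hp.1 (big3_of_dd G H hG hH m t hne) l e hcl (by rw [hp.2, hle]) he1
    set J := (Finset.Icc 2 (e + 1)).filter (fun a => e + 1 - a ≤ l - 1) with hJ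
    have hl1 : 1 ≤ l := by
      obtain ⟨a, ha, hla, hta⟩ := hdec t hT hcl hne
      rw [← hcl, hta, ty, Multiset.card_cons]
      omega
    have hcard : ∀ a ∈ J, Multiset.card (ty l e a) = l := by
      intro a ha
      rw [hJ, Finset.mem_filter] at ha
      rw [ty, Multiset.card_cons, Multiset.card_add, Multiset.card_replicate,
        Multiset.card_replicate]
      omega
    have hrel : ∀ b : ℝ, 1 < b → ∑ a ∈ J, (dd G H m (ty l e a) : ℝ) * wk b (ty l e a) = 0 := by
      intro b hb
      have hr := level_rel G H h m l (fun t ht => ih t ht) b hb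
      set f : Multiset ℕ → ℝ := fun t => (dd G H m t : ℝ) * wk b t with hf
      set I := J.image (ty l e) with hI
      have e1 : ∑ t ∈ (TA G H).filter (fun t => Multiset.card t = l), f t =
          ∑ t ∈ (TA G H).filter (fun t => Multiset.card t = l) ∪ I, f t := by
        apply Finset.sum_subset Finset.subset_union_left
        intro t ht hn
        rw [Finset.mem_union] at ht
        rcases ht with ht | ht
        · exact absurd ht hn
        · have : t ∉ TA G H := by
            intro hTt
            apply hn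
            rw [Finset.mem_filter]
            refine ⟨hTt, ?_⟩
            obtain ⟨a, ha, rfl⟩ := Finset.mem_image.1 ht
            exact hcard a ha
          rw [hf]
          simp only
          rw [dd_notMem G H hc m t this]
          simp
      have e2 : ∑ t ∈ I, f t =
          ∑ t ∈ (TA G H).filter (fun t => Multiset.card t = l) ∪ I, f t := by
        apply Finset.sum_subset Finset.subset_union_right
        intro t ht hn
        rw [Finset.mem_union] at ht
        rcases ht with ht | ht
        · rw [Finset.mem_filter] at ht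
          by_contra hne0
          apply hn
          have hne1 : dd G H m t ≠ 0 := by
            intro h0
            apply hne0
            rw [hf]
            simp only
            rw [h0]
            simp
          obtain ⟨a, ha, hla, hta⟩ := hdec t ht.1 ht.2 hne1
          rw [hI, Finset.mem_image]
          exact ⟨a, by rw [hJ, Finset.mem_filter]; exact ⟨ha, hla⟩, hta.symm⟩
        · exact absurd ht hn
      have e3 : ∑ t ∈ I, f t = ∑ a ∈ J, f (ty l e a) := by
        rw [hI, Finset.sum_image]
        intro x hx y hy hxy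
        rw [Finset.mem_coe, hJ, Finset.mem_filter, Finset.mem_Icc] at hx hy
        exact ty_inj l e x y hx.1.1 hy.1.1 hxy
      have e4 : ∑ a ∈ J, f (ty l e a) = 0 := by
        rw [← e3, e2, ← e1]
        exact hr
      exact e4
    have key := path_indep (e + 1) (fun a => if e + 1 - a ≤ l - 1 then
      (dd G H m (ty l e a) : ℝ) * (a * 2 ^ (e + 1 - a)) else 0) (by
      intro b hb
      have h5 := hrel b hb
      have h6 : (∑ a ∈ J, (dd G H m (ty l e a) : ℝ) * wk b (ty l e a)) *
          ((b - 1) ^ (l - 1) * (b + 1) ^ (e + 1)) = 0 := by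
        rw [h5, zero_mul]
      refine Eq.trans ?_ h6
      rw [Finset.sum_mul, hJ, Finset.sum_filter]
      apply Finset.sum_congr rfl
      intro a ha
      rw [Finset.mem_Icc] at ha
      by_cases hla : e + 1 - a ≤ l - 1
      · rw [if_pos hla, if_pos hla, mul_assoc ((dd G H m (ty l e a) : ℝ)) (wk b _),
          wk_ty b hb l e a (by omega) hla]
        ring
      · rw [if_neg hla, if_neg hla, zero_mul])
    obtain ⟨a, ha, hla, hta⟩ := hdec t hT hcl hne
    have h7 := key a ha
    rw [if_pos hla] at h7
    have h8 : ((a : ℝ) * 2 ^ (e + 1 - a)) ≠ 0 := by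
      rw [Finset.mem_Icc] at ha
      have : (0 : ℝ) < a := by
        have : 0 < a := by omega
        exact_mod_cast this
      positivity
    have h9 := (mul_eq_zero.1 h7).resolve_right h8
    apply hne
    rw [hta]
    exact_mod_cast h9

theorem case_paths (G : E → Sym2 V) (H : E' → Sym2 V')
    (h : ∀ T : ℝ, 1 < T → ∀ x y : ℝ, B T G x y = B T H x y) (hG : PathsMeet G) : U G = U H := by
  have hc := card_eq_of_B 2 (by norm_num) G H (h 2 (by norm_num))
  apply U_eq_of_dd G H hc
  intro m t _
  exact level_path G H h hG m (Multiset.card t + 1) t (Nat.lt_succ_self _)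

end PathTransfer

end Pool.Agent.Lib.QDichromate
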