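import Mathlib
import Pool.Agent.Lib.QDichromate.Defs
import Pool.Agent.Lib.QDichromate.Core
import Pool.Agent.Lib.QDichromate.FewC
import Pool.Agent.Lib.QDichromate.Rank
import Pool.Agent.Lib.QDichromate.RankData
import Pool.Agent.Lib.QDichromate.Sparse

/-!
For simple graphs with at most 10 vertices and simple graphs without triangles with at most 13
vertices the q-dichromates for all q determine the U-polynomial.
-/

set_option linter.unusedSectionVars false

open scoped Classical

namespace Pool.Agent.Lib.QDichromate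

section Assembly

variable {V E V' E' : Type} [Fintype V] [Fintype E] [Fintype V'] [Fintype E']

theorem coe_nodup (L : List (List ℕ)) (hL : Good L) :
    (L.map fun t : List ℕ => (t : Multiset ℕ)).Nodup := by
  apply List.Nodup.map_on _ hL.1
  intro x hx y hy hxy
  rw [Multiset.coe_eq_coe] at hxy
  exact hxy.eq_of_pairwise (fun a b _ _ h1 h2 => le_antisymm h2 h1) (hL.2.1 x hx) (hL.2.1 y hy)

theorem rel_eval (G : E → Sym2 V) (H : E' → Sym2 V')
    (h : ∀ T : ℝ, 1 < T → ∀ x y : ℝ, B T G x y = B T H x y) (m : ℕ) (b X : ℝ) (hb : 1 < b) :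
    ∑ t ∈ TA G H, (dd G H m t : ℝ) * PX b X t = 0 := by
  have hc := card_eq_of_B b hb G H (h b hb)
  obtain ⟨h1, h2, _⟩ := TA_props G H hc
  have h3 := rel_basic b hb G H (h b hb) m (TA G H) h1 h2
  have h4 := congrArg (Polynomial.eval X) h3
  rw [Polynomial.eval_finsetSum, Polynomial.eval_zero] at h4
  refine Eq.trans ?_ h4
  apply Finset.sum_congr rfl
  intro t _
  rw [PX_eq, Polynomial.eval_mul, Polynomial.eval_C]
  ring

/-- from the linear independence of a list of types -/
theorem dd_zero_of_ns (G : E → Sym2 V) (H : E' → Sym2 V')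
    (h : ∀ T : ℝ, 1 < T → ∀ x y : ℝ, B T G x y = B T H x y) (m : ℕ) (L : List (List ℕ))
    (hL : Good L) (hNS : NS2 L)
    (hsupp : ∀ t, dd G H m t ≠ 0 → ∃ l ∈ L, (l : Multiset ℕ) = t) (t : Multiset ℕ) :
    dd G H m t = 0 := by
  have hc := card_eq_of_B 2 (by norm_num) G H (h 2 (by norm_num))
  have key := hNS (fun t => dd G H m t) (by
    intro b X hb
    have h1 := rel_eval G H h m b X hb
    set LL := (L.map fun t : List ℕ => (t : Multiset ℕ)).toFinset with hLL
    have h2 : ∑ t ∈ LL, (dd G H m t : ℝ) * PX b X t =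
        ∑ t ∈ TA G H ∪ LL, (dd G H m t : ℝ) * PX b X t := by
      apply Finset.sum_subset Finset.subset_union_right
      intro t _ hn
      by_contra hne
      apply hn
      have h0 : dd G H m t ≠ 0 := by
        intro h0
        apply hne
        rw [h0]
        simp
      obtain ⟨l, hl, rfl⟩ := hsupp t h0
      rw [hLL, List.mem_toFinset, List.mem_map]
      exact ⟨l, hl, rfl⟩
    have h3 : ∑ t ∈ TA G H, (dd G H m t : ℝ) * PX b X t =
        ∑ t ∈ TA G H ∪ LL, (dd G H m t : ℝ) * PX b X t := by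
      apply Finset.sum_subset Finset.subset_union_left
      intro t _ hn
      rw [dd_notMem G H hc m t hn]
      simp
    have h4 : (L.map fun t : List ℕ => (dd G H m (t : Multiset ℕ) : ℝ) *
        PX b X (t : Multiset ℕ)).sum = ∑ t ∈ LL, (dd G H m t : ℝ) * PX b X t := by
      rw [hLL, List.sum_toFinset _ (coe_nodup L hL), List.map_map]
      rfl
    rw [h4, h2, ← h3, h1])
  by_contra hne
  obtain ⟨l, hl, rfl⟩ := hsupp t hne
  exact hne (key l hl)

theorem case_simple_aux (G : E → Sym2 V) (H : E' → Sym2 V')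
    (h : ∀ T : ℝ, 1 < T → ∀ x y : ℝ, B T G x y = B T H x y) (hG : Sp fC G) (n : ℕ)
    (hn : Fintype.card V = n) (hL : Good (plist n n)) (hNS : NS2 (LS n)) : U G = U H := by
  have hc := card_eq_of_B 2 (by norm_num) G H (h 2 (by norm_num))
  have hH := sp_fC_transfer G H h hG
  apply U_eq_of_dd G H hc
  intro m t _
  by_cases hm : m ≤ 4
  · exact few_edges G H h m hm t
  apply dd_zero_of_ns G H h m (LS n) (good_filter _ hL _) hNS
  intro t ht
  obtain ⟨h0, hs, hb, _⟩ := supp_of_sp fC G H hc hG hH m t ht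
  rw [hn] at hs
  obtain ⟨l, hl, rfl⟩ := mem_plist n n t (fun a ha => ⟨h0 a ha, by
    rw [← hs]
    exact Multiset.single_le_sum (fun _ _ => Nat.zero_le _) a ha⟩) hs
  refine ⟨l, ?_, rfl⟩
  rw [LS, List.mem_filter, decide_eq_true_eq]
  refine ⟨hl, ?_⟩
  rw [Multiset.map_coe, Multiset.sum_coe] at hb
  have : (l.map fC).sum = (l.map fun a => a * (a - 1) / 2).sum := rfl
  omega

theorem case_free_aux (G : E → Sym2 V) (H : E' → Sym2 V')
    (h : ∀ T : ℝ, 1 < T → ∀ x y : ℝ, B T G x y = B T H x y) (hG : Sp fM G) (n : ℕ) (hn5 : 6 ≤ n)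
    (hn : Fintype.card V = n) (hL : Good (plist n n))
    (hNS : ∀ m, 5 ≤ m → m + 1 ≤ n → NS2 (LF n m)) : U G = U H := by
  have hc := card_eq_of_B 2 (by norm_num) G H (h 2 (by norm_num))
  have hH := sp_fM_transfer G H h hG
  apply U_eq_of_dd G H hc
  intro m t _
  by_cases hm : m ≤ 4
  · exact few_edges G H h m hm t
  set m' := min m (n - 1) with hm'
  have hm1 : m' ≤ m := min_le_left _ _
  have hm2 : m' + 1 ≤ n := by
    have : m' ≤ n - 1 := min_le_right _ _
    omega
  have hm3 : 5 ≤ m' := by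
    rw [hm', le_min_iff]
    omega
  apply dd_zero_of_ns G H h m (LF n m') (good_filter _ hL _) (hNS m' hm3 hm2)
  intro t ht
  obtain ⟨h0, hs, hb, hr⟩ := supp_of_sp fM G H hc hG hH m t ht
  rw [hn] at hs hr
  obtain ⟨l, hl, rfl⟩ := mem_plist n n t (fun a ha => ⟨h0 a ha, by
    rw [← hs]
    exact Multiset.single_le_sum (fun _ _ => Nat.zero_le _) a ha⟩) hs
  refine ⟨l, ?_, rfl⟩
  rw [LF, List.mem_filter, Bool.and_eq_true, decide_eq_true_eq, decide_eq_true_eq]
  rw [Multiset.map_coe, Multiset.sum_coe] at hb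
  have e1 : (l.map fM).sum = (l.map fun a => a * a / 4).sum := rfl
  rw [Multiset.coe_card] at hr
  have hlen : 0 < l.length := by
    rw [List.length_pos_iff]
    rintro rfl
    simp at hs
    omega
  refine ⟨hl, ?_, by omega⟩
  rcases le_total m (n - 1) with hmn | hmn
  · have : m' = m := min_eq_left hmn
    omega
  · have : m' = n - 1 := min_eq_right hmn
    omega

theorem case_simple (G : E → Sym2 V) (H : E' → Sym2 V')
    (h : ∀ T : ℝ, 1 < T → ∀ x y : ℝ, B T G x y = B T H x y) (hn : Fintype.card V ≤ 10)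
    (hi : Function.Injective G) (hl : ∀ e, ¬ (G e).IsDiag) : U G = U H := by
  have hG := sp_simple G hi hl
  by_cases h8 : Fintype.card V ≤ 8
  · exact case_generic G H h8 h
  have h9 : Fintype.card V = 9 ∨ Fintype.card V = 10 := by omega
  rcases h9 with h9 | h9
  · exact case_simple_aux G H h hG 9 h9 good_9 nsS_9
  · exact case_simple_aux G H h hG 10 h9 good_10 nsS_10

theorem case_free (G : E → Sym2 V) (H : E' → Sym2 V')
    (h : ∀ T : ℝ, 1 < T → ∀ x y : ℝ, B T G x y = B T H x y) (hn : Fintype.card V ≤ 13)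
    (hi : Function.Injective G) (hl : ∀ e, ¬ (G e).IsDiag)
    (hf : ∀ a b c : V, ¬ (s(a, b) ∈ Set.range G ∧ s(b, c) ∈ Set.range G ∧
      s(a, c) ∈ Set.range G)) : U G = U H := by
  have hG := sp_free G hi hl hf
  by_cases h10 : Fintype.card V ≤ 10
  · exact case_simple G H h h10 hi hl
  have h11 : Fintype.card V = 11 ∨ Fintype.card V = 12 ∨ Fintype.card V = 13 := by omega
  rcases h11 with h11 | h11 | h11
  · apply case_free_aux G H h hG 11 (by norm_num) h11 good_11
    intro m hm1 hm2
    have hm3 : m ≤ 10 := by omega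
    interval_cases m
    · exact nsF_11_5
    · exact nsF_11_6
    · exact nsF_11_7
    · exact nsF_11_8
    · exact nsF_11_9
    · exact nsF_11_10
  · apply case_free_aux G H h hG 12 (by norm_num) h11 good_12
    intro m hm1 hm2
    have hm3 : m ≤ 11 := by omega
    interval_cases m
    · exact nsF_12_5
    · exact nsF_12_6
    · exact nsF_12_7
    · exact nsF_12_8
    · exact nsF_12_9
    · exact nsF_12_10
    · exact nsF_12_11
  · apply case_free_aux G H h hG 13 (by norm_num) h11 good_13
    intro m hm1 hm2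
    have hm3 : m ≤ 12 := by omega
    interval_cases m
    · exact nsF_13_5
    · exact nsF_13_6
    · exact nsF_13_7
    · exact nsF_13_8
    · exact nsF_13_9
    · exact nsF_13_10
    · exact nsF_13_11
    · exact nsF_13_12

end Assembly

end Pool.Agent.Lib.QDichromate
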