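import Mathlib
import Pool.Agent.Lib.QDichromate.Core
import Pool.Agent.Lib.QDichromate.Rank
import Pool.Agent.Lib.QDichromate.Fast
import Pool.Agent.Lib.QDichromate.RankData

/-!
Rank computations for graphs with at most one cycle and 9 to 13 vertices.
-/

namespace Pool.Agent.Lib.QDichromate

/-- types of edge sets with `m` edges in graphs with at most one cycle -/
def LU (n m : ℕ) : List (List ℕ) :=
  (plist n n).filter fun t => decide (n ≤ t.length + m) && decide (t.length + m ≤ n + 1)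

def rwU_9_5 : List (ℕ × ℕ) :=
  [(2, 2), (2, 3), (2, 4), (2, 5), (2, 6), (3, 2), (2, 7), (3, 4), (3, 5), (3, 6), (4, 2)]

theorem chkU_9_5 : elimF 1000003 (LU 9 5).length (rows2F 1000003 9 (LU 9 5) rwU_9_5) = true := by
  decide +kernel

theorem nsU_9_5 : NS2 (LU 9 5) :=
  ns2_fast 1000003 9 _ rwU_9_5 (good_filter _ good_9 _).2.2 (sum_filter' 9 _)
    (by decide +kernel) chkU_9_5

def rwU_9_6 : List (ℕ × ℕ) :=
  [(2, 2), (2, 3), (2, 4), (2, 5), (3, 2), (2, 6), (2, 7), (3, 4), (3, 5), (3, 6), (4, 2),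
   (3, 7), (4, 3)]

theorem chkU_9_6 : elimF 1000003 (LU 9 6).length (rows2F 1000003 9 (LU 9 6) rwU_9_6) = true := by
  decide +kernel

theorem nsU_9_6 : NS2 (LU 9 6) :=
  ns2_fast 1000003 9 _ rwU_9_6 (good_filter _ good_9 _).2.2 (sum_filter' 9 _)
    (by decide +kernel) chkU_9_6

def rwU_9_7 : List (ℕ × ℕ) :=
  [(2, 2), (2, 3), (2, 4), (2, 5), (3, 2), (2, 6), (3, 4), (2, 7), (3, 5), (3, 6), (3, 7)]

theorem chkU_9_7 : elimF 1000003 (LU 9 7).length (rows2F 1000003 9 (LU 9 7) rwU_9_7) = true := by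
  decide +kernel

theorem nsU_9_7 : NS2 (LU 9 7) :=
  ns2_fast 1000003 9 _ rwU_9_7 (good_filter _ good_9 _).2.2 (sum_filter' 9 _)
    (by decide +kernel) chkU_9_7

def rwU_9_8 : List (ℕ × ℕ) :=
  [(2, 2), (2, 3), (2, 4), (2, 5), (2, 6)]

theorem chkU_9_8 : elimF 1000003 (LU 9 8).length (rows2F 1000003 9 (LU 9 8) rwU_9_8) = true := by
  decide +kernel

theorem nsU_9_8 : NS2 (LU 9 8) :=
  ns2_fast 1000003 9 _ rwU_9_8 (good_filter _ good_9 _).2.2 (sum_filter' 9 _)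
    (by decide +kernel) chkU_9_8

def rwU_9_9 : List (ℕ × ℕ) :=
  [(2, 2)]

theorem chkU_9_9 : elimF 1000003 (LU 9 9).length (rows2F 1000003 9 (LU 9 9) rwU_9_9) = true := by
  decide +kernel

theorem nsU_9_9 : NS2 (LU 9 9) :=
  ns2_fast 1000003 9 _ rwU_9_9 (good_filter _ good_9 _).2.2 (sum_filter' 9 _)
    (by decide +kernel) chkU_9_9

def rwU_10_5 : List (ℕ × ℕ) :=
  [(2, 2), (2, 3), (2, 4), (2, 5), (2, 6), (2, 7), (3, 2), (3, 4), (3, 5), (3, 6), (4, 2),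
   (4, 3)]

theorem chkU_10_5 : elimF 1000003 (LU 10 5).length (rows2F 1000003 10 (LU 10 5) rwU_10_5) = true := by
  decide +kernel

theorem nsU_10_5 : NS2 (LU 10 5) :=
  ns2_fast 1000003 10 _ rwU_10_5 (good_filter _ good_10 _).2.2 (sum_filter' 10 _)
    (by decide +kernel) chkU_10_5

def rwU_10_6 : List (ℕ × ℕ) :=
  [(2, 2), (2, 3), (2, 4), (2, 5), (2, 6), (3, 2), (2, 7), (3, 4), (2, 8), (3, 5), (4, 2),
   (3, 6), (3, 7), (4, 3), (4, 5), (4, 6)]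

theorem chkU_10_6 : elimF 1000003 (LU 10 6).length (rows2F 1000003 10 (LU 10 6) rwU_10_6) = true := by
  decide +kernel

theorem nsU_10_6 : NS2 (LU 10 6) :=
  ns2_fast 1000003 10 _ rwU_10_6 (good_filter _ good_10 _).2.2 (sum_filter' 10 _)
    (by decide +kernel) chkU_10_6

def rwU_10_7 : List (ℕ × ℕ) :=
  [(2, 2), (2, 3), (2, 4), (2, 5), (2, 6), (3, 2), (2, 7), (3, 4), (3, 5), (2, 8), (3, 6),
   (4, 2), (3, 7), (3, 8), (4, 3), (4, 5), (4, 6)]

theorem chkU_10_7 : elimF 1000003 (LU 10 7).length (rows2F 1000003 10 (LU 10 7) rwU_10_7) = true := by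
  decide +kernel

theorem nsU_10_7 : NS2 (LU 10 7) :=
  ns2_fast 1000003 10 _ rwU_10_7 (good_filter _ good_10 _).2.2 (sum_filter' 10 _)
    (by decide +kernel) chkU_10_7

def rwU_10_8 : List (ℕ × ℕ) :=
  [(2, 2), (2, 3), (2, 4), (2, 5), (2, 6), (3, 2), (3, 4), (2, 7), (3, 5), (2, 8), (4, 2),
   (3, 6), (3, 7)]

theorem chkU_10_8 : elimF 1000003 (LU 10 8).length (rows2F 1000003 10 (LU 10 8) rwU_10_8) = true := by
  decide +kernel

theorem nsU_10_8 : NS2 (LU 10 8) :=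
  ns2_fast 1000003 10 _ rwU_10_8 (good_filter _ good_10 _).2.2 (sum_filter' 10 _)
    (by decide +kernel) chkU_10_8

def rwU_10_9 : List (ℕ × ℕ) :=
  [(2, 2), (2, 3), (2, 4), (2, 5), (2, 6), (2, 7)]

theorem chkU_10_9 : elimF 1000003 (LU 10 9).length (rows2F 1000003 10 (LU 10 9) rwU_10_9) = true := by
  decide +kernel

theorem nsU_10_9 : NS2 (LU 10 9) :=
  ns2_fast 1000003 10 _ rwU_10_9 (good_filter _ good_10 _).2.2 (sum_filter' 10 _)
    (by decide +kernel) chkU_10_9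

def rwU_10_10 : List (ℕ × ℕ) :=
  [(2, 2)]

theorem chkU_10_10 : elimF 1000003 (LU 10 10).length (rows2F 1000003 10 (LU 10 10) rwU_10_10) = true := by
  decide +kernel

theorem nsU_10_10 : NS2 (LU 10 10) :=
  ns2_fast 1000003 10 _ rwU_10_10 (good_filter _ good_10 _).2.2 (sum_filter' 10 _)
    (by decide +kernel) chkU_10_10

def rwU_11_5 : List (ℕ × ℕ) :=
  [(2, 2), (2, 3), (2, 4), (2, 5), (2, 6), (2, 7), (3, 2), (3, 4), (3, 5), (3, 6), (4, 2),
   (4, 3)]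

theorem chkU_11_5 : elimF 1000003 (LU 11 5).length (rows2F 1000003 11 (LU 11 5) rwU_11_5) = true := by
  decide +kernel

theorem nsU_11_5 : NS2 (LU 11 5) :=
  ns2_fast 1000003 11 _ rwU_11_5 (good_filter _ good_11 _).2.2 (sum_filter' 11 _)
    (by decide +kernel) chkU_11_5

def rwU_11_6 : List (ℕ × ℕ) :=
  [(2, 2), (2, 3), (2, 4), (2, 5), (2, 6), (2, 7), (3, 2), (2, 8), (3, 4), (3, 5), (3, 6),
   (4, 2), (4, 3), (3, 7), (4, 5), (4, 6), (4, 7)]

theorem chkU_11_6 : elimF 1000003 (LU 11 6).length (rows2F 1000003 11 (LU 11 6) rwU_11_6) = true := by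
  decide +kernel

theorem nsU_11_6 : NS2 (LU 11 6) :=
  ns2_fast 1000003 11 _ rwU_11_6 (good_filter _ good_11 _).2.2 (sum_filter' 11 _)
    (by decide +kernel) chkU_11_6

def rwU_11_7 : List (ℕ × ℕ) :=
  [(2, 2), (2, 3), (2, 4), (2, 5), (2, 6), (3, 2), (2, 7), (2, 8), (3, 4), (3, 5), (4, 2),
   (3, 6), (3, 7), (3, 8), (4, 3), (4, 5), (4, 6), (4, 7), (4, 8), (5, 2), (5, 3)]

theorem chkU_11_7 : elimF 1000003 (LU 11 7).length (rows2F 1000003 11 (LU 11 7) rwU_11_7) = true := by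
  decide +kernel

theorem nsU_11_7 : NS2 (LU 11 7) :=
  ns2_fast 1000003 11 _ rwU_11_7 (good_filter _ good_11 _).2.2 (sum_filter' 11 _)
    (by decide +kernel) chkU_11_7

def rwU_11_8 : List (ℕ × ℕ) :=
  [(2, 2), (2, 3), (2, 4), (2, 5), (2, 6), (3, 2), (3, 4), (2, 7), (3, 5), (2, 8), (3, 6),
   (4, 2), (4, 3), (3, 7), (3, 8), (4, 5), (4, 6), (4, 7), (5, 2), (4, 8), (5, 3)]

theorem chkU_11_8 : elimF 1000003 (LU 11 8).length (rows2F 1000003 11 (LU 11 8) rwU_11_8) = true := by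
  decide +kernel

theorem nsU_11_8 : NS2 (LU 11 8) :=
  ns2_fast 1000003 11 _ rwU_11_8 (good_filter _ good_11 _).2.2 (sum_filter' 11 _)
    (by decide +kernel) chkU_11_8

def rwU_11_9 : List (ℕ × ℕ) :=
  [(2, 2), (2, 3), (2, 4), (2, 5), (2, 6), (3, 2), (2, 7), (3, 4), (3, 5), (2, 8), (3, 6),
   (3, 7), (4, 2), (3, 8), (4, 3)]

theorem chkU_11_9 : elimF 1000003 (LU 11 9).length (rows2F 1000003 11 (LU 11 9) rwU_11_9) = true := by
  decide +kernel

theorem nsU_11_9 : NS2 (LU 11 9) :=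
  ns2_fast 1000003 11 _ rwU_11_9 (good_filter _ good_11 _).2.2 (sum_filter' 11 _)
    (by decide +kernel) chkU_11_9

def rwU_11_10 : List (ℕ × ℕ) :=
  [(2, 2), (2, 3), (2, 4), (2, 5), (2, 6), (2, 7)]

theorem chkU_11_10 : elimF 1000003 (LU 11 10).length (rows2F 1000003 11 (LU 11 10) rwU_11_10) = true := by
  decide +kernel

theorem nsU_11_10 : NS2 (LU 11 10) :=
  ns2_fast 1000003 11 _ rwU_11_10 (good_filter _ good_11 _).2.2 (sum_filter' 11 _)
    (by decide +kernel) chkU_11_10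

def rwU_11_11 : List (ℕ × ℕ) :=
  [(2, 2)]

theorem chkU_11_11 : elimF 1000003 (LU 11 11).length (rows2F 1000003 11 (LU 11 11) rwU_11_11) = true := by
  decide +kernel

theorem nsU_11_11 : NS2 (LU 11 11) :=
  ns2_fast 1000003 11 _ rwU_11_11 (good_filter _ good_11 _).2.2 (sum_filter' 11 _)
    (by decide +kernel) chkU_11_11

def rwU_12_5 : List (ℕ × ℕ) :=
  [(2, 2), (2, 3), (2, 4), (2, 5), (2, 6), (2, 7), (3, 2), (3, 4), (3, 5), (3, 6), (4, 2),
   (4, 3)]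

theorem chkU_12_5 : elimF 1000003 (LU 12 5).length (rows2F 1000003 12 (LU 12 5) rwU_12_5) = true := by
  decide +kernel

theorem nsU_12_5 : NS2 (LU 12 5) :=
  ns2_fast 1000003 12 _ rwU_12_5 (good_filter _ good_12 _).2.2 (sum_filter' 12 _)
    (by decide +kernel) chkU_12_5

def rwU_12_6 : List (ℕ × ℕ) :=
  [(2, 2), (2, 3), (2, 4), (2, 5), (2, 6), (2, 7), (2, 8), (3, 2), (3, 4), (3, 5), (3, 6),
   (4, 2), (4, 3), (4, 5), (3, 7), (4, 6), (5, 2), (4, 7)]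

theorem chkU_12_6 : elimF 1000003 (LU 12 6).length (rows2F 1000003 12 (LU 12 6) rwU_12_6) = true := by
  decide +kernel

theorem nsU_12_6 : NS2 (LU 12 6) :=
  ns2_fast 1000003 12 _ rwU_12_6 (good_filter _ good_12 _).2.2 (sum_filter' 12 _)
    (by decide +kernel) chkU_12_6

def rwU_12_7 : List (ℕ × ℕ) :=
  [(2, 2), (2, 3), (2, 4), (2, 5), (2, 6), (2, 7), (3, 2), (2, 8), (3, 4), (2, 9), (3, 5),
   (4, 2), (3, 6), (4, 3), (3, 7), (3, 8), (4, 5), (4, 6), (5, 2), (4, 7), (5, 3), (4, 8),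
   (5, 4), (5, 6)]

theorem chkU_12_7 : elimF 1000003 (LU 12 7).length (rows2F 1000003 12 (LU 12 7) rwU_12_7) = true := by
  decide +kernel

theorem nsU_12_7 : NS2 (LU 12 7) :=
  ns2_fast 1000003 12 _ rwU_12_7 (good_filter _ good_12 _).2.2 (sum_filter' 12 _)
    (by decide +kernel) chkU_12_7

def rwU_12_8 : List (ℕ × ℕ) :=
  [(2, 2), (2, 3), (2, 4), (2, 5), (2, 6), (3, 2), (2, 7), (3, 4), (2, 8), (2, 9), (3, 5),
   (4, 2), (3, 6), (3, 7), (4, 3), (3, 8), (3, 9), (4, 5), (4, 6), (5, 2), (4, 7), (4, 8),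
   (5, 3), (4, 9), (5, 4), (5, 6), (5, 7), (5, 8)]

theorem chkU_12_8 : elimF 1000003 (LU 12 8).length (rows2F 1000003 12 (LU 12 8) rwU_12_8) = true := by
  decide +kernel

theorem nsU_12_8 : NS2 (LU 12 8) :=
  ns2_fast 1000003 12 _ rwU_12_8 (good_filter _ good_12 _).2.2 (sum_filter' 12 _)
    (by decide +kernel) chkU_12_8

def rwU_12_9 : List (ℕ × ℕ) :=
  [(2, 2), (2, 3), (2, 4), (2, 5), (2, 6), (2, 7), (3, 2), (3, 4), (2, 8), (3, 5), (2, 9),
   (3, 6), (4, 2), (3, 7), (4, 3), (3, 8), (3, 9), (4, 5), (4, 6), (4, 7), (4, 8), (5, 2),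
   (4, 9), (5, 3), (5, 4), (5, 6), (5, 7)]

theorem chkU_12_9 : elimF 1000003 (LU 12 9).length (rows2F 1000003 12 (LU 12 9) rwU_12_9) = true := by
  decide +kernel

theorem nsU_12_9 : NS2 (LU 12 9) :=
  ns2_fast 1000003 12 _ rwU_12_9 (good_filter _ good_12 _).2.2 (sum_filter' 12 _)
    (by decide +kernel) chkU_12_9

def rwU_12_10 : List (ℕ × ℕ) :=
  [(2, 2), (2, 3), (2, 4), (2, 5), (3, 2), (2, 6), (2, 7), (3, 4), (3, 5), (2, 8), (3, 6),
   (4, 2), (2, 9), (4, 3), (3, 7), (4, 5), (3, 8), (3, 9)]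

theorem chkU_12_10 : elimF 1000003 (LU 12 10).length (rows2F 1000003 12 (LU 12 10) rwU_12_10) = true := by
  decide +kernel

theorem nsU_12_10 : NS2 (LU 12 10) :=
  ns2_fast 1000003 12 _ rwU_12_10 (good_filter _ good_12 _).2.2 (sum_filter' 12 _)
    (by decide +kernel) chkU_12_10

def rwU_12_11 : List (ℕ × ℕ) :=
  [(2, 2), (2, 3), (2, 4), (2, 5), (2, 6), (2, 7), (2, 8)]

theorem chkU_12_11 : elimF 1000003 (LU 12 11).length (rows2F 1000003 12 (LU 12 11) rwU_12_11) = true := by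
  decide +kernel

theorem nsU_12_11 : NS2 (LU 12 11) :=
  ns2_fast 1000003 12 _ rwU_12_11 (good_filter _ good_12 _).2.2 (sum_filter' 12 _)
    (by decide +kernel) chkU_12_11

def rwU_12_12 : List (ℕ × ℕ) :=
  [(2, 2)]

theorem chkU_12_12 : elimF 1000003 (LU 12 12).length (rows2F 1000003 12 (LU 12 12) rwU_12_12) = true := by
  decide +kernel

theorem nsU_12_12 : NS2 (LU 12 12) :=
  ns2_fast 1000003 12 _ rwU_12_12 (good_filter _ good_12 _).2.2 (sum_filter' 12 _)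
    (by decide +kernel) chkU_12_12

def rwU_13_5 : List (ℕ × ℕ) :=
  [(2, 2), (2, 3), (2, 4), (2, 5), (2, 6), (2, 7), (3, 2), (3, 4), (3, 5), (3, 6), (4, 2),
   (4, 3)]

theorem chkU_13_5 : elimF 1000003 (LU 13 5).length (rows2F 1000003 13 (LU 13 5) rwU_13_5) = true := by
  decide +kernel

theorem nsU_13_5 : NS2 (LU 13 5) :=
  ns2_fast 1000003 13 _ rwU_13_5 (good_filter _ good_13 _).2.2 (sum_filter' 13 _)
    (by decide +kernel) chkU_13_5

def rwU_13_6 : List (ℕ × ℕ) :=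
  [(2, 2), (2, 3), (2, 4), (2, 5), (2, 6), (2, 7), (2, 8), (3, 2), (3, 4), (3, 5), (3, 6),
   (4, 2), (4, 3), (4, 5), (3, 7), (4, 6), (5, 2), (4, 7)]

theorem chkU_13_6 : elimF 1000003 (LU 13 6).length (rows2F 1000003 13 (LU 13 6) rwU_13_6) = true := by
  decide +kernel

theorem nsU_13_6 : NS2 (LU 13 6) :=
  ns2_fast 1000003 13 _ rwU_13_6 (good_filter _ good_13 _).2.2 (sum_filter' 13 _)
    (by decide +kernel) chkU_13_6

def rwU_13_7 : List (ℕ × ℕ) :=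
  [(2, 2), (2, 3), (2, 4), (2, 5), (2, 6), (2, 7), (2, 8), (3, 2), (2, 9), (3, 4), (3, 5),
   (3, 6), (4, 2), (3, 7), (4, 3), (4, 5), (3, 8), (4, 6), (4, 7), (5, 2), (5, 3), (5, 4),
   (4, 8), (5, 6), (6, 2)]

theorem chkU_13_7 : elimF 1000003 (LU 13 7).length (rows2F 1000003 13 (LU 13 7) rwU_13_7) = true := by
  decide +kernel

theorem nsU_13_7 : NS2 (LU 13 7) :=
  ns2_fast 1000003 13 _ rwU_13_7 (good_filter _ good_13 _).2.2 (sum_filter' 13 _)
    (by decide +kernel) chkU_13_7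

def rwU_13_8 : List (ℕ × ℕ) :=
  [(2, 2), (2, 3), (2, 4), (2, 5), (2, 6), (2, 7), (3, 2), (2, 8), (3, 4), (2, 9), (3, 5),
   (3, 6), (3, 7), (4, 2), (3, 8), (4, 3), (3, 9), (4, 5), (4, 6), (4, 7), (4, 8), (5, 2),
   (4, 9), (5, 3), (5, 4), (5, 6), (5, 7), (5, 8), (5, 9), (6, 2), (6, 3), (6, 4)]

theorem chkU_13_8 : elimF 1000003 (LU 13 8).length (rows2F 1000003 13 (LU 13 8) rwU_13_8) = true := by
  decide +kernel

theorem nsU_13_8 : NS2 (LU 13 8) :=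
  ns2_fast 1000003 13 _ rwU_13_8 (good_filter _ good_13 _).2.2 (sum_filter' 13 _)
    (by decide +kernel) chkU_13_8

def rwU_13_9 : List (ℕ × ℕ) :=
  [(2, 2), (2, 3), (2, 4), (2, 5), (2, 6), (2, 7), (3, 2), (2, 8), (2, 9), (3, 4), (3, 5),
   (3, 6), (3, 7), (4, 2), (3, 8), (3, 9), (4, 3), (4, 5), (4, 6), (4, 7), (4, 8), (4, 9),
   (5, 2), (5, 3), (5, 4), (5, 6), (5, 7), (5, 8), (5, 9), (6, 2), (6, 3), (6, 4), (6, 5),
   (6, 7), (6, 8), (6, 9)]

theorem chkU_13_9 : elimF 1000003 (LU 13 9).length (rows2F 1000003 13 (LU 13 9) rwU_13_9) = true := by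
  decide +kernel

theorem nsU_13_9 : NS2 (LU 13 9) :=
  ns2_fast 1000003 13 _ rwU_13_9 (good_filter _ good_13 _).2.2 (sum_filter' 13 _)
    (by decide +kernel) chkU_13_9

def rwU_13_10 : List (ℕ × ℕ) :=
  [(2, 2), (2, 3), (2, 4), (2, 5), (2, 6), (3, 2), (2, 7), (3, 4), (2, 8), (3, 5), (3, 6),
   (4, 2), (2, 9), (4, 3), (3, 7), (3, 8), (4, 5), (4, 6), (3, 9), (5, 2), (4, 7), (4, 8),
   (5, 3), (5, 4), (4, 9), (5, 6), (5, 7), (5, 8), (5, 9), (6, 2), (6, 3), (6, 4)]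

theorem chkU_13_10 : elimF 1000003 (LU 13 10).length (rows2F 1000003 13 (LU 13 10) rwU_13_10) = true := by
  decide +kernel

theorem nsU_13_10 : NS2 (LU 13 10) :=
  ns2_fast 1000003 13 _ rwU_13_10 (good_filter _ good_13 _).2.2 (sum_filter' 13 _)
    (by decide +kernel) chkU_13_10

def rwU_13_11 : List (ℕ × ℕ) :=
  [(2, 2), (2, 3), (2, 4), (2, 5), (2, 6), (2, 7), (3, 2), (3, 4), (2, 8), (3, 5), (3, 6),
   (2, 9), (3, 7), (4, 2), (3, 8), (4, 3), (3, 9), (4, 5), (4, 6), (4, 7)]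

theorem chkU_13_11 : elimF 1000003 (LU 13 11).length (rows2F 1000003 13 (LU 13 11) rwU_13_11) = true := by
  decide +kernel

theorem nsU_13_11 : NS2 (LU 13 11) :=
  ns2_fast 1000003 13 _ rwU_13_11 (good_filter _ good_13 _).2.2 (sum_filter' 13 _)
    (by decide +kernel) chkU_13_11

def rwU_13_12 : List (ℕ × ℕ) :=
  [(2, 2), (2, 3), (2, 4), (2, 5), (2, 6), (2, 7), (2, 8)]

theorem chkU_13_12 : elimF 1000003 (LU 13 12).length (rows2F 1000003 13 (LU 13 12) rwU_13_12) = true := by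
  decide +kernel

theorem nsU_13_12 : NS2 (LU 13 12) :=
  ns2_fast 1000003 13 _ rwU_13_12 (good_filter _ good_13 _).2.2 (sum_filter' 13 _)
    (by decide +kernel) chkU_13_12

def rwU_13_13 : List (ℕ × ℕ) :=
  [(2, 2)]

theorem chkU_13_13 : elimF 1000003 (LU 13 13).length (rows2F 1000003 13 (LU 13 13) rwU_13_13) = true := by
  decide +kernel

theorem nsU_13_13 : NS2 (LU 13 13) :=
  ns2_fast 1000003 13 _ rwU_13_13 (good_filter _ good_13 _).2.2 (sum_filter' 13 _)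
    (by decide +kernel) chkU_13_13

theorem nsU_9 (m : ℕ) (h1 : 5 ≤ m) (h2 : m ≤ 9) : NS2 (LU 9 m) := by
  interval_cases m
  · exact nsU_9_5
  · exact nsU_9_6
  · exact nsU_9_7
  · exact nsU_9_8
  · exact nsU_9_9

theorem nsU_10 (m : ℕ) (h1 : 5 ≤ m) (h2 : m ≤ 10) : NS2 (LU 10 m) := by
  interval_cases m
  · exact nsU_10_5
  · exact nsU_10_6
  · exact nsU_10_7
  · exact nsU_10_8
  · exact nsU_10_9
  · exact nsU_10_10

theorem nsU_11 (m : ℕ) (h1 : 5 ≤ m) (h2 : m ≤ 11) : NS2 (LU 11 m) := by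
  interval_cases m
  · exact nsU_11_5
  · exact nsU_11_6
  · exact nsU_11_7
  · exact nsU_11_8
  · exact nsU_11_9
  · exact nsU_11_10
  · exact nsU_11_11

theorem nsU_12 (m : ℕ) (h1 : 5 ≤ m) (h2 : m ≤ 12) : NS2 (LU 12 m) := by
  interval_cases m
  · exact nsU_12_5
  · exact nsU_12_6
  · exact nsU_12_7
  · exact nsU_12_8
  · exact nsU_12_9
  · exact nsU_12_10
  · exact nsU_12_11
  · exact nsU_12_12

theorem nsU_13 (m : ℕ) (h1 : 5 ≤ m) (h2 : m ≤ 13) : NS2 (LU 13 m) := by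
  interval_cases m
  · exact nsU_13_5
  · exact nsU_13_6
  · exact nsU_13_7
  · exact nsU_13_8
  · exact nsU_13_9
  · exact nsU_13_10
  · exact nsU_13_11
  · exact nsU_13_12
  · exact nsU_13_13

end Pool.Agent.Lib.QDichromate
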