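import Mathlib
import Pool.Agent.Lib.QDichromate.Defs
import Pool.Agent.Lib.QDichromate.Core
import Pool.Agent.Lib.QDichromate.FewC
import Pool.Agent.Lib.QDichromate.Sparse
import Pool.Agent.Lib.QDichromate.Small2
import Pool.Agent.Lib.QDichromate.UnicData

/-!
Graphs with at most one cycle (a loop or a pair of parallel edges is a cycle).
-/

set_option linter.unusedSectionVars false

open scoped Classical

namespace Pool.Agent.Lib.QDichromate

section Unic

theorem null_mono {V E : Type} [Fintype V] [Fintype E] (K : E → Sym2 V) (A : Finset E) :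
    A.card + Multiset.card (tau K A) ≤
      Fintype.card E + Multiset.card (tau K (Finset.univ : Finset E)) := by
  have key : ∀ (C A : Finset E), Disjoint A C →
      A.card + Multiset.card (tau K A) ≤ (A ∪ C).card + Multiset.card (tau K (A ∪ C)) := by
    intro C
    induction C using Finset.induction_on with
    | empty => intro A _; simp
    | insert e C he ih =>
      intro A hd
      rw [Finset.disjoint_insert_right] at hd
      have h1 := ih A hd.2
      have h2 := card_blocks_insert K (A ∪ C) e
      have he2 : e ∉ A ∪ C := by
        rw [Finset.mem_union]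
        push Not
        exact ⟨hd.1, he⟩
      rw [Finset.union_insert, Finset.card_insert_of_notMem he2]
      rw [card_tau, card_tau] at *
      omega
  have h := key Aᶜ A disjoint_compl_right
  rw [Finset.union_compl, Finset.card_univ] at h
  exact h

variable {V E V' E' : Type} [Fintype V] [Fintype E] [Fintype V'] [Fintype E']

theorem univ_transfer (G : E → Sym2 V) (H : E' → Sym2 V')
    (h : ∀ T : ℝ, 1 < T → ∀ x y : ℝ, B T G x y = B T H x y) :
    Fintype.card E = Fintype.card E' ∧ Multiset.card (tau G (Finset.univ : Finset E)) =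
      Multiset.card (tau H (Finset.univ : Finset E')) := by
  have h1 := coeff_eq G H (fun t => (2 : ℝ) ^ Multiset.card t) (fun y => tutte_eq G H h 2 y)
  have f1 : Finset.univ.filter (fun A : Finset E => A.card = Fintype.card E) = {Finset.univ} := by
    ext A
    simp [Finset.card_eq_iff_eq_univ]
  have f2 : Finset.univ.filter (fun A : Finset E' => A.card = Fintype.card E') =
      {Finset.univ} := by
    ext A
    simp [Finset.card_eq_iff_eq_univ]
  have hpos : ∀ n : ℕ, (0 : ℝ) < 2 ^ n := fun n => by positivity
  have hE : Fintype.card E = Fintype.card E' := by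
    rcases lt_trichotomy (Fintype.card E) (Fintype.card E') with hlt | heq | hlt
    · exfalso
      have h2 := h1 (Fintype.card E')
      have f3 : Finset.univ.filter (fun A : Finset E => A.card = Fintype.card E') = ∅ := by
        rw [Finset.filter_eq_empty_iff]
        intro A _ hA
        have := Finset.card_le_univ A
        omega
      rw [f2, f3, Finset.sum_empty, Finset.sum_singleton] at h2
      exact absurd h2 (hpos _).ne
    · exact heq
    · exfalso
      have h2 := h1 (Fintype.card E)
      have f3 : Finset.univ.filter (fun A : Finset E' => A.card = Fintype.card E) = ∅ := by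
        rw [Finset.filter_eq_empty_iff]
        intro A _ hA
        have := Finset.card_le_univ A
        omega
      rw [f1, f3, Finset.sum_empty, Finset.sum_singleton] at h2
      exact absurd h2 (hpos _).ne'
  refine ⟨hE, ?_⟩
  have h2 := h1 (Fintype.card E)
  rw [f1, hE, f2, Finset.sum_singleton, Finset.sum_singleton] at h2
  exact pow_right_injective₀ (by norm_num : (0 : ℝ) < 2) (by norm_num) h2

theorem case_unic (G : E → Sym2 V) (H : E' → Sym2 V')
    (h : ∀ T : ℝ, 1 < T → ∀ x y : ℝ, B T G x y = B T H x y) (hn : Fintype.card V ≤ 13)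
    (hG : Fintype.card E + Multiset.card (tau G (Finset.univ : Finset E)) ≤
      Fintype.card V + 1) : U G = U H := by
  by_cases h8 : Fintype.card V ≤ 8
  · exact case_generic G H h8 h
  have hc := card_eq_of_B 2 (by norm_num) G H (h 2 (by norm_num))
  obtain ⟨u1, u2⟩ := univ_transfer G H h
  have hH : Fintype.card E' + Multiset.card (tau H (Finset.univ : Finset E')) ≤
      Fintype.card V' + 1 := by omega
  have supp : ∀ (m : ℕ) (t : Multiset ℕ), dd G H m t ≠ 0 → (∀ k ∈ t, 0 < k) ∧
      t.sum = Fintype.card V ∧ Fintype.card V ≤ Multiset.card t + m ∧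
      Multiset.card t + m ≤ Fintype.card V + 1 := by
    intro m t ht
    by_cases h1 : cnt G m t = 0
    · have h2 : 0 < cnt H m t := by
        by_contra h0
        apply ht
        rw [dd, h1]
        omega
      rw [cnt, Finset.card_pos] at h2
      obtain ⟨A, hA⟩ := h2
      rw [Finset.mem_filter] at hA
      obtain ⟨_, rfl, rfl⟩ := hA
      have e1 := null_mono H A
      have e2 := rank_le H A
      rw [hc]
      exact ⟨fun k hk => tau_pos H A k hk, tau_sum H A, e2, by omega⟩
    · obtain ⟨A, hA⟩ := Finset.card_pos.1 (Nat.pos_of_ne_zero h1)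
      rw [Finset.mem_filter] at hA
      obtain ⟨_, rfl, rfl⟩ := hA
      have e1 := null_mono G A
      have e2 := rank_le G A
      exact ⟨fun k hk => tau_pos G A k hk, tau_sum G A, e2, by omega⟩
  apply U_eq_of_dd G H hc
  intro m t _
  by_cases hm : m ≤ 4
  · exact few_edges G H h m hm t
  by_contra hne
  have hmn : m ≤ Fintype.card V := by
    obtain ⟨_, s2, _, s4⟩ := supp m t hne
    have : 0 < Multiset.card t := by
      rw [Multiset.card_pos]
      rintro rfl
      simp at s2
      omega
    omega
  apply hne
  have main : ∀ n, Fintype.card V = n → Good (plist n n) → NS2 (LU n m) →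
      dd G H m t = 0 := by
    intro n hn' hL hNS
    apply dd_zero_of_ns G H h m (LU n m) (good_filter _ hL _) hNS
    intro t ht
    obtain ⟨h0, hs, hr1, hr2⟩ := supp m t ht
    rw [hn'] at hs hr1 hr2
    obtain ⟨l, hl, rfl⟩ := mem_plist n n t (fun a ha => ⟨h0 a ha, by
      rw [← hs]
      exact Multiset.single_le_sum (fun _ _ => Nat.zero_le _) a ha⟩) hs
    refine ⟨l, ?_, rfl⟩
    rw [LU, List.mem_filter, Bool.and_eq_true, decide_eq_true_eq, decide_eq_true_eq]
    rw [Multiset.coe_card] at hr1 hr2
    exact ⟨hl, hr1, hr2⟩
  have h9 : Fintype.card V = 9 ∨ Fintype.card V = 10 ∨ Fintype.card V = 11 ∨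
      Fintype.card V = 12 ∨ Fintype.card V = 13 := by omega
  rcases h9 with h9 | h9 | h9 | h9 | h9
  · exact main 9 h9 good_9 (nsU_9 m (by omega) (by omega))
  · exact main 10 h9 good_10 (nsU_10 m (by omega) (by omega))
  · exact main 11 h9 good_11 (nsU_11 m (by omega) (by omega))
  · exact main 12 h9 good_12 (nsU_12 m (by omega) (by omega))
  · exact main 13 h9 good_13 (nsU_13 m (by omega) (by omega))

end Unic

end Pool.Agent.Lib.QDichromate
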