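import Mathlib
import Pool.Agent.Lib.QDichromate.Defs
import Pool.Agent.Lib.QDichromate.Core
import Pool.Agent.Lib.QDichromate.Small2
import Pool.Agent.Lib.QDichromate.Unic
import Pool.Agent.Lib.QDichromate.MatchRank
import Pool.Agent.Lib.QDichromate.PathTwo
import Pool.Agent.Lib.QDichromate.ExcBound
import Pool.Agent.Lib.QDichromate.MatchData1
import Pool.Agent.Lib.QDichromate.MatchData2

/-!
For graphs with at most 8 vertices, simple graphs with at most 10 vertices, simple graphs without
triangles with at most 13 vertices, graphs with at most one cycle and at most 13 vertices, graphs without three pairwise disjoint edges, and graphs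
without four pairwise disjoint edges with at most 30 vertices, the q-dichromate determines the
U-polynomial for all but finitely many q (for each number of vertices).
-/

set_option linter.unusedSectionVars false

open scoped Classical

namespace Pool.Agent.Lib.QDichromate

/-- no loops and no parallel edges -/
def Simple {V E : Type} (G : E → Sym2 V) : Prop :=
  Function.Injective G ∧ ∀ e, ¬ (G e).IsDiag

/-- no three vertices that are pairwise joined by edges -/
def TriangleFree {V E : Type} (G : E → Sym2 V) : Prop :=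
  ∀ a b c : V, ¬ (s(a, b) ∈ Set.range G ∧ s(b, c) ∈ Set.range G ∧ s(a, c) ∈ Set.range G)

section Final

variable {V E V' E' : Type} [Fintype V] [Fintype E] [Fintype V'] [Fintype E']

theorem L2_length (s : ℕ) (t : List ℕ) (ht : t ∈ L2 s) : t.length = 2 := by
  obtain ⟨a, rfl, _⟩ := L2_props s t ht
  rfl

theorem case_disj2 (G : E → Sym2 V) (H : E' → Sym2 V')
    (h : ∀ T : ℝ, 1 < T → ∀ x y : ℝ, B T G x y = B T H x y) (hG : NoDisj 3 G) : U G = U H := by
  have hc := card_eq_of_B 2 (by norm_num) G H (h 2 (by norm_num))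
  apply U_eq_of_dd G H hc
  intro m t _
  exact level_k 2 (Or.inl rfl) G H h hG L2 (fun s _ => L2_coe_nodup s)
    (fun s _ u hu hp hs => L2_mem s u hu hp hs) (fun s _ l hl => L2_length s l hl)
    (fun s _ => ns3_L2 s) m (Multiset.card t + 1) t (Nat.lt_succ_self _)

theorem ns3_all (s : ℕ) (hs : s ≤ 30) : NS3 (L3 s) := by
  interval_cases s
  · exact ns3_0
  · exact ns3_1
  · exact ns3_2
  · exact ns3_3
  · exact ns3_4
  · exact ns3_5
  · exact ns3_6
  · exact ns3_7
  · exact ns3_8
  · exact ns3_9
  · exact ns3_10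
  · exact ns3_11
  · exact ns3_12
  · exact ns3_13
  · exact ns3_14
  · exact ns3_15
  · exact ns3_16
  · exact ns3_17
  · exact ns3_18
  · exact ns3_19
  · exact ns3_20
  · exact ns3_21
  · exact ns3_22
  · exact ns3_23
  · exact ns3_24
  · exact ns3_25
  · exact ns3_26
  · exact ns3_27
  · exact ns3_28
  · exact ns3_29
  · exact ns3_30

theorem case_disj3 (G : E → Sym2 V) (H : E' → Sym2 V')
    (h : ∀ T : ℝ, 1 < T → ∀ x y : ℝ, B T G x y = B T H x y) (hn : Fintype.card V ≤ 30)
    (hG : NoDisj 4 G) : U G = U H := by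
  have hc := card_eq_of_B 2 (by norm_num) G H (h 2 (by norm_num))
  apply U_eq_of_dd G H hc
  intro m t _
  exact level_k 3 (Or.inr rfl) G H h hG L3 (fun s _ => L3_coe_nodup s)
    (fun s _ u hu hp hs => L3_mem s u hu hp hs) (fun s _ l hl => L3_length s l hl)
    (fun s hs => ns3_all s (by omega)) m (Multiset.card t + 1) t (Nat.lt_succ_self _)

theorem case_classes (n : ℕ) :
    ∃ S : Set ℝ, S.Finite ∧ (∀ s ∈ S, IsAlgebraic ℤ s ∧ s < (n : ℝ) ^ n + 1) ∧
      ∀ q : ℝ, 1 < q → q ∉ S →
      ∀ (V E V' E' : Type) [Fintype V] [Fintype E] [Fintype V'] [Fintype E']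
        (G : E → Sym2 V) (H : E' → Sym2 V'), Fintype.card V = n →
        (n ≤ 8 ∨
          (Simple G ∧ n ≤ 10) ∨
          (Simple G ∧ TriangleFree G ∧ n ≤ 13) ∨
          (Fintype.card E + Multiset.card (tau G (Finset.univ : Finset E)) ≤ n + 1 ∧ n ≤ 13) ∨
          NoDisj 3 G ∨
          PathsMeet G ∨
          (NoDisj 4 G ∧ n ≤ 30)) →
        (∀ x y : ℝ, B q G x y = B q H x y) → U G = U H := by
  refine ⟨Exc n, Exc_finite n, fun s hs => ⟨Exc_algebraic n s hs, Exc_lt n s hs⟩, ?_⟩
  intro q hq hS V E V' E' _ _ _ _ G H hn hcl h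
  have hall : ∀ T : ℝ, 1 < T → ∀ x y : ℝ, B T G x y = B T H x y := fun T hT x y =>
    B_all n q hq hS G H hn h T hT x y
  rcases hcl with h8 | ⟨⟨hi, hl⟩, h10⟩ | ⟨⟨hi, hl⟩, hf, h13⟩ | ⟨hu, h13⟩ | h2 | hp |
    ⟨h3, h30⟩
  · exact case_generic G H (by omega) hall
  · exact case_simple G H hall (by omega) hi hl
  · exact case_free G H hall (by omega) hi hl hf
  · exact case_unic G H hall (by omega) (by omega)
  · exact case_disj2 G H hall h2
  · exact case_paths G H hall hp
  · exact case_disj3 G H hall (by omega) h3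

end Final

end Pool.Agent.Lib.QDichromate
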