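import Mathlib
import Pool.Agent.Lib.QDichromate.Defs
import Pool.Agent.Lib.QDichromate.Core
import Pool.Agent.Lib.QDichromate.Sparse
import Pool.Agent.Lib.QDichromate.Match
import Pool.Agent.Lib.QDichromate.Small3

/-!
Simple graphs with six vertices, for every real q > 1.
-/

set_option linter.unusedSectionVars false

open scoped Classical

namespace Pool.Agent.Lib.QDichromate

section Singles

variable {V E : Type} [Fintype V] [Fintype E]

/-- the edges that avoid a vertex -/
noncomputable def av (K : E → Sym2 V) (v : V) : Finset E := Finset.univ.filter fun e => v ∉ K e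

theorem cls_card_one (K : E → Sym2 V) (hl : ∀ e, ¬ (K e).IsDiag) (A : Finset E) (v : V) :
    (cls K A v).card = 1 ↔ A ⊆ av K v := by
  constructor
  · intro h e he
    rw [av, Finset.mem_filter]
    refine ⟨Finset.mem_univ _, fun hv => ?_⟩
    obtain ⟨w, hw⟩ := Sym2.mem_iff_exists.1 hv
    have hne : v ≠ w := by
      intro hvw
      apply hl e
      rw [hw, Sym2.mk_isDiag_iff]
      exact hvw
    have h1 : v ∈ cls K A v := (mem_cls _ _ _ _).2 (SimpleGraph.Reachable.refl _)
    have h2 : w ∈ cls K A v := (mem_cls _ _ _ _).2 (reach_of_mem K A e he v w hw)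
    exact hne (Finset.card_le_one.1 h.le v h1 w h2)
  · intro h
    have : cls K A v = {v} := by
      ext w
      rw [mem_cls, Finset.mem_singleton]
      constructor
      · intro hr
        by_contra hne
        obtain ⟨u, hu⟩ := reach_adj hr (fun h => hne h.symm)
        rw [spanning_adj] at hu
        obtain ⟨⟨e, he, hs⟩, _⟩ := hu
        have h3 := h he
        rw [av, Finset.mem_filter] at h3
        exact h3.2 (by rw [hs]; simp)
      · rintro rfl
        exact SimpleGraph.Reachable.refl _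
    rw [this, Finset.card_singleton]

theorem count_one (K : E → Sym2 V) (hl : ∀ e, ¬ (K e).IsDiag) (A : Finset E) :
    (tau K A).count 1 = (Finset.univ.filter fun v => A ⊆ av K v).card := by
  rw [count_tau]
  have h1 : (blocks K A).filter (fun b => b.card = 1) =
      (Finset.univ.filter fun v => A ⊆ av K v).image (cls K A) := by
    ext b
    rw [Finset.mem_filter, Finset.mem_image]
    constructor
    · rintro ⟨hb, h1⟩
      obtain ⟨v, rfl⟩ := (mem_blocks _ _ _).1 hb
      exact ⟨v, by
        rw [Finset.mem_filter]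
        exact ⟨Finset.mem_univ _, (cls_card_one K hl A v).1 h1⟩, rfl⟩
    · rintro ⟨v, hv, rfl⟩
      rw [Finset.mem_filter] at hv
      exact ⟨(mem_blocks _ _ _).2 ⟨v, rfl⟩, (cls_card_one K hl A v).2 hv.2⟩
  rw [h1, Finset.card_image_of_injOn]
  intro v hv w _ hvw
  rw [Finset.mem_coe, Finset.mem_filter] at hv
  have hc := (cls_card_one K hl A v).2 hv.2
  have h2 : v ∈ cls K A v := (mem_cls _ _ _ _).2 (SimpleGraph.Reachable.refl _)
  have h3 : w ∈ cls K A v := by
    rw [hvw]
    exact (mem_cls _ _ _ _).2 (SimpleGraph.Reachable.refl _)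
  exact Finset.card_le_one.1 hc.le v h2 w h3

theorem sum_one (K : E → Sym2 V) (hl : ∀ e, ¬ (K e).IsDiag) (m : ℕ) :
    ∑ A ∈ Finset.univ.filter (fun A : Finset E => A.card = m), (tau K A).count 1 =
      ∑ v : V, (av K v).card.choose m := by
  simp only [count_one K hl, Finset.card_filter (fun v => _ ⊆ av K v)]
  rw [Finset.sum_comm]
  apply Finset.sum_congr rfl
  intro v _
  rw [← Finset.card_filter, ← Finset.card_powersetCard]
  congr 1
  ext A
  simp only [Finset.mem_filter, Finset.mem_univ, true_and, Finset.mem_powersetCard]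
  exact and_comm

/-- the generating polynomial of the vertices -/
noncomputable def SP (K : E → Sym2 V) : Polynomial ℤ := ∑ v : V, Polynomial.X ^ (av K v).card

theorem SP_comp_coeff (K : E → Sym2 V) (m : ℕ) :
    ((SP K).comp (Polynomial.X + 1)).coeff m = ∑ v : V, ((av K v).card.choose m : ℤ) := by
  rw [SP, Polynomial.sum_comp, Polynomial.finsetSum_coeff]
  apply Finset.sum_congr rfl
  intro s _
  rw [Polynomial.X_pow_comp, Polynomial.coeff_X_add_one_pow]

theorem SP_coeff (K : E → Sym2 V) (i : ℕ) :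
    (SP K).coeff i = (Finset.univ.filter fun v => (av K v).card = i).card := by
  rw [SP, Polynomial.finsetSum_coeff]
  simp only [Polynomial.coeff_X_pow]
  rw [Finset.card_filter]
  push_cast
  simp only [eq_comm (a := i)]

theorem av_sum (K : E → Sym2 V) (hl : ∀ e, ¬ (K e).IsDiag) :
    ∑ v : V, (av K v).card + 2 * Fintype.card E = Fintype.card V * Fintype.card E := by
  have h1 : ∀ e : E, (Finset.univ.filter fun v => v ∉ K e).card + 2 = Fintype.card V := by
    intro e
    have h2 : (Finset.univ.filter fun v => v ∈ K e).card = 2 := by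
      have hd := hl e
      induction hs : K e using Sym2.ind with
      | _ a b =>
        rw [hs, Sym2.mk_isDiag_iff] at hd
        have : (Finset.univ.filter fun v => v ∈ s(a, b)) = {a, b} := by
          ext v
          simp
        rw [this, Finset.card_pair hd]
    have h3 := Finset.card_filter_add_card_filter_not (s := (Finset.univ : Finset V))
      (fun v => v ∈ K e)
    rw [h2, Finset.card_univ] at h3
    omega
  have h4 : ∑ v : V, (av K v).card = ∑ e : E, (Finset.univ.filter fun v => v ∉ K e).card := by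
    simp only [av, Finset.card_filter]
    exact Finset.sum_comm
  rw [h4]
  have h5 : ∑ e : E, ((Finset.univ.filter fun v => v ∉ K e).card + 2) =
      ∑ _e : E, Fintype.card V := Finset.sum_congr rfl fun e _ => h1 e
  rw [Finset.sum_add_distrib, Finset.sum_const, Finset.sum_const, Finset.card_univ,
    smul_eq_mul, smul_eq_mul] at h5
  rw [mul_comm (Fintype.card V)]
  omega

theorem few_of_three (K : E → Sym2 V) (hl : ∀ e, ¬ (K e).IsDiag) (hV : Fintype.card V = 6)
    (h3 : 3 ≤ (Finset.univ.filter fun v => (av K v).card = 1).card) : Fintype.card E ≤ 3 := by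
  have h1 := av_sum K hl
  rw [hV] at h1
  have hle : ∀ v, (av K v).card ≤ Fintype.card E := fun v => Finset.card_le_univ _
  have h2 : ∑ v : V, (av K v).card ≤ ∑ v : V,
      (if (av K v).card = 1 then 1 else Fintype.card E) := by
    apply Finset.sum_le_sum
    intro v _
    split_ifs with h
    · exact h.le
    · exact hle v
  rw [Finset.sum_ite, Finset.sum_const, Finset.sum_const, smul_eq_mul, smul_eq_mul,
    mul_one] at h2
  have h5 := Finset.card_filter_add_card_filter_not (s := (Finset.univ : Finset V))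
    (fun v => (av K v).card = 1)
  rw [Finset.card_univ, hV] at h5
  set x := (Finset.univ.filter fun v => (av K v).card = 1).card with hx
  set y := (Finset.univ.filter fun v => ¬ (av K v).card = 1).card with hy
  by_contra hlt
  have h6 : y = 6 - x := by omega
  have h7 : x ≤ 6 := by omega
  rw [h6] at h2
  interval_cases x <;> omega

end Singles

section Six

variable {V E V' E' : Type} [Fintype V] [Fintype E] [Fintype V'] [Fintype E']

theorem rel6 (q : ℝ) (hq : 1 < q) (G : E → Sym2 V) (H : E' → Sym2 V')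
    (hn : Fintype.card V = 6) (h : ∀ x y : ℝ, B q G x y = B q H x y) (m : ℕ) (X : ℝ) :
    ((dd G H m ([1, 1, 1, 1, 1, 1] : List ℕ) : ℝ) * wt q ([1, 1, 1, 1, 1, 1] : List ℕ)) *
      (X - 1) ^ 6 +
    ((dd G H m ([2, 1, 1, 1, 1] : List ℕ) : ℝ) * wt q ([2, 1, 1, 1, 1] : List ℕ)) *
      ((X ^ 2 - 1) * (X - 1) ^ 4) +
    ((dd G H m ([2, 2, 1, 1] : List ℕ) : ℝ) * wt q ([2, 2, 1, 1] : List ℕ)) *
      ((X ^ 2 - 1) ^ 2 * (X - 1) ^ 2) +
    ((dd G H m ([2, 2, 2] : List ℕ) : ℝ) * wt q ([2, 2, 2] : List ℕ)) * (X ^ 2 - 1) ^ 3 +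
    ((dd G H m ([3, 1, 1, 1] : List ℕ) : ℝ) * wt q ([3, 1, 1, 1] : List ℕ)) *
      ((X ^ 3 - 1) * (X - 1) ^ 3) +
    ((dd G H m ([3, 2, 1] : List ℕ) : ℝ) * wt q ([3, 2, 1] : List ℕ)) *
      ((X ^ 3 - 1) * (X ^ 2 - 1) * (X - 1)) +
    ((dd G H m ([3, 3] : List ℕ) : ℝ) * wt q ([3, 3] : List ℕ)) * (X ^ 3 - 1) ^ 2 +
    ((dd G H m ([4, 1, 1] : List ℕ) : ℝ) * wt q ([4, 1, 1] : List ℕ)) *
      ((X ^ 4 - 1) * (X - 1) ^ 2) +
    ((dd G H m ([4, 2] : List ℕ) : ℝ) * wt q ([4, 2] : List ℕ)) *
      ((X ^ 4 - 1) * (X ^ 2 - 1)) +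
    ((dd G H m ([5, 1] : List ℕ) : ℝ) * wt q ([5, 1] : List ℕ)) *
      ((X ^ 5 - 1) * (X - 1)) +
    ((dd G H m ([6] : List ℕ) : ℝ) * wt q ([6] : List ℕ)) * (X ^ 6 - 1) = 0 := by
  have hP : plist 6 6 = [[1, 1, 1, 1, 1, 1], [2, 1, 1, 1, 1], [2, 2, 1, 1], [2, 2, 2],
    [3, 1, 1, 1], [3, 2, 1], [3, 3], [4, 1, 1], [4, 2], [5, 1], [6]] := by decide +kernel
  have r := rel_list q hq G H h 6 hn (by norm_num) m X
  rw [hP] at r
  simp only [List.map_cons, List.map_nil, List.sum_cons, List.sum_nil, List.prod_cons,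
    List.prod_nil, pow_one] at r
  rw [← r]
  ring

theorem case_six (q : ℝ) (hq : 1 < q) (G : E → Sym2 V) (H : E' → Sym2 V')
    (hn : Fintype.card V = 6) (hG : Simple G) (h : ∀ x y : ℝ, B q G x y = B q H x y) :
    U G = U H := by
  have hc := card_eq_of_B q hq G H h
  have hn' : Fintype.card V' = 6 := by omega
  have hP : plist 6 6 = [[1, 1, 1, 1, 1, 1], [2, 1, 1, 1, 1], [2, 2, 1, 1], [2, 2, 2],
    [3, 1, 1, 1], [3, 2, 1], [3, 3], [4, 1, 1], [4, 2], [5, 1], [6]] := by decide +kernel
  have hrep : (Multiset.replicate (Fintype.card V) 1 : Multiset ℕ) =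
      (([1, 1, 1, 1, 1, 1] : List ℕ) : Multiset ℕ) := by
    rw [hn]; rfl
  -- the rank bound
  have hrank : ∀ (m : ℕ) (t : Multiset ℕ), Multiset.card t + m < 6 → dd G H m t = 0 := by
    intro m t ht
    rw [dd, cnt_eq_zero_of_rank G m t (by omega), cnt_eq_zero_of_rank H m t (by omega)]
    rfl
  have hout : ∀ (m : ℕ) (t : Multiset ℕ), t ∉ TT 6 → dd G H m t = 0 := by
    intro m t ht
    rw [dd, cnt_zero G m (TT 6) (fun A => by rw [← hn]; exact tau_mem_TT G A) t ht,
      cnt_zero H m (TT 6) (fun A => by rw [← hn']; exact tau_mem_TT H A) t ht]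
    rfl
  have hTT : ∀ (P : Multiset ℕ → Prop), P ([1, 1, 1, 1, 1, 1] : List ℕ) →
      P ([2, 1, 1, 1, 1] : List ℕ) → P ([2, 2, 1, 1] : List ℕ) → P ([2, 2, 2] : List ℕ) →
      P ([3, 1, 1, 1] : List ℕ) → P ([3, 2, 1] : List ℕ) → P ([3, 3] : List ℕ) →
      P ([4, 1, 1] : List ℕ) → P ([4, 2] : List ℕ) → P ([5, 1] : List ℕ) →
      P ([6] : List ℕ) → ∀ t ∈ TT 6, P t := by
    intro P p1 p2 p3 p4 p5 p6 p7 p8 p9 p10 p11 t ht
    rw [TT, hP, List.mem_toFinset] at ht
    simp only [List.map_cons, List.map_nil, List.mem_cons, List.not_mem_nil, or_false] at ht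
    rcases ht with rfl | rfl | rfl | rfl | rfl | rfl | rfl | rfl | rfl | rfl | rfl <;> assumption
  have dz := fun (m : ℕ) (t : Multiset ℕ) (ht : ∀ k ∈ t, 0 < k)
    (h0 : (dd G H m t : ℝ) * wt q t = 0) => dd_zero_of_wt q hq t ht (dd G H m t) h0
  -- one edge
  have m1 : dd G H 1 ([1, 1, 1, 1, 1, 1] : List ℕ) = 0 ∧
      dd G H 1 ([2, 1, 1, 1, 1] : List ℕ) = 0 := by
    have r := rel6 q hq G H hn h 1
    rw [hrank 1 ([2, 2, 1, 1] : List ℕ) (by decide), hrank 1 ([2, 2, 2] : List ℕ) (by decide),
      hrank 1 ([3, 1, 1, 1] : List ℕ) (by decide), hrank 1 ([3, 2, 1] : List ℕ) (by decide),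
      hrank 1 ([3, 3] : List ℕ) (by decide), hrank 1 ([4, 1, 1] : List ℕ) (by decide),
      hrank 1 ([4, 2] : List ℕ) (by decide), hrank 1 ([5, 1] : List ℕ) (by decide),
      hrank 1 ([6] : List ℕ) (by decide)] at r
    have r2 := r 2
    have r3 := r 3
    norm_num at r2 r3
    constructor
    · exact dz 1 _ (by decide) (by linarith)
    · exact dz 1 _ (by decide) (by linarith)
  have dones : ∀ m, dd G H m ([1, 1, 1, 1, 1, 1] : List ℕ) = 0 := by
    intro m
    have := dd_ones G H hc (by rw [hrep]; exact m1.1) m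
    rw [hrep] at this
    exact this
  -- two edges
  have m2 : dd G H 2 ([2, 1, 1, 1, 1] : List ℕ) = 0 ∧ dd G H 2 ([2, 2, 1, 1] : List ℕ) = 0 ∧
      dd G H 2 ([3, 1, 1, 1] : List ℕ) = 0 := by
    have r := rel6 q hq G H hn h 2
    rw [dones 2, hrank 2 ([2, 2, 2] : List ℕ) (by decide),
      hrank 2 ([3, 2, 1] : List ℕ) (by decide),
      hrank 2 ([3, 3] : List ℕ) (by decide), hrank 2 ([4, 1, 1] : List ℕ) (by decide),
      hrank 2 ([4, 2] : List ℕ) (by decide), hrank 2 ([5, 1] : List ℕ) (by decide),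
      hrank 2 ([6] : List ℕ) (by decide)] at r
    have r2 := r 2
    have r3 := r 3
    have r4 := r 4
    norm_num at r2 r3 r4
    refine ⟨dz 2 _ (by decide) (by linarith), dz 2 _ (by decide) (by linarith),
      dz 2 _ (by decide) (by linarith)⟩
  have hfew : ∀ m ≤ 2, ∀ t : Multiset ℕ, dd G H m t = 0 := by
    intro m hm t
    by_cases ht : t ∈ TT 6
    swap
    · exact hout m t ht
    revert t
    have h0 : ∀ m ≤ 2, dd G H m ([2, 1, 1, 1, 1] : List ℕ) = 0 ∧
        dd G H m ([2, 2, 1, 1] : List ℕ) = 0 ∧ dd G H m ([3, 1, 1, 1] : List ℕ) = 0 := by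
      intro m hm
      interval_cases m
      · exact ⟨hrank 0 _ (by decide), hrank 0 _ (by decide), hrank 0 _ (by decide)⟩
      · exact ⟨m1.2, hrank 1 _ (by decide), hrank 1 _ (by decide)⟩
      · exact m2
    obtain ⟨z1, z2, z3⟩ := h0 m hm
    refine hTT (fun t => dd G H m t = 0) (dones m) z1 z2 ?_ z3 ?_ ?_ ?_ ?_ ?_ ?_
    · exact hrank m ([2, 2, 2] : List ℕ) (lt_of_le_of_lt (Nat.add_le_add_left hm _) (by decide))
    · exact hrank m ([3, 2, 1] : List ℕ) (lt_of_le_of_lt (Nat.add_le_add_left hm _) (by decide))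
    · exact hrank m ([3, 3] : List ℕ) (lt_of_le_of_lt (Nat.add_le_add_left hm _) (by decide))
    · exact hrank m ([4, 1, 1] : List ℕ) (lt_of_le_of_lt (Nat.add_le_add_left hm _) (by decide))
    · exact hrank m ([4, 2] : List ℕ) (lt_of_le_of_lt (Nat.add_le_add_left hm _) (by decide))
    · exact hrank m ([5, 1] : List ℕ) (lt_of_le_of_lt (Nat.add_le_add_left hm _) (by decide))
    · exact hrank m ([6] : List ℕ) (lt_of_le_of_lt (Nat.add_le_add_left hm _) (by decide))
  -- the other graph is simple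
  have hH : Sp fC H := by
    have hs : ∀ A : Finset E', A.card ≤ 2 → A.card ≤ ((tau H A).map fC).sum := by
      intro A hA
      have h1 := hfew A.card hA (tau H A)
      have h2 : 0 < cnt H A.card (tau H A) := by
        rw [cnt, Finset.card_pos]
        exact ⟨A, by simp⟩
      have h3 : 0 < cnt G A.card (tau H A) := by
        rw [dd] at h1
        omega
      rw [cnt, Finset.card_pos] at h3
      obtain ⟨A', hA'⟩ := h3
      rw [Finset.mem_filter] at hA'
      have := sp_simple G hG.1 hG.2 A'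
      rw [hA'.2.1, hA'.2.2] at this
      exact this
    exact sp_simple H (no_parallel fC rfl rfl rfl H hs) (no_loop fC rfl rfl H hs)
  have hlH : ∀ e, ¬ (H e).IsDiag := by
    apply no_loop fC rfl rfl H
    intro A _
    exact hH A
  have hsupp : ∀ (m : ℕ) (t : Multiset ℕ), (t.map fC).sum < m → dd G H m t = 0 := by
    intro m t ht
    by_contra hne
    obtain ⟨_, _, h1, _⟩ := supp_of_sp fC G H hc (sp_simple G hG.1 hG.2) hH m t hne
    omega
  -- four or more edges
  have m4 : ∀ m, 4 ≤ m → ∀ t : Multiset ℕ, dd G H m t = 0 := by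
    intro m hm t
    by_cases ht : t ∈ TT 6
    swap
    · exact hout m t ht
    have r := rel6 q hq G H hn h m
    have y2 : dd G H m ([2, 1, 1, 1, 1] : List ℕ) = 0 :=
      hsupp m _ (lt_of_lt_of_le (by decide) hm)
    have y3 : dd G H m ([2, 2, 1, 1] : List ℕ) = 0 :=
      hsupp m _ (lt_of_lt_of_le (by decide) hm)
    have y4 : dd G H m ([2, 2, 2] : List ℕ) = 0 :=
      hsupp m _ (lt_of_lt_of_le (by decide) hm)
    have y5 : dd G H m ([3, 1, 1, 1] : List ℕ) = 0 :=
      hsupp m _ (lt_of_lt_of_le (by decide) hm)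
    rw [dones m, y2, y3, y4, y5] at r
    have r2 := r 2
    have r3 := r 3
    have r4 := r 4
    have r5 := r 5
    have r6 := r 6
    have r7 := r 7
    norm_num [-Multiset.coe_singleton] at r2 r3 r4 r5 r6 r7
    revert t
    refine hTT (fun t => dd G H m t = 0) (dones m) y2 y3 y4 y5 ?_ ?_ ?_ ?_ ?_ ?_
    · exact dz m _ (by decide) (by linarith)
    · exact dz m _ (by decide) (by linarith)
    · exact dz m _ (by decide) (by linarith)
    · exact dz m _ (by decide) (by linarith)
    · exact dz m _ (by decide) (by linarith)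
    · exact dz m _ (by decide) (by linarith)
  -- three edges
  have y2 : dd G H 3 ([2, 1, 1, 1, 1] : List ℕ) = 0 := hsupp 3 _ (by decide)
  have y3 : dd G H 3 ([2, 2, 1, 1] : List ℕ) = 0 := hsupp 3 _ (by decide)
  have y7 : dd G H 3 ([3, 3] : List ℕ) = 0 := hrank 3 _ (by decide)
  have y9 : dd G H 3 ([4, 2] : List ℕ) = 0 := hrank 3 _ (by decide)
  have y10 : dd G H 3 ([5, 1] : List ℕ) = 0 := hrank 3 _ (by decide)
  have y11 : dd G H 3 ([6] : List ℕ) = 0 := hrank 3 _ (by decide)
  have lin : (dd G H 3 ([3, 1, 1, 1] : List ℕ) : ℝ) * wt q ([3, 1, 1, 1] : List ℕ) = 0 ∧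
      (dd G H 3 ([3, 2, 1] : List ℕ) : ℝ) * wt q ([3, 2, 1] : List ℕ) =
        -2 * ((dd G H 3 ([4, 1, 1] : List ℕ) : ℝ) * wt q ([4, 1, 1] : List ℕ)) ∧
      (dd G H 3 ([2, 2, 2] : List ℕ) : ℝ) * wt q ([2, 2, 2] : List ℕ) =
        (dd G H 3 ([4, 1, 1] : List ℕ) : ℝ) * wt q ([4, 1, 1] : List ℕ) := by
    have r := rel6 q hq G H hn h 3
    rw [dones 3, y2, y3, y7, y9, y10, y11] at r
    have r2 := r 2
    have r3 := r 3
    have r4 := r 4
    norm_num at r2 r3 r4
    refine ⟨by linarith, by linarith, by linarith⟩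
  have y5 : dd G H 3 ([3, 1, 1, 1] : List ℕ) = 0 := dz 3 _ (by decide) lin.1
  set a := dd G H 3 ([4, 1, 1] : List ℕ) with ha
  set b := dd G H 3 ([3, 2, 1] : List ℕ) with hb
  have q1 : 0 < q - 1 := by linarith
  have q2 : 0 < q ^ 2 - 1 := by nlinarith
  have q3 : 0 < q ^ 3 - 1 := by nlinarith [pow_pos (by linarith : (0 : ℝ) < q) 2]
  have q4 : 0 < q ^ 4 - 1 := by nlinarith [pow_pos (by linarith : (0 : ℝ) < q) 2]
  have hab : (q ^ 2 + 1) * (b : ℝ) = -2 * (q ^ 2 + q + 1) * (a : ℝ) := by
    have h1 := lin.2.1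
    simp only [wt, Multiset.map_coe, Multiset.prod_coe, List.map_cons, List.map_nil,
      List.prod_cons, List.prod_nil, pow_one, mul_one] at h1
    have e2 : q ^ 2 - 1 = (q - 1) * (q + 1) := by ring
    have e3 : q ^ 3 - 1 = (q - 1) * (q ^ 2 + q + 1) := by ring
    have e4 : q ^ 4 - 1 = (q - 1) * (q + 1) * (q ^ 2 + 1) := by ring
    have hq1 : q - 1 ≠ 0 := q1.ne'
    have hq2 : q + 1 ≠ 0 := by linarith
    have hq3 : q ^ 2 + q + 1 ≠ 0 := by positivity
    have hq4 : q ^ 2 + 1 ≠ 0 := by positivity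
    rw [e2, e3, e4] at h1
    field_simp at h1
    linarith
  have ha0 : a = 0 := by
    by_contra hne
    have hane : (a : ℝ) ≠ 0 := by exact_mod_cast hne
    -- the singletons
    have hK : ∀ m, (∑ v : V, ((av G v).card.choose m : ℤ)) -
        ∑ v : V', ((av H v).card.choose m : ℤ) = if m = 3 then 2 * a + b else 0 := by
      intro m
      have h1 := sum_dd G H m (TT 6) (fun A => by rw [← hn]; exact tau_mem_TT G A)
        (fun A => by rw [← hn']; exact tau_mem_TT H A) (R := ℤ) (fun t => (t.count 1 : ℤ))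
      have h2 : (∑ A ∈ Finset.univ.filter (fun A : Finset E => A.card = m),
          ((tau G A).count 1 : ℤ)) = ∑ v : V, ((av G v).card.choose m : ℤ) := by
        exact_mod_cast sum_one G hG.2 m
      have h3 : (∑ A ∈ Finset.univ.filter (fun A : Finset E' => A.card = m),
          ((tau H A).count 1 : ℤ)) = ∑ v : V', ((av H v).card.choose m : ℤ) := by
        exact_mod_cast sum_one H hlH m
      rw [h2, h3] at h1
      rw [← h1]
      by_cases hm3 : m = 3
      · subst hm3
        rw [if_pos rfl, TT, List.sum_toFinset _ (nodup_TT 6 (by norm_num)), hP]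
        simp only [List.map_cons, List.map_nil, List.sum_cons, List.sum_nil]
        rw [dones 3, y2, y3, y5, y7, y9, y10, y11]
        have c1 : Multiset.count 1 (([3, 2, 1] : List ℕ) : Multiset ℕ) = 1 := by decide
        have c2 : Multiset.count 1 (([4, 1, 1] : List ℕ) : Multiset ℕ) = 2 := by decide
        have c3 : Multiset.count 1 (([2, 2, 2] : List ℕ) : Multiset ℕ) = 0 := by decide
        rw [c1, c2, c3]
        simp only [Int.cast_id]
        push_cast
        ring
      · rw [if_neg hm3]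
        apply Finset.sum_eq_zero
        intro t _
        have : dd G H m t = 0 := by
          rcases lt_or_ge m 3 with h4 | h4
          · exact hfew m (by omega) t
          · exact m4 m (by omega) t
        rw [this]
        simp
    have hpoly : (SP G - SP H).comp (Polynomial.X + 1) =
        Polynomial.C (2 * a + b) * Polynomial.X ^ 3 := by
      ext m
      rw [Polynomial.sub_comp, Polynomial.coeff_sub, SP_comp_coeff, SP_comp_coeff, hK m,
        Polynomial.coeff_C_mul, Polynomial.coeff_X_pow]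
      split_ifs <;> simp
    have hpoly2 : SP G - SP H = Polynomial.C (2 * a + b) * (Polynomial.X - 1) ^ 3 := by
      have h1 := congrArg (fun p => p.comp (Polynomial.X - 1)) hpoly
      simp only [Polynomial.comp_assoc, Polynomial.add_comp, Polynomial.X_comp,
        Polynomial.one_comp, sub_add_cancel, Polynomial.comp_X, Polynomial.mul_comp,
        Polynomial.C_comp, Polynomial.pow_comp] at h1
      exact h1
    have hcoef : ((Finset.univ.filter fun v => (av G v).card = 1).card : ℤ) -
        ((Finset.univ.filter fun v => (av H v).card = 1).card : ℤ) = 3 * (2 * a + b) := by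
      have h1 := congrArg (fun p => Polynomial.coeff p 1) hpoly2
      simp only [Polynomial.coeff_sub, SP_coeff] at h1
      rw [h1]
      have h2 : (Polynomial.C (2 * a + b) * (Polynomial.X - 1) ^ 3 : Polynomial ℤ) =
          Polynomial.C (2 * a + b) * Polynomial.X ^ 3 +
          Polynomial.C (-3 * (2 * a + b)) * Polynomial.X ^ 2 +
          Polynomial.C (3 * (2 * a + b)) * Polynomial.X +
          Polynomial.C (-(2 * a + b)) := by
        simp only [Polynomial.C_mul, Polynomial.C_neg, Polynomial.C_add]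
        have e3 : (Polynomial.C (3 : ℤ) : Polynomial ℤ) = 3 := rfl
        have e2 : (Polynomial.C (2 : ℤ) : Polynomial ℤ) = 2 := rfl
        rw [e3, e2]
        ring
      rw [h2, Polynomial.coeff_add, Polynomial.coeff_add, Polynomial.coeff_add,
        Polynomial.coeff_C_mul, Polynomial.coeff_C_mul, Polynomial.coeff_C_mul,
        Polynomial.coeff_C, Polynomial.coeff_X_pow, Polynomial.coeff_X_pow, Polynomial.coeff_X]
      norm_num
    have hk0 : 2 * a + b ≠ 0 := by
      intro h0
      have h1 : (2 : ℝ) * a + b = 0 := by exact_mod_cast h0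
      have h2 : (q ^ 2 + 1) * ((2 : ℝ) * a + b) = -2 * q * a := by linarith
      rw [h1, mul_zero] at h2
      have h3 : -2 * q * (a : ℝ) ≠ 0 := by
        apply mul_ne_zero _ hane
        have : 0 < q := by linarith
        linarith
      exact h3 h2.symm
    -- the numbers of edges agree
    have hEE : Fintype.card E = Fintype.card E' := by
      have h1 := sum_dd G H 1 (TT 6) (fun A => by rw [← hn]; exact tau_mem_TT G A)
        (fun A => by rw [← hn']; exact tau_mem_TT H A) (R := ℤ) (fun _ => 1)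
      rw [Finset.sum_eq_zero (fun t _ => by rw [hfew 1 (by norm_num) t]; simp)] at h1
      have h2 : ∀ (F : Type) [Fintype F],
          ∑ _A ∈ Finset.univ.filter (fun A : Finset F => A.card = 1), (1 : ℤ) =
            (Fintype.card F : ℤ) := by
        intro F _
        rw [Finset.sum_const, ← Finset.powerset_univ, ← Finset.powersetCard_eq_filter,
          Finset.card_powersetCard, Finset.card_univ, Nat.choose_one_right]
        simp
      rw [h2, h2] at h1
      omega
    have hE3 : Fintype.card E ≤ 3 := by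
      rcases lt_or_gt_of_ne hk0 with hlt | hgt
      · have h1 : 3 ≤ (Finset.univ.filter fun v => (av H v).card = 1).card := by omega
        rw [hEE]
        exact few_of_three H hlH hn' h1
      · have h1 : 3 ≤ (Finset.univ.filter fun v => (av G v).card = 1).card := by omega
        exact few_of_three G hG.2 hn h1
    have hcnt : ∀ {W F : Type} [Fintype W] [Fintype F] (K : F → Sym2 W) (t : Multiset ℕ),
        Fintype.card F ≤ 3 → cnt K 3 t ≤ 1 := by
      intro W F _ _ K t hF
      have h1 : cnt K 3 t ≤ (Finset.powersetCard 3 (Finset.univ : Finset F)).card := by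
        rw [cnt]
        apply Finset.card_le_card
        intro A hA
        rw [Finset.mem_filter] at hA
        rw [Finset.mem_powersetCard]
        exact ⟨Finset.subset_univ _, hA.2.1⟩
      rw [Finset.card_powersetCard, Finset.card_univ] at h1
      refine h1.trans ?_
      interval_cases (Fintype.card F) <;> decide
    have hb1 : |b| ≤ 1 := by
      have c1 := hcnt G ([3, 2, 1] : List ℕ) hE3
      have c2 := hcnt H ([3, 2, 1] : List ℕ) (hEE ▸ hE3)
      rw [hb, dd, abs_le]
      omega
    have ha1 : 1 ≤ |a| := Int.one_le_abs hne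
    have hb1' : |(b : ℝ)| ≤ 1 := by exact_mod_cast hb1
    have ha1' : (1 : ℝ) ≤ |(a : ℝ)| := by exact_mod_cast ha1
    have h5 := congrArg abs hab
    rw [abs_mul, abs_mul, abs_mul, abs_of_pos (by positivity : (0 : ℝ) < q ^ 2 + 1),
      abs_of_pos (by positivity : (0 : ℝ) < q ^ 2 + q + 1)] at h5
    norm_num at h5
    nlinarith [sq_nonneg q]
  have hb0 : b = 0 := by
    rw [ha0] at hab
    simp only [Int.cast_zero, mul_zero] at hab
    have h1 : (q ^ 2 + 1) ≠ 0 := by positivity
    exact_mod_cast (mul_eq_zero.1 hab).resolve_left h1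
  have hc0 : dd G H 3 ([2, 2, 2] : List ℕ) = 0 := by
    apply dz 3 _ (by decide)
    rw [lin.2.2, ha0]
    simp
  apply U_eq_of_dd G H hc
  intro m t ht
  rw [hn] at ht
  rcases lt_or_ge m 3 with hm | hm
  · exact hfew m (by omega) t
  · by_cases hm3 : m = 3
    · subst hm3
      revert t
      exact hTT (fun t => dd G H 3 t = 0) (dones 3) y2 y3 hc0 y5 hb0 y7 ha0 y9 y10 y11
    · exact m4 m (by omega) t

theorem case_small (q : ℝ) (hq : 1 < q) (G : E → Sym2 V) (H : E' → Sym2 V')
    (hn : Fintype.card V ≤ 5 ∨ (Simple G ∧ Fintype.card V ≤ 6))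
    (h : ∀ x y : ℝ, B q G x y = B q H x y) : U G = U H := by
  rcases hn with h5 | ⟨hG, h6⟩
  · exact case_all q hq G H h5 h
  · by_cases h5 : Fintype.card V ≤ 5
    · exact case_all q hq G H h5 h
    · exact case_six q hq G H (by omega) hG h

end Six

end Pool.Agent.Lib.QDichromate
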