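import Mathlib
import Pool.Agent.Lib.QDichromate.Defs
import Pool.Agent.Lib.QDichromate.Core
import Pool.Agent.Lib.QDichromate.Small3
import Pool.Agent.Lib.QDichromate.Six

/-!
Three facts for simple graphs with seven vertices.
-/

set_option linter.unusedSectionVars false

open scoped Classical

namespace Pool.Agent.Lib.QDichromate

section Pairs

variable {V E V' E' : Type} [Fintype V] [Fintype E] [Fintype V'] [Fintype E']

/-- the pair sums agree if they differ only for five edges, there by an even number -/
theorem pairs7 (G : E → Sym2 V) (H : E' → Sym2 V') (hc : Fintype.card V = 7)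
    (hc' : Fintype.card V' = 7) (L : ℤ) (hL : 2 ∣ L)
    (hrel : ∀ m, (∑ s ∈ Finset.powersetCard 2 (Finset.univ : Finset V),
        ((FF G s).card.choose m : ℤ)) - ∑ s ∈ Finset.powersetCard 2 (Finset.univ : Finset V'),
        ((FF H s).card.choose m : ℤ) = if m = 5 then L else 0) : L = 0 := by
  have e1 : (ZP G - ZP H).comp (Polynomial.X + 1) = Polynomial.C L * Polynomial.X ^ 5 := by
    ext m
    rw [Polynomial.sub_comp, Polynomial.coeff_sub, ZP_comp_coeff, ZP_comp_coeff, hrel m,
      Polynomial.coeff_C_mul, Polynomial.coeff_X_pow]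
    split_ifs <;> simp
  have e2 : ZP G - ZP H = Polynomial.C L * (Polynomial.X - 1) ^ 5 := by
    have h2 := congrArg (fun p => p.comp (Polynomial.X - 1 : Polynomial ℤ)) e1
    simp only [Polynomial.comp_assoc, Polynomial.mul_comp, Polynomial.C_comp,
      Polynomial.X_pow_comp, Polynomial.add_comp, Polynomial.X_comp, Polynomial.one_comp,
      sub_add_cancel, Polynomial.comp_X] at h2
    exact h2
  have e3 : ZP G - ZP H = Polynomial.C L * Polynomial.X ^ 5 - Polynomial.C (5 * L) * Polynomial.X ^ 4 +
      Polynomial.C (10 * L) * Polynomial.X ^ 3 - Polynomial.C (10 * L) * Polynomial.X ^ 2 +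
      Polynomial.C (5 * L) * Polynomial.X ^ 1 - Polynomial.C L * Polynomial.X ^ 0 := by
    rw [e2]
    simp only [Polynomial.C_mul]
    have h5 : (Polynomial.C 5 : Polynomial ℤ) = 5 := rfl
    have h10 : (Polynomial.C 10 : Polynomial ℤ) = 10 := rfl
    rw [h5, h10]
    ring
  have c : ∀ i, (ZP G).coeff i - (ZP H).coeff i = (if i = 5 then L else 0) -
      (if i = 4 then 5 * L else 0) + (if i = 3 then 10 * L else 0) - (if i = 2 then 10 * L else 0) +
      (if i = 1 then 5 * L else 0) - (if i = 0 then L else 0) := by
    intro i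
    have h := congrArg (fun p => Polynomial.coeff p i) e3
    simp only [Polynomial.coeff_sub, Polynomial.coeff_add, Polynomial.coeff_C_mul_X_pow] at h
    exact h
  have c1 := c 1
  have c3 := c 3
  have c5 := c 5
  norm_num at c1 c3 c5
  have p : ∀ i, 0 ≤ (ZP G).coeff i := fun i => by rw [ZP_coeff]; exact Int.natCast_nonneg _
  have p' : ∀ i, 0 ≤ (ZP H).coeff i := fun i => by rw [ZP_coeff]; exact Int.natCast_nonneg _
  have s1 := ZP_sum G {1, 3, 5}
  have s2 := ZP_sum H {1, 3, 5}
  have h7 : (Nat.choose 7 2 : ℤ) = 21 := by decide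
  rw [hc, h7, Finset.sum_insert (by decide), Finset.sum_insert (by decide),
    Finset.sum_singleton] at s1
  rw [hc', h7, Finset.sum_insert (by decide), Finset.sum_insert (by decide),
    Finset.sum_singleton] at s2
  have a1 := p 1
  have a3 := p 3
  have a5 := p 5
  have b1 := p' 1
  have b3 := p' 3
  have b5 := p' 5
  omega

/-- at most one edge joins two vertices -/
theorem pair_av (K : E → Sym2 V) (hK : Simple K) (u v : V) (huv : u ≠ v) :
    Fintype.card E ≤ (av K u).card + (av K v).card + 1 := by
  have h1 : (Finset.univ : Finset E) ⊆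
      (av K u ∪ av K v) ∪ Finset.univ.filter (fun e => K e = s(u, v)) := by
    intro e _
    simp only [Finset.mem_union, av, Finset.mem_filter, Finset.mem_univ, true_and]
    by_cases hu : u ∈ K e
    · by_cases hv : v ∈ K e
      · exact Or.inr ((Sym2.mem_and_mem_iff huv).1 ⟨hu, hv⟩)
      · exact Or.inl (Or.inr hv)
    · exact Or.inl (Or.inl hu)
  have h2 : (Finset.univ.filter (fun e => K e = s(u, v))).card ≤ 1 := by
    rw [Finset.card_le_one]
    intro a ha b hb
    exact hK.1 ((Finset.mem_filter.1 ha).2.trans (Finset.mem_filter.1 hb).2.symm)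
  have h3 := Finset.card_le_card h1
  rw [Finset.card_univ] at h3
  have h4 := Finset.card_union_le (av K u ∪ av K v) (Finset.univ.filter (fun e => K e = s(u, v)))
  have h5 := Finset.card_union_le (av K u) (av K v)
  omega

/-- at most `n - 1` edges contain a vertex -/
theorem one_av (K : E → Sym2 V) (hK : Simple K) (v : V) :
    Fintype.card E + 1 ≤ (av K v).card + Fintype.card V := by
  have h1 : (Finset.univ.filter (fun e => v ∈ K e)).card ≤ Fintype.card V - 1 := by
    rw [← Finset.card_image_of_injective _ hK.1]
    have h2 : (Finset.univ.filter (fun e => v ∈ K e)).image K ⊆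
        (Finset.univ.erase v).image (fun w => s(v, w)) := by
      intro s hs
      obtain ⟨e, he, rfl⟩ := Finset.mem_image.1 hs
      obtain ⟨w, hw⟩ := Sym2.mem_iff_exists.1 (Finset.mem_filter.1 he).2
      refine Finset.mem_image.2 ⟨w, Finset.mem_erase.2 ⟨?_, Finset.mem_univ _⟩, hw.symm⟩
      rintro rfl
      exact hK.2 e (by rw [hw]; exact Sym2.mk_isDiag_iff.2 rfl)
    refine (Finset.card_le_card h2).trans (Finset.card_image_le.trans ?_)
    rw [Finset.card_erase_of_mem (Finset.mem_univ _), Finset.card_univ]
  have h3 := Finset.card_filter_add_card_filter_not (s := (Finset.univ : Finset E))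
    (fun e => v ∈ K e)
  rw [Finset.card_univ] at h3
  have h4 : (av K v).card = (Finset.univ.filter (fun e => ¬ v ∈ K e)).card := rfl
  have h5 : 0 < Fintype.card V := Fintype.card_pos_iff.2 ⟨v⟩
  omega

end Pairs

end Pool.Agent.Lib.QDichromate
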