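import Mathlib
import Pool.Agent.Lib.QDichromate.Defs
import Pool.Agent.Lib.QDichromate.Core
import Pool.Agent.Lib.QDichromate.Small3
import Pool.Agent.Lib.QDichromate.Six
import Pool.Agent.Lib.QDichromate.Arith7
import Pool.Agent.Lib.QDichromate.Pairs7

/-!
The degree sequences of two simple graphs with seven vertices.
-/

set_option linter.unusedSectionVars false

open scoped Classical

namespace Pool.Agent.Lib.QDichromate

section Deg

variable {V E V' E' : Type} [Fintype V] [Fintype E] [Fintype V'] [Fintype E']

/-- the number of vertices avoided by exactly `i` edges -/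
noncomputable def nv (K : E → Sym2 V) (i : ℕ) : ℕ :=
  (Finset.univ.filter fun v => (av K v).card = i).card

theorem av_le (K : E → Sym2 V) (v : V) : (av K v).card ≤ Fintype.card E := Finset.card_le_univ _

theorem nv_sum (K : E → Sym2 V) : ∑ i ∈ Finset.range (Fintype.card E + 1), nv K i = Fintype.card V := by
  have h := Finset.card_eq_sum_card_fiberwise (s := (Finset.univ : Finset V))
    (t := Finset.range (Fintype.card E + 1)) (f := fun v => (av K v).card) (fun v _ => by
      rw [Finset.mem_coe, Finset.mem_range]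
      have := av_le K v
      simp only
      omega)
  rw [Finset.card_univ] at h
  exact h.symm

theorem nv_wsum (K : E → Sym2 V) :
    ∑ i ∈ Finset.range (Fintype.card E + 1), i * nv K i = ∑ v : V, (av K v).card := by
  have h := Finset.sum_fiberwise_of_maps_to (s := (Finset.univ : Finset V))
    (t := Finset.range (Fintype.card E + 1)) (g := fun v => (av K v).card) (fun v _ => by
      rw [Finset.mem_range]
      have := av_le K v
      omega) (fun v => (av K v).card)
  rw [← h]
  refine Finset.sum_congr rfl fun i _ => ?_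
  rw [Finset.sum_congr rfl (g := fun _ => i) (fun v hv => (Finset.mem_filter.1 hv).2),
    Finset.sum_const, smul_eq_mul, mul_comm]
  rfl

theorem nv_pos (K : E → Sym2 V) (i : ℕ) (h : 1 ≤ nv K i) : ∃ v, (av K v).card = i := by
  obtain ⟨v, hv⟩ := Finset.card_pos.1 (show 0 < nv K i by omega)
  exact ⟨v, (Finset.mem_filter.1 hv).2⟩

theorem nv_two (K : E → Sym2 V) (i : ℕ) (h : 2 ≤ nv K i) :
    ∃ u v, u ≠ v ∧ (av K u).card = i ∧ (av K v).card = i := by
  obtain ⟨u, hu, v, hv, huv⟩ := Finset.one_lt_card.1 (show 1 < nv K i by omega)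
  exact ⟨u, v, huv, (Finset.mem_filter.1 hu).2, (Finset.mem_filter.1 hv).2⟩

theorem deg7 (G : E → Sym2 V) (H : E' → Sym2 V') (hG : Simple G) (hH : Simple H)
    (hV : Fintype.card V = 7) (hV' : Fintype.card V' = 7) (hE : Fintype.card E = Fintype.card E')
    (K3 K4 K5 K6 : ℤ)
    (hK : ∀ m, (∑ v : V, ((av G v).card.choose m : ℤ)) -
      ∑ v : V', ((av H v).card.choose m : ℤ) =
        if m = 3 then K3 else if m = 4 then K4 else if m = 5 then K5 else if m = 6 then K6 else 0)
    (h4 : K4 = 0 ∨ 8 ≤ |K4|) (h46 : Fintype.card E ≤ 6 → K4 = 0)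
    (h3 : Fintype.card E ≤ 3 → K3 = 0) :
    K3 = 0 ∧ K4 = 0 ∧ K5 = 0 ∧ K6 = 0 := by
  by_cases he : Fintype.card E ≤ 2
  · have hz : ∀ m, 3 ≤ m → (∑ v : V, ((av G v).card.choose m : ℤ)) -
        ∑ v : V', ((av H v).card.choose m : ℤ) = 0 := by
      intro m hm
      rw [Finset.sum_eq_zero, Finset.sum_eq_zero, sub_zero]
      · intro v _
        have h1 := av_le H v
        rw [Nat.choose_eq_zero_of_lt (by omega)]
        rfl
      · intro v _
        have h1 := av_le G v
        rw [Nat.choose_eq_zero_of_lt (by omega)]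
        rfl
    have k3 := hK 3
    have k4 := hK 4
    have k5 := hK 5
    have k6 := hK 6
    rw [hz _ (by norm_num)] at k3 k4 k5 k6
    norm_num at k3 k4 k5 k6
    exact ⟨k3.symm, k4.symm, k5.symm, k6.symm⟩
  · have e1 : (SP G - SP H).comp (Polynomial.X + 1) = Polynomial.C K3 * Polynomial.X ^ 3 +
        Polynomial.C K4 * Polynomial.X ^ 4 + Polynomial.C K5 * Polynomial.X ^ 5 +
        Polynomial.C K6 * Polynomial.X ^ 6 := by
      ext m
      rw [Polynomial.sub_comp, Polynomial.coeff_sub, SP_comp_coeff, SP_comp_coeff, hK m]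
      simp only [Polynomial.coeff_add, Polynomial.coeff_C_mul, Polynomial.coeff_X_pow]
      by_cases m3 : m = 3
      · subst m3; norm_num
      · by_cases m4 : m = 4
        · subst m4; norm_num
        · by_cases m5 : m = 5
          · subst m5; norm_num
          · by_cases m6 : m = 6
            · subst m6; norm_num
            · simp [m3, m4, m5, m6]
    have e2 : SP G - SP H = Polynomial.C K3 * (Polynomial.X - 1) ^ 3 +
        Polynomial.C K4 * (Polynomial.X - 1) ^ 4 + Polynomial.C K5 * (Polynomial.X - 1) ^ 5 +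
        Polynomial.C K6 * (Polynomial.X - 1) ^ 6 := by
      have h2 := congrArg (fun p => p.comp (Polynomial.X - 1 : Polynomial ℤ)) e1
      simp only [Polynomial.comp_assoc, Polynomial.mul_comp, Polynomial.C_comp,
        Polynomial.X_pow_comp, Polynomial.add_comp, Polynomial.X_comp, Polynomial.one_comp,
        sub_add_cancel, Polynomial.comp_X] at h2
      exact h2
    have e3 : SP G - SP H =
        Polynomial.C K6 * Polynomial.X ^ 6 +
        Polynomial.C (K5 - 6 * K6) * Polynomial.X ^ 5 +
        Polynomial.C (K4 - 5 * K5 + 15 * K6) * Polynomial.X ^ 4 +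
        Polynomial.C (K3 - 4 * K4 + 10 * K5 - 20 * K6) * Polynomial.X ^ 3 +
        Polynomial.C (-3 * K3 + 6 * K4 - 10 * K5 + 15 * K6) * Polynomial.X ^ 2 +
        Polynomial.C (3 * K3 - 4 * K4 + 5 * K5 - 6 * K6) * Polynomial.X ^ 1 +
        Polynomial.C (-K3 + K4 - K5 + K6) * Polynomial.X ^ 0 := by
      rw [e2]
      simp only [map_add, map_sub, map_mul, map_neg]
      have c3 : (Polynomial.C 3 : Polynomial ℤ) = 3 := rfl
      have c4 : (Polynomial.C 4 : Polynomial ℤ) = 4 := rfl
      have c5 : (Polynomial.C 5 : Polynomial ℤ) = 5 := rfl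
      have c6 : (Polynomial.C 6 : Polynomial ℤ) = 6 := rfl
      have c10 : (Polynomial.C 10 : Polynomial ℤ) = 10 := rfl
      have c15 : (Polynomial.C 15 : Polynomial ℤ) = 15 := rfl
      have c20 : (Polynomial.C 20 : Polynomial ℤ) = 20 := rfl
      rw [c3, c4, c5, c6, c10, c15, c20]
      ring
    have c : ∀ i, ((nv G i : ℕ) : ℤ) - (nv H i : ℕ) =
        (if i = 6 then K6 else 0) + (if i = 5 then K5 - 6 * K6 else 0) +
        (if i = 4 then K4 - 5 * K5 + 15 * K6 else 0) +
        (if i = 3 then K3 - 4 * K4 + 10 * K5 - 20 * K6 else 0) +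
        (if i = 2 then -3 * K3 + 6 * K4 - 10 * K5 + 15 * K6 else 0) +
        (if i = 1 then 3 * K3 - 4 * K4 + 5 * K5 - 6 * K6 else 0) +
        (if i = 0 then -K3 + K4 - K5 + K6 else 0) := by
      intro i
      have h := congrArg (fun p => Polynomial.coeff p i) e3
      simp only [Polynomial.coeff_sub, Polynomial.coeff_add, Polynomial.coeff_C_mul_X_pow,
        SP_coeff] at h
      exact h
    have sG := nv_sum G
    have sH := nv_sum H
    have tG := nv_wsum G
    have tH := nv_wsum H
    have aG := av_sum G hG.2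
    have aH := av_sum H hH.2
    rw [hV] at sG aG
    rw [hV'] at sH aH
    rw [← hE] at sH tH aH
    have c0 := c 0
    have c1 := c 1
    have c2 := c 2
    have c3 := c 3
    have c4 := c 4
    have c5 := c 5
    have c6 := c 6
    norm_num at c0 c1 c2 c3 c4 c5 c6
    refine arith7 (Fintype.card E) (nv G) (nv H) K3 K4 K5 K6 (by omega) (by linarith) (by linarith)
      (by linarith) (by linarith) (by linarith) (by linarith) (by linarith) sG sH (by omega)
      (by omega) ?_ ?_ ?_ ?_ ?_ ?_ ?_ ?_ h4 h46 h3
    · intro i hi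
      by_contra hne
      obtain ⟨v, hv⟩ := nv_pos G i (by omega)
      have := one_av G hG v
      omega
    · intro i hi
      by_contra hne
      obtain ⟨v, hv⟩ := nv_pos H i (by omega)
      have := one_av H hH v
      omega
    · intro i hi
      by_contra hne
      obtain ⟨v, hv⟩ := nv_pos G i (by omega)
      have := av_le G v
      omega
    · intro i hi
      by_contra hne
      obtain ⟨v, hv⟩ := nv_pos H i (by omega)
      have := av_le H v
      omega
    · intro i hi
      obtain ⟨u, v, huv, hu, hv⟩ := nv_two G i hi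
      have := pair_av G hG u v huv
      omega
    · intro i hi
      obtain ⟨u, v, huv, hu, hv⟩ := nv_two H i hi
      have := pair_av H hH u v huv
      omega
    · intro i j hij hi hj
      obtain ⟨u, hu⟩ := nv_pos G i hi
      obtain ⟨v, hv⟩ := nv_pos G j hj
      have huv : u ≠ v := by
        rintro rfl
        omega
      have := pair_av G hG u v huv
      omega
    · intro i j hij hi hj
      obtain ⟨u, hu⟩ := nv_pos H i hi
      obtain ⟨v, hv⟩ := nv_pos H j hj
      have huv : u ≠ v := by
        rintro rfl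
        omega
      have := pair_av H hH u v huv
      omega

end Deg

end Pool.Agent.Lib.QDichromate
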