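import Mathlib
import Pool.Agent.Lib.QDichromate.Defs
import Pool.Agent.Lib.QDichromate.Core
import Pool.Agent.Lib.QDichromate.FewC
import Pool.Agent.Lib.QDichromate.Sparse
import Pool.Agent.Lib.QDichromate.Small3

/-!
For every real q > 1 the q-dichromate determines the numbers of edge sets with m elements and a given
type if m is at most two or the type has at most one part; it determines whether the graph is simple,
and for simple graphs the numbers of edge sets with m elements and a given type with more than n - m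
parts, m at most four (n is the number of vertices).
-/

set_option linter.unusedSectionVars false

open scoped Classical

namespace Pool.Agent.Lib.QDichromate

section Fixed

variable {V E V' E' : Type} [Fintype V] [Fintype E] [Fintype V'] [Fintype E']

/-- the part of the normalised factor that depends on `q` -/
noncomputable def wf (q : ℝ) (k : ℕ) : ℝ := (q - 1) ^ k / (q ^ k - 1)

/-- the part of the normalised factor that depends on `X` -/
noncomputable def pf (X : ℝ) (k : ℕ) : ℝ := (X ^ k - 1) / (X - 1) ^ k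

theorem gg_split (X q : ℝ) (k : ℕ) : gg X q k = pf X k * wf q k := by
  rw [gg, pf, wf, div_pow, div_div_eq_mul_div, div_mul_eq_mul_div, div_div, mul_div_assoc,
    div_mul_div_comm]
  ring

theorem wf_pos (q : ℝ) (hq : 1 < q) (k : ℕ) (hk : 0 < k) : 0 < wf q k := by
  have h1 : 1 < q ^ k := one_lt_pow₀ hq hk.ne'
  have h2 : 0 < q ^ k - 1 := by linarith
  have h3 : 0 < q - 1 := by linarith
  rw [wf]
  positivity

theorem few_rel_q (q : ℝ) (hq : 1 < q) (G : E → Sym2 V) (H : E' → Sym2 V')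
    (h : ∀ x y : ℝ, B q G x y = B q H x y) (m : ℕ) (X : ℝ) (hX : X ≠ 1) :
    ∑ t ∈ TA G H, (dd G H m t : ℝ) * FG X q (exs t) = 0 := by
  have hc := card_eq_of_B q hq G H h
  obtain ⟨h1, h2, h3⟩ := TA_props G H hc
  have h4 := congrArg (Polynomial.eval X) (rel_basic q hq G H h m _ h1 h2)
  rw [Polynomial.eval_finsetSum, Polynomial.eval_zero] at h4
  have hp : ((X - 1) / (q - 1)) ^ Fintype.card V ≠ 0 :=
    pow_ne_zero _ (div_ne_zero (sub_ne_zero.2 hX) (by linarith))
  apply (mul_eq_zero.1 (_ : ((X - 1) / (q - 1)) ^ Fintype.card V * _ = 0)).resolve_left hp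
  refine Eq.trans ?_ h4
  rw [Finset.mul_sum]
  apply Finset.sum_congr rfl
  intro t ht
  obtain ⟨p1, p2⟩ := h3 t ht
  rw [Polynomial.eval_mul, Polynomial.eval_C, mul_assoc, ← PX_eq, PX_gg X q hX hq, p2,
    exs_prod (gg X q) (gg_one X q hX hq) t p1, FG]
  ring

/-- the relation for at most four edges -/
theorem fix_rel (q : ℝ) (hq : 1 < q) (G : E → Sym2 V) (H : E' → Sym2 V')
    (h : ∀ x y : ℝ, B q G x y = B q H x y) (m : ℕ) (hm : m ≤ 4) (X : ℝ) (hX : X ≠ 1) :
    fib G H m 0 + fib G H m {1} * (pf X 2 * wf q 2) + fib G H m {2} * (pf X 3 * wf q 3) +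
      fib G H m {1, 1} * (pf X 2 * wf q 2) ^ 2 + fib G H m {3} * (pf X 4 * wf q 4) +
      fib G H m {2, 1} * ((pf X 3 * wf q 3) * (pf X 2 * wf q 2)) +
      fib G H m {1, 1, 1} * (pf X 2 * wf q 2) ^ 3 + fib G H m {4} * (pf X 5 * wf q 5) +
      fib G H m {3, 1} * ((pf X 4 * wf q 4) * (pf X 2 * wf q 2)) +
      fib G H m {2, 2} * (pf X 3 * wf q 3) ^ 2 +
      fib G H m {2, 1, 1} * ((pf X 3 * wf q 3) * (pf X 2 * wf q 2) ^ 2) +
      fib G H m {1, 1, 1, 1} * (pf X 2 * wf q 2) ^ 4 = 0 := by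
  have hc := card_eq_of_B q hq G H h
  obtain ⟨h1, h2, h3⟩ := TA_props G H hc
  have hz : ∀ t ∈ TA G H, exs t ∉ l12.toFinset → dd G H m t = 0 := by
    intro t ht hn
    obtain ⟨p1, p2⟩ := h3 t ht
    have h4 : ¬ (exs t).sum ≤ 4 := fun h5 => hn (List.mem_toFinset.2 (mem_l12 _ (exs_pos t) h5))
    have h5 := exs_sum t p1
    rw [dd, cnt_eq_zero_of_rank G m t (by omega), cnt_eq_zero_of_rank H m t (by omega), sub_self]
  have h6 := few_rel_q q hq G H h m X hX
  rw [← Finset.sum_filter_add_sum_filter_not (TA G H) (fun t => exs t ∈ l12.toFinset),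
    sum_fib G H m l12.toFinset (FG X q)] at h6
  rw [Finset.sum_eq_zero (s := (TA G H).filter (fun t => ¬ exs t ∈ l12.toFinset)) (by
    intro t ht
    obtain ⟨k1, k2⟩ := Finset.mem_filter.1 ht
    rw [hz t k1 k2]
    simp), add_zero, List.sum_toFinset _ l12_nodup] at h6
  rw [← h6]
  simp [l12, FG, gg_split, pow_succ]
  ring

theorem fib_zero (G : E → Sym2 V) (H : E' → Sym2 V') (m : ℕ) (s : Multiset ℕ)
    (hz : ∀ t ∈ TA G H, exs t = s → dd G H m t = 0) : fib G H m s = 0 := by
  rw [fib]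
  apply Finset.sum_eq_zero
  intro t ht
  obtain ⟨h1, h2⟩ := Finset.mem_filter.1 ht
  rw [hz t h1 h2]
  simp

theorem fib_rank (G : E → Sym2 V) (H : E' → Sym2 V') (hc : Fintype.card V = Fintype.card V')
    (m : ℕ) (s : Multiset ℕ) (hs : m < s.sum) : fib G H m s = 0 := by
  obtain ⟨_, _, h3⟩ := TA_props G H hc
  apply fib_zero
  intro t ht he
  obtain ⟨p1, p2⟩ := h3 t ht
  have h5 := exs_sum t p1
  rw [he] at h5
  rw [dd, cnt_eq_zero_of_rank G m t (by omega), cnt_eq_zero_of_rank H m t (by omega), sub_self]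

theorem dd_of_fib (G : E → Sym2 V) (H : E' → Sym2 V') (hc : Fintype.card V = Fintype.card V')
    (m : ℕ) (t : Multiset ℕ) (ht : t ∈ TA G H) (hf : fib G H m (exs t) = 0) :
    dd G H m t = 0 := by
  rw [fib_exs G H hc m t ht] at hf
  exact_mod_cast hf

theorem pf_vals : pf 2 2 = 3 ∧ pf 2 3 = 7 ∧ pf 2 4 = 15 ∧ pf 2 5 = 31 ∧
    pf (1 / 2) 2 = -3 ∧ pf (1 / 2) 3 = 7 ∧ pf (1 / 2) 4 = -15 ∧ pf (1 / 2) 5 = 31 ∧
    pf 3 2 = 2 ∧ pf 3 3 = 13 / 4 ∧ pf 3 4 = 5 ∧ pf 3 5 = 121 / 16 ∧
    pf (1 / 3) 2 = -2 ∧ pf (1 / 3) 3 = 13 / 4 ∧ pf (1 / 3) 4 = -5 ∧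
    pf (1 / 3) 5 = 121 / 16 ∧ pf (-1) 2 = 0 ∧ pf (-1) 3 = 1 / 4 ∧ pf (-1) 4 = 0 ∧
    pf (-1) 5 = 1 / 16 ∧ pf 0 2 = -1 ∧ pf 0 3 = 1 ∧ pf 0 4 = -1 ∧ pf 0 5 = 1 := by
  simp only [pf]
  norm_num

/-- at most two edges -/
theorem fixed_few (q : ℝ) (hq : 1 < q) (G : E → Sym2 V) (H : E' → Sym2 V')
    (h : ∀ x y : ℝ, B q G x y = B q H x y) (m : ℕ) (hm : m ≤ 2) (t : Multiset ℕ) :
    dd G H m t = 0 := by
  have hc := card_eq_of_B q hq G H h
  obtain ⟨h1, h2, h3⟩ := TA_props G H hc
  have w2 := wf_pos q hq 2 (by norm_num)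
  have w3 := wf_pos q hq 3 (by norm_num)
  obtain ⟨-, -, -, -, -, -, -, -, -, -, -, -, -, -, -, -, a1, a2, a3, a4, b1, b2, b3, b4⟩ := pf_vals
  obtain ⟨c1, c2, c3, c4, -⟩ := pf_vals
  have r3 : ∀ m ≤ 2, ∀ s : Multiset ℕ, 2 < s.sum → fib G H m s = 0 := by
    intro m hm s hs
    exact fib_rank G H hc m s (by omega)
  -- no edge
  have e0 : fib G H 0 0 = 0 := by
    have k1 := fix_rel q hq G H h 0 (by norm_num) (-1) (by norm_num)
    rw [r3 0 (by norm_num) {3} (by simp), r3 0 (by norm_num) {2, 1} (by simp),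
      r3 0 (by norm_num) {1, 1, 1} (by simp), r3 0 (by norm_num) {4} (by simp),
      r3 0 (by norm_num) {3, 1} (by simp), r3 0 (by norm_num) {2, 2} (by simp),
      r3 0 (by norm_num) {2, 1, 1} (by simp), r3 0 (by norm_num) {1, 1, 1, 1} (by simp),
      fib_rank G H hc 0 {2} (by simp), fib_rank G H hc 0 {1, 1} (by simp),
      fib_rank G H hc 0 {1} (by simp)] at k1
    linarith
  -- one edge
  have e1 : fib G H 1 0 = 0 ∧ fib G H 1 {1} = 0 := by
    have k1 := fix_rel q hq G H h 1 (by norm_num) (-1) (by norm_num)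
    have k2 := fix_rel q hq G H h 1 (by norm_num) 0 (by norm_num)
    rw [r3 1 (by norm_num) {3} (by simp), r3 1 (by norm_num) {2, 1} (by simp),
      r3 1 (by norm_num) {1, 1, 1} (by simp), r3 1 (by norm_num) {4} (by simp),
      r3 1 (by norm_num) {3, 1} (by simp), r3 1 (by norm_num) {2, 2} (by simp),
      r3 1 (by norm_num) {2, 1, 1} (by simp), r3 1 (by norm_num) {1, 1, 1, 1} (by simp),
      fib_rank G H hc 1 {2} (by simp), fib_rank G H hc 1 {1, 1} (by simp), a1] at k1
    rw [r3 1 (by norm_num) {3} (by simp), r3 1 (by norm_num) {2, 1} (by simp),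
      r3 1 (by norm_num) {1, 1, 1} (by simp), r3 1 (by norm_num) {4} (by simp),
      r3 1 (by norm_num) {3, 1} (by simp), r3 1 (by norm_num) {2, 2} (by simp),
      r3 1 (by norm_num) {2, 1, 1} (by simp), r3 1 (by norm_num) {1, 1, 1, 1} (by simp),
      fib_rank G H hc 1 {2} (by simp), fib_rank G H hc 1 {1, 1} (by simp), b1] at k2
    have k3 : fib G H 1 0 = 0 := by linarith
    refine ⟨k3, ?_⟩
    rw [k3] at k2
    have k4 : fib G H 1 {1} * wf q 2 = 0 := by linarith
    exact (mul_eq_zero.1 k4).resolve_right w2.ne'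
  -- two edges
  have hrep : exs (Multiset.replicate (Fintype.card V) 1) = 0 := by
    generalize Fintype.card V = n
    induction n with
    | zero => rfl
    | succ n ih => rw [Multiset.replicate_succ, exs_cons_one, ih]
  have hmem : (Multiset.replicate (Fintype.card V) 1) ∈ TA G H := by
    have h4 : tau G ∅ = Multiset.replicate (Fintype.card V) 1 :=
      (tau_ones_iff G ∅).2 (by simp)
    rw [← h4]
    exact h1 ∅
  have d1 : dd G H 1 (Multiset.replicate (Fintype.card V) 1) = 0 :=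
    dd_of_fib G H hc 1 _ hmem (by rw [hrep]; exact e1.1)
  have d2 := dd_ones G H hc d1 2
  have e20 : fib G H 2 0 = 0 := by
    have := fib_exs G H hc 2 _ hmem
    rw [hrep, d2] at this
    rw [this]
    simp
  have e2 : fib G H 2 {1} = 0 ∧ fib G H 2 {2} = 0 ∧ fib G H 2 {1, 1} = 0 := by
    have k1 := fix_rel q hq G H h 2 (by norm_num) (-1) (by norm_num)
    have k2 := fix_rel q hq G H h 2 (by norm_num) 0 (by norm_num)
    have k3 := fix_rel q hq G H h 2 (by norm_num) 2 (by norm_num)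
    rw [r3 2 (by norm_num) {3} (by simp), r3 2 (by norm_num) {2, 1} (by simp),
      r3 2 (by norm_num) {1, 1, 1} (by simp), r3 2 (by norm_num) {4} (by simp),
      r3 2 (by norm_num) {3, 1} (by simp), r3 2 (by norm_num) {2, 2} (by simp),
      r3 2 (by norm_num) {2, 1, 1} (by simp), r3 2 (by norm_num) {1, 1, 1, 1} (by simp),
      e20] at k1 k2 k3
    rw [a1, a2] at k1
    rw [b1, b2] at k2
    rw [c1, c2] at k3
    have k4 : fib G H 2 {2} * wf q 3 = 0 := by linarith
    have k5 : fib G H 2 {2} = 0 := (mul_eq_zero.1 k4).resolve_right w3.ne'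
    rw [k5] at k2 k3
    have k6 : fib G H 2 {1} * wf q 2 = 0 := by linarith
    have k7 : fib G H 2 {1} = 0 := (mul_eq_zero.1 k6).resolve_right w2.ne'
    rw [k7] at k2
    have k8 : fib G H 2 {1, 1} * wf q 2 ^ 2 = 0 := by linarith
    exact ⟨k7, k5, (mul_eq_zero.1 k8).resolve_right (pow_pos w2 2).ne'⟩
  by_cases ht : t ∈ TA G H
  swap
  · exact dd_notMem G H hc m t ht
  by_cases hs : m < (exs t).sum
  · exact dd_of_fib G H hc m t ht (fib_rank G H hc m _ hs)
  have hmt : exs t ∈ l12 := mem_l12 _ (exs_pos t) (by omega)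
  apply dd_of_fib G H hc m t ht
  simp only [l12, List.mem_cons, List.not_mem_nil, or_false] at hmt
  interval_cases m
  · rcases hmt with e | e | e | e | e | e | e | e | e | e | e | e <;> rw [e] at hs ⊢
    · exact e0
    all_goals exact fib_rank G H hc 0 _ (by simp)
  · rcases hmt with e | e | e | e | e | e | e | e | e | e | e | e <;> rw [e] at hs ⊢
    · exact e1.1
    · exact e1.2
    all_goals exact fib_rank G H hc 1 _ (by simp)
  · rcases hmt with e | e | e | e | e | e | e | e | e | e | e | e <;> rw [e] at hs ⊢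
    · exact e20
    · exact e2.1
    · exact e2.2.1
    · exact e2.2.2
    all_goals exact fib_rank G H hc 2 _ (by simp)

/-- types with at most one part -/
theorem fixed_one (q : ℝ) (hq : 1 < q) (G : E → Sym2 V) (H : E' → Sym2 V')
    (h : ∀ x y : ℝ, B q G x y = B q H x y) (m : ℕ) (t : Multiset ℕ)
    (ht1 : Multiset.card t ≤ 1) : dd G H m t = 0 := by
  have hc := card_eq_of_B q hq G H h
  obtain ⟨h1, h2, h3⟩ := TA_props G H hc
  by_cases ht : t ∈ TA G H
  swap
  · exact dd_notMem G H hc m t ht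
  obtain ⟨p1, p2⟩ := h3 t ht
  have hrel := rel_basic q hq G H h m _ h1 h2
  have huniq : ∀ t' ∈ TA G H, Multiset.card t' ≤ 1 → t' = t := by
    intro t' ht' hc'
    obtain ⟨p1', p2'⟩ := h3 t' ht'
    have hs : t'.sum = t.sum := p2'.trans p2.symm
    rcases Nat.lt_or_ge 0 (Multiset.card t) with h0 | h0
    · obtain ⟨a, rfl⟩ := Multiset.card_eq_one.1 (by omega : Multiset.card t = 1)
      rcases Nat.lt_or_ge 0 (Multiset.card t') with h0' | h0'
      · obtain ⟨a', rfl⟩ := Multiset.card_eq_one.1 (by omega : Multiset.card t' = 1)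
        rw [Multiset.sum_singleton, Multiset.sum_singleton] at hs
        rw [hs]
      · have : t' = 0 := Multiset.card_eq_zero.1 (by omega)
        rw [this, Multiset.sum_zero, Multiset.sum_singleton] at hs
        have := p1 a (Multiset.mem_singleton_self a)
        omega
    · have h00 : t = 0 := Multiset.card_eq_zero.1 (by omega)
      rw [h00, Multiset.sum_zero] at hs
      rcases Nat.lt_or_ge 0 (Multiset.card t') with h0' | h0'
      · obtain ⟨a', rfl⟩ := Multiset.card_eq_one.1 (by omega : Multiset.card t' = 1)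
        rw [Multiset.sum_singleton] at hs
        have := p1' a' (Multiset.mem_singleton_self a')
        omega
      · rw [h00]
        exact Multiset.card_eq_zero.1 (by omega)
  have hk := top_level (TA G H) (fun t => (dd G H m t : ℝ) * wt q t) hrel (Multiset.card t) (by
    intro t' ht' hlt
    have := huniq t' ht' (by omega)
    rw [this] at hlt
    omega)
  have hf : (TA G H).filter (fun t' => Multiset.card t' = Multiset.card t) = {t} := by
    ext t'
    rw [Finset.mem_filter, Finset.mem_singleton]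
    constructor
    · rintro ⟨k1, k2⟩
      exact huniq t' k1 (by omega)
    · rintro rfl
      exact ⟨ht, rfl⟩
  rw [hf, Finset.sum_singleton] at hk
  have hp : 0 < (t.map (fun k : ℕ => (k : ℝ))).prod := by
    apply Multiset.prod_pos
    intro a ha
    rw [Multiset.mem_map] at ha
    obtain ⟨k, hk, rfl⟩ := ha
    exact_mod_cast p1 k hk
  have h5 := (mul_eq_zero.1 hk).resolve_right hp.ne'
  exact dd_zero_of_wt q hq t p1 _ h5

theorem fixed_all (q : ℝ) (hq : 1 < q) (G : E → Sym2 V) (H : E' → Sym2 V')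
    (h : ∀ x y : ℝ, B q G x y = B q H x y) (m : ℕ) (t : Multiset ℕ)
    (ht : m ≤ 2 ∨ Multiset.card t ≤ 1) : dd G H m t = 0 := by
  rcases ht with ht | ht
  · exact fixed_few q hq G H h m ht t
  · exact fixed_one q hq G H h m t ht

theorem exs_map_sum (f : ℕ → ℕ) (f1 : f 1 = 0) (t : Multiset ℕ) (ht : ∀ k ∈ t, 0 < k) :
    (t.map f).sum = ((exs t).map fun a => f (a + 1)).sum := by
  induction t using Multiset.induction_on with
  | empty => rfl
  | cons k s ih =>
    have i1 := ih fun j hj => ht j (Multiset.mem_cons_of_mem hj)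
    have hk := ht k (Multiset.mem_cons_self k s)
    obtain ⟨a, rfl⟩ : ∃ a, k = a + 1 := ⟨k - 1, by omega⟩
    rcases Nat.eq_zero_or_pos a with rfl | ha
    · rw [Nat.zero_add, exs_cons_one, Multiset.map_cons, Multiset.sum_cons, f1, zero_add, i1]
    · rw [exs_cons a ha, Multiset.map_cons, Multiset.sum_cons, Multiset.map_cons,
        Multiset.sum_cons, i1]

theorem fixed_simple (q : ℝ) (hq : 1 < q) (G : E → Sym2 V) (H : E' → Sym2 V')
    (hG : Simple G) (h : ∀ x y : ℝ, B q G x y = B q H x y) :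
    Simple H ∧ ∀ (m : ℕ) (t : Multiset ℕ), m ≤ 4 → Fintype.card V < Multiset.card t + m →
      dd G H m t = 0 := by
  have hc := card_eq_of_B q hq G H h
  obtain ⟨h1, h2, h3⟩ := TA_props G H hc
  have hfew := fun m hm t => fixed_few q hq G H h m hm t
  have hs : ∀ A : Finset E', A.card ≤ 2 → A.card ≤ ((tau H A).map fC).sum := by
    intro A hA
    have h1 := hfew A.card hA (tau H A)
    have h2 : 0 < cnt H A.card (tau H A) := by
      rw [cnt, Finset.card_pos]
      exact ⟨A, by simp⟩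
    have h3 : 0 < cnt G A.card (tau H A) := by
      rw [dd] at h1
      omega
    rw [cnt, Finset.card_pos] at h3
    obtain ⟨A', hA'⟩ := h3
    rw [Finset.mem_filter] at hA'
    have := sp_simple G hG.1 hG.2 A'
    rw [hA'.2.1, hA'.2.2] at this
    exact this
  have hinj := no_parallel fC rfl rfl rfl H hs
  have hlH := no_loop fC rfl rfl H hs
  have hH : Sp fC H := sp_simple H hinj hlH
  refine ⟨⟨hinj, hlH⟩, ?_⟩
  have hcap : ∀ (m : ℕ) (s : Multiset ℕ), (s.map fun a => fC (a + 1)).sum < m →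
      fib G H m s = 0 := by
    intro m s hs
    apply fib_zero
    intro t ht he
    by_contra hne
    obtain ⟨k1, _, k2, _⟩ := supp_of_sp fC G H hc (sp_simple G hG.1 hG.2) hH m t hne
    rw [exs_map_sum fC rfl t k1, he] at k2
    omega
  have w2 := wf_pos q hq 2 (by norm_num)
  have w3 := wf_pos q hq 3 (by norm_num)
  have w4 := wf_pos q hq 4 (by norm_num)
  obtain ⟨c1, c2, c3, c4, b1, b2, b3, b4, a1, a2, a3, a4, d1, d2, d3, d4, -⟩ := pf_vals
  have e3 : fib G H 3 {2} = 0 := by
    have k1 := fix_rel q hq G H h 3 (by norm_num) 2 (by norm_num)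
    have k2 := fix_rel q hq G H h 3 (by norm_num) (1 / 2) (by norm_num)
    rw [hcap 3 0 (by decide), hcap 3 {1} (by decide), hcap 3 {1, 1} (by decide),
      fib_rank G H hc 3 {4} (by simp), fib_rank G H hc 3 {3, 1} (by simp),
      fib_rank G H hc 3 {2, 2} (by simp), fib_rank G H hc 3 {2, 1, 1} (by simp),
      fib_rank G H hc 3 {1, 1, 1, 1} (by simp)] at k1 k2
    rw [c1, c2, c3] at k1
    rw [b1, b2, b3] at k2
    have k3 : fib G H 3 {2} * wf q 3 = 0 := by linarith
    exact (mul_eq_zero.1 k3).resolve_right w3.ne'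
  have e4 : fib G H 4 {3} = 0 ∧ fib G H 4 {2, 1} = 0 := by
    have k1 := fix_rel q hq G H h 4 (by norm_num) 2 (by norm_num)
    have k2 := fix_rel q hq G H h 4 (by norm_num) (1 / 2) (by norm_num)
    have k3 := fix_rel q hq G H h 4 (by norm_num) 3 (by norm_num)
    have k4 := fix_rel q hq G H h 4 (by norm_num) (1 / 3) (by norm_num)
    rw [hcap 4 0 (by decide), hcap 4 {1} (by decide), hcap 4 {2} (by decide),
      hcap 4 {1, 1} (by decide), hcap 4 {1, 1, 1} (by decide)] at k1 k2 k3 k4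
    rw [c1, c2, c3, c4] at k1
    rw [b1, b2, b3, b4] at k2
    rw [a1, a2, a3, a4] at k3
    rw [d1, d2, d3, d4] at k4
    have k5 : fib G H 4 {3} * wf q 4 = 0 := by linarith
    have k6 : fib G H 4 {2, 1} * (wf q 3 * wf q 2) = 0 := by linarith
    exact ⟨(mul_eq_zero.1 k5).resolve_right w4.ne',
      (mul_eq_zero.1 k6).resolve_right (mul_pos w3 w2).ne'⟩
  intro m t hm hlt
  by_cases ht : t ∈ TA G H
  swap
  · exact dd_notMem G H hc m t ht
  by_cases hm2 : m ≤ 2
  · exact hfew m hm2 t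
  obtain ⟨p1, p2⟩ := h3 t ht
  have hes := exs_sum t p1
  have hmt : exs t ∈ l12 := mem_l12 _ (exs_pos t) (by omega)
  apply dd_of_fib G H hc m t ht
  have hlt' : (exs t).sum < m := by omega
  simp only [l12, List.mem_cons, List.not_mem_nil, or_false] at hmt
  have hm34 : m = 3 ∨ m = 4 := by omega
  rcases hm34 with rfl | rfl
  · rcases hmt with e | e | e | e | e | e | e | e | e | e | e | e <;> rw [e] at hlt' ⊢
    · exact hcap 3 0 (by decide)
    · exact hcap 3 {1} (by decide)
    · exact e3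
    · exact hcap 3 {1, 1} (by decide)
    all_goals (simp at hlt')
  · rcases hmt with e | e | e | e | e | e | e | e | e | e | e | e <;> rw [e] at hlt' ⊢
    · exact hcap 4 0 (by decide)
    · exact hcap 4 {1} (by decide)
    · exact hcap 4 {2} (by decide)
    · exact hcap 4 {1, 1} (by decide)
    · exact e4.1
    · exact e4.2
    · exact hcap 4 {1, 1, 1} (by decide)
    all_goals (simp at hlt')

end Fixed

end Pool.Agent.Lib.QDichromate
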