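import Mathlib
import Pool.Agent.Lib.QDichromate.Defs
import Pool.Agent.Lib.QDichromate.Core
import Pool.Agent.Lib.QDichromate.Sparse
import Pool.Agent.Lib.QDichromate.Small3
import Pool.Agent.Lib.QDichromate.Fixed

/-!
Simple graphs with seven vertices: the linear relations at a fixed real q > 1.
-/

set_option linter.unusedSectionVars false

open scoped Classical

namespace Pool.Agent.Lib.QDichromate

section Kern

variable {V E V' E' : Type} [Fintype V] [Fintype E] [Fintype V'] [Fintype E']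

theorem plist7 : plist 7 7 = [[1, 1, 1, 1, 1, 1, 1], [2, 1, 1, 1, 1, 1], [2, 2, 1, 1, 1],
    [2, 2, 2, 1], [3, 1, 1, 1, 1], [3, 2, 1, 1], [3, 2, 2], [3, 3, 1], [4, 1, 1, 1], [4, 2, 1],
    [4, 3], [5, 1, 1], [5, 2], [6, 1], [7]] := by decide +kernel

theorem rel7 (q : ℝ) (hq : 1 < q) (G : E → Sym2 V) (H : E' → Sym2 V')
    (hn : Fintype.card V = 7) (h : ∀ x y : ℝ, B q G x y = B q H x y) (m : ℕ) (X : ℝ) :
    ((dd G H m ([1, 1, 1, 1, 1, 1, 1] : List ℕ) : ℝ) * wt q ([1, 1, 1, 1, 1, 1, 1] : List ℕ)) *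
      (X - 1) ^ 7 +
    ((dd G H m ([2, 1, 1, 1, 1, 1] : List ℕ) : ℝ) * wt q ([2, 1, 1, 1, 1, 1] : List ℕ)) *
      ((X ^ 2 - 1) * (X - 1) ^ 5) +
    ((dd G H m ([2, 2, 1, 1, 1] : List ℕ) : ℝ) * wt q ([2, 2, 1, 1, 1] : List ℕ)) *
      ((X ^ 2 - 1) ^ 2 * (X - 1) ^ 3) +
    ((dd G H m ([2, 2, 2, 1] : List ℕ) : ℝ) * wt q ([2, 2, 2, 1] : List ℕ)) *
      ((X ^ 2 - 1) ^ 3 * (X - 1)) +
    ((dd G H m ([3, 1, 1, 1, 1] : List ℕ) : ℝ) * wt q ([3, 1, 1, 1, 1] : List ℕ)) *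
      ((X ^ 3 - 1) * (X - 1) ^ 4) +
    ((dd G H m ([3, 2, 1, 1] : List ℕ) : ℝ) * wt q ([3, 2, 1, 1] : List ℕ)) *
      ((X ^ 3 - 1) * (X ^ 2 - 1) * (X - 1) ^ 2) +
    ((dd G H m ([3, 2, 2] : List ℕ) : ℝ) * wt q ([3, 2, 2] : List ℕ)) *
      ((X ^ 3 - 1) * (X ^ 2 - 1) ^ 2) +
    ((dd G H m ([3, 3, 1] : List ℕ) : ℝ) * wt q ([3, 3, 1] : List ℕ)) *
      ((X ^ 3 - 1) ^ 2 * (X - 1)) +
    ((dd G H m ([4, 1, 1, 1] : List ℕ) : ℝ) * wt q ([4, 1, 1, 1] : List ℕ)) *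
      ((X ^ 4 - 1) * (X - 1) ^ 3) +
    ((dd G H m ([4, 2, 1] : List ℕ) : ℝ) * wt q ([4, 2, 1] : List ℕ)) *
      ((X ^ 4 - 1) * (X ^ 2 - 1) * (X - 1)) +
    ((dd G H m ([4, 3] : List ℕ) : ℝ) * wt q ([4, 3] : List ℕ)) *
      ((X ^ 4 - 1) * (X ^ 3 - 1)) +
    ((dd G H m ([5, 1, 1] : List ℕ) : ℝ) * wt q ([5, 1, 1] : List ℕ)) *
      ((X ^ 5 - 1) * (X - 1) ^ 2) +
    ((dd G H m ([5, 2] : List ℕ) : ℝ) * wt q ([5, 2] : List ℕ)) *
      ((X ^ 5 - 1) * (X ^ 2 - 1)) +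
    ((dd G H m ([6, 1] : List ℕ) : ℝ) * wt q ([6, 1] : List ℕ)) *
      ((X ^ 6 - 1) * (X - 1)) +
    ((dd G H m ([7] : List ℕ) : ℝ) * wt q ([7] : List ℕ)) * (X ^ 7 - 1) = 0 := by
  have r := rel_list q hq G H h 7 hn (by norm_num) m X
  rw [plist7] at r
  simp only [List.map_cons, List.map_nil, List.sum_cons, List.sum_nil, List.prod_cons,
    List.prod_nil, pow_one] at r
  rw [← r]
  ring

theorem lin7a (r4 r6 r9 : ℝ) (h : ∀ X : ℝ, r4 * ((X ^ 2 - 1) ^ 3 * (X - 1)) +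
    r6 * ((X ^ 3 - 1) * (X ^ 2 - 1) * (X - 1) ^ 2) + r9 * ((X ^ 4 - 1) * (X - 1) ^ 3) = 0) :
    r6 = -2 * r9 ∧ r4 = r9 := by
  have h2 := h 2
  have h3 := h 3
  norm_num at h2 h3
  constructor <;> linarith

theorem lin7c (r7 r8 r9 r10 r11 r12 r13 r14 : ℝ) (h : ∀ X : ℝ,
    r7 * ((X ^ 3 - 1) * (X ^ 2 - 1) ^ 2) + r8 * ((X ^ 3 - 1) ^ 2 * (X - 1)) +
    r9 * ((X ^ 4 - 1) * (X - 1) ^ 3) + r10 * ((X ^ 4 - 1) * (X ^ 2 - 1) * (X - 1)) +
    r11 * ((X ^ 4 - 1) * (X ^ 3 - 1)) + r12 * ((X ^ 5 - 1) * (X - 1) ^ 2) +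
    r13 * ((X ^ 5 - 1) * (X ^ 2 - 1)) + r14 * ((X ^ 6 - 1) * (X - 1)) = 0) :
    (r10 = -r12 ∧ r8 = -r12 ∧ r7 = r12) ∧ (r9 = -r11 ∧ r14 = 3 * r11 ∧ r13 = -3 * r11) := by
  have h2 := h 2
  have h3 := h 3
  have h4 := h 4
  have g2 := h (1 / 2)
  have g3 := h (1 / 3)
  have g4 := h (1 / 4)
  norm_num at h2 h3 h4 g2 g3 g4
  have k2 : r7 * 63 + r8 * 49 + r10 * 45 + r12 * 31 = 0 := by linarith
  have k3 : r7 * 1664 + r8 * 1352 + r10 * 1280 + r12 * 968 = 0 := by linarith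
  have k4 : r7 * 14175 + r8 * 11907 + r10 * 11475 + r12 * 9207 = 0 := by linarith
  have l2 : r9 * 15 + r11 * 105 + r13 * 93 + r14 * 63 = 0 := by linarith
  have l3 : r9 * 640 + r11 * 2080 + r13 * 1936 + r14 * 1456 = 0 := by linarith
  have l4 : r9 * 6885 + r11 * 16065 + r13 * 15345 + r14 * 12285 = 0 := by linarith
  refine ⟨⟨by linarith, by linarith, by linarith⟩, ⟨by linarith, by linarith, by linarith⟩⟩

theorem s_gt (q : ℝ) (hq : 1 < q) : 2 < q + 1 / q := by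
  have h0 : 0 < q := by linarith
  have h1 : q + 1 / q - 2 = (q - 1) ^ 2 / q := by
    field_simp
    ring
  have h2 : 0 < (q - 1) ^ 2 / q := by
    have : 0 < q - 1 := by linarith
    positivity
  linarith

theorem wtl (q : ℝ) (l : List ℕ) :
    wt q (l : Multiset ℕ) = (l.map fun k => (1 : ℝ) / (q ^ k - 1)).prod := by
  rw [wt, Multiset.map_coe, Multiset.prod_coe]

theorem unwt (q : ℝ) (hq : 1 < q) (l : List ℕ) (hl : ∀ k ∈ l, 0 < k) (d r : ℝ)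
    (h : d * wt q (l : Multiset ℕ) = r) : d = r * (l.map fun k => q ^ k - 1).prod := by
  have h1 : ∀ l : List ℕ, (∀ k ∈ l, 0 < k) →
      (l.map fun k => (1 : ℝ) / (q ^ k - 1)).prod * (l.map fun k => q ^ k - 1).prod = 1 := by
    intro l
    induction l with
    | nil => intro _; simp
    | cons a l ih =>
      intro hl
      have i1 := ih fun k hk => hl k (List.mem_cons_of_mem a hk)
      have h2 : 1 < q ^ a := one_lt_pow₀ hq (hl a List.mem_cons_self).ne'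
      have h3 : q ^ a - 1 ≠ 0 := by linarith
      rw [List.map_cons, List.prod_cons, List.map_cons, List.prod_cons]
      calc _ = (1 / (q ^ a - 1) * (q ^ a - 1)) *
            ((l.map fun k => (1 : ℝ) / (q ^ k - 1)).prod * (l.map fun k => q ^ k - 1).prod) := by
              ring
        _ = 1 := by rw [i1, one_div_mul_cancel h3, one_mul]
  rw [← h, wtl, mul_assoc, h1 l hl, mul_one]

theorem zr7 (G : E → Sym2 V) (H : E' → Sym2 V') (hn : Fintype.card V = 7)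
    (hn' : Fintype.card V' = 7) (m : ℕ) (t : Multiset ℕ) (ht : Multiset.card t + m < 7) :
    dd G H m t = 0 := by
  rw [dd, cnt_eq_zero_of_rank G m t (by omega), cnt_eq_zero_of_rank H m t (by omega), sub_self]

theorem zc7 (G : E → Sym2 V) (H : E' → Sym2 V') (hc : Fintype.card V = Fintype.card V')
    (hG : Simple G) (hH : Simple H) (m : ℕ) (t : Multiset ℕ) (ht : (t.map fC).sum < m) :
    dd G H m t = 0 := by
  by_contra hne
  obtain ⟨_, _, h1, _⟩ := supp_of_sp fC G H hc (sp_simple G hG.1 hG.2) (sp_simple H hH.1 hH.2) m t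
    hne
  omega

theorem three7 (q : ℝ) (hq : 1 < q) (G : E → Sym2 V) (H : E' → Sym2 V')
    (hn : Fintype.card V = 7) (hG : Simple G) (h : ∀ x y : ℝ, B q G x y = B q H x y) :
    ∃ ρ : ℝ, (dd G H 3 ([4, 1, 1, 1] : List ℕ) : ℝ) = ρ * (q + 1 / q) ∧
      (dd G H 3 ([3, 2, 1, 1] : List ℕ) : ℝ) = -2 * ρ * ((q + 1 / q) + 1) ∧
      (dd G H 3 ([2, 2, 2, 1] : List ℕ) : ℝ) = ρ * ((q + 1 / q) + 2) := by
  have hc := card_eq_of_B q hq G H h
  have hn' : Fintype.card V' = 7 := by omega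
  obtain ⟨hH, hfix⟩ := fixed_simple q hq G H hG h
  have hX : ∀ X : ℝ,
      ((dd G H 3 ([2, 2, 2, 1] : List ℕ) : ℝ) * wt q ([2, 2, 2, 1] : List ℕ)) *
        ((X ^ 2 - 1) ^ 3 * (X - 1)) +
      ((dd G H 3 ([3, 2, 1, 1] : List ℕ) : ℝ) * wt q ([3, 2, 1, 1] : List ℕ)) *
        ((X ^ 3 - 1) * (X ^ 2 - 1) * (X - 1) ^ 2) +
      ((dd G H 3 ([4, 1, 1, 1] : List ℕ) : ℝ) * wt q ([4, 1, 1, 1] : List ℕ)) *
        ((X ^ 4 - 1) * (X - 1) ^ 3) = 0 := by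
    intro X
    have r := rel7 q hq G H hn h 3 X
    rw [zc7 G H hc hG hH 3 ([1, 1, 1, 1, 1, 1, 1] : List ℕ) (by decide),
      zc7 G H hc hG hH 3 ([2, 1, 1, 1, 1, 1] : List ℕ) (by decide),
      zc7 G H hc hG hH 3 ([2, 2, 1, 1, 1] : List ℕ) (by decide),
      hfix 3 ([3, 1, 1, 1, 1] : List ℕ) (by norm_num) (by rw [hn]; decide),
      zr7 G H hn hn' 3 ([3, 2, 2] : List ℕ) (by decide),
      zr7 G H hn hn' 3 ([3, 3, 1] : List ℕ) (by decide),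
      zr7 G H hn hn' 3 ([4, 2, 1] : List ℕ) (by decide),
      zr7 G H hn hn' 3 ([4, 3] : List ℕ) (by decide),
      zr7 G H hn hn' 3 ([5, 1, 1] : List ℕ) (by decide),
      zr7 G H hn hn' 3 ([5, 2] : List ℕ) (by decide),
      zr7 G H hn hn' 3 ([6, 1] : List ℕ) (by decide),
      zr7 G H hn hn' 3 ([7] : List ℕ) (by decide)] at r
    simp only [Int.cast_zero, zero_mul, zero_add, add_zero] at r
    exact r
  obtain ⟨k1, k2⟩ := lin7a _ _ _ hX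
  set R := (dd G H 3 ([4, 1, 1, 1] : List ℕ) : ℝ) * wt q ([4, 1, 1, 1] : List ℕ) with hR
  have u1 := unwt q hq [4, 1, 1, 1] (by decide) _ R rfl
  have u2 := unwt q hq [3, 2, 1, 1] (by decide) _ _ k1
  have u3 := unwt q hq [2, 2, 2, 1] (by decide) _ _ k2
  have q0 : q ≠ 0 := by linarith
  refine ⟨R * (q - 1) ^ 4 * (q + 1) * q, ?_, ?_, ?_⟩
  · rw [u1]
    simp only [List.map_cons, List.map_nil, List.prod_cons, List.prod_nil]
    field_simp
    ring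
  · rw [u2]
    simp only [List.map_cons, List.map_nil, List.prod_cons, List.prod_nil]
    field_simp
    ring
  · rw [u3]
    simp only [List.map_cons, List.map_nil, List.prod_cons, List.prod_nil]
    field_simp
    ring

theorem four7 (q : ℝ) (hq : 1 < q) (G : E → Sym2 V) (H : E' → Sym2 V')
    (hn : Fintype.card V = 7) (hG : Simple G) (h : ∀ x y : ℝ, B q G x y = B q H x y) (m : ℕ)
    (hm : 4 ≤ m) :
    ∃ l u : ℝ,
      ((dd G H m ([5, 1, 1] : List ℕ) : ℝ) = l * ((q + 1 / q) ^ 2 + (q + 1 / q) - 1) ∧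
      (dd G H m ([4, 2, 1] : List ℕ) : ℝ) = -l * ((q + 1 / q) ^ 2 + 2 * (q + 1 / q)) ∧
      (dd G H m ([3, 3, 1] : List ℕ) : ℝ) = -l * ((q + 1 / q) + 1) ^ 2 ∧
      (dd G H m ([3, 2, 2] : List ℕ) : ℝ) = l * (((q + 1 / q) + 1) * ((q + 1 / q) + 2))) ∧
      ((dd G H m ([4, 1, 1, 1] : List ℕ) : ℝ) = -u * ((q + 1 / q) * ((q + 1 / q) - 2)) ∧
      (dd G H m ([6, 1] : List ℕ) : ℝ) = 3 * u * ((q + 1 / q) ^ 2 - 1) ∧
      (dd G H m ([5, 2] : List ℕ) : ℝ) = -3 * u * ((q + 1 / q) ^ 2 + (q + 1 / q) - 1) ∧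
      (dd G H m ([4, 3] : List ℕ) : ℝ) = u * ((q + 1 / q) * ((q + 1 / q) + 1))) := by
  have hc := card_eq_of_B q hq G H h
  have hn' : Fintype.card V' = 7 := by omega
  obtain ⟨hH, hfix⟩ := fixed_simple q hq G H hG h
  have hX : ∀ X : ℝ,
      ((dd G H m ([3, 2, 2] : List ℕ) : ℝ) * wt q ([3, 2, 2] : List ℕ)) *
        ((X ^ 3 - 1) * (X ^ 2 - 1) ^ 2) +
      ((dd G H m ([3, 3, 1] : List ℕ) : ℝ) * wt q ([3, 3, 1] : List ℕ)) *
        ((X ^ 3 - 1) ^ 2 * (X - 1)) +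
      ((dd G H m ([4, 1, 1, 1] : List ℕ) : ℝ) * wt q ([4, 1, 1, 1] : List ℕ)) *
        ((X ^ 4 - 1) * (X - 1) ^ 3) +
      ((dd G H m ([4, 2, 1] : List ℕ) : ℝ) * wt q ([4, 2, 1] : List ℕ)) *
        ((X ^ 4 - 1) * (X ^ 2 - 1) * (X - 1)) +
      ((dd G H m ([4, 3] : List ℕ) : ℝ) * wt q ([4, 3] : List ℕ)) *
        ((X ^ 4 - 1) * (X ^ 3 - 1)) +
      ((dd G H m ([5, 1, 1] : List ℕ) : ℝ) * wt q ([5, 1, 1] : List ℕ)) *
        ((X ^ 5 - 1) * (X - 1) ^ 2) +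
      ((dd G H m ([5, 2] : List ℕ) : ℝ) * wt q ([5, 2] : List ℕ)) *
        ((X ^ 5 - 1) * (X ^ 2 - 1)) +
      ((dd G H m ([6, 1] : List ℕ) : ℝ) * wt q ([6, 1] : List ℕ)) *
        ((X ^ 6 - 1) * (X - 1)) = 0 := by
    intro X
    have r := rel7 q hq G H hn h m X
    have z6 : dd G H m ([3, 2, 1, 1] : List ℕ) = 0 := by
      rcases Nat.lt_or_ge 4 m with h5 | h5
      · exact zc7 G H hc hG hH m _ (lt_of_lt_of_le (by decide) h5)
      · have : m = 4 := by omega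
        subst this
        exact hfix 4 _ (by norm_num) (by rw [hn]; decide)
    rw [zc7 G H hc hG hH m ([1, 1, 1, 1, 1, 1, 1] : List ℕ) (lt_of_lt_of_le (by decide) hm),
      zc7 G H hc hG hH m ([2, 1, 1, 1, 1, 1] : List ℕ) (lt_of_lt_of_le (by decide) hm),
      zc7 G H hc hG hH m ([2, 2, 1, 1, 1] : List ℕ) (lt_of_lt_of_le (by decide) hm),
      zc7 G H hc hG hH m ([2, 2, 2, 1] : List ℕ) (lt_of_lt_of_le (by decide) hm),
      zc7 G H hc hG hH m ([3, 1, 1, 1, 1] : List ℕ) (lt_of_lt_of_le (by decide) hm),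
      z6, fixed_one q hq G H h m ([7] : List ℕ) (by decide)] at r
    simp only [Int.cast_zero, zero_mul, zero_add, add_zero] at r
    exact r
  obtain ⟨⟨k1, k2, k3⟩, ⟨k4, k5, k6⟩⟩ := lin7c _ _ _ _ _ _ _ _ hX
  set R := (dd G H m ([5, 1, 1] : List ℕ) : ℝ) * wt q ([5, 1, 1] : List ℕ) with hR
  set T := (dd G H m ([4, 3] : List ℕ) : ℝ) * wt q ([4, 3] : List ℕ) with hT
  have u1 := unwt q hq [5, 1, 1] (by decide) _ R rfl
  have u2 := unwt q hq [4, 2, 1] (by decide) _ _ k1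
  have u3 := unwt q hq [3, 3, 1] (by decide) _ _ k2
  have u4 := unwt q hq [3, 2, 2] (by decide) _ _ k3
  have v1 := unwt q hq [4, 1, 1, 1] (by decide) _ _ k4
  have v2 := unwt q hq [6, 1] (by decide) _ _ k5
  have v3 := unwt q hq [5, 2] (by decide) _ _ k6
  have v4 := unwt q hq [4, 3] (by decide) _ T rfl
  have q0 : q ≠ 0 := by linarith
  refine ⟨R * (q - 1) ^ 3 * q ^ 2, T * (q - 1) ^ 2 * (q + 1) * q ^ 2,
    ⟨?_, ?_, ?_, ?_⟩, ⟨?_, ?_, ?_, ?_⟩⟩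
  · rw [u1]
    simp only [List.map_cons, List.map_nil, List.prod_cons, List.prod_nil]
    field_simp
    ring
  · rw [u2]
    simp only [List.map_cons, List.map_nil, List.prod_cons, List.prod_nil]
    field_simp
    ring
  · rw [u3]
    simp only [List.map_cons, List.map_nil, List.prod_cons, List.prod_nil]
    field_simp
    ring
  · rw [u4]
    simp only [List.map_cons, List.map_nil, List.prod_cons, List.prod_nil]
    field_simp
    ring
  · rw [v1]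
    simp only [List.map_cons, List.map_nil, List.prod_cons, List.prod_nil]
    field_simp
    ring
  · rw [v2]
    simp only [List.map_cons, List.map_nil, List.prod_cons, List.prod_nil]
    field_simp
    ring
  · rw [v3]
    simp only [List.map_cons, List.map_nil, List.prod_cons, List.prod_nil]
    field_simp
    ring
  · rw [v4]
    simp only [List.map_cons, List.map_nil, List.prod_cons, List.prod_nil]
    field_simp
    ring

end Kern

end Pool.Agent.Lib.QDichromate
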