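import Mathlib
import Pool.Agent.Lib.QDichromate.Defs
import Pool.Agent.Lib.QDichromate.Core
import Pool.Agent.Lib.QDichromate.Sparse
import Pool.Agent.Lib.QDichromate.Match
import Pool.Agent.Lib.QDichromate.Small3
import Pool.Agent.Lib.QDichromate.Six
import Pool.Agent.Lib.QDichromate.Fixed
import Pool.Agent.Lib.QDichromate.Kern7
import Pool.Agent.Lib.QDichromate.Pairs7
import Pool.Agent.Lib.QDichromate.Deg7

/-!
Simple graphs with seven vertices, for every real q > 1.
-/

set_option linter.unusedSectionVars false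

open scoped Classical

namespace Pool.Agent.Lib.QDichromate

section Seven

variable {V E V' E' : Type} [Fintype V] [Fintype E] [Fintype V'] [Fintype E']

theorem int7 (A B C D : ℤ) (l s : ℝ) (hs : 2 < s) (hA : (A : ℝ) = l * (s ^ 2 + s - 1))
    (hB : (B : ℝ) = -l * (s ^ 2 + 2 * s)) (hC : (C : ℝ) = -l * (s + 1) ^ 2)
    (hD : (D : ℝ) = l * ((s + 1) * (s + 2))) :
    (2 * A + B + C = 0 ∨ 8 ≤ |2 * A + B + C|) ∧ (|A + D| ≤ 15 → 2 * A + B + C = 0) := by
  have hn : ((-(A + 2 * C + D) : ℤ) : ℝ) = l := by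
    push_cast
    rw [hA, hC, hD]
    ring
  have hK : ((2 * A + B + C : ℤ) : ℝ) = -l * (2 * s + 3) := by
    push_cast
    rw [hA, hB, hC]
    ring
  have hS : ((A + D : ℤ) : ℝ) = l * (2 * s ^ 2 + 4 * s + 1) := by
    push_cast
    rw [hA, hD]
    ring
  rcases eq_or_ne (-(A + 2 * C + D)) 0 with h0 | h0
  · have hl : l = 0 := by rw [← hn, h0]; simp
    rw [hl] at hK
    have : 2 * A + B + C = 0 := by
      have : ((2 * A + B + C : ℤ) : ℝ) = 0 := by rw [hK]; ring
      exact_mod_cast this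
    exact ⟨Or.inl this, fun _ => this⟩
  · have h1 : (1 : ℤ) ≤ |(-(A + 2 * C + D))| := Int.one_le_abs h0
    have h2 : (1 : ℝ) ≤ |l| := by
      rw [← hn]
      exact_mod_cast h1
    constructor
    · right
      have h3 : (7 : ℝ) < |((2 * A + B + C : ℤ) : ℝ)| := by
        rw [hK, abs_mul, abs_neg, abs_of_pos (by linarith : (0 : ℝ) < 2 * s + 3)]
        nlinarith
      have h4 : (7 : ℤ) < |2 * A + B + C| := by exact_mod_cast h3
      omega
    · intro h15
      exfalso
      have h3 : (15 : ℝ) < |((A + D : ℤ) : ℝ)| := by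
        rw [hS, abs_mul, abs_of_pos (by nlinarith : (0 : ℝ) < 2 * s ^ 2 + 4 * s + 1)]
        nlinarith
      have h4 : (15 : ℤ) < |A + D| := by exact_mod_cast h3
      omega

theorem cnt_two7 {W F : Type} [Fintype W] [Fintype F] (K : F → Sym2 W) (t t' : Multiset ℕ)
    (hne : t ≠ t') (hF : Fintype.card F ≤ 6) : cnt K 4 t + cnt K 4 t' ≤ 15 := by
  have h1 : cnt K 4 t + cnt K 4 t' ≤ (Finset.powersetCard 4 (Finset.univ : Finset F)).card := by
    rw [cnt, cnt, ← Finset.card_union_of_disjoint]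
    · apply Finset.card_le_card
      intro A hA
      rw [Finset.mem_powersetCard]
      refine ⟨Finset.subset_univ _, ?_⟩
      rcases Finset.mem_union.1 hA with h | h
      · exact (Finset.mem_filter.1 h).2.1
      · exact (Finset.mem_filter.1 h).2.1
    · rw [Finset.disjoint_left]
      intro A h1 h2
      exact hne ((Finset.mem_filter.1 h1).2.2.symm.trans (Finset.mem_filter.1 h2).2.2)
  rw [Finset.card_powersetCard, Finset.card_univ] at h1
  refine h1.trans ?_
  interval_cases (Fintype.card F) <;> decide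

theorem cnt_one7 {W F : Type} [Fintype W] [Fintype F] (K : F → Sym2 W) (t : Multiset ℕ)
    (hF : Fintype.card F ≤ 3) : cnt K 3 t ≤ 1 := by
  have h1 : cnt K 3 t ≤ (Finset.powersetCard 3 (Finset.univ : Finset F)).card := by
    rw [cnt]
    apply Finset.card_le_card
    intro A hA
    rw [Finset.mem_filter] at hA
    rw [Finset.mem_powersetCard]
    exact ⟨Finset.subset_univ _, hA.2.1⟩
  rw [Finset.card_powersetCard, Finset.card_univ] at h1
  refine h1.trans ?_
  interval_cases (Fintype.card F) <;> decide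

theorem sum15 (f : Multiset ℕ → ℤ) : ∑ t ∈ TT 7, f t =
    f ([1, 1, 1, 1, 1, 1, 1] : List ℕ) + (f ([2, 1, 1, 1, 1, 1] : List ℕ) +
    (f ([2, 2, 1, 1, 1] : List ℕ) + (f ([2, 2, 2, 1] : List ℕ) +
    (f ([3, 1, 1, 1, 1] : List ℕ) + (f ([3, 2, 1, 1] : List ℕ) +
    (f ([3, 2, 2] : List ℕ) + (f ([3, 3, 1] : List ℕ) + (f ([4, 1, 1, 1] : List ℕ) +
    (f ([4, 2, 1] : List ℕ) + (f ([4, 3] : List ℕ) + (f ([5, 1, 1] : List ℕ) +
    (f ([5, 2] : List ℕ) + (f ([6, 1] : List ℕ) + (f ([7] : List ℕ) + 0)))))))))))))) := by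
  rw [TT, List.sum_toFinset _ (nodup_TT 7 (by norm_num)), plist7]
  simp only [List.map_cons, List.map_nil, List.sum_cons, List.sum_nil]

theorem all15 (P : Multiset ℕ → Prop) (p1 : P ([1, 1, 1, 1, 1, 1, 1] : List ℕ))
    (p2 : P ([2, 1, 1, 1, 1, 1] : List ℕ)) (p3 : P ([2, 2, 1, 1, 1] : List ℕ))
    (p4 : P ([2, 2, 2, 1] : List ℕ)) (p5 : P ([3, 1, 1, 1, 1] : List ℕ))
    (p6 : P ([3, 2, 1, 1] : List ℕ)) (p7 : P ([3, 2, 2] : List ℕ)) (p8 : P ([3, 3, 1] : List ℕ))
    (p9 : P ([4, 1, 1, 1] : List ℕ)) (p10 : P ([4, 2, 1] : List ℕ)) (p11 : P ([4, 3] : List ℕ))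
    (p12 : P ([5, 1, 1] : List ℕ)) (p13 : P ([5, 2] : List ℕ)) (p14 : P ([6, 1] : List ℕ))
    (p15 : P ([7] : List ℕ)) : ∀ t ∈ TT 7, P t := by
  intro t ht
  rw [TT, plist7, List.mem_toFinset] at ht
  simp only [List.map_cons, List.map_nil, List.mem_cons, List.not_mem_nil, or_false] at ht
  rcases ht with rfl | rfl | rfl | rfl | rfl | rfl | rfl | rfl | rfl | rfl | rfl | rfl | rfl |
    rfl | rfl <;> assumption

theorem case_seven (q : ℝ) (hq : 1 < q) (G : E → Sym2 V) (H : E' → Sym2 V')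
    (hn : Fintype.card V = 7) (hG : Simple G) (h : ∀ x y : ℝ, B q G x y = B q H x y) :
    U G = U H := by
  have hc := card_eq_of_B q hq G H h
  have hn' : Fintype.card V' = 7 := by omega
  obtain ⟨hH, hfix⟩ := fixed_simple q hq G H hG h
  have hfew := fun m hm t => fixed_few q hq G H h m hm t
  have hout : ∀ (m : ℕ) (t : Multiset ℕ), t ∉ TT 7 → dd G H m t = 0 := by
    intro m t ht
    rw [dd, cnt_zero G m (TT 7) (fun A => by rw [← hn]; exact tau_mem_TT G A) t ht,
      cnt_zero H m (TT 7) (fun A => by rw [← hn']; exact tau_mem_TT H A) t ht]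
    rfl
  obtain ⟨ρ, b1, b2, b3⟩ := three7 q hq G H hn hG h
  obtain ⟨l4, u4, ⟨c1, c2, c3, c4⟩, ⟨c5, -, -, -⟩⟩ := four7 q hq G H hn hG h 4 (by norm_num)
  obtain ⟨l5, u5, ⟨e1, e2, e3, e4⟩, ⟨f1, f2, f3, f4⟩⟩ := four7 q hq G H hn hG h 5 (by norm_num)
  obtain ⟨l6, u6, ⟨g1, g2, g3, g4⟩, ⟨g5, g6, g7, g8⟩⟩ := four7 q hq G H hn hG h 6 (by norm_num)
  have hs2 := s_gt q hq
  set s := q + 1 / q with hs
  -- the differences that vanish
  have z1 : ∀ m, dd G H m ([1, 1, 1, 1, 1, 1, 1] : List ℕ) = 0 := by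
    intro m
    rcases Nat.lt_or_ge 2 m with h1 | h1
    · exact zc7 G H hc hG hH m _ (lt_of_lt_of_le (by decide) h1)
    · exact hfew m h1 _
  have z2 : ∀ m, dd G H m ([2, 1, 1, 1, 1, 1] : List ℕ) = 0 := by
    intro m
    rcases Nat.lt_or_ge 2 m with h1 | h1
    · exact zc7 G H hc hG hH m _ (lt_of_lt_of_le (by decide) h1)
    · exact hfew m h1 _
  have z3 : ∀ m, dd G H m ([2, 2, 1, 1, 1] : List ℕ) = 0 := by
    intro m
    rcases Nat.lt_or_ge 2 m with h1 | h1
    · exact zc7 G H hc hG hH m _ (lt_of_lt_of_le (by decide) h1)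
    · exact hfew m h1 _
  have z4 : ∀ m, 4 ≤ m → dd G H m ([2, 2, 2, 1] : List ℕ) = 0 := by
    intro m h1
    exact zc7 G H hc hG hH m _ (lt_of_lt_of_le (by decide) h1)
  have z5 : ∀ m, dd G H m ([3, 1, 1, 1, 1] : List ℕ) = 0 := by
    intro m
    rcases Nat.lt_or_ge 3 m with h1 | h1
    · exact zc7 G H hc hG hH m _ (lt_of_lt_of_le (by decide) h1)
    · rcases Nat.lt_or_ge 2 m with h2 | h2
      · have : m = 3 := by omega
        subst this
        exact hfix 3 _ (by norm_num) (by rw [hn]; decide)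
      · exact hfew m h2 _
  have z6 : ∀ m, 4 ≤ m → dd G H m ([3, 2, 1, 1] : List ℕ) = 0 := by
    intro m h1
    rcases Nat.lt_or_ge 4 m with h2 | h2
    · exact zc7 G H hc hG hH m _ (lt_of_lt_of_le (by decide) h2)
    · have : m = 4 := by omega
      subst this
      exact hfix 4 _ (by norm_num) (by rw [hn]; decide)
  have z15 : ∀ m, dd G H m ([7] : List ℕ) = 0 := fun m =>
    fixed_one q hq G H h m _ (by decide)
  have y7 : dd G H 3 ([3, 2, 2] : List ℕ) = 0 := zr7 G H hn hn' 3 _ (by decide)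
  have y8 : dd G H 3 ([3, 3, 1] : List ℕ) = 0 := zr7 G H hn hn' 3 _ (by decide)
  have y10 : dd G H 3 ([4, 2, 1] : List ℕ) = 0 := zr7 G H hn hn' 3 _ (by decide)
  have y11 : dd G H 3 ([4, 3] : List ℕ) = 0 := zr7 G H hn hn' 3 _ (by decide)
  have y12 : dd G H 3 ([5, 1, 1] : List ℕ) = 0 := zr7 G H hn hn' 3 _ (by decide)
  have y13 : dd G H 3 ([5, 2] : List ℕ) = 0 := zr7 G H hn hn' 3 _ (by decide)
  have y14 : dd G H 3 ([6, 1] : List ℕ) = 0 := zr7 G H hn hn' 3 _ (by decide)
  have x9 : dd G H 4 ([4, 1, 1, 1] : List ℕ) = 0 := hfix 4 _ (by norm_num) (by rw [hn]; decide)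
  have x11 : dd G H 4 ([4, 3] : List ℕ) = 0 := zr7 G H hn hn' 4 _ (by decide)
  have x13 : dd G H 4 ([5, 2] : List ℕ) = 0 := zr7 G H hn hn' 4 _ (by decide)
  have x14 : dd G H 4 ([6, 1] : List ℕ) = 0 := zr7 G H hn hn' 4 _ (by decide)
  have w7 : dd G H 6 ([3, 2, 2] : List ℕ) = 0 := zc7 G H hc hG hH 6 _ (by decide)
  have hs12 : (s + 1) * (s + 2) ≠ 0 := by
    have : 0 < (s + 1) * (s + 2) := mul_pos (by linarith) (by linarith)
    exact this.ne'
  have hss : s * (s - 2) ≠ 0 := by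
    have : 0 < s * (s - 2) := mul_pos (by linarith) (by linarith)
    exact this.ne'
  have hl6 : l6 = 0 := by
    rw [w7, Int.cast_zero] at g4
    exact (mul_eq_zero.1 g4.symm).resolve_right hs12
  rw [hl6] at g1 g2 g3
  have w8 : dd G H 6 ([3, 3, 1] : List ℕ) = 0 := by
    have : (dd G H 6 ([3, 3, 1] : List ℕ) : ℝ) = 0 := by rw [g3]; ring
    exact_mod_cast this
  have w10 : dd G H 6 ([4, 2, 1] : List ℕ) = 0 := by
    have : (dd G H 6 ([4, 2, 1] : List ℕ) : ℝ) = 0 := by rw [g2]; ring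
    exact_mod_cast this
  have w12 : dd G H 6 ([5, 1, 1] : List ℕ) = 0 := by
    have : (dd G H 6 ([5, 1, 1] : List ℕ) : ℝ) = 0 := by rw [g1]; ring
    exact_mod_cast this
  have hbig : ∀ m, 7 ≤ m → ∀ t : Multiset ℕ, dd G H m t = 0 := by
    intro m hm t
    by_cases ht : t ∈ TT 7
    swap
    · exact hout m t ht
    obtain ⟨l, u, ⟨k1, k2, k3, k4⟩, ⟨k5, k6, k7, k8⟩⟩ :=
      four7 q hq G H hn hG h m (by omega)
    rw [← hs] at k1 k2 k3 k4 k5 k6 k7 k8
    have v7 : dd G H m ([3, 2, 2] : List ℕ) = 0 :=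
      zc7 G H hc hG hH m _ (lt_of_lt_of_le (by decide) hm)
    have v9 : dd G H m ([4, 1, 1, 1] : List ℕ) = 0 :=
      zc7 G H hc hG hH m _ (lt_of_lt_of_le (by decide) hm)
    have hl : l = 0 := by
      rw [v7, Int.cast_zero] at k4
      exact (mul_eq_zero.1 k4.symm).resolve_right hs12
    have hu : u = 0 := by
      rw [v9, Int.cast_zero] at k5
      have := (mul_eq_zero.1 k5.symm).resolve_right hss
      linarith
    rw [hl] at k1 k2 k3
    rw [hu] at k6 k7 k8
    revert t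
    refine all15 (fun t => dd G H m t = 0) (z1 m) (z2 m) (z3 m) (z4 m (by omega)) (z5 m)
      (z6 m (by omega)) v7 ?_ v9 ?_ ?_ ?_ ?_ ?_ (z15 m)
    · have : (dd G H m ([3, 3, 1] : List ℕ) : ℝ) = 0 := by rw [k3]; ring
      exact_mod_cast this
    · have : (dd G H m ([4, 2, 1] : List ℕ) : ℝ) = 0 := by rw [k2]; ring
      exact_mod_cast this
    · have : (dd G H m ([4, 3] : List ℕ) : ℝ) = 0 := by rw [k8]; ring
      exact_mod_cast this
    · have : (dd G H m ([5, 1, 1] : List ℕ) : ℝ) = 0 := by rw [k1]; ring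
      exact_mod_cast this
    · have : (dd G H m ([5, 2] : List ℕ) : ℝ) = 0 := by rw [k7]; ring
      exact_mod_cast this
    · have : (dd G H m ([6, 1] : List ℕ) : ℝ) = 0 := by rw [k6]; ring
      exact_mod_cast this
  -- the sums over the types
  have hsum := fun (m : ℕ) (F : Multiset ℕ → ℤ) => sum_dd G H m (TT 7)
    (fun A => by rw [← hn]; exact tau_mem_TT G A)
    (fun A => by rw [← hn']; exact tau_mem_TT H A) (R := ℤ) F
  -- the numbers of edges agree
  have hEE : Fintype.card E = Fintype.card E' := by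
    have h1 := hsum 1 (fun _ => 1)
    rw [Finset.sum_eq_zero (fun t _ => by rw [hfew 1 (by norm_num) t]; simp)] at h1
    have h2 : ∀ (F : Type) [Fintype F],
        ∑ _A ∈ Finset.univ.filter (fun A : Finset F => A.card = 1), (1 : ℤ) =
          (Fintype.card F : ℤ) := by
      intro F _
      rw [Finset.sum_const, ← Finset.powerset_univ, ← Finset.powersetCard_eq_filter,
        Finset.card_powersetCard, Finset.card_univ, Nat.choose_one_right]
      simp
    rw [h2, h2] at h1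
    omega
  -- the first level
  have hone : ∀ m, (∑ v : V, ((av G v).card.choose m : ℤ)) -
      ∑ v : V', ((av H v).card.choose m : ℤ) =
      ∑ t ∈ TT 7, (dd G H m t : ℤ) * (t.count 1 : ℤ) := by
    intro m
    have h1 := hsum m (fun t => (t.count 1 : ℤ))
    have h2 : (∑ A ∈ Finset.univ.filter (fun A : Finset E => A.card = m),
        ((tau G A).count 1 : ℤ)) = ∑ v : V, ((av G v).card.choose m : ℤ) := by
      exact_mod_cast sum_one G hG.2 m
    have h3 : (∑ A ∈ Finset.univ.filter (fun A : Finset E' => A.card = m),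
        ((tau H A).count 1 : ℤ)) = ∑ v : V', ((av H v).card.choose m : ℤ) := by
      exact_mod_cast sum_one H hH.2 m
    rw [h2, h3] at h1
    rw [← h1]
    rfl
  have q1 : Multiset.count 1 (([2, 2, 2, 1] : List ℕ) : Multiset ℕ) = 1 := by decide
  have q2 : Multiset.count 1 (([3, 2, 1, 1] : List ℕ) : Multiset ℕ) = 2 := by decide
  have q3 : Multiset.count 1 (([4, 1, 1, 1] : List ℕ) : Multiset ℕ) = 3 := by decide
  have q4 : Multiset.count 1 (([3, 2, 2] : List ℕ) : Multiset ℕ) = 0 := by decide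
  have q5 : Multiset.count 1 (([3, 3, 1] : List ℕ) : Multiset ℕ) = 1 := by decide
  have q6 : Multiset.count 1 (([4, 2, 1] : List ℕ) : Multiset ℕ) = 1 := by decide
  have q7 : Multiset.count 1 (([4, 3] : List ℕ) : Multiset ℕ) = 0 := by decide
  have q8 : Multiset.count 1 (([5, 1, 1] : List ℕ) : Multiset ℕ) = 2 := by decide
  have q9 : Multiset.count 1 (([5, 2] : List ℕ) : Multiset ℕ) = 0 := by decide
  have q10 : Multiset.count 1 (([6, 1] : List ℕ) : Multiset ℕ) = 1 := by decide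
  set K3 : ℤ := 3 * dd G H 3 ([4, 1, 1, 1] : List ℕ) + 2 * dd G H 3 ([3, 2, 1, 1] : List ℕ) +
    dd G H 3 ([2, 2, 2, 1] : List ℕ) with hK3
  set K4 : ℤ := 2 * dd G H 4 ([5, 1, 1] : List ℕ) + dd G H 4 ([4, 2, 1] : List ℕ) +
    dd G H 4 ([3, 3, 1] : List ℕ) with hK4
  set K5 : ℤ := 3 * dd G H 5 ([4, 1, 1, 1] : List ℕ) + dd G H 5 ([6, 1] : List ℕ) +
    2 * dd G H 5 ([5, 1, 1] : List ℕ) + dd G H 5 ([4, 2, 1] : List ℕ) +
    dd G H 5 ([3, 3, 1] : List ℕ) with hK5
  set K6 : ℤ := 3 * dd G H 6 ([4, 1, 1, 1] : List ℕ) + dd G H 6 ([6, 1] : List ℕ) with hK6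
  have hKall : ∀ m, (∑ v : V, ((av G v).card.choose m : ℤ)) -
      ∑ v : V', ((av H v).card.choose m : ℤ) =
        if m = 3 then K3 else if m = 4 then K4 else if m = 5 then K5 else
          if m = 6 then K6 else 0 := by
    intro m
    rw [hone m]
    by_cases m3 : m = 3
    · subst m3
      rw [if_pos rfl, sum15]
      rw [z1, z2, z3, z5, y7, y8, y10, y11, y12, y13, y14, z15, q1, q2, q3, hK3]
      push_cast
      ring
    rw [if_neg m3]
    by_cases m4 : m = 4
    · subst m4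
      rw [if_pos rfl, sum15]
      rw [z1, z2, z3, z4 4 (by norm_num), z5, z6 4 (by norm_num), x9, x11, x13, x14, z15, q4, q5,
        q6, q8, hK4]
      push_cast
      ring
    rw [if_neg m4]
    by_cases m5 : m = 5
    · subst m5
      rw [if_pos rfl, sum15]
      rw [z1, z2, z3, z4 5 (by norm_num), z5, z6 5 (by norm_num), z15, q3, q4, q5,
        q6, q7, q8, q9, q10, hK5]
      push_cast
      ring
    rw [if_neg m5]
    by_cases m6 : m = 6
    · subst m6
      rw [if_pos rfl, sum15]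
      rw [z1, z2, z3, z4 6 (by norm_num), z5, z6 6 (by norm_num), w7, w8, w10, w12, z15, q3,
        q7, q9, q10, hK6]
      push_cast
      ring
    rw [if_neg m6]
    apply Finset.sum_eq_zero
    intro t _
    have : dd G H m t = 0 := by
      rcases lt_or_ge m 3 with h4 | h4
      · exact hfew m (by omega) t
      · exact hbig m (by omega) t
    rw [this]
    simp
  obtain ⟨i1, i2⟩ := int7 _ _ _ _ l4 s hs2 c1 c2 c3 c4
  have hk4 : K4 = 0 ∨ 8 ≤ |K4| := i1
  have hk46 : Fintype.card E ≤ 6 → K4 = 0 := by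
    intro hE6
    apply i2
    have hne : (([5, 1, 1] : List ℕ) : Multiset ℕ) ≠ (([3, 2, 2] : List ℕ) : Multiset ℕ) := by
      decide
    have t1 := cnt_two7 G _ _ hne hE6
    have t2 := cnt_two7 H _ _ hne (by omega)
    rw [dd, dd, abs_le]
    omega
  have hk3 : Fintype.card E ≤ 3 → K3 = 0 := by
    intro hE3
    have t1 := cnt_one7 G ([2, 2, 2, 1] : List ℕ) hE3
    have t2 := cnt_one7 H ([2, 2, 2, 1] : List ℕ) (by omega)
    have t3 : |dd G H 3 ([2, 2, 2, 1] : List ℕ)| ≤ 1 := by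
      rw [dd, abs_le]
      omega
    have t4 : |(dd G H 3 ([2, 2, 2, 1] : List ℕ) : ℝ)| ≤ 1 := by exact_mod_cast t3
    rw [b3, abs_mul, abs_of_pos (by linarith : (0 : ℝ) < s + 2)] at t4
    have t5 : (K3 : ℝ) = -2 * ρ := by
      rw [hK3]
      push_cast
      rw [b1, b2, b3]
      ring
    have t6 : |(K3 : ℝ)| < 1 := by
      rw [t5, abs_mul]
      norm_num
      have : 0 ≤ |ρ| := abs_nonneg ρ
      nlinarith
    have t7 : |K3| < 1 := by exact_mod_cast t6
    exact Int.abs_lt_one_iff.1 t7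
  obtain ⟨k3, k4, k5, k6⟩ := deg7 G H hG hH hn hn' hEE K3 K4 K5 K6 hKall hk4 hk46 hk3
  -- three edges
  have hρ : ρ = 0 := by
    have t5 : (K3 : ℝ) = -2 * ρ := by
      rw [hK3]
      push_cast
      rw [b1, b2, b3]
      ring
    rw [k3, Int.cast_zero] at t5
    linarith
  rw [hρ] at b1 b2 b3
  have r1 : dd G H 3 ([4, 1, 1, 1] : List ℕ) = 0 := by
    have : (dd G H 3 ([4, 1, 1, 1] : List ℕ) : ℝ) = 0 := by rw [b1]; ring
    exact_mod_cast this
  have r2 : dd G H 3 ([3, 2, 1, 1] : List ℕ) = 0 := by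
    have : (dd G H 3 ([3, 2, 1, 1] : List ℕ) : ℝ) = 0 := by rw [b2]; ring
    exact_mod_cast this
  have r3 : dd G H 3 ([2, 2, 2, 1] : List ℕ) = 0 := by
    have : (dd G H 3 ([2, 2, 2, 1] : List ℕ) : ℝ) = 0 := by rw [b3]; ring
    exact_mod_cast this
  have h3all : ∀ t : Multiset ℕ, dd G H 3 t = 0 := by
    intro t
    by_cases ht : t ∈ TT 7
    swap
    · exact hout 3 t ht
    revert t
    exact all15 (fun t => dd G H 3 t = 0) (z1 3) (z2 3) (z3 3) r3 (z5 3) r2 y7 y8 r1 y10 y11 y12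
      y13 y14 (z15 3)
  -- four edges
  have hl4 : l4 = 0 := by
    have t5 : (K4 : ℝ) = -l4 * (2 * s + 3) := by
      rw [hK4]
      push_cast
      rw [c1, c2, c3]
      ring
    rw [k4, Int.cast_zero] at t5
    have := (mul_eq_zero.1 t5.symm).resolve_right (by linarith)
    linarith
  rw [hl4] at c1 c2 c3 c4
  have h4all : ∀ t : Multiset ℕ, dd G H 4 t = 0 := by
    intro t
    by_cases ht : t ∈ TT 7
    swap
    · exact hout 4 t ht
    revert t
    refine all15 (fun t => dd G H 4 t = 0) (z1 4) (z2 4) (z3 4) (z4 4 (by norm_num)) (z5 4)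
      (z6 4 (by norm_num)) ?_ ?_ x9 ?_ x11 ?_ x13 x14 (z15 4)
    · have : (dd G H 4 ([3, 2, 2] : List ℕ) : ℝ) = 0 := by rw [c4]; ring
      exact_mod_cast this
    · have : (dd G H 4 ([3, 3, 1] : List ℕ) : ℝ) = 0 := by rw [c3]; ring
      exact_mod_cast this
    · have : (dd G H 4 ([4, 2, 1] : List ℕ) : ℝ) = 0 := by rw [c2]; ring
      exact_mod_cast this
    · have : (dd G H 4 ([5, 1, 1] : List ℕ) : ℝ) = 0 := by rw [c1]; ring
      exact_mod_cast this
  -- six edges
  have hu6 : u6 = 0 := by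
    have t5 : (K6 : ℝ) = 3 * u6 * (2 * s - 1) := by
      rw [hK6]
      push_cast
      rw [g5, g6]
      ring
    rw [k6, Int.cast_zero] at t5
    have := (mul_eq_zero.1 t5.symm).resolve_right (by linarith)
    linarith
  rw [hu6] at g5 g6 g7 g8
  have h6all : ∀ t : Multiset ℕ, dd G H 6 t = 0 := by
    intro t
    by_cases ht : t ∈ TT 7
    swap
    · exact hout 6 t ht
    revert t
    refine all15 (fun t => dd G H 6 t = 0) (z1 6) (z2 6) (z3 6) (z4 6 (by norm_num)) (z5 6)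
      (z6 6 (by norm_num)) w7 w8 ?_ w10 ?_ w12 ?_ ?_ (z15 6)
    · have : (dd G H 6 ([4, 1, 1, 1] : List ℕ) : ℝ) = 0 := by rw [g5]; ring
      exact_mod_cast this
    · have : (dd G H 6 ([4, 3] : List ℕ) : ℝ) = 0 := by rw [g8]; ring
      exact_mod_cast this
    · have : (dd G H 6 ([5, 2] : List ℕ) : ℝ) = 0 := by rw [g7]; ring
      exact_mod_cast this
    · have : (dd G H 6 ([6, 1] : List ℕ) : ℝ) = 0 := by rw [g6]; ring
      exact_mod_cast this
  -- five edges
  set L : ℤ := 3 * dd G H 5 ([4, 1, 1, 1] : List ℕ) + dd G H 5 ([5, 2] : List ℕ) +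
    dd G H 5 ([5, 1, 1] : List ℕ) + dd G H 5 ([4, 2, 1] : List ℕ) +
    2 * dd G H 5 ([3, 2, 2] : List ℕ) with hL
  have n1 : NN (([3, 2, 2] : List ℕ) : Multiset ℕ) = 2 := by decide
  have n2 : NN (([3, 3, 1] : List ℕ) : Multiset ℕ) = 0 := by decide
  have n3 : NN (([4, 1, 1, 1] : List ℕ) : Multiset ℕ) = 3 := by decide
  have n4 : NN (([4, 2, 1] : List ℕ) : Multiset ℕ) = 1 := by decide
  have n5 : NN (([4, 3] : List ℕ) : Multiset ℕ) = 0 := by decide
  have n6 : NN (([5, 1, 1] : List ℕ) : Multiset ℕ) = 1 := by decide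
  have n7 : NN (([5, 2] : List ℕ) : Multiset ℕ) = 1 := by decide
  have n8 : NN (([6, 1] : List ℕ) : Multiset ℕ) = 0 := by decide
  have htwo : ∀ m, (∑ s ∈ Finset.powersetCard 2 (Finset.univ : Finset V),
        ((FF G s).card.choose m : ℤ)) - ∑ s ∈ Finset.powersetCard 2 (Finset.univ : Finset V'),
        ((FF H s).card.choose m : ℤ) = if m = 5 then L else 0 := by
    intro m
    have h1 := hsum m (fun t => (NN t : ℤ))
    have h2 : (∑ A ∈ Finset.univ.filter (fun A : Finset E => A.card = m),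
        (NN (tau G A) : ℤ)) = ∑ s ∈ Finset.powersetCard 2 (Finset.univ : Finset V),
        ((FF G s).card.choose m : ℤ) := by
      exact_mod_cast sum_NN G m
    have h3 : (∑ A ∈ Finset.univ.filter (fun A : Finset E' => A.card = m),
        (NN (tau H A) : ℤ)) = ∑ s ∈ Finset.powersetCard 2 (Finset.univ : Finset V'),
        ((FF H s).card.choose m : ℤ) := by
      exact_mod_cast sum_NN H m
    rw [h2, h3] at h1
    rw [← h1]
    by_cases m5 : m = 5
    · subst m5
      rw [if_pos rfl, sum15]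
      rw [z1, z2, z3, z4 5 (by norm_num), z5, z6 5 (by norm_num), z15, n1, n2, n3, n4, n5, n6,
        n7, n8, hL]
      simp only [Int.cast_id]
      push_cast
      ring
    · rw [if_neg m5]
      apply Finset.sum_eq_zero
      intro t _
      have : dd G H m t = 0 := by
        rcases lt_or_ge m 3 with h4 | h4
        · exact hfew m (by omega) t
        · rcases lt_or_ge m 7 with h5 | h5
          · have h6 : m = 3 ∨ m = 4 ∨ m = 6 := by omega
            rcases h6 with rfl | rfl | rfl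
            · exact h3all t
            · exact h4all t
            · exact h6all t
          · exact hbig m h5 t
      rw [this]
      simp
  have t5 : u5 * (6 * s - 3) - l5 * (2 * s + 3) = 0 := by
    have t6 : (K5 : ℝ) = u5 * (6 * s - 3) - l5 * (2 * s + 3) := by
      rw [hK5]
      push_cast
      rw [f1, f2, e1, e2, e3]
      ring
    rw [← t6, k5, Int.cast_zero]
  have t7 : (L : ℝ) = 6 * s * u5 := by
    rw [hL]
    push_cast
    rw [f1, f3, e1, e2, e4]
    linear_combination (-(s + 1)) * t5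
  have t8 : L = 2 * (dd G H 5 ([4, 3] : List ℕ) + dd G H 5 ([4, 1, 1, 1] : List ℕ)) := by
    have t9 : (L : ℝ) =
        2 * ((dd G H 5 ([4, 3] : List ℕ) : ℝ) + (dd G H 5 ([4, 1, 1, 1] : List ℕ) : ℝ)) := by
      rw [t7, f1, f4]
      ring
    exact_mod_cast t9
  have hL0 : L = 0 := pairs7 G H hn hn' L ⟨_, t8⟩ htwo
  have hu5 : u5 = 0 := by
    rw [hL0, Int.cast_zero] at t7
    have := (mul_eq_zero.1 t7.symm).resolve_left (by linarith)
    exact this
  have hl5 : l5 = 0 := by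
    rw [hu5] at t5
    have t9 : l5 * (2 * s + 3) = 0 := by linarith
    exact (mul_eq_zero.1 t9).resolve_right (by linarith)
  rw [hu5] at f1 f2 f3 f4
  rw [hl5] at e1 e2 e3 e4
  have h5all : ∀ t : Multiset ℕ, dd G H 5 t = 0 := by
    intro t
    by_cases ht : t ∈ TT 7
    swap
    · exact hout 5 t ht
    revert t
    refine all15 (fun t => dd G H 5 t = 0) (z1 5) (z2 5) (z3 5) (z4 5 (by norm_num)) (z5 5)
      (z6 5 (by norm_num)) ?_ ?_ ?_ ?_ ?_ ?_ ?_ ?_ (z15 5)
    · have : (dd G H 5 ([3, 2, 2] : List ℕ) : ℝ) = 0 := by rw [e4]; ring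
      exact_mod_cast this
    · have : (dd G H 5 ([3, 3, 1] : List ℕ) : ℝ) = 0 := by rw [e3]; ring
      exact_mod_cast this
    · have : (dd G H 5 ([4, 1, 1, 1] : List ℕ) : ℝ) = 0 := by rw [f1]; ring
      exact_mod_cast this
    · have : (dd G H 5 ([4, 2, 1] : List ℕ) : ℝ) = 0 := by rw [e2]; ring
      exact_mod_cast this
    · have : (dd G H 5 ([4, 3] : List ℕ) : ℝ) = 0 := by rw [f4]; ring
      exact_mod_cast this
    · have : (dd G H 5 ([5, 1, 1] : List ℕ) : ℝ) = 0 := by rw [e1]; ring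
      exact_mod_cast this
    · have : (dd G H 5 ([5, 2] : List ℕ) : ℝ) = 0 := by rw [f3]; ring
      exact_mod_cast this
    · have : (dd G H 5 ([6, 1] : List ℕ) : ℝ) = 0 := by rw [f2]; ring
      exact_mod_cast this
  apply U_eq_of_dd G H hc
  intro m t ht
  rcases lt_or_ge m 3 with h4 | h4
  · exact hfew m (by omega) t
  · rcases lt_or_ge m 7 with h5 | h5
    · have h6 : m = 3 ∨ m = 4 ∨ m = 5 ∨ m = 6 := by omega
      rcases h6 with rfl | rfl | rfl | rfl
      · exact h3all t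
      · exact h4all t
      · exact h5all t
      · exact h6all t
    · exact hbig m h5 t

theorem case_small7 (q : ℝ) (hq : 1 < q) (G : E → Sym2 V) (H : E' → Sym2 V')
    (hn : Fintype.card V ≤ 5 ∨ (Simple G ∧ Fintype.card V ≤ 7))
    (h : ∀ x y : ℝ, B q G x y = B q H x y) : U G = U H := by
  by_cases h7 : Fintype.card V = 7
  · exact case_seven q hq G H h7 (by
      rcases hn with h5 | ⟨hG, _⟩
      · omega
      · exact hG) h
  · exact case_small q hq G H (by
      rcases hn with h5 | ⟨hG, h8⟩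
      · exact Or.inl h5
      · exact Or.inr ⟨hG, by omega⟩) h

end Seven

end Pool.Agent.Lib.QDichromate
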